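import Pool.Agent.Lib.MP_305fdd_al.Fr.N.C.Stm2
import Pool.Agent.Lib.MP_305fdd_al.Fr.N.I_bij

/-!
# MP_305fdd_al, F_r project, section N: the count of `cnt` in terms of the slice
-/

set_option autoImplicit false

namespace Pool.Agent.FrNC

open Pool.Agent.FrN Pool.Agent.F2Ch Pool.Agent.F2RF Pool.Agent.F2TF

/-- two homomorphisms from `OO` with the same traces agree on the image of `BB 2 T` -/
private theorem cb_agree {b : ℕ} {Γ K F κ : Type} [Group Γ] [Field K] [Field F] [Field κ]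
    [Algebra (ZMod 2) K] [Algebra (ZMod 2) F] [Algebra (ZMod 2) κ] [Algebra K F] {T : Γ → K}
    {ρ : Γ →* Matrix.SpecialLinearGroup (Fin 2) F} (hH : HB 2 b Γ K F T ρ)
    (φ φ' : OO 2 ρ →ₐ[ZMod 2] κ) (s s' : Γ →* Matrix.SpecialLinearGroup (Fin 2) κ)
    (hs : ∀ h i j, φ ⟨(ρ h).1 i j, mem_OO ρ h i j⟩ = (s h).1 i j)
    (hs' : ∀ h i j, φ' ⟨(ρ h).1 i j, mem_OO ρ h i j⟩ = (s' h).1 i j)
    (htr : ∀ h, (s h).1.trace = (s' h).1.trace) (x : K) (hx : x ∈ BB 2 T) :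
    ∃ h : algebraMap K F x ∈ OO 2 ρ, φ ⟨_, h⟩ = φ' ⟨_, h⟩ := by
  refine Algebra.adjoin_induction (p := fun x _ => ∃ h : algebraMap K F x ∈ OO 2 ρ,
    φ ⟨_, h⟩ = φ' ⟨_, h⟩) ?_ ?_ ?_ ?_ hx
  · rintro x ⟨h, rfl⟩
    have e1 : algebraMap K F (T h) = (ρ h).1 0 0 + (ρ h).1 1 1 := by
      rw [← hH.tr h, Matrix.trace_fin_two]
    have hm : algebraMap K F (T h) ∈ OO 2 ρ := by
      rw [e1]
      exact (OO 2 ρ).add_mem (mem_OO ρ h 0 0) (mem_OO ρ h 1 1)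
    refine ⟨hm, ?_⟩
    have e2 : (⟨_, hm⟩ : OO 2 ρ) = ⟨(ρ h).1 0 0, mem_OO ρ h 0 0⟩ + ⟨(ρ h).1 1 1, mem_OO ρ h 1 1⟩ :=
      Subtype.ext e1
    rw [e2, map_add, map_add, hs, hs, hs', hs', ← Matrix.trace_fin_two, ← Matrix.trace_fin_two]
    exact htr h
  · intro r
    have e1 : algebraMap K F (algebraMap (ZMod 2) K r) = algebraMap (ZMod 2) F r := by
      have : (algebraMap K F).comp (algebraMap (ZMod 2) K) = algebraMap (ZMod 2) F :=
        Subsingleton.elim _ _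
      exact congrArg (fun f : ZMod 2 →+* F => f r) this
    have hm : algebraMap K F (algebraMap (ZMod 2) K r) ∈ OO 2 ρ := by
      rw [e1]
      exact (OO 2 ρ).algebraMap_mem r
    refine ⟨hm, ?_⟩
    have e2 : (⟨_, hm⟩ : OO 2 ρ) = algebraMap (ZMod 2) (OO 2 ρ) r := Subtype.ext e1
    rw [e2, AlgHom.commutes, AlgHom.commutes]
  · rintro x y _ _ ⟨h1, e1⟩ ⟨h2, e2⟩
    have e : algebraMap K F (x + y) = algebraMap K F x + algebraMap K F y := map_add _ _ _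
    have hm : algebraMap K F (x + y) ∈ OO 2 ρ := by
      rw [e]
      exact (OO 2 ρ).add_mem h1 h2
    refine ⟨hm, ?_⟩
    have e3 : (⟨_, hm⟩ : OO 2 ρ) = ⟨_, h1⟩ + ⟨_, h2⟩ := Subtype.ext e
    rw [e3, map_add, map_add, e1, e2]
  · rintro x y _ _ ⟨h1, e1⟩ ⟨h2, e2⟩
    have e : algebraMap K F (x * y) = algebraMap K F x * algebraMap K F y := map_mul _ _ _
    have hm : algebraMap K F (x * y) ∈ OO 2 ρ := by
      rw [e]
      exact (OO 2 ρ).mul_mem h1 h2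
    refine ⟨hm, ?_⟩
    have e3 : (⟨_, hm⟩ : OO 2 ρ) = ⟨_, h1⟩ * ⟨_, h2⟩ := Subtype.ext e
    rw [e3, map_mul, map_mul, e1, e2]

theorem p_cb : S_cb := by
  classical
  intro hcnt hpts b Γ K F L _ _ _ _ _ _ _ _ _ T ρ hH ι r g hT hCF hrg hrt y hy hyz k hk
  have hfg : Group.FG Γ := hH.fg
  have hcard : Nat.card (GaloisField 2 k) = 2 ^ k := GaloisField.card 2 k (by omega)
  -- the property
  let P : (Γ →* Matrix.SpecialLinearGroup (Fin 2) (GaloisField 2 k)) → Prop := fun s =>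
    ∃ φ : OO 2 ρ →ₐ[ZMod 2] GaloisField 2 k,
      (∀ h i j, φ ⟨(ρ h).1 i j, mem_OO ρ h i j⟩ = (s h).1 i j) ∧
      ∃ hy : algebraMap K F y ∈ OO 2 ρ, φ ⟨_, hy⟩ ≠ 0
  obtain ⟨e₀, he₀⟩ := p_bij 2 b Γ K F T ρ hH (GaloisField 2 k)
  have h1 : cnt (K := K) ρ y k = Nat.card {s // P s} := by
    unfold cnt
    refine Nat.card_congr (Equiv.subtypeEquiv e₀ fun φ => ?_)
    constructor
    · rintro ⟨h, h0⟩
      exact ⟨φ, fun h i j => (he₀ φ h i j).symm, h, h0⟩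
    · rintro ⟨φ', h', h, h0⟩
      have : e₀ φ' = e₀ φ := by
        ext h i j
        rw [he₀, h']
      rw [e₀.injective this] at h0
      exact ⟨h, h0⟩
  have hinv : ∀ s s' : Γ →* Matrix.SpecialLinearGroup (Fin 2) (GaloisField 2 k),
      ∀ u : Matrix (Fin 2) (Fin 2) (GaloisField 2 k),
      u.det ≠ 0 → (∀ h, u * (s h).1 = (s' h).1 * u) → P s → P s' := by
    rintro s s' u hu hus ⟨φ, hφ, hy', h0⟩
    obtain ⟨φ', hφ'⟩ := hH.pts (GaloisField 2 k) s'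
    have htr : ∀ h, (s h).1.trace = (s' h).1.trace := by
      intro h
      have hinv : u⁻¹ * u = 1 := Matrix.nonsing_inv_mul u (isUnit_iff_ne_zero.2 hu)
      have hinv' : u * u⁻¹ = 1 := Matrix.mul_nonsing_inv u (isUnit_iff_ne_zero.2 hu)
      calc (s h).1.trace = (u⁻¹ * (u * (s h).1)).trace := by
            rw [← Matrix.mul_assoc, hinv, Matrix.one_mul]
        _ = (u⁻¹ * ((s' h).1 * u)).trace := by rw [hus]
        _ = (((s' h).1 * u) * u⁻¹).trace := Matrix.trace_mul_comm _ _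
        _ = (s' h).1.trace := by rw [Matrix.mul_assoc, hinv', Matrix.mul_one]
    obtain ⟨h2, h3⟩ := cb_agree hH φ φ' s s' hφ hφ' htr y y.2
    exact ⟨φ', hφ', h2, by rw [← h3]; exact h0⟩
  have htr0 : ∀ s, P s → (s g).1.trace ≠ 0 := by
    rintro s ⟨φ, hφ, hy', h0⟩ htz
    obtain ⟨z, hz⟩ := hyz
    obtain ⟨h2, _⟩ := cb_agree hH φ φ s s hφ hφ (fun _ => rfl) z z.2
    apply h0
    have e1 : (⟨_, hy'⟩ : OO 2 ρ) =
        (⟨(ρ g).1 0 0, mem_OO ρ g 0 0⟩ + ⟨(ρ g).1 1 1, mem_OO ρ g 1 1⟩) * ⟨_, h2⟩ := by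
      apply Subtype.ext
      change algebraMap K F y = ((ρ g).1 0 0 + (ρ g).1 1 1) * algebraMap K F z
      rw [hz, map_mul, ← hH.tr g, Matrix.trace_fin_two]
    rw [e1, map_mul, map_add, hφ, hφ, ← Matrix.trace_fin_two, htz, zero_mul]
  have h2 := hcnt Γ (GaloisField 2 k) g P hinv htr0
  obtain ⟨e, he⟩ := hpts b Γ K F L T ρ hH ι r g hT hCF hrg hrt y hy (GaloisField 2 k)
  have h3 : ∀ ζ, ζ ⟨(r g).1 1 1, mem_Zw r _ g 1 1⟩ = ((e ζ).1 g).1.trace := by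
    intro ζ
    rw [he ζ g 1 1]
    conv_lhs => rw [(e ζ).2.1]
    simp [cmp]
  have key : ∀ Q : GaloisField 2 k → Prop,
      Nat.card {s // P s ∧ (s g).1 = cmp (s g).1.trace ∧ Q (s g).1.trace} =
      Nat.card {ζ : Zw r (algebraMap K L y)⁻¹ →ₐ[ZMod 2] GaloisField 2 k //
        Q (ζ ⟨(r g).1 1 1, mem_Zw r _ g 1 1⟩)} := by
    intro Q
    refine Nat.card_congr (Equiv.symm ?_)
    refine (Equiv.subtypeEquiv (q := fun s => Q (s.1 g).1.trace) e fun ζ => ?_).trans ?_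
    · rw [h3 ζ]
    · refine (Equiv.subtypeSubtypeEquivSubtypeInter _
        (fun s : Γ →* Matrix.SpecialLinearGroup (Fin 2) (GaloisField 2 k) =>
          Q (s g).1.trace)).trans ?_
      refine Equiv.subtypeEquivRight fun s => ?_
      change (((s g).1 = cmp (s g).1.trace ∧ P s) ∧ Q (s g).1.trace) ↔ _
      tauto
  rw [h1, h2, key, key (fun x => ¬ Sp x), hcard]
  push_cast
  ring

end Pool.Agent.FrNC
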