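import Pool.Agent.Lib.MP_305fdd_al.Fr.N.C.Stm

/-!
# MP_305fdd_al, F_r project, section N: the lower left entry of `ρ g` is not zero

The ring generated by the entries of a representation of a finitely generated group is finitely
generated (`OO_fg`), and the piece `S_cne`.
-/

set_option autoImplicit false

namespace Pool.Agent.FrNC

open Pool.Agent.FrN Pool.Agent.F2Ch Pool.Agent.F2RF Pool.Agent.F2TF

/-- the ring generated by the entries is finitely generated -/
theorem OO_fg {p : ℕ} {Γ F : Type} [Group Γ] [Field F] [Algebra (ZMod p) F]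
    (ρ : Γ →* Matrix.SpecialLinearGroup (Fin 2) F) (hfg : Group.FG Γ) : (OO p ρ).FG := by
  classical
  obtain ⟨S, hS⟩ := (Monoid.fg_def.1 (Group.fg_iff_monoid_fg.1 hfg))
  refine ⟨S.biUnion fun s => (Finset.univ : Finset (Fin 2 × Fin 2)).image
    fun q => (ρ s).1 q.1 q.2, ?_⟩
  set A : Subalgebra (ZMod p) F := Algebra.adjoin (ZMod p)
    ((S.biUnion fun s => (Finset.univ : Finset (Fin 2 × Fin 2)).image
      fun q => (ρ s).1 q.1 q.2 : Finset F) : Set F) with hA
  refine le_antisymm ?_ ?_
  · rw [hA]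
    refine Algebra.adjoin_mono ?_
    intro x hx
    rw [Finset.mem_coe, Finset.mem_biUnion] at hx
    obtain ⟨s, _, hx⟩ := hx
    obtain ⟨q, _, rfl⟩ := Finset.mem_image.1 hx
    exact ⟨s, q.1, q.2, rfl⟩
  · have key : ∀ h : Γ, ∀ i j, (ρ h).1 i j ∈ A := by
      intro h
      have hh : h ∈ Submonoid.closure (S : Set Γ) := by rw [hS]; exact Submonoid.mem_top h
      induction hh using Submonoid.closure_induction with
      | mem x hx =>
        intro i j
        refine Algebra.subset_adjoin ?_
        rw [Finset.mem_coe, Finset.mem_biUnion]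
        exact ⟨x, Finset.mem_coe.1 hx, Finset.mem_image.2 ⟨(i, j), Finset.mem_univ _, rfl⟩⟩
      | one =>
        intro i j
        rw [map_one, Matrix.SpecialLinearGroup.coe_one, Matrix.one_apply]
        split_ifs
        · exact A.one_mem
        · exact A.zero_mem
      | mul x y _ _ hx hy =>
        intro i j
        rw [map_mul, Matrix.SpecialLinearGroup.coe_mul, Matrix.mul_apply]
        exact A.sum_mem fun k _ => A.mul_mem (hx i k) (hy k j)
    refine Algebra.adjoin_le ?_
    rintro x ⟨h, i, j, rfl⟩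
    exact key h i j

theorem p_cne : S_cne := by
  classical
  intro b Γ K F _ _ _ _ _ _ T ρ hH g hT h0
  have hp : Fact (Nat.Prime 2) := ⟨Nat.prime_two⟩
  set O : Subalgebra (ZMod 2) F := OO 2 ρ with hO
  have hft : Algebra.FiniteType (ZMod 2) O := (Subalgebra.fg_iff_finiteType _).1 (OO_fg ρ hH.fg)
  have hjac : IsJacobsonRing O := isJacobsonRing_of_finiteType (A := ZMod 2)
  -- the matrices over `O`
  let M : Γ → Matrix (Fin 2) (Fin 2) O := fun h i j => ⟨(ρ h).1 i j, mem_OO ρ h i j⟩
  have hM1 : M 1 = 1 := by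
    ext i j
    change (ρ 1).1 i j = (((1 : Matrix (Fin 2) (Fin 2) O) i j : O) : F)
    rw [map_one, Matrix.SpecialLinearGroup.coe_one, Matrix.one_apply, Matrix.one_apply]
    split_ifs <;> rfl
  have hMm : ∀ x y, M (x * y) = M x * M y := by
    intro x y
    ext i j
    change (ρ (x * y)).1 i j = (((M x * M y) i j : O) : F)
    rw [map_mul, Matrix.SpecialLinearGroup.coe_mul, Matrix.mul_apply, Matrix.mul_apply,
      Fin.sum_univ_two, Fin.sum_univ_two]
    rfl
  have hMd : ∀ x, (M x).det = 1 := by
    intro x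
    apply Subtype.ext
    rw [Matrix.det_fin_two]
    have h := (ρ x).2
    rw [Matrix.det_fin_two] at h
    exact h
  -- a maximal ideal which does not contain the trace
  set t : O := M g 0 0 + M g 1 1 with ht
  have ht0 : t ≠ 0 := by
    intro h
    have h1 : (ρ g).1.trace = 0 := by
      rw [Matrix.trace_fin_two]
      exact congrArg Subtype.val h
    rw [hH.tr g] at h1
    exact hT ((map_eq_zero (algebraMap K F)).1 h1)
  have h1 : t ∉ (⊥ : Ideal O).jacobson := by
    rw [(isJacobsonRing_iff_prime_eq.1 hjac) ⊥ Ideal.isPrime_bot]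
    simpa using ht0
  rw [Ideal.jacobson, Submodule.mem_sInf] at h1
  push Not at h1
  obtain ⟨m, ⟨_, hm⟩, hmem⟩ := h1
  let Fκ : Field (O ⧸ m) := Ideal.Quotient.field m
  have hft' : Algebra.FiniteType (ZMod 2) (O ⧸ m) := inferInstance
  have hfin : Module.Finite (ZMod 2) (O ⧸ m) := finite_of_finite_type_of_isJacobsonRing (ZMod 2) _
  have hfin' : Finite (O ⧸ m) := Module.finite_of_finite (ZMod 2)
  -- the representation over the residue field
  let s : Γ →* Matrix.SpecialLinearGroup (Fin 2) (O ⧸ m) :=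
    { toFun := fun h => ⟨(M h).map (Ideal.Quotient.mk m), by
        have := RingHom.map_det (Ideal.Quotient.mk m) (M h)
        rw [hMd, map_one] at this
        exact this.symm⟩
      map_one' := by
        apply Subtype.ext
        change (M 1).map _ = 1
        rw [hM1]
        exact Matrix.map_one _ (map_zero _) (map_one _)
      map_mul' := fun x y => by
        apply Subtype.ext
        change (M (x * y)).map _ = (M x).map _ * (M y).map _
        rw [hMm, Matrix.map_mul] }
  have key : ∀ u : Matrix.SpecialLinearGroup (Fin 2) (O ⧸ m),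
      (u.1 * (s g).1 * (u⁻¹).1) 1 0 = 0 := by
    intro u
    obtain ⟨φ, hφ⟩ := hH.pts (O ⧸ m) ((MulAut.conj u).toMonoidHom.comp s)
    have h2 := hφ g 1 0
    have h3 : (⟨(ρ g).1 1 0, mem_OO ρ g 1 0⟩ : OO 2 ρ) = 0 := Subtype.ext h0
    rw [h3, map_zero] at h2
    rw [h2]
    rfl
  have e10 : (s g).1 1 0 = 0 := by
    change Ideal.Quotient.mk m (M g 1 0) = 0
    have h3 : M g 1 0 = 0 := Subtype.ext h0
    rw [h3, map_zero]
  have k1 := key ⟨!![1, 0; 1, 1], by simp [Matrix.det_fin_two]⟩
  have k2 := key ⟨!![0, 1; -1, 0], by simp [Matrix.det_fin_two]⟩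
  rw [Matrix.SpecialLinearGroup.SL2_inv_expl] at k1 k2
  simp only [Matrix.mul_apply, Fin.sum_univ_two, Matrix.of_apply, Matrix.cons_val', Matrix.cons_val_zero,
    Matrix.cons_val_one, Matrix.cons_val_fin_one, e10] at k1 k2
  have hb : (s g).1 0 1 = 0 := by linear_combination -k2
  have had : (s g).1 0 0 - (s g).1 1 1 = 0 := by linear_combination k1 + hb
  have h2 : (2 : O ⧸ m) = 0 := by
    have h4 : ((2 : ℕ) : ZMod 2) = 0 := ZMod.natCast_self 2
    have h3 := congrArg (algebraMap (ZMod 2) (O ⧸ m)) h4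
    rw [map_zero, map_natCast] at h3
    exact_mod_cast h3
  have htm : Ideal.Quotient.mk m t = 0 := by
    rw [ht, map_add]
    change (s g).1 0 0 + (s g).1 1 1 = 0
    linear_combination had + (s g).1 1 1 * h2
  exact hmem (Ideal.Quotient.eq_zero_iff_mem.1 htm)

end Pool.Agent.FrNC
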