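import Pool.Agent.Lib.MP_305fdd_al.Fr.N.C.Stm

/-!
# MP_305fdd_al, F_r project, section N: counting representations with a companion matrix at `g`
-/

set_option autoImplicit false

namespace Pool.Agent.FrNC

open Pool.Agent.FrN Pool.Agent.F2Ch Pool.Agent.F2RF Pool.Agent.F2TF

/-- homomorphisms from a finitely generated group to a finite group -/
theorem cnt_fin (G Q : Type) [Group G] [Group Q] [Finite Q] [hG : Group.FG G] :
    Finite (G →* Q) := by
  obtain ⟨S, hS⟩ := hG.out
  refine Finite.of_injective (fun f : G →* Q => fun x : S => f x) ?_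
  intro f f' h
  refine MonoidHom.eq_of_eqOn_dense hS ?_
  intro x hx
  exact congrFun h ⟨x, hx⟩

section
variable {κ : Type} [Field κ]

/-- every matrix of determinant one with nonzero trace `t` is conjugate to the companion matrix -/
theorem cnt_conj [CharP κ 2] (m : Matrix.SpecialLinearGroup (Fin 2) κ) (ht : m.1.trace ≠ 0) :
    ∃ u : Matrix (Fin 2) (Fin 2) κ, u.det ≠ 0 ∧ u * cmp m.1.trace = m.1 * u := by
  have h2 : (2 : κ) = 0 := CharTwo.two_eq_zero
  have hd : m.1 0 0 * m.1 1 1 - m.1 0 1 * m.1 1 0 = 1 := by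
    rw [← Matrix.det_fin_two]; exact m.2
  have key : ∀ x y : κ, x * (m.1 1 0 * x + m.1 1 1 * y) - y * (m.1 0 0 * x + m.1 0 1 * y) ≠ 0 →
      ∃ u : Matrix (Fin 2) (Fin 2) κ, u.det ≠ 0 ∧ u * cmp m.1.trace = m.1 * u := by
    intro x y h
    refine ⟨!![x, m.1 0 0 * x + m.1 0 1 * y; y, m.1 1 0 * x + m.1 1 1 * y], ?_, ?_⟩
    · rw [Matrix.det_fin_two]
      simp only [Matrix.of_apply, Matrix.cons_val_zero, Matrix.cons_val_one,
        Matrix.cons_val', Matrix.empty_val', Matrix.cons_val_fin_one]
      intro h0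
      apply h
      linear_combination h0
    · rw [Matrix.trace_fin_two]
      ext i j
      fin_cases i <;> fin_cases j
      · simp [cmp, Matrix.mul_apply, Fin.sum_univ_two]
      · simp [cmp, Matrix.mul_apply, Fin.sum_univ_two]
        linear_combination (x) * h2 + x * hd
      · simp [cmp, Matrix.mul_apply, Fin.sum_univ_two]
      · simp [cmp, Matrix.mul_apply, Fin.sum_univ_two]
        linear_combination (y) * h2 + y * hd
  by_cases hc : m.1 1 0 = 0
  · by_cases hb : m.1 0 1 = 0
    · refine key 1 1 ?_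
      intro h
      apply ht
      rw [Matrix.trace_fin_two]
      linear_combination h + (m.1 0 0 : κ) * h2 - hc + hb
    · refine key 0 1 ?_
      simpa using hb
  · refine key 1 0 ?_
    simpa using hc

/-- conjugation of a representation by an invertible matrix -/
noncomputable def cnt_cj {Γ : Type} [Group Γ] (u : Matrix (Fin 2) (Fin 2) κ) (hu : u.det ≠ 0)
    (s : Γ →* Matrix.SpecialLinearGroup (Fin 2) κ) : Γ →* Matrix.SpecialLinearGroup (Fin 2) κ where
  toFun h := ⟨u * (s h).1 * u⁻¹, by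
    rw [Matrix.det_mul, Matrix.det_mul, (s h).2, mul_one, ← Matrix.det_mul,
      Matrix.mul_nonsing_inv u (isUnit_iff_ne_zero.2 hu), Matrix.det_one]⟩
  map_one' := by
    apply Subtype.ext
    simp [Matrix.mul_nonsing_inv u (isUnit_iff_ne_zero.2 hu)]
  map_mul' a b := by
    apply Subtype.ext
    have h1 := Matrix.nonsing_inv_mul u (isUnit_iff_ne_zero.2 hu)
    have h2 : u * ((s a).1 * (s b).1) * u⁻¹ = u * (s a).1 * u⁻¹ * (u * (s b).1 * u⁻¹) := by
      calc u * ((s a).1 * (s b).1) * u⁻¹ = u * (s a).1 * 1 * ((s b).1 * u⁻¹) := by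
            rw [mul_one]; simp only [mul_assoc]
        _ = u * (s a).1 * (u⁻¹ * u) * ((s b).1 * u⁻¹) := by rw [h1]
        _ = _ := by simp only [mul_assoc]
    rw [map_mul]
    exact h2

theorem cnt_cj_val {Γ : Type} [Group Γ] (u : Matrix (Fin 2) (Fin 2) κ) (hu : u.det ≠ 0)
    (s : Γ →* Matrix.SpecialLinearGroup (Fin 2) κ) (h : Γ) :
    (cnt_cj u hu s h).1 = u * (s h).1 * u⁻¹ := rfl

theorem cnt_cj_mul {Γ : Type} [Group Γ] (u : Matrix (Fin 2) (Fin 2) κ) (hu : u.det ≠ 0)
    (s : Γ →* Matrix.SpecialLinearGroup (Fin 2) κ) (h : Γ) :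
    u * (s h).1 = (cnt_cj u hu s h).1 * u := by
  rw [cnt_cj_val, mul_assoc, Matrix.nonsing_inv_mul u (isUnit_iff_ne_zero.2 hu), mul_one]

end

section
variable {κ : Type} [Field κ] [Fintype κ] [DecidableEq κ]

/-- the number of pairs with a given product -/
theorem cnt_pairs (e : κ) : (∑ b : κ, ∑ c : κ, (if b * c = e then (1 : ℤ) else 0)) =
    (if e = 0 then (Fintype.card κ : ℤ) else 0) + (Fintype.card κ - 1) := by
  rw [← Finset.add_sum_erase Finset.univ _ (Finset.mem_univ (0 : κ))]
  congr 1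
  · by_cases he : e = 0
    · simp [he]
    · simp [he, Ne.symm he]
  · have h1 : ∀ b ∈ Finset.univ.erase (0 : κ), (∑ c : κ, (if b * c = e then (1 : ℤ) else 0)) = 1 := by
      intro b hb
      have hb0 : b ≠ 0 := Finset.ne_of_mem_erase hb
      have h2 : ∀ c : κ, (if b * c = e then (1 : ℤ) else 0) = if c = e / b then 1 else 0 := by
        intro c
        congr 1
        rw [eq_div_iff hb0, mul_comm b c]
      simp_rw [h2]
      simp
    rw [Finset.sum_congr rfl h1, Finset.sum_const, Finset.card_erase_of_mem (Finset.mem_univ _),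
      Finset.card_univ]
    have := Fintype.card_pos (α := κ)
    simp
    omega

open Classical in
/-- the number of roots of `X ^ 2 + t X + 1` -/
theorem cnt_roots [CharP κ 2] (t : κ) (ht : t ≠ 0) :
    (∑ a : κ, (if a ^ 2 + t * a + 1 = 0 then (1 : ℤ) else 0)) = if Sp t then 2 else 0 := by
  have h2 : (2 : κ) = 0 := CharTwo.two_eq_zero
  by_cases hs : Sp t
  · rw [if_pos hs]
    obtain ⟨x, hx⟩ := hs
    have h1 : ∀ a : κ, a ^ 2 + t * a + 1 = 0 ↔ a ∈ ({x, x + t} : Finset κ) := by
      intro a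
      rw [Finset.mem_insert, Finset.mem_singleton]
      have h3 : a ^ 2 + t * a + 1 = (a - x) * (a - (x + t)) := by
        linear_combination (-1 : κ) * hx + (a * x + a * t + 1) * h2
      rw [h3, mul_eq_zero, sub_eq_zero, sub_eq_zero]
    simp_rw [h1]
    rw [Finset.sum_ite_mem, Finset.univ_inter, Finset.sum_const,
      Finset.card_pair (by intro h; exact ht (left_eq_add.1 h))]
    norm_num
  · rw [if_neg hs]
    refine Finset.sum_eq_zero ?_
    intro a _
    rw [if_neg]
    intro h
    exact hs ⟨a, h⟩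

open Classical in
/-- the number of matrices of determinant one with given trace -/
theorem cnt_sl [CharP κ 2] (t : κ) (ht : t ≠ 0) :
    ((Finset.univ.filter fun m : Matrix.SpecialLinearGroup (Fin 2) κ => m.1.trace = t).card : ℤ) =
      Fintype.card κ * (Fintype.card κ + (if Sp t then 1 else -1)) := by
  have h2 : (2 : κ) = 0 := CharTwo.two_eq_zero
  have h1 : (Finset.univ.filter fun m : Matrix.SpecialLinearGroup (Fin 2) κ =>
      m.1.trace = t).card = (Finset.univ.filter fun v : κ × κ × κ =>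
        v.2.1 * v.2.2 = v.1 ^ 2 + t * v.1 + 1).card := by
    refine Finset.card_bij (fun m _ => (m.1 0 0, m.1 0 1, m.1 1 0)) ?_ ?_ ?_
    · intro m hm
      rw [Finset.mem_filter] at hm ⊢
      refine ⟨Finset.mem_univ _, ?_⟩
      have hd : m.1 0 0 * m.1 1 1 - m.1 0 1 * m.1 1 0 = 1 := by
        rw [← Matrix.det_fin_two]; exact m.2
      have ht' : m.1 0 0 + m.1 1 1 = t := by rw [← Matrix.trace_fin_two]; exact hm.2
      change m.1 0 1 * m.1 1 0 = m.1 0 0 ^ 2 + t * m.1 0 0 + 1
      rw [← ht']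
      linear_combination (-1 : κ) * hd + (-(m.1 0 0) ^ 2 - 1) * h2
    · intro m hm m' hm' h
      rw [Finset.mem_filter] at hm hm'
      have h00 : m.1 0 0 = m'.1 0 0 := congrArg Prod.fst h
      have h01 : m.1 0 1 = m'.1 0 1 := congrArg (fun z => z.2.1) h
      have h10 : m.1 1 0 = m'.1 1 0 := congrArg (fun z => z.2.2) h
      have h11 : m.1 1 1 = m'.1 1 1 := by
        have e1 : m.1 0 0 + m.1 1 1 = t := by rw [← Matrix.trace_fin_two]; exact hm.2
        have e2 : m'.1 0 0 + m'.1 1 1 = t := by rw [← Matrix.trace_fin_two]; exact hm'.2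
        rw [← e2, h00] at e1
        exact add_left_cancel e1
      apply Subtype.ext
      ext i j
      fin_cases i <;> fin_cases j
      exacts [h00, h01, h10, h11]
    · rintro ⟨a, b, c⟩ hv
      rw [Finset.mem_filter] at hv
      have hv2 : b * c = a ^ 2 + t * a + 1 := hv.2
      have hdet : (!![a, b; c, a + t] : Matrix (Fin 2) (Fin 2) κ).det = 1 := by
        rw [Matrix.det_fin_two]
        simp only [Matrix.of_apply, Matrix.cons_val_zero, Matrix.cons_val_one,
          Matrix.cons_val', Matrix.empty_val', Matrix.cons_val_fin_one]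
        linear_combination (-1 : κ) * hv2 - h2
      have htrace : (!![a, b; c, a + t] : Matrix (Fin 2) (Fin 2) κ).trace = t := by
        rw [Matrix.trace_fin_two]
        change a + (a + t) = t
        linear_combination a * h2
      exact ⟨(⟨_, hdet⟩ : Matrix.SpecialLinearGroup (Fin 2) κ),
        Finset.mem_filter.2 ⟨Finset.mem_univ _, htrace⟩, rfl⟩
  rw [h1, Finset.card_filter, Nat.cast_sum, Fintype.sum_prod_type]
  simp_rw [Fintype.sum_prod_type, Nat.cast_ite, Nat.cast_one, Nat.cast_zero, cnt_pairs]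
  rw [Finset.sum_add_distrib, Finset.sum_const, Finset.card_univ]
  have h3 : ∀ a : κ, (if a ^ 2 + t * a + 1 = 0 then (Fintype.card κ : ℤ) else 0) =
      Fintype.card κ * (if a ^ 2 + t * a + 1 = 0 then 1 else 0) := by
    intro a; split_ifs <;> simp
  simp_rw [h3]
  rw [← Finset.mul_sum, cnt_roots t ht, nsmul_eq_mul]
  split_ifs <;> ring

end

theorem p_cnt : S_cnt := by
  classical
  intro Γ κ _ _ _ _ _ g P hP htr
  have : Fintype κ := Fintype.ofFinite κ
  have : Finite (Γ →* Matrix.SpecialLinearGroup (Fin 2) κ) := cnt_fin _ _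
  have : Fintype (Γ →* Matrix.SpecialLinearGroup (Fin 2) κ) := Fintype.ofFinite _
  -- the number of representations with a given companion matrix
  let A : κ → ℕ := fun t => (Finset.univ.filter fun s : Γ →* Matrix.SpecialLinearGroup (Fin 2) κ =>
    P s ∧ (s g).1 = cmp t).card
  have hcmp : ∀ t : κ, (cmp t).trace = t := by
    intro t; rw [Matrix.trace_fin_two]; simp [cmp]
  have hA0 : A 0 = 0 := by
    refine Finset.card_eq_zero.2 (Finset.filter_eq_empty_iff.2 ?_)
    rintro s _ ⟨h1, h2⟩
    exact htr s h1 (by rw [h2, hcmp])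
  -- conjugation
  have hB : ∀ m : Matrix.SpecialLinearGroup (Fin 2) κ, m.1.trace ≠ 0 →
      (Finset.univ.filter fun s : Γ →* Matrix.SpecialLinearGroup (Fin 2) κ =>
        P s ∧ s g = m).card = A m.1.trace := by
    intro m hm
    obtain ⟨u, hu, hum⟩ := cnt_conj m hm
    have hu' : (u⁻¹).det ≠ 0 := by
      rw [Matrix.det_nonsing_inv, Ring.inverse_eq_inv']
      exact inv_ne_zero hu
    have hui := Matrix.nonsing_inv_mul u (isUnit_iff_ne_zero.2 hu)
    have hiu := Matrix.mul_nonsing_inv u (isUnit_iff_ne_zero.2 hu)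
    have hii : (u⁻¹)⁻¹ = u := Matrix.nonsing_inv_nonsing_inv u (isUnit_iff_ne_zero.2 hu)
    refine Finset.card_bij' (fun s _ => cnt_cj u⁻¹ hu' s) (fun s _ => cnt_cj u hu s) ?_ ?_ ?_ ?_
    · intro s hs
      rw [Finset.mem_filter] at hs ⊢
      refine ⟨Finset.mem_univ _, hP s _ u⁻¹ hu' (cnt_cj_mul u⁻¹ hu' s) hs.2.1, ?_⟩
      rw [cnt_cj_val, hs.2.2, hii, mul_assoc, ← hum, ← mul_assoc, hui, one_mul]
    · intro s hs
      rw [Finset.mem_filter] at hs ⊢
      refine ⟨Finset.mem_univ _, hP s _ u hu (cnt_cj_mul u hu s) hs.2.1, ?_⟩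
      apply Subtype.ext
      rw [cnt_cj_val, hs.2.2, hum, mul_assoc, hiu, mul_one]
    · intro s _
      ext1 h
      apply Subtype.ext
      rw [cnt_cj_val, cnt_cj_val, hii]
      calc u * (u⁻¹ * (s h).1 * u) * u⁻¹ = (u * u⁻¹) * (s h).1 * (u * u⁻¹) := by
            simp only [mul_assoc]
        _ = (s h).1 := by rw [hiu, one_mul, mul_one]
    · intro s _
      ext1 h
      apply Subtype.ext
      rw [cnt_cj_val, cnt_cj_val, hii]
      calc u⁻¹ * (u * (s h).1 * u⁻¹) * u = (u⁻¹ * u) * (s h).1 * (u⁻¹ * u) := by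
            simp only [mul_assoc]
        _ = (s h).1 := by rw [hui, one_mul, mul_one]
  -- the left side
  have hL : (Nat.card {s // P s} : ℤ) = ∑ t : κ,
      (Fintype.card κ * (Fintype.card κ + (if Sp t then 1 else -1)) * A t : ℤ) := by
    rw [Nat.card_eq_fintype_card, Fintype.card_subtype,
      Finset.card_eq_sum_card_fiberwise (f := fun s => s g)
        (t := (Finset.univ : Finset (Matrix.SpecialLinearGroup (Fin 2) κ)))
        (fun _ _ => Finset.mem_coe.2 (Finset.mem_univ _)),
      ← Finset.sum_fiberwise_of_maps_to (g := fun m : Matrix.SpecialLinearGroup (Fin 2) κ =>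
        m.1.trace) (t := (Finset.univ : Finset κ)) (fun _ _ => Finset.mem_univ _), Nat.cast_sum]
    refine Finset.sum_congr rfl fun t _ => ?_
    by_cases ht : t = 0
    · subst ht
      rw [hA0, Nat.cast_zero, mul_zero, Nat.cast_eq_zero]
      refine Finset.sum_eq_zero fun m hm => ?_
      rw [Finset.mem_filter] at hm
      refine Finset.card_eq_zero.2 (Finset.filter_eq_empty_iff.2 ?_)
      intro s hs h
      rw [Finset.mem_filter] at hs
      exact htr s hs.2 (by rw [h]; exact hm.2)
    · rw [← cnt_sl t ht]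
      have h1 : ∀ m ∈ Finset.univ.filter (fun m : Matrix.SpecialLinearGroup (Fin 2) κ =>
          m.1.trace = t), (Finset.filter (fun s => s g = m) (Finset.univ.filter fun s => P s)).card
          = A t := by
        intro m hm
        rw [Finset.mem_filter] at hm
        rw [Finset.filter_filter, hB m (by rw [hm.2]; exact ht), hm.2]
      rw [Finset.sum_congr rfl h1, Finset.sum_const, smul_eq_mul, Nat.cast_mul]
  -- the right side
  have hR : ∀ Q : κ → Prop, (Nat.card {s : Γ →* Matrix.SpecialLinearGroup (Fin 2) κ //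
      P s ∧ (s g).1 = cmp (s g).1.trace ∧ Q (s g).1.trace} : ℤ) =
      ∑ t : κ, if Q t then (A t : ℤ) else 0 := by
    intro Q
    rw [Nat.card_eq_fintype_card, Fintype.card_subtype,
      Finset.card_eq_sum_card_fiberwise (f := fun s => (s g).1.trace)
        (t := (Finset.univ : Finset κ)) (fun _ _ => Finset.mem_coe.2 (Finset.mem_univ _)),
      Nat.cast_sum]
    refine Finset.sum_congr rfl fun t _ => ?_
    rw [Finset.filter_filter]
    by_cases hQ : Q t
    · rw [if_pos hQ]
      congr 2
      ext s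
      rw [Finset.mem_filter, Finset.mem_filter]
      refine and_congr_right fun _ => ?_
      constructor
      · rintro ⟨⟨h1, h2, h3⟩, h4⟩
        exact ⟨h1, by rw [← h4]; exact h2⟩
      · rintro ⟨h1, h2⟩
        have h3 : (s g).1.trace = t := by rw [h2, hcmp]
        exact ⟨⟨h1, by rw [h3]; exact h2, by rw [h3]; exact hQ⟩, h3⟩
    · rw [if_neg hQ, Nat.cast_eq_zero]
      refine Finset.card_eq_zero.2 (Finset.filter_eq_empty_iff.2 ?_)
      rintro s _ ⟨⟨_, _, h3⟩, h4⟩
      rw [h4] at h3
      exact hQ h3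
  rw [hL, hR (fun t => Sp t), hR (fun t => ¬ Sp t), Nat.card_eq_fintype_card, Finset.mul_sum,
    Finset.mul_sum, ← Finset.sum_add_distrib]
  refine Finset.sum_congr rfl fun t _ => ?_
  by_cases hs : Sp t
  · rw [if_pos hs, if_pos hs, if_neg (not_not.2 hs)]
    ring
  · rw [if_neg hs, if_neg hs, if_pos hs]
    ring

end Pool.Agent.FrNC
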