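import Pool.Agent.Lib.MP_305fdd_al.Fr.N.C.Stm
import Pool.Agent.Lib.MP_305fdd_al.Fr.N.J_pbex
import Pool.Agent.Lib.MP_305fdd_al.F2.Ch.B2

/-!
# MP_305fdd_al, F_r project, section N, part C: the piece dim (length of a monomial `p`-basis)
-/

set_option autoImplicit false

namespace Pool.Agent.FrNC

open Pool.Agent.FrN Pool.Agent.F2Ch Pool.Agent.F2RF Pool.Agent.F2TF

/-- a family which spans `K` over the subfield of `p`-th powers is not shorter than a `p`-basis -/
private theorem dim_span {p : ℕ} [Fact p.Prime] {K : Type} [Field K] [CharP K p] {ι : Type}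
    [Fintype ι] {b : ι → K} {ρ : ι → K → K} (h : IsPB p b ρ) (i0 : ι) {N : ℕ} (w : Fin N → K)
    (hw : ∀ x : K, ∃ a : Fin N → K, x = ∑ j, a j ^ p * w j) : Fintype.card ι ≤ N := by
  classical
  by_contra hlt
  push Not at hlt
  have hP : IsPinv p (ρ i0) := by
    have hfrob : ∀ x y : K, (x + y) ^ p = x ^ p + y ^ p := fun x y => add_pow_char x y p
    constructor
    · intro x y
      have e : x + y = ∑ i, (ρ i x + ρ i y) ^ p * b i := by
        conv_lhs => rw [← h.repr x, ← h.repr y, ← Finset.sum_add_distrib]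
        refine Finset.sum_congr rfl fun i _ => ?_
        rw [hfrob, add_mul]
      conv_lhs => rw [e]
      rw [h.uniq]
    · intro a x
      have e : a ^ p * x = ∑ i, (a * ρ i x) ^ p * b i := by
        conv_lhs => rw [← h.repr x, Finset.mul_sum]
        refine Finset.sum_congr rfl fun i _ => ?_
        rw [mul_pow, mul_assoc]
      conv_lhs => rw [e]
      rw [h.uniq]
  obtain ⟨g, hg, hg0⟩ := p_B2 p K ι b ρ h N w hlt (ρ i0) hP
  obtain ⟨a, ha⟩ := hw (g⁻¹ * b i0)
  have h1 := hg0 a
  rw [← ha, ← mul_assoc, mul_inv_cancel₀ hg, one_mul] at h1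
  have h2 := h.uniq (fun i => if i = i0 then 1 else 0) i0
  have h3 : ∑ j, (fun i => if i = i0 then (1 : K) else 0) j ^ p * b j = b i0 := by
    have hp : p ≠ 0 := (Fact.out : p.Prime).ne_zero
    rw [Finset.sum_eq_single i0]
    · simp
    · intro j _ hj
      simp [hj, hp]
    · simp
  rw [h3] at h2
  rw [h1] at h2
  simp at h2

/-- two families as in `IsPB` -/
private theorem dim_le {p : ℕ} [Fact p.Prime] {K : Type} [Field K] [CharP K p] {ι ι' : Type}
    [Fintype ι] [Fintype ι'] {b : ι → K} {ρ : ι → K → K} (h : IsPB p b ρ) (i0 : ι)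
    {b' : ι' → K} {ρ' : ι' → K → K} (h' : IsPB p b' ρ') : Fintype.card ι ≤ Fintype.card ι' := by
  classical
  let e := Fintype.equivFin ι'
  refine dim_span h i0 (fun i : Fin (Fintype.card ι') => b' (e.symm i)) ?_
  intro x
  refine ⟨fun i => ρ' (e.symm i) x, ?_⟩
  conv_lhs => rw [← h'.repr x]
  exact (Equiv.sum_comp e.symm (fun α => ρ' α x ^ p * b' α)).symm

theorem p_dim : S_dim := by
  classical
  intro p _ K _ _ B hfg hB n d t π hM hn
  have hchK : CharP K p := charP_of_injective_algebraMap (algebraMap (ZMod p) K).injective p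
  obtain ⟨m, g, hg⟩ := pbex_frac p K B hfg hB
  obtain ⟨d', b, ρ, hd, hb⟩ := t_B4 p (ZMod p) K m g hg
  have hdn : d' = n := by
    have h1 : (d' : Cardinal) = n := hd.symm.trans hn
    exact_mod_cast h1
  subst hdn
  have hp : p.Prime := Fact.out
  have : NeZero p := ⟨hp.ne_zero⟩
  have h1 := dim_le hM.pb (fun _ => (0 : Fin p)) hb
  have h2 := dim_le hb ⟨0, pow_pos hp.pos d'⟩ hM.pb
  have h3 : p ^ d = p ^ d' := by
    have h4 := le_antisymm h1 h2
    rw [Fintype.card_fun, Fintype.card_fin, Fintype.card_fin, Fintype.card_fin] at h4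
    exact h4
  exact Nat.pow_right_injective hp.two_le h3

end Pool.Agent.FrNC
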