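import Pool.Agent.Lib.MP_305fdd_al.Fr.N.C.Stm2

/-!
# MP_305fdd_al, F_r project, section N, part C: piece `ext`
-/

set_option autoImplicit false

namespace Pool.Agent.FrNC

open Pool.Agent.FrN Pool.Agent.F2Ch Pool.Agent.F2RF Pool.Agent.F2TF

section

variable {Γ F : Type} [Group Γ] [Field F] (ρ : Γ →* Matrix.SpecialLinearGroup (Fin 2) F) (g : Γ)

/-- the inverse of the change of basis -/
private def Pi : Matrix (Fin 2) (Fin 2) F :=
  !![1, -((ρ g).1 0 0 / (ρ g).1 1 0); 0, ((ρ g).1 1 0)⁻¹]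

variable {ρ g}

private theorem P_Pi (hc : (ρ g).1 1 0 ≠ 0) : Pm ρ g * Pi ρ g = 1 := by
  ext i j
  fin_cases i <;> fin_cases j
  · simp [Pm, Pi, Matrix.mul_apply, Fin.sum_univ_two]
  · simp [Pm, Pi, Matrix.mul_apply, Fin.sum_univ_two]
    field_simp
    ring
  · simp [Pm, Pi, Matrix.mul_apply, Fin.sum_univ_two]
  · simp [Pm, Pi, Matrix.mul_apply, Fin.sum_univ_two]
    field_simp

private theorem Pi_P (hc : (ρ g).1 1 0 ≠ 0) : Pi ρ g * Pm ρ g = 1 :=
  mul_eq_one_comm.1 (P_Pi hc)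

/-- the conjugate representation -/
private def Mc (ρ : Γ →* Matrix.SpecialLinearGroup (Fin 2) F) (g h : Γ) :
    Matrix (Fin 2) (Fin 2) F := Pi ρ g * (ρ h).1 * Pm ρ g

private theorem Mc_one (hc : (ρ g).1 1 0 ≠ 0) : Mc ρ g 1 = 1 := by
  have h1 : (ρ 1).1 = 1 := by rw [map_one]; rfl
  rw [Mc, h1, mul_one, Pi_P hc]

private theorem Mc_mul (hc : (ρ g).1 1 0 ≠ 0) (h h' : Γ) :
    Mc ρ g (h * h') = Mc ρ g h * Mc ρ g h' := by
  have h1 : (ρ (h * h')).1 = (ρ h).1 * (ρ h').1 := by rw [map_mul]; rfl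
  rw [Mc, Mc, Mc, h1]
  calc Pi ρ g * ((ρ h).1 * (ρ h').1) * Pm ρ g
      = Pi ρ g * (ρ h).1 * 1 * ((ρ h').1 * Pm ρ g) := by
        simp only [mul_assoc, one_mul]
    _ = Pi ρ g * (ρ h).1 * (Pm ρ g * Pi ρ g) * ((ρ h').1 * Pm ρ g) := by rw [P_Pi hc]
    _ = _ := by simp only [mul_assoc]

private theorem Mc_det (hc : (ρ g).1 1 0 ≠ 0) (h : Γ) : (Mc ρ g h).det = 1 := by
  have h1 : (Pi ρ g).det * (Pm ρ g).det = 1 := by
    rw [← Matrix.det_mul, Pi_P hc, Matrix.det_one]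
  have h2 : (ρ h).1.det = 1 := (ρ h).2
  rw [Mc, Matrix.det_mul, Matrix.det_mul, h2, mul_one, h1]

private theorem Mc_trace (hc : (ρ g).1 1 0 ≠ 0) (h : Γ) :
    (Mc ρ g h).trace = (ρ h).1.trace := by
  rw [Mc, Matrix.trace_mul_comm, ← mul_assoc, P_Pi hc, one_mul]

private theorem P_Mc (hc : (ρ g).1 1 0 ≠ 0) (h : Γ) :
    Pm ρ g * Mc ρ g h = (ρ h).1 * Pm ρ g := by
  rw [Mc, ← mul_assoc, ← mul_assoc, P_Pi hc, one_mul]

private theorem P_cmp [CharP F 2] :
    Pm ρ g * cmp (ρ g).1.trace = (ρ g).1 * Pm ρ g := by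
  have h2 : (2 : F) = 0 := CharTwo.two_eq_zero
  have hdet : (ρ g).1 0 0 * (ρ g).1 1 1 - (ρ g).1 0 1 * (ρ g).1 1 0 = 1 := by
    rw [← Matrix.det_fin_two]; exact (ρ g).2
  ext i j
  rw [Matrix.mul_apply, Matrix.mul_apply, Fin.sum_univ_two, Fin.sum_univ_two,
    Matrix.trace_fin_two]
  fin_cases i <;> fin_cases j
  · simp [Pm, cmp]
  · simp [Pm, cmp]
    linear_combination hdet + h2
  · simp [Pm, cmp]
  · simp [Pm, cmp]
    ring

private theorem Mc_g [CharP F 2] (hc : (ρ g).1 1 0 ≠ 0) :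
    Mc ρ g g = cmp (ρ g).1.trace := by
  rw [Mc, mul_assoc, ← P_cmp, ← mul_assoc, Pi_P hc, one_mul]

end

section

variable {Γ K F : Type} [Group Γ] [Field K] [Field F] [Algebra K F]
  (ρ : Γ →* Matrix.SpecialLinearGroup (Fin 2) F) (g : Γ)

/-- the field generated by the entries -/
private def LL (K : Type) [Field K] [Algebra K F] (ρ : Γ →* Matrix.SpecialLinearGroup (Fin 2) F)
    (g : Γ) : IntermediateField K F :=
  IntermediateField.adjoin K {x | ∃ h i j, x = Mc ρ g h i j}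

private theorem mem_LL (h : Γ) (i j : Fin 2) : Mc ρ g h i j ∈ LL K ρ g :=
  IntermediateField.subset_adjoin _ _ ⟨h, i, j, rfl⟩

/-- the representation over the field `L` -/
private def rr (hc : (ρ g).1 1 0 ≠ 0) : Γ →* Matrix.SpecialLinearGroup (Fin 2) (LL K ρ g) where
  toFun h := ⟨Matrix.of fun i j => ⟨Mc ρ g h i j, mem_LL ρ g h i j⟩, by
    apply Subtype.ext
    rw [Matrix.det_fin_two]
    have h1 := Mc_det hc h
    rw [Matrix.det_fin_two] at h1
    exact h1⟩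
  map_one' := by
    apply Subtype.ext
    ext i j
    change Mc ρ g 1 i j = (((1 : Matrix (Fin 2) (Fin 2) (LL K ρ g)) i j : LL K ρ g) : F)
    rw [Mc_one hc, Matrix.one_apply, Matrix.one_apply]
    split_ifs <;> rfl
  map_mul' h h' := by
    apply Subtype.ext
    ext i j
    change Mc ρ g (h * h') i j = ((((Matrix.of fun i j => (⟨Mc ρ g h i j, mem_LL ρ g h i j⟩ :
      LL K ρ g)) * (Matrix.of fun i j => (⟨Mc ρ g h' i j, mem_LL ρ g h' i j⟩ : LL K ρ g)) :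
        Matrix (Fin 2) (Fin 2) (LL K ρ g)) i j : LL K ρ g) : F)
    rw [Mc_mul hc, Matrix.mul_apply, Matrix.mul_apply, Fin.sum_univ_two, Fin.sum_univ_two]
    rfl

private theorem rr_coe (hc : (ρ g).1 1 0 ≠ 0) (h : Γ) (i j : Fin 2) :
    (((rr (K := K) ρ g hc h).1 i j : LL K ρ g) : F) = Mc ρ g h i j := rfl

end

theorem p_ext : S_ext := by
  intro b Γ K F _ _ _ _ _ _ T ρ hB g hT hc
  have hcF : CharP F 2 := charP_of_injective_algebraMap (algebraMap (ZMod 2) F).injective 2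
  have hmap : ∀ h, (rr (K := K) ρ g hc h).1.map (LL K ρ g).val = Mc ρ g h := by
    intro h
    ext i j
    rfl
  have htr : ∀ h, (rr (K := K) ρ g hc h).1.trace = algebraMap K (LL K ρ g) (T h) := by
    intro h
    apply Subtype.ext
    have h1 : (((rr (K := K) ρ g hc h).1.trace : LL K ρ g) : F) = (Mc ρ g h).trace := by
      rw [Matrix.trace_fin_two, Matrix.trace_fin_two]
      rfl
    rw [h1, Mc_trace hc, hB.tr]
    rfl
  refine ⟨LL K ρ g, inferInstance,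
    ((algebraMap K (LL K ρ g)).comp (algebraMap (ZMod 2) K)).toAlgebra, inferInstance,
    (LL K ρ g).val, rr ρ g hc, ⟨hc, ?_, ?_⟩, ?_, htr⟩
  · intro h
    have h1 := hmap h
    rw [← P_Mc hc]
    exact congrArg _ h1
  · apply IntermediateField.lift_injective (LL K ρ g)
    rw [IntermediateField.lift_adjoin, IntermediateField.lift_top]
    have h1 : (Subtype.val '' {x : LL K ρ g | ∃ h i j, x = (rr (K := K) ρ g hc h).1 i j}) =
        {x | ∃ h i j, x = Mc ρ g h i j} := by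
      ext x
      constructor
      · rintro ⟨y, ⟨h, i, j, rfl⟩, rfl⟩
        exact ⟨h, i, j, rfl⟩
      · rintro ⟨h, i, j, rfl⟩
        exact ⟨_, ⟨h, i, j, rfl⟩, rfl⟩
    rw [h1]
    rfl
  · have h1 := Mc_g (ρ := ρ) (g := g) hc
    rw [hB.tr] at h1
    ext i j
    change Mc ρ g g i j = ((cmp (algebraMap K (LL K ρ g) (T g)) i j : LL K ρ g) : F)
    rw [h1]
    fin_cases i <;> fin_cases j <;> rfl

end Pool.Agent.FrNC
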