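import Pool.Agent.Lib.MP_305fdd_al.Fr.N.C.Stm2

/-!
# MP_305fdd_al, F_r project, section N: piece [FrN C fgz]
-/

set_option autoImplicit false

namespace Pool.Agent.FrNC

open Pool.Agent.FrN Pool.Agent.F2Ch Pool.Agent.F2RF Pool.Agent.F2TF

private lemma fgz_fg {Γ L : Type} [Group Γ] [Field L] [Algebra (ZMod 2) L]
    (r : Γ →* Matrix.SpecialLinearGroup (Fin 2) L) (hΓ : Group.FG Γ) (w : L) : (Zw r w).FG := by
  obtain ⟨S, hS⟩ := (Group.fg_iff_monoid_fg.1 hΓ).fg_top
  rw [Subalgebra.fg_def]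
  refine ⟨(fun q : Γ × Fin 2 × Fin 2 => (r q.1).1 q.2.1 q.2.2) ''
    ((S : Set Γ) ×ˢ (Set.univ : Set (Fin 2 × Fin 2))) ∪ {w}, ?_, ?_⟩
  · exact ((S.finite_toSet.prod Set.finite_univ).image _).union (Set.finite_singleton _)
  · apply le_antisymm
    · apply Algebra.adjoin_mono
      rintro x (⟨q, -, rfl⟩ | hx)
      · exact Or.inl ⟨q.1, q.2.1, q.2.2, rfl⟩
      · exact Or.inr hx
    · apply Algebra.adjoin_le
      set A := Algebra.adjoin (ZMod 2) ((fun q : Γ × Fin 2 × Fin 2 => (r q.1).1 q.2.1 q.2.2) ''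
        ((S : Set Γ) ×ˢ (Set.univ : Set (Fin 2 × Fin 2))) ∪ {w}) with hA
      have key : ∀ h : Γ, ∀ i j, (r h).1 i j ∈ A := by
        intro h
        have hh : h ∈ Submonoid.closure (S : Set Γ) := by rw [hS]; trivial
        induction hh using Submonoid.closure_induction with
        | mem x hx =>
          intro i j
          exact Algebra.subset_adjoin (Or.inl ⟨(x, i, j), ⟨hx, trivial⟩, rfl⟩)
        | one =>
          intro i j
          rw [map_one]
          by_cases hij : i = j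
          · subst hij
            simp only [Matrix.SpecialLinearGroup.coe_one, Matrix.one_apply_eq]
            exact A.one_mem
          · simp only [Matrix.SpecialLinearGroup.coe_one, Matrix.one_apply_ne hij]
            exact A.zero_mem
        | mul x y _ _ hx hy =>
          intro i j
          rw [map_mul]
          simp only [Matrix.SpecialLinearGroup.coe_mul, Matrix.mul_apply]
          exact A.sum_mem (fun k _ => A.mul_mem (hx i k) (hy k j))
      rintro x (⟨h, i, j, rfl⟩ | hx)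
      · exact key h i j
      · exact Algebra.subset_adjoin (Or.inr hx)

theorem p_fgz : S_fgz := by
  intro Γ K L _ _ _ _ _ _ T r hΓ hB htr hgen w
  refine ⟨fgz_fg r hΓ w, ?_⟩
  have hBB : ∀ z ∈ BB 2 T, algebraMap K L z ∈ Zw r w := by
    intro z hz
    unfold BB at hz
    induction hz using Algebra.adjoin_induction with
    | mem x hx =>
      obtain ⟨h, rfl⟩ := hx
      rw [← htr h, Matrix.trace_fin_two]
      exact (Zw r w).add_mem (mem_Zw r w h 0 0) (mem_Zw r w h 1 1)
    | algebraMap c =>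
      have e : (algebraMap K L).comp (algebraMap (ZMod 2) K) = algebraMap (ZMod 2) L :=
        RingHom.ext_zmod _ _
      have e2 : algebraMap K L (algebraMap (ZMod 2) K c) = algebraMap (ZMod 2) L c := by
        rw [← e]; rfl
      rw [e2]
      exact (Zw r w).algebraMap_mem c
    | add x y _ _ hx hy => rw [map_add]; exact (Zw r w).add_mem hx hy
    | mul x y _ _ hx hy => rw [map_mul]; exact (Zw r w).mul_mem hx hy
  intro l
  have hl : l ∈ IntermediateField.adjoin K {x | ∃ h i j, x = (r h).1 i j} := by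
    rw [hgen]; trivial
  induction hl using IntermediateField.adjoin_induction with
  | mem x hx =>
    obtain ⟨h, i, j, rfl⟩ := hx
    exact ⟨_, mem_Zw r w h i j, 1, (Zw r w).one_mem, one_ne_zero, mul_one _⟩
  | algebraMap k =>
    obtain ⟨a, ha, b, hb, hb0, hab⟩ := hB k
    refine ⟨_, hBB a ha, _, hBB b hb, ?_, ?_⟩
    · simpa using hb0
    · rw [← map_mul, hab]
  | add x y _ _ hx hy =>
    obtain ⟨a, ha, b, hb, hb0, hab⟩ := hx
    obtain ⟨c, hc, d, hd, hd0, hcd⟩ := hy
    refine ⟨a * d + c * b, (Zw r w).add_mem ((Zw r w).mul_mem ha hd) ((Zw r w).mul_mem hc hb),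
      b * d, (Zw r w).mul_mem hb hd, mul_ne_zero hb0 hd0, ?_⟩
    rw [← hab, ← hcd]; ring
  | inv x _ hx =>
    obtain ⟨a, ha, b, hb, hb0, hab⟩ := hx
    by_cases hx0 : x = 0
    · subst hx0
      exact ⟨0, (Zw r w).zero_mem, 1, (Zw r w).one_mem, one_ne_zero, by simp⟩
    · refine ⟨b, hb, a, ha, ?_, ?_⟩
      · rw [← hab]; exact mul_ne_zero hx0 hb0
      · rw [← hab, inv_mul_cancel_left₀ hx0]
  | mul x y _ _ hx hy =>
    obtain ⟨a, ha, b, hb, hb0, hab⟩ := hx
    obtain ⟨c, hc, d, hd, hd0, hcd⟩ := hy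
    refine ⟨a * c, (Zw r w).mul_mem ha hc, b * d, (Zw r w).mul_mem hb hd,
      mul_ne_zero hb0 hd0, ?_⟩
    rw [← hab, ← hcd]; ring

end Pool.Agent.FrNC
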