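import Pool.Agent.Lib.MP_305fdd_al.Fr.N.C.Stm

/-!
# MP_305fdd_al, F_r project, section N, part C: [FrN C irr]
-/

set_option autoImplicit false

namespace Pool.Agent.FrNC

open Pool.Agent.FrN Matrix

section trd

/-- transcendence degree of a field algebraic over a subring with few generators -/
theorem trd_le {k K E : Type} [Field k] [Field K] [Field E] [Algebra k K] [Algebra k E]
    (S : Set E) (j : K →ₐ[k] E) (hj : ∀ x, IsAlgebraic (Algebra.adjoin k S) (j x)) :
    Algebra.trdeg k K ≤ Cardinal.mk S := by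
  let P := Algebra.adjoin k S
  let M := Subalgebra.algebraicClosure P E
  let f : K →ₐ[k] M :=
    { toFun := fun x => ⟨j x, hj x⟩
      map_one' := Subtype.ext (map_one j)
      map_mul' := fun x y => Subtype.ext (map_mul j x y)
      map_zero' := Subtype.ext (map_zero j)
      map_add' := fun x y => Subtype.ext (map_add j x y)
      commutes' := fun c => Subtype.ext (j.commutes c) }
  have hf : Function.Injective f := by
    intro x y h
    exact j.toRingHom.injective (congrArg Subtype.val h)
  have h1 : Algebra.trdeg k K ≤ Algebra.trdeg k M := trdeg_le_of_injective f hf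
  have hfs : FaithfulSMul P M := by
    rw [faithfulSMul_iff_algebraMap_injective]
    intro x y h
    have h1 : ((algebraMap P M x : M) : E) = (algebraMap P M y : M) := by rw [h]
    exact Subtype.ext h1
  have h2 : Algebra.trdeg k P + Algebra.trdeg P M = Algebra.trdeg k M := trdeg_add_eq k P
  have h3 : Algebra.trdeg P M = 0 := trdeg_eq_zero
  have h4 : Algebra.trdeg k P ≤ Cardinal.mk S := by
    have h5 : Function.Surjective (MvPolynomial.aeval (R := k)
        (fun s : S => (⟨s.1, Algebra.subset_adjoin s.2⟩ : P))) := by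
      rw [← AlgHom.range_eq_top, ← Algebra.adjoin_range_eq_range_aeval, eq_top_iff]
      rintro ⟨x, hx⟩ _
      refine Algebra.adjoin_induction (p := fun x hx => (⟨x, hx⟩ : P) ∈ Algebra.adjoin k
        (Set.range fun s : S => (⟨s.1, Algebra.subset_adjoin s.2⟩ : P))) ?_ ?_ ?_ ?_ hx
      · intro x hx
        exact Algebra.subset_adjoin ⟨⟨x, hx⟩, rfl⟩
      · intro c
        exact Subalgebra.algebraMap_mem _ c
      · intro x y _ _ h h'
        exact add_mem h h'
      · intro x y _ _ h h'
        exact mul_mem h h'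
    refine (trdeg_le_of_surjective _ h5).trans ?_
    rw [MvPolynomial.trdeg_of_isDomain]
    simp
  calc _ ≤ _ := h1
    _ = _ := h2.symm
    _ ≤ _ := by rw [h3, add_zero]; exact h4

end trd

section grp

/-- few elements generate the abelianisation up to torsion -/
theorem grp_gen (Γ : Type) [Group Γ] [Group.FG Γ] (b : ℕ)
    (hb : Nat.card (Γ →* Multiplicative (ZMod 2)) = 2 ^ b) :
    ∃ (n : ℕ) (a : Fin n → Γ) (N : ℕ), n ≤ b ∧ N ≠ 0 ∧ ∀ (C : Type) [CommGroup C] (χ : Γ →* C)
      (h : Γ), χ h ^ N ∈ Subgroup.closure (Set.range fun i => χ (a i)) := by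
  classical
  have hsurj : Function.Surjective (Abelianization.of : Γ →* Abelianization Γ) :=
    QuotientGroup.mk'_surjective _
  have hfg : AddGroup.FG (Additive (Abelianization Γ)) := by
    have : Group.FG (Abelianization Γ) := Group.fg_of_surjective hsurj
    exact GroupFG.iff_add_fg.1 this
  obtain ⟨n, ι, _, p, hp, e, ⟨E⟩⟩ := AddCommGroup.equiv_free_prod_directSum_zmod
    (Additive (Abelianization Γ))
  have hfT : Finite (DirectSum ι fun i => ZMod (p i ^ e i)) := by
    have : ∀ i, NeZero (p i ^ e i) := fun i => ⟨pow_ne_zero _ (hp i).ne_zero⟩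
    exact Finite.of_equiv _ (DirectSum.addEquivProd fun i => ZMod (p i ^ e i)).symm.toEquiv
  let ab : Γ → Additive (Abelianization Γ) := fun h => Additive.ofMul (Abelianization.of h)
  have habm : ∀ h h', ab (h * h') = ab h + ab h' := fun h h' => by
    change Additive.ofMul (Abelianization.of (h * h')) = _
    rw [map_mul]
    rfl
  have hab : ∀ x, ∃ h, ab h = x := fun x => by
    obtain ⟨h, hh⟩ := hsurj x.toMul
    exact ⟨h, congrArg Additive.ofMul hh⟩
  choose a ha using fun i : Fin n => hab (E.symm (Finsupp.single i 1, 0))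
  refine ⟨n, a, Nat.card (DirectSum ι fun i => ZMod (p i ^ e i)), ?_, Nat.card_ne_zero.2
    ⟨inferInstance, inferInstance⟩, ?_⟩
  · -- rank
    let φ : (Fin n → ZMod 2) → (Γ →* Multiplicative (ZMod 2)) := fun c =>
      MonoidHom.mk' (fun h => Multiplicative.ofAdd (∑ i, c i * (((E (ab h)).1 i : ℤ) : ZMod 2)))
        (fun h h' => by
          rw [← ofAdd_add, ← Finset.sum_add_distrib]
          congr 1
          refine Finset.sum_congr rfl fun i _ => ?_
          rw [habm, map_add, Prod.fst_add, Finsupp.add_apply, Int.cast_add, mul_add])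
    have hφ : Function.Injective φ := by
      intro c c' h
      funext i
      have h1 := DFunLike.congr_fun h (a i)
      have h2 : ∀ c : Fin n → ZMod 2, φ c (a i) = Multiplicative.ofAdd (c i) := by
        intro c
        change Multiplicative.ofAdd (∑ k, c k * (((E (ab (a i))).1 k : ℤ) : ZMod 2)) = _
        rw [ha, AddEquiv.apply_symm_apply]
        congr 1
        rw [Finset.sum_eq_single i]
        · simp
        · intro k _ hk
          rw [Finsupp.single_apply, if_neg (Ne.symm hk)]
          simp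
        · intro h
          exact absurd (Finset.mem_univ i) h
      rw [h2, h2] at h1
      exact Multiplicative.ofAdd.injective h1
    have hfin : Finite (Γ →* Multiplicative (ZMod 2)) :=
      Nat.finite_of_card_ne_zero (by rw [hb]; positivity)
    have h1 := Nat.card_le_card_of_injective φ hφ
    rw [hb] at h1
    have h2 : Nat.card (Fin n → ZMod 2) = 2 ^ n := by simp
    rw [h2] at h1
    exact (Nat.pow_le_pow_iff_right (by norm_num)).1 h1
  · intro C _ χ h
    let f : Additive (Abelianization Γ) →+ Additive C := (Abelianization.lift χ).toAdditive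
    have hf : ∀ h, f (ab h) = Additive.ofMul (χ h) := by
      intro h
      change Additive.ofMul (Abelianization.lift χ (Abelianization.of h)) = _
      rw [Abelianization.lift_apply_of]
    have h1 : Nat.card (DirectSum ι fun i => ZMod (p i ^ e i)) • ab h =
        ∑ i, (Nat.card (DirectSum ι fun i => ZMod (p i ^ e i)) * (E (ab h)).1 i) • ab (a i) := by
      apply E.injective
      rw [map_nsmul, map_sum]
      simp only [map_zsmul, ha, AddEquiv.apply_symm_apply]
      ext1
      · rw [Prod.smul_fst, Prod.fst_sum]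
        ext k
        simp [Finsupp.single_apply]
      · rw [Prod.smul_snd, Prod.snd_sum]
        simp [card_nsmul_eq_zero']
    have h2 := congrArg f h1
    rw [map_nsmul, map_sum] at h2
    simp only [map_zsmul, hf] at h2
    have h3 : χ h ^ Nat.card (DirectSum ι fun i => ZMod (p i ^ e i)) =
        ∏ i, χ (a i) ^ ((Nat.card (DirectSum ι fun i => ZMod (p i ^ e i)) : ℤ) *
          (E (ab h)).1 i) := by
      apply Additive.ofMul.injective
      rw [ofMul_pow, h2, ofMul_prod]
      rfl
    rw [h3]
    exact Subgroup.prod_mem _ fun i _ => Subgroup.zpow_mem _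
      (Subgroup.subset_closure (Set.mem_range_self i)) _

end grp

section main

variable {Γ K F L : Type} [Group Γ] [Field K] [Field F] [Field L] [Algebra (ZMod 2) K]
    [Algebra (ZMod 2) F] [Algebra K F] [Algebra K L]

/-- a common eigenvector is impossible -/
theorem no_eig (b : ℕ) (T : Γ → K)
    (ρ : Γ →* Matrix.SpecialLinearGroup (Fin 2) F) (hb2 : 2 ≤ b) (H : HB 2 b Γ K F T ρ)
    (r : Γ →* Matrix.SpecialLinearGroup (Fin 2) L)
    (htr : ∀ h, (r h).1.trace = algebraMap K L (T h)) (E : Type) [Field E] [Algebra L E]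
    (ψ : E) (hψ : ∀ h, algebraMap L E ((r h).1 1 0) + algebraMap L E ((r h).1 1 1) * ψ =
      (algebraMap L E ((r h).1 0 0) + algebraMap L E ((r h).1 0 1) * ψ) * ψ) : False := by
  classical
  have := H.fg
  obtain ⟨n, a, N, hn, hN, hcl⟩ := grp_gen Γ b H.ab
  have hdet : ∀ h, algebraMap L E ((r h).1 0 0) * algebraMap L E ((r h).1 1 1) -
      algebraMap L E ((r h).1 0 1) * algebraMap L E ((r h).1 1 0) = 1 := by
    intro h
    have := (r h).2
    rw [Matrix.det_fin_two] at this
    rw [← map_mul, ← map_mul, ← map_sub, this, map_one]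
  let c : Γ → E := fun h => algebraMap L E ((r h).1 0 0) + algebraMap L E ((r h).1 0 1) * ψ
  have hcm : ∀ h h', c (h * h') = c h * c h' := by
    intro h h'
    have e0 : (r (h * h')).1 0 0 = (r h).1 0 0 * (r h').1 0 0 + (r h).1 0 1 * (r h').1 1 0 := by
      rw [map_mul]
      change ((r h).1 * (r h').1) 0 0 = _
      rw [Matrix.mul_apply, Fin.sum_univ_two]
    have e1 : (r (h * h')).1 0 1 = (r h).1 0 0 * (r h').1 0 1 + (r h).1 0 1 * (r h').1 1 1 := by
      rw [map_mul]
      change ((r h).1 * (r h').1) 0 1 = _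
      rw [Matrix.mul_apply, Fin.sum_univ_two]
    simp only [c]
    rw [e0, e1, map_add, map_add, map_mul, map_mul, map_mul, map_mul]
    linear_combination (algebraMap L E ((r h).1 0 1)) * hψ h'
  have hc1 : c 1 = 1 := by
    simp only [c]
    rw [map_one]
    change algebraMap L E ((1 : Matrix (Fin 2) (Fin 2) L) 0 0) +
      algebraMap L E ((1 : Matrix (Fin 2) (Fin 2) L) 0 1) * ψ = 1
    simp
  let χ₀ : Γ →* E := ⟨⟨c, hc1⟩, hcm⟩
  let χ : Γ →* Eˣ := χ₀.toHomUnits
  have hχ : ∀ h, (χ h : E) = c h := fun h => rfl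
  have htc : ∀ h, algebraMap L E (algebraMap K L (T h)) = (χ h : E) + (χ h : E)⁻¹ := by
    intro h
    have h1 : (χ h : E) ≠ 0 := Units.ne_zero _
    rw [hχ] at h1 ⊢
    rw [← htr, Matrix.trace_fin_two, map_add]
    field_simp
    simp only [c]
    linear_combination hdet h + (algebraMap L E ((r h).1 0 1)) * hψ h
  let _ : Algebra (ZMod 2) E := ((algebraMap L E).comp
    ((algebraMap K L).comp (algebraMap (ZMod 2) K))).toAlgebra
  let j : K →ₐ[ZMod 2] E :=
    { (algebraMap L E).comp (algebraMap K L) with commutes' := fun c => rfl }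
  have hj : ∀ h, j (T h) = (χ h : E) + (χ h : E)⁻¹ := htc
  let S : Set E := Set.range fun i => (χ (a i) : E)
  have hSalg : ∀ u ∈ Subgroup.closure (Set.range fun i => χ (a i)),
      IsAlgebraic (Algebra.adjoin (ZMod 2) S) (u : E) := by
    intro u hu
    induction hu using Subgroup.closure_induction with
    | mem u hu =>
      obtain ⟨i, rfl⟩ := hu
      exact isAlgebraic_algebraMap (⟨(χ (a i) : E), Algebra.subset_adjoin ⟨i, rfl⟩⟩ :
        Algebra.adjoin (ZMod 2) S)
    | one => exact isAlgebraic_one
    | mul u v _ _ h1 h2 => rw [Units.val_mul]; exact h1.mul h2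
    | inv u _ h1 => rw [Units.val_inv_eq_inv_val]; exact h1.inv
  have hχalg : ∀ h, IsAlgebraic (Algebra.adjoin (ZMod 2) S) (χ h : E) := by
    intro h
    have h1 := hSalg _ (hcl Eˣ χ h)
    rw [Units.val_pow_eq_pow_val] at h1
    exact h1.of_pow (Nat.pos_of_ne_zero hN)
  have hTalg : ∀ h, IsAlgebraic (Algebra.adjoin (ZMod 2) S) (j (T h)) := by
    intro h
    rw [hj]
    exact (hχalg h).add (hχalg h).inv
  have hBalg : ∀ x ∈ BB 2 T, IsAlgebraic (Algebra.adjoin (ZMod 2) S) (j x) := by
    intro x hx
    induction hx using Algebra.adjoin_induction with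
    | mem x hx =>
      obtain ⟨h, rfl⟩ := hx
      exact hTalg h
    | algebraMap c =>
      rw [j.commutes]
      exact isAlgebraic_algebraMap (algebraMap (ZMod 2) (Algebra.adjoin (ZMod 2) S) c)
    | add x y _ _ h1 h2 => rw [map_add]; exact h1.add h2
    | mul x y _ _ h1 h2 => rw [map_mul]; exact h1.mul h2
  have hKalg : ∀ x, IsAlgebraic (Algebra.adjoin (ZMod 2) S) (j x) := by
    intro x
    obtain ⟨y, hy, z, hz, hz0, hxz⟩ := H.fracK x
    have hjz : j z ≠ 0 := fun h => hz0 (j.toRingHom.injective (by
      rw [map_zero]; exact h))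
    have h1 : j x = j y * (j z)⁻¹ := by
      rw [← hxz, map_mul, mul_assoc, mul_inv_cancel₀ hjz, mul_one]
    rw [h1]
    exact (hBalg y hy).mul (hBalg z hz).inv
  have h1 := trd_le S j hKalg
  have h2 : Cardinal.mk S ≤ (n : Cardinal) := by
    refine Cardinal.mk_range_le.trans ?_
    simp
  have h3 : (3 * b : Cardinal) ≤ ((n + 3 : ℕ) : Cardinal) := by
    rw [← H.trK, Nat.cast_add]
    exact add_le_add (h1.trans h2) le_rfl
  have h4 : 3 * b ≤ n + 3 := by exact_mod_cast h3
  omega

end main

theorem p_irr : S_irr := by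
  intro b Γ K F L _ _ _ _ _ _ _ _ _ T ρ hb2 H r g hTg hg htr
  by_contra hcon
  push Not at hcon
  let t : L := algebraMap K L (T g)
  have ht : t ≠ 0 := fun h => hTg ((algebraMap K L).injective (by rw [map_zero]; exact h))
  have h2 : (2 : L) = 0 := CharTwo.two_eq_zero
  let E := AlgebraicClosure L
  have h2E : (2 : E) = 0 := by
    rw [← map_ofNat (algebraMap L E) 2, h2, map_zero]
  obtain ⟨ψ, hψ⟩ : ∃ ψ : E, ψ ^ 2 + algebraMap L E t * ψ + 1 = 0 := by
    obtain ⟨ψ, hψ⟩ := IsAlgClosed.exists_root
      (Polynomial.X ^ 2 + Polynomial.C (algebraMap L E t) * Polynomial.X + 1 : Polynomial E)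
      (by
        have : (Polynomial.X ^ 2 + Polynomial.C (algebraMap L E t) * Polynomial.X + 1 :
          Polynomial E).degree = 2 := by compute_degree!
        rw [this]
        norm_num)
    refine ⟨ψ, ?_⟩
    simpa [Polynomial.IsRoot.def] using hψ
  let C : E → Γ → E := fun ψ h => algebraMap L E ((r h).1 1 0) +
    algebraMap L E ((r h).1 1 1) * ψ -
      (algebraMap L E ((r h).1 0 0) + algebraMap L E ((r h).1 0 1) * ψ) * ψ
  have hCC : ∀ h, C ψ h * C (ψ + algebraMap L E t) h = 0 := by
    intro h
    have h1 := hcon h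
    rw [QuadraticAlgebra.norm_def] at h1
    simp only [uu] at h1
    have h3 : ((r h).1 0 1 + (r h).1 1 0) ^ 2 + t * ((r h).1 0 1 + (r h).1 1 0) *
        (t * (r h).1 1 0 + ((r h).1 0 0 + (r h).1 1 1)) -
        (t * (r h).1 1 0 + ((r h).1 0 0 + (r h).1 1 1)) ^ 2 = 0 := by
      have h4 : (algebraMap K L) (T g) = t := rfl
      rw [h4] at h1
      field_simp at h1
      linear_combination h1
    have h5 := congrArg (algebraMap L E) h3
    simp only [map_sub, map_add, map_mul, map_pow, map_zero] at h5
    simp only [C]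
    generalize algebraMap L E ((r h).1 0 0) = m00 at *
    generalize algebraMap L E ((r h).1 0 1) = m01 at *
    generalize algebraMap L E ((r h).1 1 0) = m10 at *
    generalize algebraMap L E ((r h).1 1 1) = m11 at *
    generalize algebraMap L E t = s at *
    have e1 : m10 + m11 * ψ - (m00 + m01 * ψ) * ψ =
        (m10 + m01) + ((m00 + m11) + s * m01) * ψ := by
      linear_combination (-m01) * hψ - (m00 * ψ) * h2E
    have hψ' : (ψ + s) ^ 2 + s * (ψ + s) + 1 = 0 := by
      linear_combination hψ + (s * ψ + s ^ 2) * h2E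
    have e2 : m10 + m11 * (ψ + s) - (m00 + m01 * (ψ + s)) * (ψ + s) =
        (m10 + m01) + ((m00 + m11) + s * m01) * (ψ + s) := by
      linear_combination (-m01) * hψ' - (m00 * (ψ + s)) * h2E
    rw [e1, e2]
    linear_combination h5 - s * (m01 - m10) * (m00 + m11) * h2E +
      (m10 + m01) * ((m00 + m11) + s * m01) * ψ * h2E + ((m00 + m11) + s * m01) ^ 2 * hψ
  have hCmul : ∀ ψ : E, ∀ h h', C ψ h = 0 → C ψ h' = 0 → C ψ (h * h') = 0 := by
    intro ψ h h' e e'
    have e0 : ∀ i j, (r (h * h')).1 i j = (r h).1 i 0 * (r h').1 0 j + (r h).1 i 1 *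
        (r h').1 1 j := by
      intro i j
      rw [map_mul]
      change ((r h).1 * (r h').1) i j = _
      rw [Matrix.mul_apply, Fin.sum_univ_two]
    simp only [C] at e e' ⊢
    rw [e0, e0, e0, e0]
    simp only [map_add, map_mul]
    linear_combination (algebraMap L E ((r h').1 0 0) + algebraMap L E ((r h').1 0 1) * ψ) * e +
      (algebraMap L E ((r h).1 1 1) - algebraMap L E ((r h).1 0 1) * ψ) * e'
  have hCinv : ∀ ψ : E, ∀ h, C ψ h = 0 → C ψ h⁻¹ = 0 := by
    intro ψ h e
    have e0 : (r h⁻¹).1 = !![(r h).1 1 1, -(r h).1 0 1; -(r h).1 1 0, (r h).1 0 0] := by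
      rw [map_inv, Matrix.SpecialLinearGroup.SL2_inv_expl]
      rfl
    simp only [C] at e ⊢
    rw [e0]
    simp only [Matrix.of_apply, Matrix.cons_val', Matrix.cons_val_zero, Matrix.cons_val_one,
      Matrix.cons_val_fin_one, map_neg]
    linear_combination (-1 : E) * e
  have hor : (∀ h, C ψ h = 0) ∨ (∀ h, C (ψ + algebraMap L E t) h = 0) := by
    by_contra hno
    push Not at hno
    obtain ⟨⟨x, hx⟩, ⟨y, hy⟩⟩ := hno
    have hx' : C (ψ + algebraMap L E t) x = 0 := (mul_eq_zero.1 (hCC x)).resolve_left hx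
    have hy' : C ψ y = 0 := (mul_eq_zero.1 (hCC y)).resolve_right hy
    rcases mul_eq_zero.1 (hCC (x * y)) with h | h
    · apply hx
      have := hCmul ψ _ _ h (hCinv ψ y hy')
      rwa [mul_inv_cancel_right] at this
    · apply hy
      have := hCmul _ _ _ (hCinv _ x hx') h
      rwa [inv_mul_cancel_left] at this
  rcases hor with h | h
  · exact no_eig b T ρ hb2 H r htr E ψ fun x => sub_eq_zero.1 (h x)
  · exact no_eig b T ρ hb2 H r htr E _ fun x => sub_eq_zero.1 (h x)

end Pool.Agent.FrNC
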