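import Pool.Agent.Lib.MP_305fdd_al.Fr.N.C.Stm2

set_option autoImplicit false

namespace Pool.Agent.FrNC

open QuadraticAlgebra Polynomial

private theorem lin_aux {K E : Type} [Field K] [Field E] [Algebra K E] (ψ τ : E)
    (hψ : IsAlgebraic K ψ) (hτ : Transcendental K τ) (S : Finset ℤ) (c : ℤ → E)
    (hc : ∀ k, c k ∈ IntermediateField.adjoin K {ψ}) (h0 : ∑ k ∈ S, c k * τ ^ k = 0) :
    ∀ k ∈ S, c k = 0 := by
  classical
  have hτ0 : τ ≠ 0 := by
    rintro rfl
    exact hτ isAlgebraic_zero
  have : Algebra.IsAlgebraic K (IntermediateField.adjoin K {ψ}) :=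
    IntermediateField.isAlgebraic_adjoin_simple hψ.isIntegral
  have hτ' : Transcendental (IntermediateField.adjoin K {ψ}) τ := by
    intro h
    exact hτ (h.restrictScalars K)
  obtain ⟨N, hN⟩ : ∃ N : ℕ, ∀ k ∈ S, 0 ≤ k + N := by
    refine ⟨S.sup Int.natAbs, fun k hk => ?_⟩
    have := Finset.le_sup (f := Int.natAbs) hk
    omega
  let P : (IntermediateField.adjoin K {ψ})[X] :=
    ∑ k ∈ S, monomial (k + N).toNat (⟨c k, hc k⟩ : IntermediateField.adjoin K {ψ})
  have hP : aeval τ P = 0 := by
    have h1 : aeval τ P = τ ^ N * ∑ k ∈ S, c k * τ ^ k := by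
      simp only [P]
      rw [map_sum, Finset.mul_sum]
      refine Finset.sum_congr rfl fun k hk => ?_
      rw [aeval_monomial]
      change c k * τ ^ (k + N).toNat = _
      have h2 : τ ^ (k + N).toNat = τ ^ N * τ ^ k := by
        rw [← zpow_natCast, Int.toNat_of_nonneg (hN k hk), zpow_add₀ hτ0, zpow_natCast, mul_comm]
      rw [h2]
      ring
    rw [h1, h0, mul_zero]
  have hP0 : P = 0 := by
    by_contra hne
    exact hτ' ⟨P, hne, hP⟩
  intro k hk
  have h3 := congrArg (fun Q => Q.coeff (k + N).toNat) hP0
  simp only [P, finsetSum_coeff, coeff_monomial, coeff_zero] at h3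
  rw [Finset.sum_eq_single k] at h3
  · rw [if_pos rfl] at h3
    exact congrArg Subtype.val h3
  · intro j hj hjk
    rw [if_neg]
    intro h4
    have h5 := hN j hj
    have h6 := hN k hk
    omega
  · intro h; exact absurd hk h

/-- evaluation of the companion element at a root -/
private def evr {L E : Type} [Field L] [Field E] [Algebra L E] (s : L) (ψ : E)
    (hψ : ψ ^ 2 = algebraMap L E s * ψ + 1) : QA L s →+* E where
  toFun z := algebraMap L E z.re + algebraMap L E z.im * ψ
  map_one' := by simp
  map_zero' := by simp
  map_add' a b := by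
    simp only [QuadraticAlgebra.re_add, QuadraticAlgebra.im_add, map_add]
    ring
  map_mul' a b := by
    simp only [QuadraticAlgebra.re_mul, QuadraticAlgebra.im_mul, map_add, map_mul, map_one]
    linear_combination (- algebraMap L E a.im * algebraMap L E b.im) * hψ

theorem p_lin : S_lin := by
  intro K L _ _ _ _ _ t e ht he Om hOm htr
  classical
  have hs0 : algebraMap K L t ≠ 0 := fun h => ht ((algebraMap K L).injective (by rw [h, map_zero]))
  let E := AlgebraicClosure L
  have h2L : (2 : L) = 0 := CharTwo.two_eq_zero
  have h2 : (2 : E) = 0 := by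
    have := congrArg (algebraMap L E) h2L
    rwa [map_ofNat, map_zero] at this
  obtain ⟨ψ, hψ⟩ : ∃ ψ : E, ψ ^ 2 = algebraMap L E (algebraMap K L t) * ψ + 1 := by
    obtain ⟨ψ, hψ⟩ := IsAlgClosed.exists_root (X ^ 2 + C (algebraMap L E (algebraMap K L t)) * X + C 1 : E[X]) (by
      have : (X ^ 2 + C (algebraMap L E (algebraMap K L t)) * X + C 1 : E[X]).degree = 2 := by
        compute_degree!
      rw [this]; norm_num)
    refine ⟨ψ, ?_⟩
    simp only [IsRoot, eval_add, eval_mul, eval_pow, eval_X, eval_C] at hψ
    linear_combination hψ - (algebraMap L E (algebraMap K L t) * ψ + 1) * h2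
  have hψ' : (ψ + algebraMap L E (algebraMap K L t)) ^ 2 = algebraMap L E (algebraMap K L t) * (ψ + algebraMap L E (algebraMap K L t)) + 1 := by
    linear_combination hψ + (algebraMap L E (algebraMap K L t) * ψ) * h2
  have halg : ∀ φ : E, φ ^ 2 = algebraMap L E (algebraMap K L t) * φ + 1 → IsAlgebraic K φ := by
    intro φ hφ
    refine ⟨X ^ 2 - C t * X - C 1, ?_, ?_⟩
    · intro h
      have := congrArg (fun P => P.coeff 2) h
      simp [coeff_X, coeff_one] at this
    · simp only [map_sub, map_mul, map_pow, aeval_X, aeval_C, map_one]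
      rw [hφ, ← IsScalarTower.algebraMap_apply K L E]
      ring
  -- the key computation for one root
  have key : ∀ φ : E, ∀ hφ : φ ^ 2 = algebraMap L E (algebraMap K L t) * φ + 1,
      Transcendental K (evr (algebraMap K L t) φ hφ (Om : QA L (algebraMap K L t))) := by
    intro φ hφ halgτ
    set τ := evr (algebraMap K L t) φ hφ (Om : QA L (algebraMap K L t)) with hτ
    have hφ' : (φ + algebraMap L E (algebraMap K L t)) ^ 2 = algebraMap L E (algebraMap K L t) * (φ + algebraMap L E (algebraMap K L t)) + 1 := by
      linear_combination hφ + (algebraMap L E (algebraMap K L t) * φ) * h2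
    have h1 : τ * evr (algebraMap K L t) φ hφ (star (Om : QA L (algebraMap K L t))) = algebraMap K E e := by
      rw [hτ, ← map_mul, hOm]
      change algebraMap L E (algebraMap L (QA L (algebraMap K L t)) (algebraMap K L e)).re +
        algebraMap L E (algebraMap L (QA L (algebraMap K L t)) (algebraMap K L e)).im * φ = _
      rw [QuadraticAlgebra.algebraMap_re, QuadraticAlgebra.algebraMap_im, map_zero, zero_mul,
        add_zero, ← IsScalarTower.algebraMap_apply K L E]
    have h3 : τ + evr (algebraMap K L t) φ hφ (star (Om : QA L (algebraMap K L t))) = algebraMap L E ((algebraMap K L t) * (Om : QA L (algebraMap K L t)).im) := by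
      rw [hτ, ← map_add, star_sub]
      change algebraMap L E (algebraMap L (QA L (algebraMap K L t)) ((algebraMap K L t) * (Om : QA L (algebraMap K L t)).im)).re +
        algebraMap L E (algebraMap L (QA L (algebraMap K L t)) ((algebraMap K L t) * (Om : QA L (algebraMap K L t)).im)).im * φ = _
      rw [QuadraticAlgebra.algebraMap_re, QuadraticAlgebra.algebraMap_im, map_zero, zero_mul,
        add_zero]
    have hτ0 : τ ≠ 0 := by
      intro h
      rw [h, zero_mul] at h1
      exact he ((algebraMap K E).injective (by rw [← h1, map_zero]))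
    have h4 : evr (algebraMap K L t) φ hφ (star (Om : QA L (algebraMap K L t))) = algebraMap K E e * τ⁻¹ := by
      rw [← h1, mul_comm τ, mul_assoc, mul_inv_cancel₀ hτ0, mul_one]
    have h5 : IsAlgebraic K (algebraMap L E ((algebraMap K L t) * (Om : QA L (algebraMap K L t)).im)) := by
      rw [← h3, h4]
      exact halgτ.add ((isAlgebraic_algebraMap e).mul halgτ.inv)
    have h6 : IsAlgebraic K ((algebraMap K L t) * (Om : QA L (algebraMap K L t)).im) :=
      (isAlgebraic_algebraMap_iff (algebraMap L E).injective).1 h5
    have h7 : (Om : QA L (algebraMap K L t)).im = (algebraMap K L t)⁻¹ * ((algebraMap K L t) * (Om : QA L (algebraMap K L t)).im) := by field_simp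
    apply htr
    rw [h7]
    exact (isAlgebraic_algebraMap t).inv.mul h6
  have hinj : ∀ v : VV K t, lam t Om v = 0 → v = 0 := by
    intro v hv
    have hlam : lam t Om v = ∑ k ∈ v.coeff.support, io t (v.coeff k) *
        ((Om ^ k : (QA L (algebraMap K L t))ˣ) : QA L (algebraMap K L t)) := by
      have h1 : v = ∑ k ∈ v.coeff.support, AddMonoidAlgebra.single k (v.coeff k) := by
        refine AddMonoidAlgebra.ext ?_
        rw [AddMonoidAlgebra.coeff_sum]
        exact (Finsupp.sum_single v.coeff).symm
      conv_lhs => rw [h1]
      rw [map_sum]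
      exact Finset.sum_congr rfl fun k _ => lam_single t Om k _
    have hev : ∀ φ : E, ∀ hφ : φ ^ 2 = algebraMap L E (algebraMap K L t) * φ + 1, ∀ k ∈ v.coeff.support,
        evr (algebraMap K L t) φ hφ (io t (v.coeff k)) = 0 := by
      intro φ hφ
      refine lin_aux φ (evr (algebraMap K L t) φ hφ (Om : QA L (algebraMap K L t))) (halg φ hφ) (key φ hφ) v.coeff.support
        (fun k => evr (algebraMap K L t) φ hφ (io t (v.coeff k))) (fun k => ?_) ?_
      · change algebraMap L E (algebraMap K L (v.coeff k).re) +
          algebraMap L E (algebraMap K L (v.coeff k).im) * φ ∈ _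
        rw [← IsScalarTower.algebraMap_apply K L E, ← IsScalarTower.algebraMap_apply K L E]
        exact add_mem (IntermediateField.algebraMap_mem _ _) (mul_mem
          (IntermediateField.algebraMap_mem _ _) (IntermediateField.mem_adjoin_simple_self K φ))
      · have h2 := congrArg (evr (algebraMap K L t) φ hφ) hv
        rw [hlam, map_sum, map_zero] at h2
        rw [← h2]
        refine Finset.sum_congr rfl fun k _ => ?_
        rw [map_mul]
        congr 1
        have h3 : (Units.map (evr (algebraMap K L t) φ hφ).toMonoidHom Om) ^ k =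
            Units.map (evr (algebraMap K L t) φ hφ).toMonoidHom (Om ^ k) := (map_zpow _ _ _).symm
        have h4 := congrArg Units.val h3
        rw [Units.val_zpow_eq_zpow_val] at h4
        exact h4
    refine AddMonoidAlgebra.ext (Finsupp.ext fun k => ?_)
    by_cases hk : k ∈ v.coeff.support
    · have h3 := hev ψ hψ k hk
      have h4 := hev (ψ + algebraMap L E (algebraMap K L t)) hψ' k hk
      change algebraMap L E (algebraMap K L (v.coeff k).re) +
          algebraMap L E (algebraMap K L (v.coeff k).im) * ψ = 0 at h3
      change algebraMap L E (algebraMap K L (v.coeff k).re) +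
          algebraMap L E (algebraMap K L (v.coeff k).im) * (ψ + algebraMap L E (algebraMap K L t)) = 0 at h4
      have h5 : algebraMap L E (algebraMap K L (v.coeff k).im) * algebraMap L E (algebraMap K L t) = 0 := by
        linear_combination h4 - h3
      have h6 : algebraMap L E (algebraMap K L (v.coeff k).im) = 0 := by
        refine (mul_eq_zero.1 h5).resolve_right fun h => hs0 ?_
        exact (algebraMap L E).injective (by rw [h, map_zero])
      rw [h6, zero_mul, add_zero] at h3
      have h7 : (v.coeff k).im = 0 := (algebraMap K L).injective ((algebraMap L E).injective (by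
        rw [h6, map_zero, map_zero]))
      have h8 : (v.coeff k).re = 0 := (algebraMap K L).injective ((algebraMap L E).injective (by
        rw [h3, map_zero, map_zero]))
      exact QuadraticAlgebra.ext h8 h7
    · simpa using hk
  intro v w hvw
  have h1 := hinj (v - w) (by rw [map_sub, hvw, sub_self])
  exact sub_eq_zero.1 h1

end Pool.Agent.FrNC
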