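import Pool.Agent.Lib.MP_305fdd_al.Fr.N.C.Stm2

/-!
# MP_305fdd_al, F_r project, section N, part C: proof of [FrN C loc]
-/

set_option autoImplicit false

namespace Pool.Agent.FrNC

open Pool.Agent.FrN Pool.Agent.F2Ch Pool.Agent.F2RF Pool.Agent.F2TF

namespace Loc

variable {K : Type} [Field K] [Algebra (ZMod 2) K]

theorem mem_Bi (B : Subalgebra (ZMod 2) K) (y : K) {b : K} (hb : b ∈ B) : b ∈ Bi B y :=
  Algebra.subset_adjoin (Or.inl hb)

theorem inv_mem_Bi (B : Subalgebra (ZMod 2) K) (y : K) : y⁻¹ ∈ Bi B y :=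
  Algebra.subset_adjoin (Or.inr rfl)

theorem mul_mem {B : Subalgebra (ZMod 2) K} {y : K} (M : Submodule (Bi B y) K) {b x : K}
    (hb : b ∈ B) (hx : x ∈ M) : b * x ∈ M :=
  M.smul_mem (⟨b, mem_Bi B y hb⟩ : Bi B y) hx

theorem inv_mul_mem {B : Subalgebra (ZMod 2) K} {y : K} (M : Submodule (Bi B y) K) {x : K}
    (hx : x ∈ M) : y⁻¹ * x ∈ M :=
  M.smul_mem (⟨y⁻¹, inv_mem_Bi B y⟩ : Bi B y) hx

theorem of_pow_mul {B : Subalgebra (ZMod 2) K} {y : K} (hy : y ≠ 0) (M : Submodule (Bi B y) K)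
    (a : ℕ) {x : K} (hx : y ^ a * x ∈ M) : x ∈ M := by
  induction a with
  | zero => simpa using hx
  | succ a ih =>
    apply ih
    have h := inv_mul_mem M hx
    have e : y⁻¹ * (y ^ (a + 1) * x) = y ^ a * x := by
      rw [pow_succ]
      field_simp
    rwa [e] at h

/-- a `B`-submodule closed under `y⁻¹` -/
def up {B : Subalgebra (ZMod 2) K} (y : K) (Q : Submodule B K)
    (hQ : ∀ x ∈ Q, y⁻¹ * x ∈ Q) : Submodule (Bi B y) K where
  carrier := Q
  zero_mem' := Q.zero_mem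
  add_mem' := fun h h' => Q.add_mem h h'
  smul_mem' := by
    rintro ⟨c, hc⟩ x hx
    change c * x ∈ Q
    induction hc using Algebra.adjoin_induction generalizing x with
    | mem c hc =>
      rcases hc with hc | hc
      · exact Q.smul_mem (⟨c, hc⟩ : B) hx
      · rw [Set.mem_singleton_iff.1 hc]
        exact hQ x hx
    | algebraMap r => exact Q.smul_mem (⟨algebraMap _ K r, B.algebraMap_mem r⟩ : B) hx
    | add c d _ _ h h' =>
      rw [add_mul]
      exact Q.add_mem (h hx) (h' hx)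
    | mul c d _ _ h h' =>
      rw [mul_assoc]
      exact h (h' hx)

theorem mem_up {B : Subalgebra (ZMod 2) K} (y : K) (Q : Submodule B K)
    (hQ : ∀ x ∈ Q, y⁻¹ * x ∈ Q) (x : K) : x ∈ up y Q hQ ↔ x ∈ Q := Iff.rfl

/-- a `B[1 / y]`-submodule as a `B`-submodule -/
def dn {B : Subalgebra (ZMod 2) K} {y : K} (M : Submodule (Bi B y) K) : Submodule B K where
  carrier := M
  zero_mem' := M.zero_mem
  add_mem' := fun h h' => M.add_mem h h'
  smul_mem' := by
    rintro ⟨c, hc⟩ x hx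
    exact mul_mem M hc hx

theorem mem_dn {B : Subalgebra (ZMod 2) K} {y : K} (M : Submodule (Bi B y) K) (x : K) :
    x ∈ dn M ↔ x ∈ M := Iff.rfl

theorem mem_loc {B : Subalgebra (ZMod 2) K} (y : B) (M : Submodule B K) (x : K) :
    x ∈ loc y M ↔ ∃ a : ℕ, (y : K) ^ a * x ∈ M := by
  constructor
  · rintro ⟨a, ha⟩
    refine ⟨a, ?_⟩
    have e : y ^ a • x = (y : K) ^ a * x := by
      rw [Subalgebra.smul_def, SubmonoidClass.coe_pow, smul_eq_mul]
    rwa [e] at ha
  · rintro ⟨a, ha⟩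
    refine ⟨a, ?_⟩
    have e : y ^ a • x = (y : K) ^ a * x := by
      rw [Subalgebra.smul_def, SubmonoidClass.coe_pow, smul_eq_mul]
    rwa [e]

theorem loc_inv {B : Subalgebra (ZMod 2) K} (y : B) (hy : (y : K) ≠ 0) (M : Submodule B K) :
    ∀ x ∈ loc y M, (y : K)⁻¹ * x ∈ loc y M := by
  intro x hx
  obtain ⟨a, ha⟩ := (mem_loc y M x).1 hx
  refine (mem_loc y M _).2 ⟨a + 1, ?_⟩
  have e : (y : K) ^ (a + 1) * ((y : K)⁻¹ * x) = (y : K) ^ a * x := by
    rw [pow_succ]
    field_simp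
  rwa [e]

theorem loc_stb {B : Subalgebra (ZMod 2) K} {Φ : K → K} (hΦ : IsPinv 2 Φ) (y : B)
    (M : Submodule B K) (hM : Stb Φ M) : Stb Φ (loc y M) := by
  intro x hx
  obtain ⟨a, ha⟩ := (mem_loc y M x).1 hx
  refine (mem_loc y M _).2 ⟨a, ?_⟩
  have h1 : (y : K) ^ a * ((y : K) ^ a * x) ∈ M := by
    have := M.smul_mem (y ^ a) ha
    rwa [Subalgebra.smul_def, SubmonoidClass.coe_pow, smul_eq_mul] at this
  have h2 := hM _ h1
  have e : (y : K) ^ a * ((y : K) ^ a * x) = ((y : K) ^ a) ^ 2 * x := by ring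
  rw [e, hΦ.pow_mul] at h2
  exact h2

theorem le_loc {B : Subalgebra (ZMod 2) K} (y : B) (M : Submodule B K) : M ≤ loc y M := by
  intro x hx
  exact (mem_loc y M x).2 ⟨0, by simpa using hx⟩

theorem up_ne_bot {B : Subalgebra (ZMod 2) K} (y : K) (Q : Submodule B K)
    (hQ : ∀ x ∈ Q, y⁻¹ * x ∈ Q) (h : Q ≠ ⊥) : up y Q hQ ≠ ⊥ := by
  intro h'
  apply h
  rw [eq_bot_iff]
  intro x hx
  have : x ∈ up y Q hQ := hx
  rw [h'] at this
  exact (Submodule.mem_bot _).2 ((Submodule.mem_bot _).1 this)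

theorem dn_ne_bot {B : Subalgebra (ZMod 2) K} {y : K} (M : Submodule (Bi B y) K) (h : M ≠ ⊥) :
    dn M ≠ ⊥ := by
  intro h'
  apply h
  rw [eq_bot_iff]
  intro x hx
  have : x ∈ dn M := hx
  rw [h'] at this
  exact (Submodule.mem_bot _).2 ((Submodule.mem_bot _).1 this)

end Loc

open Loc in
theorem p_loc : S_loc := by
  intro K _ _ B Φ hΦ t ht N hN
  have htK : (t : K) ≠ 0 := fun h => ht (Subtype.ext h)
  obtain ⟨hOm, hFG⟩ := hN t 1 ht (by rw [mul_one])
  -- (2)
  have h2 : ∀ Q : Submodule B K, Q ≠ ⊥ → Stb Φ Q → (∀ x, (t : K) * x ∈ Q → x ∈ Q) →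
      dn (N t) ≤ Q := by
    intro Q hQ hs hd
    have hinv : ∀ x ∈ Q, (t : K)⁻¹ * x ∈ Q := by
      intro x hx
      apply hd
      rwa [mul_inv_cancel_left₀ htK]
    have h := hOm.min (up (t : K) Q hinv) (up_ne_bot _ _ _ hQ) (fun x hx => hs x hx)
    exact fun x hx => h hx
  obtain ⟨s, hs⟩ := hFG
  have hSle : Submodule.span B (s : Set K) ≤ dn (N t) := by
    rw [Submodule.span_le]
    intro x hx
    change x ∈ N t
    rw [← hs]
    exact Submodule.subset_span hx
  refine ⟨dn (N t), Submodule.span B (s : Set K), dn_ne_bot _ hOm.ne, fun x hx => hOm.stb x hx,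
    ⟨s, rfl⟩, ?_, h2, ?_⟩
  · apply le_antisymm
    · have h : N t ≤ up (t : K) (loc t (Submodule.span B (s : Set K))) (loc_inv t htK _) := by
        rw [← hs, Submodule.span_le]
        intro x hx
        exact le_loc t _ (Submodule.subset_span hx)
      exact fun x hx => h hx
    · intro x hx
      obtain ⟨a, ha⟩ := (mem_loc t _ x).1 hx
      exact of_pow_mul htK (N t) a (hSle ha)
  · intro y z hy hyz x
    have hyK : (y : K) ≠ 0 := fun h => hy (Subtype.ext h)
    have hyzK : (y : K) = t * z := by rw [hyz]; rfl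
    obtain ⟨hOy, -⟩ := hN y z hy hyz
    constructor
    · intro hx
      obtain ⟨a, ha⟩ := (mem_loc y _ x).1 hx
      refine of_pow_mul hyK (N y) a ?_
      have h3 : dn (N t) ≤ dn (N y) := by
        refine h2 _ (dn_ne_bot _ hOy.ne) (fun x hx => hOy.stb x hx) ?_
        intro x hx
        have h4 := mul_mem (N y) z.2 (inv_mul_mem (N y) ((mem_dn _ _).1 hx))
        have e : (z : K) * ((y : K)⁻¹ * ((t : K) * x)) = x := by
          have hz : (z : K) ≠ 0 := by
            intro h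
            apply hyK
            rw [hyzK, h, mul_zero]
          rw [hyzK]
          field_simp
        rwa [e] at h4
      exact h3 ha
    · intro hx
      have h := hOy.min (up (y : K) (loc y (dn (N t))) (loc_inv y hyK _))
        (up_ne_bot _ _ _ ?_) ?_
      · exact h hx
      · intro h'
        apply dn_ne_bot _ hOm.ne
        rw [eq_bot_iff, ← h']
        exact le_loc y _
      · exact fun x hx => loc_stb hΦ y _ (fun x hx => hOm.stb x hx) x hx

end Pool.Agent.FrNC
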