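import Pool.Agent.Lib.MP_305fdd_al.Fr.N.C.Stm

/-!
# MP_305fdd_al, F_r project, piece [FrN C pbx]: the 2-basis of `K(x, y)`
-/

set_option autoImplicit false

namespace Pool.Agent.FrNC

open Pool.Agent.F2Ch Pool.Agent.F2RF Polynomial

namespace Pbx

/-- the conic has no point over the rational function field -/
theorem conic {K : Type} [Field K] [CharP K 2] (a e : K) (ha : a ≠ 0) (he : e ≠ 0) :
    ∀ (n : ℕ) (A B : K[X]), B.natDegree < n →
      A ^ 2 + C a * X * A * B + (X ^ 2 + C e) * B ^ 2 = 0 → B = 0 := by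
  intro n
  induction n with
  | zero => intro A B h; omega
  | succ n ih =>
    intro A B hn h
    have h2 : (2 : K) = 0 := CharTwo.two_eq_zero
    have h0 : A.eval 0 ^ 2 + e * B.eval 0 ^ 2 = 0 := by
      have := congrArg (eval 0) h
      simpa using this
    have h1 : a * A.eval 0 * B.eval 0 = 0 := by
      have := congrArg (fun p => eval 0 (derivative p)) h
      simp [derivative_pow] at this
      linear_combination this - (A.eval 0 * (derivative A).eval 0 + e * B.eval 0 * (derivative B).eval 0) * h2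
    have hB0 : B.eval 0 = 0 := by
      by_contra hB
      have hA : A.eval 0 = 0 := by
        rcases mul_eq_zero.1 h1 with h3 | h3
        · exact (mul_eq_zero.1 h3).resolve_left ha
        · exact absurd h3 hB
      rw [hA] at h0
      have : e * B.eval 0 ^ 2 = 0 := by simpa using h0
      exact (mul_ne_zero he (pow_ne_zero 2 hB)) this
    have hA0 : A.eval 0 = 0 := by
      rw [hB0] at h0
      have : A.eval 0 ^ 2 = 0 := by simpa using h0
      exact pow_eq_zero_iff (two_ne_zero) |>.1 this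
    obtain ⟨A1, rfl⟩ : X ∣ A := by rw [X_dvd_iff, coeff_zero_eq_eval_zero]; exact hA0
    obtain ⟨B1, rfl⟩ : X ∣ B := by rw [X_dvd_iff, coeff_zero_eq_eval_zero]; exact hB0
    by_cases hB1 : B1 = 0
    · rw [hB1, mul_zero]
    have hd : B1.natDegree < n := by
      rw [natDegree_X_mul hB1] at hn
      omega
    have h3 : (X : K[X]) ^ 2 * (A1 ^ 2 + C a * X * A1 * B1 + (X ^ 2 + C e) * B1 ^ 2) = 0 := by
      linear_combination h
    have h4 := (mul_eq_zero.1 h3).resolve_left (pow_ne_zero 2 X_ne_zero)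
    exact absurd (ih A1 B1 hd h4) hB1

theorem conic' {K : Type} [Field K] [CharP K 2] (a e : K) (ha : a ≠ 0) (he : e ≠ 0) (A B : K[X])
    (h : A ^ 2 + C a * X * A * B + (X ^ 2 + C e) * B ^ 2 = 0) : A = 0 ∧ B = 0 := by
  have hB := conic a e ha he _ A B (Nat.lt_succ_self _) h
  subst hB
  refine ⟨?_, rfl⟩
  have : A ^ 2 = 0 := by simpa using h
  exact pow_eq_zero_iff (two_ne_zero) |>.1 this

/-- uniqueness for polynomials -/
theorem upoly {K : Type} [Field K] [CharP K 2] {ι : Type} [Fintype ι] (w : ι → K)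
    (hw : ∀ c : ι → K, ∑ i, c i ^ 2 * w i = 0 → ∀ i, c i = 0) (P Q : ι → K[X])
    (h : ∑ i, (P i ^ 2 * C (w i) + Q i ^ 2 * C (w i) * X) = 0) (i : ι) : P i = 0 ∧ Q i = 0 := by
  have : Fact (Nat.Prime 2) := ⟨Nat.prime_two⟩
  have hev : ∀ (R : K[X]) (n : ℕ), (R ^ 2).coeff (2 * n) = R.coeff n ^ 2 := by
    intro R n
    rw [← map_frobenius_expand, coeff_map, mul_comm 2 n, coeff_expand_mul (by norm_num)]
    rfl
  have hod : ∀ (R : K[X]) (n : ℕ), (R ^ 2).coeff (2 * n + 1) = 0 := by
    intro R n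
    rw [← map_frobenius_expand, coeff_map, coeff_expand (by norm_num), if_neg (by omega), map_zero]
  constructor
  · ext n
    have h1 := congrArg (fun p => coeff p (2 * n)) h
    simp only [finsetSum_coeff, coeff_add, coeff_zero] at h1
    have h2 : ∀ j, (P j ^ 2 * C (w j)).coeff (2 * n) + (Q j ^ 2 * C (w j) * X).coeff (2 * n) =
        (P j).coeff n ^ 2 * w j := by
      intro j
      rw [coeff_mul_C, hev]
      have : (Q j ^ 2 * C (w j) * X).coeff (2 * n) = 0 := by
        rcases n with _ | n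
        · simp
        · rw [show 2 * (n + 1) = (2 * n + 1) + 1 by ring, coeff_mul_X, coeff_mul_C, hod, zero_mul]
      rw [this, add_zero]
    rw [Finset.sum_congr rfl fun j _ => h2 j] at h1
    rw [coeff_zero]
    exact hw (fun j => (P j).coeff n) h1 i
  · ext n
    have h1 := congrArg (fun p => coeff p (2 * n + 1)) h
    simp only [finsetSum_coeff, coeff_add, coeff_zero] at h1
    have h2 : ∀ j, (P j ^ 2 * C (w j)).coeff (2 * n + 1) +
        (Q j ^ 2 * C (w j) * X).coeff (2 * n + 1) = (Q j).coeff n ^ 2 * w j := by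
      intro j
      rw [coeff_mul_C, hod, zero_mul, zero_add, coeff_mul_X, coeff_mul_C, hev]
    rw [Finset.sum_congr rfl fun j _ => h2 j] at h1
    rw [coeff_zero]
    exact hw (fun j => (Q j).coeff n) h1 i


section
variable {K L : Type} [Field K] [Field L] [Algebra K L] [CharP L 2] {ι : Type} [Fintype ι]

/-- the elements with coordinates -/
def Ss (w : ι → K) (y : L) : Set L :=
  {f | ∃ U V : ι → L, ∑ i, (U i ^ 2 + V i ^ 2 * y) * algebraMap K L (w i) = f}

theorem Ss_add (w : ι → K) (y : L) {f g : L} (hf : f ∈ Ss w y) (hg : g ∈ Ss w y) :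
    f + g ∈ Ss w y := by
  obtain ⟨U, V, rfl⟩ := hf
  obtain ⟨U', V', rfl⟩ := hg
  refine ⟨fun i => U i + U' i, fun i => V i + V' i, ?_⟩
  rw [← Finset.sum_add_distrib]
  refine Finset.sum_congr rfl fun i _ => ?_
  rw [CharTwo.add_sq, CharTwo.add_sq]
  ring

theorem Ss_zero (w : ι → K) (y : L) : (0 : L) ∈ Ss w y := ⟨0, 0, by simp⟩

theorem Ss_sum (w : ι → K) (y : L) {κ : Type} (s : Finset κ) (f : κ → L)
    (hf : ∀ i ∈ s, f i ∈ Ss w y) : ∑ i ∈ s, f i ∈ Ss w y :=
  Finset.sum_induction f (· ∈ Ss w y) (fun _ _ => Ss_add w y) (Ss_zero w y) hf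

theorem Ss_sq (w : ι → K) (y : L) {f : L} (c : L) (hf : f ∈ Ss w y) : c ^ 2 * f ∈ Ss w y := by
  obtain ⟨U, V, rfl⟩ := hf
  refine ⟨fun i => c * U i, fun i => c * V i, ?_⟩
  rw [Finset.mul_sum]
  refine Finset.sum_congr rfl fun i _ => ?_
  ring

theorem Ss_mk (w : ι → K) (y : L) (hw : ∀ k : K, ∃ c : ι → K, ∑ i, c i ^ 2 * w i = k) (k : K)
    (u v : L) : (u ^ 2 + v ^ 2 * y) * algebraMap K L k ∈ Ss w y := by
  obtain ⟨c, rfl⟩ := hw k
  refine ⟨fun i => u * algebraMap K L (c i), fun i => v * algebraMap K L (c i), ?_⟩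
  rw [map_sum, Finset.mul_sum]
  refine Finset.sum_congr rfl fun i _ => ?_
  rw [map_mul, map_pow]
  ring

theorem Ss_mul (w : ι → K) (y : L) (hw : ∀ k : K, ∃ c : ι → K, ∑ i, c i ^ 2 * w i = k) {f g : L}
    (hf : f ∈ Ss w y) (hg : g ∈ Ss w y) : f * g ∈ Ss w y := by
  obtain ⟨U, V, rfl⟩ := hf
  obtain ⟨U', V', rfl⟩ := hg
  rw [Finset.sum_mul_sum]
  refine Ss_sum w y _ _ fun i _ => Ss_sum w y _ _ fun j _ => ?_
  have := Ss_mk w y hw (w i * w j) (U i * U' j + V i * V' j * y) (U i * V' j + V i * U' j)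
  rw [CharTwo.add_sq, CharTwo.add_sq, map_mul] at this
  convert this using 1
  ring

/-- the field of the elements with coordinates -/
def Sf (w : ι → K) (y : L) (hw : ∀ k : K, ∃ c : ι → K, ∑ i, c i ^ 2 * w i = k) :
    IntermediateField K L where
  carrier := Ss w y
  mul_mem' := Ss_mul w y hw
  one_mem' := by
    have := Ss_mk w y hw 1 (1 : L) 0
    simpa using this
  add_mem' := Ss_add w y
  zero_mem' := Ss_zero w y
  algebraMap_mem' k := by
    have := Ss_mk w y hw k (1 : L) 0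
    simpa using this
  inv_mem' f hf := by
    by_cases h : f = 0
    · subst h; simpa using hf
    have := Ss_sq w y f⁻¹ hf
    rwa [show f⁻¹ ^ 2 * f = f⁻¹ by field_simp] at this

theorem exist (w : ι → K) (x y : L) (a e : K)
    (hw : ∀ k : K, ∃ c : ι → K, ∑ i, c i ^ 2 * w i = k) (ha : a ≠ 0) (hy : y ≠ 0)
    (hxy : x ^ 2 + algebraMap K L a * x * y + y ^ 2 = algebraMap K L e)
    (hgen : IntermediateField.adjoin K {x, y} = ⊤) (f : L) : f ∈ Ss w y := by
  have hmy : y ∈ Sf w y hw := by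
    have := Ss_mk w y hw 1 (0 : L) 1
    simpa [Sf] using this
  have hma : ∀ k : K, algebraMap K L k ∈ Sf w y hw := fun k => (Sf w y hw).algebraMap_mem k
  have hsq : ∀ c : L, c ^ 2 ∈ Sf w y hw := by
    intro c
    have := Ss_mk w y hw 1 c 0
    simpa [Sf] using this
  have ha' : algebraMap K L a ≠ 0 := by simpa using ha
  have h2 : (2 : L) = 0 := CharTwo.two_eq_zero
  have hmx : x ∈ Sf w y hw := by
    have hx : x = (x ^ 2 + y ^ 2 + algebraMap K L e) / (algebraMap K L a * y) := by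
      rw [eq_div_iff (mul_ne_zero ha' hy)]
      linear_combination hxy - (x ^ 2 + y ^ 2) * h2
    rw [hx]
    exact div_mem (add_mem (add_mem (hsq x) (hsq y)) (hma e)) (mul_mem (hma a) hmy)
  have hle : IntermediateField.adjoin K {x, y} ≤ Sf w y hw := by
    rw [IntermediateField.adjoin_le_iff]
    rintro z (rfl | rfl)
    · exact hmx
    · exact hmy
  rw [hgen] at hle
  exact hle (IntermediateField.mem_top : f ∈ (⊤ : IntermediateField K L))

/-- elements of the ring `K[x, y]` -/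
theorem ring_form (x y : L) (a e : K)
    (hxy : x ^ 2 + algebraMap K L a * x * y + y ^ 2 = algebraMap K L e) (r : L)
    (hr : r ∈ Algebra.adjoin K {x, y}) : ∃ P Q : K[X], r = aeval y P + aeval y Q * x := by
  have h2 : (2 : L) = 0 := CharTwo.two_eq_zero
  induction hr using Algebra.adjoin_induction with
  | mem z hz =>
    rcases hz with rfl | rfl
    · exact ⟨0, 1, by simp⟩
    · exact ⟨X, 0, by simp⟩
  | algebraMap k => exact ⟨C k, 0, by simp⟩
  | add u v _ _ hu hv =>
    obtain ⟨P, Q, rfl⟩ := hu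
    obtain ⟨P', Q', rfl⟩ := hv
    exact ⟨P + P', Q + Q', by rw [map_add, map_add]; ring⟩
  | mul u v _ _ hu hv =>
    obtain ⟨P, Q, rfl⟩ := hu
    obtain ⟨P', Q', rfl⟩ := hv
    refine ⟨P * P' + Q * Q' * (X ^ 2 + C e), P * Q' + Q * P' + Q * Q' * C a * X, ?_⟩
    simp only [map_add, map_mul, map_pow, aeval_X, aeval_C]
    linear_combination (aeval y Q * aeval y Q') * hxy -
      (aeval y Q * aeval y Q') * (algebraMap K L a * x * y + y ^ 2) * h2

theorem indep (x y : L) (a e : K) [CharP K 2] (ha : a ≠ 0) (he : e ≠ 0) (hy : Transcendental K y)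
    (hxy : x ^ 2 + algebraMap K L a * x * y + y ^ 2 = algebraMap K L e) (P Q : K[X])
    (h : aeval y P + aeval y Q * x = 0) : P = 0 ∧ Q = 0 := by
  have h2 : (2 : L) = 0 := CharTwo.two_eq_zero
  apply conic' a e ha he
  apply (transcendental_iff.1 hy)
  simp only [map_add, map_mul, map_pow, aeval_X, aeval_C]
  have hP : aeval y P = aeval y Q * x := by
    linear_combination h - (aeval y Q * x) * h2
  rw [hP]
  linear_combination (-(aeval y Q) ^ 2) * hxy +
    (aeval y Q) ^ 2 * (x ^ 2 + algebraMap K L a * x * y + y ^ 2) * h2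

theorem denom (x y : L) (hgen : IntermediateField.adjoin K {x, y} = ⊤) (f : ι → L) :
    ∃ D ∈ Algebra.adjoin K ({x, y} : Set L), D ≠ 0 ∧ ∀ i, D * f i ∈ Algebra.adjoin K ({x, y} : Set L) := by
  classical
  have h1 : ∀ i, ∃ s ∈ Algebra.adjoin K ({x, y} : Set L), s ≠ 0 ∧
      s * f i ∈ Algebra.adjoin K ({x, y} : Set L) := by
    intro i
    have hf : f i ∈ IntermediateField.adjoin K {x, y} := by
      rw [hgen]; exact IntermediateField.mem_top
    obtain ⟨r, hr, s, hs, h⟩ := IntermediateField.mem_adjoin_iff_div.1 hf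
    by_cases hs0 : s = 0
    · refine ⟨1, one_mem _, one_ne_zero, ?_⟩
      rw [h, hs0, div_zero, mul_zero]
      exact zero_mem _
    · refine ⟨s, hs, hs0, ?_⟩
      rw [h, mul_div_cancel₀ _ hs0]
      exact hr
  choose s hs hs0 hsf using h1
  refine ⟨∏ i, s i, prod_mem fun i _ => hs i, Finset.prod_ne_zero_iff.2 fun i _ => hs0 i, ?_⟩
  intro i
  rw [← Finset.prod_erase_mul Finset.univ s (Finset.mem_univ i), mul_assoc]
  exact mul_mem (prod_mem fun i _ => hs i) (hsf i)

theorem unique (w : ι → K) [CharP K 2] (hw : ∀ c : ι → K, ∑ i, c i ^ 2 * w i = 0 → ∀ i, c i = 0)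
    (x y : L) (a e : K) (ha : a ≠ 0) (he : e ≠ 0) (hy : Transcendental K y)
    (hxy : x ^ 2 + algebraMap K L a * x * y + y ^ 2 = algebraMap K L e)
    (hgen : IntermediateField.adjoin K {x, y} = ⊤) (U V : ι → L)
    (h : ∑ i, (U i ^ 2 + V i ^ 2 * y) * algebraMap K L (w i) = 0) (i : ι) :
    U i = 0 ∧ V i = 0 := by
  obtain ⟨D1, hD1, hD10, hU⟩ := denom x y hgen U
  obtain ⟨D2, hD2, hD20, hV⟩ := denom x y hgen V
  have hU' : ∀ i, ∃ P Q : K[X], (D1 * D2) * U i = aeval y P + aeval y Q * x := fun i =>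
    ring_form x y a e hxy _ (by
      rw [mul_comm D1 D2, mul_assoc]; exact mul_mem hD2 (hU i))
  have hV' : ∀ i, ∃ P Q : K[X], (D1 * D2) * V i = aeval y P + aeval y Q * x := fun i =>
    ring_form x y a e hxy _ (by
      rw [mul_assoc]; exact mul_mem hD1 (hV i))
  choose P1 Q1 h1 using hU'
  choose P2 Q2 h3 using hV'
  have h2 : (2 : L) = 0 := CharTwo.two_eq_zero
  set A0 : K[X] := ∑ i, (P1 i ^ 2 * C (w i) + P2 i ^ 2 * C (w i) * X) with hA0
  set B0 : K[X] := ∑ i, (Q1 i ^ 2 * C (w i) + Q2 i ^ 2 * C (w i) * X) with hB0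
  have h4 : aeval y A0 + x ^ 2 * aeval y B0 = 0 := by
    have h5 : (D1 * D2) ^ 2 * ∑ i, (U i ^ 2 + V i ^ 2 * y) * algebraMap K L (w i) =
        aeval y A0 + x ^ 2 * aeval y B0 := by
      rw [hA0, hB0, map_sum, map_sum, Finset.mul_sum, Finset.mul_sum, ← Finset.sum_add_distrib]
      refine Finset.sum_congr rfl fun j _ => ?_
      simp only [map_add, map_mul, map_pow, aeval_X, aeval_C]
      have e1 : (D1 * D2) ^ 2 * ((U j ^ 2 + V j ^ 2 * y) * algebraMap K L (w j)) =
          (((D1 * D2) * U j) ^ 2 + ((D1 * D2) * V j) ^ 2 * y) * algebraMap K L (w j) := by ring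
      rw [e1, h1, h3, CharTwo.add_sq, CharTwo.add_sq]
      ring
    rw [← h5, h, mul_zero]
  have h6 : aeval y (A0 + (X ^ 2 + C e) * B0) + aeval y (C a * X * B0) * x = 0 := by
    simp only [map_add, map_mul, map_pow, aeval_X, aeval_C]
    linear_combination h4 - (aeval y B0) * hxy +
      (aeval y B0) * (algebraMap K L a * x * y + y ^ 2) * h2
  obtain ⟨h7, h8⟩ := indep x y a e ha he hy hxy _ _ h6
  have hB : B0 = 0 := by
    rcases mul_eq_zero.1 h8 with h9 | h9
    · exfalso
      rcases mul_eq_zero.1 h9 with h10 | h10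
      · exact ha (C_eq_zero.1 h10)
      · exact X_ne_zero h10
    · exact h9
  have hA : A0 = 0 := by rw [hB, mul_zero, add_zero] at h7; exact h7
  have hDD : D1 * D2 ≠ 0 := mul_ne_zero hD10 hD20
  obtain ⟨hp1, hp2⟩ := upoly w hw P1 P2 hA i
  obtain ⟨hq1, hq2⟩ := upoly w hw Q1 Q2 hB i
  constructor
  · have := h1 i
    rw [hp1, hq1, map_zero, zero_mul, add_zero] at this
    exact (mul_eq_zero.1 this).resolve_left hDD
  · have := h3 i
    rw [hp2, hq2, map_zero, zero_mul, add_zero] at this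
    exact (mul_eq_zero.1 this).resolve_left hDD

end

end Pbx

open Pbx in
theorem pbx (K L : Type) [Field K] [Field L] [Algebra K L] [CharP K 2] [CharP L 2] (d : ℕ)
    (t : Fin d → K) (π : (Fin d → Fin 2) → K → K) (hMB : MB 2 t π) (x y : L) (a e : K) (ha : a ≠ 0)
    (he : e ≠ 0) (hy : Transcendental K y)
    (hxy : x ^ 2 + algebraMap K L a * x * y + y ^ 2 = algebraMap K L e)
    (hgen : IntermediateField.adjoin K {x, y} = ⊤) :
    ∃ π' : (Fin (d + 1) → Fin 2) → L → L,
      MB 2 (Fin.snoc (α := fun _ => L) (fun i => algebraMap K L (t i)) y) π' ∧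
      (∀ k : K, π' j0 (algebraMap K L k) = algebraMap K L (π j0 k)) ∧
      ∀ k : K, π' j0 (algebraMap K L k * y) = 0 := by
  classical
  have hy0 : y ≠ 0 := by
    rintro rfl
    exact hy (isAlgebraic_zero)
  set w : (Fin d → Fin 2) → K := monY (p := 2) t with hw
  set s : Fin (d + 1) → L := Fin.snoc (α := fun _ => L) (fun i => algebraMap K L (t i)) y with hs
  have hw1 : ∀ k : K, ∑ i, π i k ^ 2 * w i = k := hMB.pb.repr
  have hw2 : ∀ c : (Fin d → Fin 2) → K, ∑ i, c i ^ 2 * w i = 0 → ∀ i, c i = 0 := by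
    intro c hc i
    have h1 := hMB.pb.uniq c i
    have h2 := hMB.pb.uniq 0 i
    have h3 : ∑ j, (0 : (Fin d → Fin 2) → K) j ^ 2 * monY (p := 2) t j = 0 := by simp
    rw [h3] at h2
    rw [← hw, hc, h2] at h1
    exact h1.symm
  have hmon : ∀ (b : Fin d → Fin 2) (c : Fin 2), monY (p := 2) s (Fin.snoc (α := fun _ => Fin 2) b c) =
      algebraMap K L (w b) * y ^ (c : ℕ) := by
    intro b c
    rw [monY, Fin.prod_univ_castSucc, hw, monY, map_prod]
    simp [hs]
  have hsum : ∀ U : (Fin (d + 1) → Fin 2) → L, ∑ b, U b ^ 2 * monY (p := 2) s b =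
      ∑ b : Fin d → Fin 2, (U (Fin.snoc (α := fun _ => Fin 2) b 0) ^ 2 +
        U (Fin.snoc (α := fun _ => Fin 2) b 1) ^ 2 * y) * algebraMap K L (w b) := by
    intro U
    rw [← (Fin.snocEquiv (fun _ => Fin 2)).sum_comp, Fintype.sum_prod_type_right]
    refine Finset.sum_congr rfl fun b _ => ?_
    rw [Fin.sum_univ_two]
    simp only [Fin.snocEquiv, Equiv.coe_fn_mk]
    rw [hmon b 0, hmon b 1]
    simp
    ring
  have hex : ∀ f : L, ∃ U : (Fin (d + 1) → Fin 2) → L, ∑ b, U b ^ 2 * monY (p := 2) s b = f := by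
    intro f
    obtain ⟨U, V, h⟩ := exist w x y a e (fun k => ⟨_, hw1 k⟩) ha hy0 hxy hgen f
    refine ⟨fun b => if b (Fin.last d) = 0 then U (Fin.init b) else V (Fin.init b), ?_⟩
    rw [hsum, ← h]
    refine Finset.sum_congr rfl fun b _ => ?_
    simp
  have hun : ∀ U V : (Fin (d + 1) → Fin 2) → L, ∑ b, U b ^ 2 * monY (p := 2) s b =
      ∑ b, V b ^ 2 * monY (p := 2) s b → U = V := by
    intro U V h
    have h1 : ∑ b, (U b + V b) ^ 2 * monY (p := 2) s b = 0 := by
      have h2 : (2 : L) = 0 := CharTwo.two_eq_zero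
      have : ∑ b, (U b + V b) ^ 2 * monY (p := 2) s b =
          ∑ b, U b ^ 2 * monY (p := 2) s b + ∑ b, V b ^ 2 * monY (p := 2) s b := by
        rw [← Finset.sum_add_distrib]
        refine Finset.sum_congr rfl fun b _ => ?_
        rw [CharTwo.add_sq]
        ring
      rw [this, h]
      linear_combination (∑ b, V b ^ 2 * monY (p := 2) s b) * h2
    rw [hsum] at h1
    have h3 := unique w hw2 x y a e ha he hy hxy hgen _ _ h1
    funext b
    have h4 : U b + V b = 0 := by
      obtain ⟨⟨c, b'⟩, rfl⟩ := (Fin.snocEquiv (fun _ => Fin 2)).surjective b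
      have h5 := h3 b'
      simp only [Fin.snocEquiv, Equiv.coe_fn_mk]
      fin_cases c
      · exact h5.1
      · exact h5.2
    exact CharTwo.add_eq_zero.1 h4
  choose U hU using hex
  have huq : ∀ c : (Fin (d + 1) → Fin 2) → L, U (∑ b, c b ^ 2 * monY (p := 2) s b) = c := by
    intro c
    exact hun _ _ (hU _)
  refine ⟨fun b f => U f b, ⟨?_, ?_, ?_⟩, ?_, ?_⟩
  · intro i
    refine Fin.lastCases ?_ (fun j => ?_) i
    · rw [hs, Fin.snoc_last]; exact hy0
    · rw [hs, Fin.snoc_castSucc]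
      exact (map_ne_zero_iff _ (algebraMap K L).injective).2 (hMB.ne j)
  · intro f
    exact hU f
  · intro c b
    change U (∑ b, c b ^ 2 * monY (p := 2) s b) b = c b
    rw [huq]
  · intro k
    have h1 : ∑ b, (fun b : Fin (d + 1) → Fin 2 => if b (Fin.last d) = 0 then
        algebraMap K L (π (Fin.init b) k) else 0) b ^ 2 * monY (p := 2) s b = algebraMap K L k := by
      rw [hsum]
      conv_rhs => rw [← hw1 k]
      rw [map_sum]
      refine Finset.sum_congr rfl fun b _ => ?_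
      simp
    have h2 := huq (fun b : Fin (d + 1) → Fin 2 => if b (Fin.last d) = 0 then
        algebraMap K L (π (Fin.init b) k) else 0)
    rw [h1] at h2
    change U (algebraMap K L k) j0 = _
    rw [h2]
    simp [j0]
    rfl
  · intro k
    have h1 : ∑ b, (fun b : Fin (d + 1) → Fin 2 => if b (Fin.last d) = 0 then 0 else
        algebraMap K L (π (Fin.init b) k)) b ^ 2 * monY (p := 2) s b = algebraMap K L k * y := by
      rw [hsum]
      conv_rhs => rw [← hw1 k]
      rw [map_sum, Finset.sum_mul]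
      refine Finset.sum_congr rfl fun b _ => ?_
      simp
      ring
    have h2 := huq (fun b : Fin (d + 1) → Fin 2 => if b (Fin.last d) = 0 then 0 else
        algebraMap K L (π (Fin.init b) k))
    rw [h1] at h2
    change U (algebraMap K L k * y) j0 = _
    rw [h2]
    simp [j0]

theorem p_pbx : S_pbx := by
  intro K L _ _ _ _ _ d t π hMB x y a e ha he hy hxy hgen
  exact pbx K L d t π hMB x y a e ha he hy hxy hgen

end Pool.Agent.FrNC
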