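import Pool.Agent.Lib.MP_305fdd_al.Fr.N.C.Stm

/-!
# MP_305fdd_al, F_r project, section N: the points of the slice
-/

set_option autoImplicit false

namespace Pool.Agent.FrNC

open Pool.Agent.FrN Pool.Agent.F2Ch Pool.Agent.F2RF Pool.Agent.F2TF

/-- ring homomorphisms are compatible with the structures over `ZMod 2` -/
theorem pts_zmod {A B : Type} [CommRing A] [CommRing B] [Algebra (ZMod 2) A] [Algebra (ZMod 2) B]
    (f : A →+* B) (c : ZMod 2) : f (algebraMap (ZMod 2) A c) = algebraMap (ZMod 2) B c :=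
  RingHom.congr_fun (Subsingleton.elim (f.comp (algebraMap (ZMod 2) A)) (algebraMap (ZMod 2) B)) c

/-- the representation at a point of the slice -/
noncomputable def pts_e {Γ L : Type} [Group Γ] [Field L] [Algebra (ZMod 2) L] {κ : Type}
    [Field κ] [Algebra (ZMod 2) κ] (r : Γ →* Matrix.SpecialLinearGroup (Fin 2) L) (w : L)
    (ζ : Zw r w →ₐ[ZMod 2] κ) : Γ →* Matrix.SpecialLinearGroup (Fin 2) κ where
  toFun h := ⟨Matrix.of fun i j => ζ ⟨(r h).1 i j, mem_Zw r w h i j⟩, by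
    rw [Matrix.det_fin_two]
    simp only [Matrix.of_apply]
    rw [← map_mul, ← map_mul, ← map_sub, ← map_one ζ]
    congr 1
    apply Subtype.ext
    change (r h).1 0 0 * (r h).1 1 1 - (r h).1 0 1 * (r h).1 1 0 = 1
    rw [← Matrix.det_fin_two]
    exact (r h).2⟩
  map_one' := by
    apply Subtype.ext
    ext i j
    change ζ ⟨(r 1).1 i j, _⟩ = (1 : Matrix (Fin 2) (Fin 2) κ) i j
    have h1 : (⟨(r 1).1 i j, mem_Zw r w 1 i j⟩ : Zw r w) = if i = j then 1 else 0 := by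
      apply Subtype.ext
      have h2 : (r 1).1 i j = (1 : Matrix (Fin 2) (Fin 2) L) i j := by
        rw [map_one]; rfl
      change (r 1).1 i j = _
      rw [h2, Matrix.one_apply]
      split_ifs <;> rfl
    rw [h1, Matrix.one_apply]
    split_ifs
    · exact map_one ζ
    · exact map_zero ζ
  map_mul' a b := by
    apply Subtype.ext
    ext i j
    have h1 : ζ ⟨(r (a * b)).1 i j, mem_Zw r w (a * b) i j⟩ =
        ∑ k, ζ ⟨(r a).1 i k, mem_Zw r w a i k⟩ * ζ ⟨(r b).1 k j, mem_Zw r w b k j⟩ := by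
      simp_rw [← map_mul]
      rw [← map_sum]
      congr 1
      apply Subtype.ext
      rw [AddSubmonoidClass.coe_finsetSum]
      change (r (a * b)).1 i j = ∑ k, (r a).1 i k * (r b).1 k j
      rw [map_mul]
      exact Matrix.mul_apply
    exact h1.trans (Matrix.mul_apply
      (M := Matrix.of fun i j => ζ ⟨(r a).1 i j, mem_Zw r w a i j⟩)
      (N := Matrix.of fun i j => ζ ⟨(r b).1 i j, mem_Zw r w b i j⟩)).symm

theorem pts_e_apply {Γ L : Type} [Group Γ] [Field L] [Algebra (ZMod 2) L] {κ : Type}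
    [Field κ] [Algebra (ZMod 2) κ] (r : Γ →* Matrix.SpecialLinearGroup (Fin 2) L) (w : L)
    (ζ : Zw r w →ₐ[ZMod 2] κ) (h : Γ) (i j : Fin 2) :
    (pts_e r w ζ h).1 i j = ζ ⟨(r h).1 i j, mem_Zw r w h i j⟩ := rfl

/-- extension of a homomorphism from a subring of a field to the inverse of an element -/
theorem pts_ext {F κ : Type} [Field F] [Field κ] (O : Subring F) (φ : O →+* κ) (d : O)
    (hd : (d : F) ≠ 0) (hφ : φ d ≠ 0) : ∃ (A : Subring F) (θ : A →+* κ),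
    (∀ x : O, ∃ hx : (x : F) ∈ A, θ ⟨x, hx⟩ = φ x) ∧ (d : F)⁻¹ ∈ A := by
  have h1 : IsUnit (O.subtype d) := isUnit_iff_ne_zero.2 hd
  have h2 : IsUnit (φ d) := isUnit_iff_ne_zero.2 hφ
  let lF : Localization.Away d →+* F := IsLocalization.Away.lift d h1
  let lk : Localization.Away d →+* κ := IsLocalization.Away.lift d h2
  have hF : ∀ x : O, lF (algebraMap O (Localization.Away d) x) = x := fun x =>
    IsLocalization.Away.lift_eq d h1 x
  have hk : ∀ x : O, lk (algebraMap O (Localization.Away d) x) = φ x := fun x =>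
    IsLocalization.Away.lift_eq d h2 x
  have hinj : Function.Injective lF := by
    refine (injective_iff_map_eq_zero lF).2 ?_
    intro z hz
    obtain ⟨⟨a, s⟩, h⟩ := IsLocalization.surj (Submonoid.powers d) z
    have h3 : lF (z * algebraMap O (Localization.Away d) s) = a := by
      rw [h]; exact hF a
    rw [map_mul, hz, zero_mul] at h3
    have h4 : a = 0 := Subtype.ext h3.symm
    have h5 : z * algebraMap O (Localization.Away d) s = 0 := by
      rw [h]; change algebraMap O (Localization.Away d) a = 0; rw [h4, map_zero]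
    exact (IsUnit.mul_left_eq_zero (IsLocalization.map_units (Localization.Away d) s)).1 h5
  let E : Localization.Away d ≃+* lF.range :=
    RingEquiv.ofBijective lF.rangeRestrict
      ⟨fun x y h => hinj (congrArg Subtype.val h), lF.rangeRestrict_surjective⟩
  have hE : ∀ z (hz : lF z ∈ lF.range), E.symm ⟨lF z, hz⟩ = z := by
    intro z hz
    rw [RingEquiv.symm_apply_eq]
    rfl
  refine ⟨lF.range, lk.comp (E.symm : lF.range →+* Localization.Away d), ?_, ?_⟩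
  · intro x
    have hx : (x : F) ∈ lF.range := ⟨_, hF x⟩
    refine ⟨hx, ?_⟩
    rw [← hk x]
    change lk (E.symm ⟨x, hx⟩) = _
    congr 1
    have h3 : (⟨(x : F), hx⟩ : lF.range) = ⟨lF (algebraMap O (Localization.Away d) x), ⟨_, rfl⟩⟩ :=
      Subtype.ext (hF x).symm
    rw [h3]
    exact hE _ _
  · refine ⟨IsLocalization.Away.invSelf d, ?_⟩
    have h3 : lF (algebraMap O (Localization.Away d) d * IsLocalization.Away.invSelf d) = 1 := by
      rw [IsLocalization.Away.mul_invSelf, map_one]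
    rw [map_mul, hF] at h3
    exact eq_inv_of_mul_eq_one_right h3

theorem p_pts : S_pts := by
  intro b Γ K F L _ _ _ _ _ _ _ _ _ T ρ hH ι r g hTg hCF hrg htr y hy κ _ _ _
  set w : L := (algebraMap K L y)⁻¹ with hw
  have hyL : algebraMap K L y ≠ 0 := by
    intro h; exact hy ((map_eq_zero _).1 h)
  have hyF : algebraMap K F y ≠ 0 := by
    intro h; exact hy ((map_eq_zero _).1 h)
  -- `y` in the two rings
  have hBZ : ∀ x : K, x ∈ BB 2 T → algebraMap K L x ∈ Algebra.adjoin (ZMod 2)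
      {x | ∃ h i j, x = (r h).1 i j} := by
    intro x hx
    induction hx using Algebra.adjoin_induction with
    | mem x hx =>
      obtain ⟨h, rfl⟩ := hx
      rw [← htr h, Matrix.trace_fin_two]
      exact add_mem (Algebra.subset_adjoin ⟨h, 0, 0, rfl⟩) (Algebra.subset_adjoin ⟨h, 1, 1, rfl⟩)
    | algebraMap c => rw [pts_zmod]; exact Subalgebra.algebraMap_mem _ c
    | add x x' _ _ h1 h2 => rw [map_add]; exact add_mem h1 h2
    | mul x x' _ _ h1 h2 => rw [map_mul]; exact mul_mem h1 h2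
  have hsub : Algebra.adjoin (ZMod 2) {x | ∃ h i j, x = (r h).1 i j} ≤ Zw r w :=
    Algebra.adjoin_mono Set.subset_union_left
  have hwZ : w ∈ Zw r w := Algebra.subset_adjoin (Or.inr rfl)
  have hyZ : algebraMap K L y ∈ Zw r w := hsub (hBZ y y.2)
  have hyw : ∀ ζ : Zw r w →ₐ[ZMod 2] κ, ζ ⟨_, hyZ⟩ * ζ ⟨w, hwZ⟩ = 1 := by
    intro ζ
    rw [← map_mul, ← map_one ζ]
    congr 1
    apply Subtype.ext
    exact mul_inv_cancel₀ hyL
  -- the two homomorphisms agree on the traces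
  have hφζ : ∀ (ζ : Zw r w →ₐ[ZMod 2] κ) (φ : OO 2 ρ →ₐ[ZMod 2] κ),
      (∀ h i j, φ ⟨(ρ h).1 i j, mem_OO ρ h i j⟩ = ζ ⟨(r h).1 i j, mem_Zw r w h i j⟩) →
      ∀ x : K, x ∈ BB 2 T → ∃ (h1 : algebraMap K F x ∈ OO 2 ρ) (h2 : algebraMap K L x ∈ Zw r w),
        φ ⟨_, h1⟩ = ζ ⟨_, h2⟩ := by
    intro ζ φ hag x hx
    induction hx using Algebra.adjoin_induction with
    | mem x hx =>
      obtain ⟨h, rfl⟩ := hx
      have e1 : algebraMap K F (T h) = (ρ h).1 0 0 + (ρ h).1 1 1 := by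
        rw [← hH.tr h, Matrix.trace_fin_two]
      have e2 : algebraMap K L (T h) = (r h).1 0 0 + (r h).1 1 1 := by
        rw [← htr h, Matrix.trace_fin_two]
      have m1 : algebraMap K F (T h) ∈ OO 2 ρ := by
        rw [e1]; exact add_mem (mem_OO ρ h 0 0) (mem_OO ρ h 1 1)
      have m2 : algebraMap K L (T h) ∈ Zw r w := by
        rw [e2]; exact add_mem (mem_Zw r w h 0 0) (mem_Zw r w h 1 1)
      refine ⟨m1, m2, ?_⟩
      have f1 : (⟨_, m1⟩ : OO 2 ρ) = ⟨(ρ h).1 0 0, mem_OO ρ h 0 0⟩ +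
          ⟨(ρ h).1 1 1, mem_OO ρ h 1 1⟩ := Subtype.ext e1
      have f2 : (⟨_, m2⟩ : Zw r w) = ⟨(r h).1 0 0, mem_Zw r w h 0 0⟩ +
          ⟨(r h).1 1 1, mem_Zw r w h 1 1⟩ := Subtype.ext e2
      rw [f1, f2, map_add, map_add, hag, hag]
    | algebraMap c =>
      have m1 : algebraMap K F (algebraMap (ZMod 2) K c) ∈ OO 2 ρ := by
        rw [pts_zmod]; exact Subalgebra.algebraMap_mem _ c
      have m2 : algebraMap K L (algebraMap (ZMod 2) K c) ∈ Zw r w := by
        rw [pts_zmod]; exact Subalgebra.algebraMap_mem _ c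
      refine ⟨m1, m2, ?_⟩
      have f1 : (⟨_, m1⟩ : OO 2 ρ) = algebraMap (ZMod 2) (OO 2 ρ) c :=
        Subtype.ext (pts_zmod (algebraMap K F) c)
      have f2 : (⟨_, m2⟩ : Zw r w) = algebraMap (ZMod 2) (Zw r w) c :=
        Subtype.ext (pts_zmod (algebraMap K L) c)
      rw [f1, f2, AlgHom.commutes, AlgHom.commutes]
    | add x x' _ _ h1 h2 =>
      obtain ⟨a1, a2, a3⟩ := h1
      obtain ⟨b1, b2, b3⟩ := h2
      have m1 : algebraMap K F (x + x') ∈ OO 2 ρ := by rw [map_add]; exact add_mem a1 b1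
      have m2 : algebraMap K L (x + x') ∈ Zw r w := by rw [map_add]; exact add_mem a2 b2
      refine ⟨m1, m2, ?_⟩
      have f1 : (⟨_, m1⟩ : OO 2 ρ) = ⟨_, a1⟩ + ⟨_, b1⟩ := Subtype.ext (map_add _ x x')
      have f2 : (⟨_, m2⟩ : Zw r w) = ⟨_, a2⟩ + ⟨_, b2⟩ := Subtype.ext (map_add _ x x')
      rw [f1, f2, map_add, map_add, a3, b3]
    | mul x x' _ _ h1 h2 =>
      obtain ⟨a1, a2, a3⟩ := h1
      obtain ⟨b1, b2, b3⟩ := h2
      have m1 : algebraMap K F (x * x') ∈ OO 2 ρ := by rw [map_mul]; exact mul_mem a1 b1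
      have m2 : algebraMap K L (x * x') ∈ Zw r w := by rw [map_mul]; exact mul_mem a2 b2
      refine ⟨m1, m2, ?_⟩
      have f1 : (⟨_, m1⟩ : OO 2 ρ) = ⟨_, a1⟩ * ⟨_, b1⟩ := Subtype.ext (map_mul _ x x')
      have f2 : (⟨_, m2⟩ : Zw r w) = ⟨_, a2⟩ * ⟨_, b2⟩ := Subtype.ext (map_mul _ x x')
      rw [f1, f2, map_mul, map_mul, a3, b3]
  -- the map is well defined
  have hwd : ∀ ζ : Zw r w →ₐ[ZMod 2] κ, (pts_e r w ζ g).1 = cmp (pts_e r w ζ g).1.trace ∧
      ∃ φ : OO 2 ρ →ₐ[ZMod 2] κ,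
        (∀ h i j, φ ⟨(ρ h).1 i j, mem_OO ρ h i j⟩ = (pts_e r w ζ h).1 i j) ∧
        ∃ hy : algebraMap K F y ∈ OO 2 ρ, φ ⟨_, hy⟩ ≠ 0 := by
    intro ζ
    constructor
    · have e00 : (pts_e r w ζ g).1 0 0 = 0 := by
        rw [pts_e_apply, ← map_zero ζ]
        congr 1
        apply Subtype.ext
        change (r g).1 0 0 = 0
        rw [hrg]; rfl
      have e01 : (pts_e r w ζ g).1 0 1 = 1 := by
        rw [pts_e_apply, ← map_one ζ]
        congr 1
        apply Subtype.ext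
        change (r g).1 0 1 = 1
        rw [hrg]; rfl
      have e10 : (pts_e r w ζ g).1 1 0 = 1 := by
        rw [pts_e_apply, ← map_one ζ]
        congr 1
        apply Subtype.ext
        change (r g).1 1 0 = 1
        rw [hrg]; rfl
      rw [Matrix.trace_fin_two, e00, zero_add]
      ext i j
      fin_cases i <;> fin_cases j
      exacts [e00, e01, e10, rfl]
    · obtain ⟨φ, hφ⟩ := hH.pts κ (pts_e r w ζ)
      refine ⟨φ, hφ, ?_⟩
      obtain ⟨h1, h2, h3⟩ := hφζ ζ φ (fun h i j => by rw [hφ, pts_e_apply]) y y.2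
      refine ⟨h1, ?_⟩
      rw [h3]
      intro h0
      have := hyw ζ
      rw [h0, zero_mul] at this
      exact zero_ne_one this
  refine ⟨Equiv.ofBijective (fun ζ => ⟨pts_e r w ζ, hwd ζ⟩) ⟨?_, ?_⟩, ?_⟩
  · -- injectivity
    intro ζ ζ' h
    have hs : pts_e r w ζ = pts_e r w ζ' := congrArg Subtype.val h
    have hent : ∀ h i j, ζ ⟨(r h).1 i j, mem_Zw r w h i j⟩ =
        ζ' ⟨(r h).1 i j, mem_Zw r w h i j⟩ := by
      intro h i j
      rw [← pts_e_apply, ← pts_e_apply, hs]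
    have hy1 : ∀ x (hx : x ∈ Algebra.adjoin (ZMod 2) {x | ∃ h i j, x = (r h).1 i j}),
        ζ ⟨x, hsub hx⟩ = ζ' ⟨x, hsub hx⟩ := by
      intro x hx
      induction hx using Algebra.adjoin_induction with
      | mem x hx => obtain ⟨h, i, j, rfl⟩ := hx; exact hent h i j
      | algebraMap c =>
        exact (ζ.commutes c).trans (ζ'.commutes c).symm
      | add x x' m1 m2 h1 h2 =>
        have f : (⟨x + x', hsub (add_mem m1 m2)⟩ : Zw r w) = ⟨x, hsub m1⟩ + ⟨x', hsub m2⟩ := rfl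
        rw [f, map_add, map_add, h1, h2]
      | mul x x' m1 m2 h1 h2 =>
        have f : (⟨x * x', hsub (mul_mem m1 m2)⟩ : Zw r w) = ⟨x, hsub m1⟩ * ⟨x', hsub m2⟩ := rfl
        rw [f, map_mul, map_mul, h1, h2]
    have hww : ζ ⟨w, hwZ⟩ = ζ' ⟨w, hwZ⟩ := by
      have h1 := hyw ζ
      have h2 := hyw ζ'
      have h3 : ζ ⟨_, hyZ⟩ = ζ' ⟨_, hyZ⟩ := hy1 _ (hBZ y y.2)
      rw [← h3] at h2
      have h4 : ζ ⟨_, hyZ⟩ ≠ 0 := left_ne_zero_of_mul_eq_one h1
      exact mul_left_cancel₀ h4 (h1.trans h2.symm)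
    ext ⟨x, hx⟩
    induction hx using Algebra.adjoin_induction with
    | mem x hx =>
      rcases hx with hx | hx
      · obtain ⟨h, i, j, rfl⟩ := hx
        exact hent h i j
      · have hx' : x = w := hx
        subst hx'
        exact hww
    | algebraMap c => exact (ζ.commutes c).trans (ζ'.commutes c).symm
    | add x x' m1 m2 h1 h2 =>
      have f : (⟨x + x', add_mem m1 m2⟩ : Zw r w) = ⟨x, m1⟩ + ⟨x', m2⟩ := rfl
      rw [f, map_add, map_add, h1, h2]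
    | mul x x' m1 m2 h1 h2 =>
      have f : (⟨x * x', mul_mem m1 m2⟩ : Zw r w) = ⟨x, m1⟩ * ⟨x', m2⟩ := rfl
      rw [f, map_mul, map_mul, h1, h2]
  · -- surjectivity
    rintro ⟨s, hs, φ, hφ, hyO, hφy⟩
    set a : OO 2 ρ := ⟨(ρ g).1 0 0, mem_OO ρ g 0 0⟩ with ha
    set c : OO 2 ρ := ⟨(ρ g).1 1 0, mem_OO ρ g 1 0⟩ with hc
    have hφa : φ a = 0 := by
      rw [ha, hφ, hs]; rfl
    have hφc : φ c = 1 := by
      rw [hc, hφ, hs]; rfl
    have hc0 : (c : F) ≠ 0 := hCF.cne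
    obtain ⟨A, θ, hθ, hinv⟩ := pts_ext (OO 2 ρ).toSubring (φ : OO 2 ρ →+* κ)
      (c * ⟨_, hyO⟩) (mul_ne_zero hc0 hyF) (by
        change φ (c * ⟨_, hyO⟩) ≠ 0
        rw [map_mul, hφc, one_mul]; exact hφy)
    have hθ' : ∀ x : OO 2 ρ, ∃ hx : (x : F) ∈ A, θ ⟨x, hx⟩ = φ x := fun x => hθ x
    have hinv' : ((c : F) * algebraMap K F y)⁻¹ ∈ A := hinv
    have hcA : (c : F)⁻¹ ∈ A := by
      obtain ⟨h1, _⟩ := hθ' ⟨_, hyO⟩
      have h2 : (c : F)⁻¹ = algebraMap K F y * ((c : F) * algebraMap K F y)⁻¹ := by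
        field_simp
      rw [h2]
      exact A.mul_mem h1 hinv'
    have hyA : (algebraMap K F y)⁻¹ ∈ A := by
      obtain ⟨h1, _⟩ := hθ' c
      have h2 : (algebraMap K F y)⁻¹ = c * ((c : F) * algebraMap K F y)⁻¹ := by
        field_simp
      rw [h2]
      exact A.mul_mem h1 hinv'
    have hθc : θ ⟨(c : F)⁻¹, hcA⟩ = 1 := by
      obtain ⟨h1, h2⟩ := hθ' c
      have h3 : (⟨(c : F)⁻¹, hcA⟩ : A) * ⟨c, h1⟩ = 1 := Subtype.ext (inv_mul_cancel₀ hc0)
      have h4 := congrArg θ h3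
      rw [map_mul, map_one, h2, hφc, mul_one] at h4
      exact h4
    obtain ⟨haA, hθa⟩ := hθ' a
    obtain ⟨hcA', hθc'⟩ := hθ' c
    rw [hφa] at hθa
    rw [hφc] at hθc'
    -- the entries
    have hent : ∀ h i j, ∃ hx : ι ((r h).1 i j) ∈ A, θ ⟨_, hx⟩ = (s h).1 i j := by
      intro h
      have hP := hCF.conj h
      have e00 := congrFun (congrFun hP 0) 0
      have e01 := congrFun (congrFun hP 0) 1
      have e10 := congrFun (congrFun hP 1) 0
      have e11 := congrFun (congrFun hP 1) 1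
      simp only [Pm, Matrix.mul_apply, Fin.sum_univ_two, Matrix.of_apply, Matrix.cons_val_zero,
        Matrix.cons_val_one, Matrix.cons_val', Matrix.empty_val', Matrix.cons_val_fin_one,
        Matrix.map_apply, one_mul, zero_mul, zero_add, mul_one, mul_zero, add_zero] at e00 e01 e10 e11
      obtain ⟨m00, t00⟩ := hθ' ⟨(ρ h).1 0 0, mem_OO ρ h 0 0⟩
      obtain ⟨m01, t01⟩ := hθ' ⟨(ρ h).1 0 1, mem_OO ρ h 0 1⟩
      obtain ⟨m10, t10⟩ := hθ' ⟨(ρ h).1 1 0, mem_OO ρ h 1 0⟩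
      obtain ⟨m11, t11⟩ := hθ' ⟨(ρ h).1 1 1, mem_OO ρ h 1 1⟩
      rw [hφ] at t00 t01 t10 t11
      have r10 : ∃ hx : ι ((r h).1 1 0) ∈ A, θ ⟨_, hx⟩ = (s h).1 1 0 := by
        have h1 : ι ((r h).1 1 0) = ((⟨(c : F)⁻¹, hcA⟩ * ⟨(ρ h).1 1 0, m10⟩ : A) : F) := by
          change _ = (c : F)⁻¹ * (ρ h).1 1 0
          rw [← e10, inv_mul_cancel_left₀ hc0]
        refine ⟨by rw [h1]; exact Subtype.prop _, ?_⟩
        have h2 : (⟨ι ((r h).1 1 0), by rw [h1]; exact Subtype.prop _⟩ : A) =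
          ⟨(c : F)⁻¹, hcA⟩ * ⟨(ρ h).1 1 0, m10⟩ := Subtype.ext h1
        rw [h2, map_mul, hθc, one_mul, t10]
      have r11 : ∃ hx : ι ((r h).1 1 1) ∈ A, θ ⟨_, hx⟩ = (s h).1 1 1 := by
        have h1 : ι ((r h).1 1 1) = ((⟨(c : F)⁻¹, hcA⟩ *
            (⟨(ρ h).1 1 0, m10⟩ * ⟨a, haA⟩ + ⟨(ρ h).1 1 1, m11⟩ * ⟨c, hcA'⟩) : A) : F) := by
          change _ = (c : F)⁻¹ * ((ρ h).1 1 0 * (ρ g).1 0 0 + (ρ h).1 1 1 * (ρ g).1 1 0)
          rw [← e11, inv_mul_cancel_left₀ hc0]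
        refine ⟨by rw [h1]; exact Subtype.prop _, ?_⟩
        have h2 : (⟨ι ((r h).1 1 1), by rw [h1]; exact Subtype.prop _⟩ : A) =
          ⟨(c : F)⁻¹, hcA⟩ * (⟨(ρ h).1 1 0, m10⟩ * ⟨a, haA⟩ + ⟨(ρ h).1 1 1, m11⟩ * ⟨c, hcA'⟩) :=
          Subtype.ext h1
        rw [h2, map_mul, map_add, map_mul, map_mul, hθc, hθa, hθc', t11]
        ring
      obtain ⟨n10, u10⟩ := r10
      obtain ⟨n11, u11⟩ := r11
      have r00 : ∃ hx : ι ((r h).1 0 0) ∈ A, θ ⟨_, hx⟩ = (s h).1 0 0 := by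
        have h1 : ι ((r h).1 0 0) = ((⟨(ρ h).1 0 0, m00⟩ - ⟨a, haA⟩ * ⟨_, n10⟩ : A) : F) := by
          change _ = (ρ h).1 0 0 - (ρ g).1 0 0 * ι ((r h).1 1 0)
          rw [← e00]; ring
        refine ⟨by rw [h1]; exact Subtype.prop _, ?_⟩
        have h2 : (⟨ι ((r h).1 0 0), by rw [h1]; exact Subtype.prop _⟩ : A) =
          ⟨(ρ h).1 0 0, m00⟩ - ⟨a, haA⟩ * ⟨_, n10⟩ := Subtype.ext h1
        rw [h2, map_sub, map_mul, hθa, t00]
        ring
      have r01 : ∃ hx : ι ((r h).1 0 1) ∈ A, θ ⟨_, hx⟩ = (s h).1 0 1 := by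
        have h1 : ι ((r h).1 0 1) = ((⟨(ρ h).1 0 0, m00⟩ * ⟨a, haA⟩ +
            ⟨(ρ h).1 0 1, m01⟩ * ⟨c, hcA'⟩ - ⟨a, haA⟩ * ⟨_, n11⟩ : A) : F) := by
          change _ = (ρ h).1 0 0 * (ρ g).1 0 0 + (ρ h).1 0 1 * (ρ g).1 1 0 -
            (ρ g).1 0 0 * ι ((r h).1 1 1)
          rw [← e01]; ring
        refine ⟨by rw [h1]; exact Subtype.prop _, ?_⟩
        have h2 : (⟨ι ((r h).1 0 1), by rw [h1]; exact Subtype.prop _⟩ : A) =
          ⟨(ρ h).1 0 0, m00⟩ * ⟨a, haA⟩ +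
            ⟨(ρ h).1 0 1, m01⟩ * ⟨c, hcA'⟩ - ⟨a, haA⟩ * ⟨_, n11⟩ := Subtype.ext h1
        rw [h2, map_sub, map_add, map_mul, map_mul, map_mul, hθa, hθc', t01]
        ring
      intro i j
      fin_cases i <;> fin_cases j
      exacts [r00, r01, ⟨n10, u10⟩, ⟨n11, u11⟩]
    have hιy : ι (algebraMap K L y) = algebraMap K F y := ι.commutes _
    have hιZ : ∀ z, z ∈ Zw r w → ι z ∈ A := by
      intro z hz
      induction hz using Algebra.adjoin_induction with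
      | mem x hx =>
        rcases hx with hx | hx
        · obtain ⟨h, i, j, rfl⟩ := hx
          exact (hent h i j).1
        · have hx' : x = w := hx
          subst hx'
          rw [hw, map_inv₀, hιy]
          exact hyA
      | algebraMap e =>
        have h1 : ι (algebraMap (ZMod 2) L e) = algebraMap (ZMod 2) F e :=
          pts_zmod (ι : L →+* F) e
        rw [h1]
        exact (hθ' (algebraMap (ZMod 2) (OO 2 ρ) e)).1
      | add x x' _ _ h1 h2 => rw [map_add]; exact A.add_mem h1 h2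
      | mul x x' _ _ h1 h2 => rw [map_mul]; exact A.mul_mem h1 h2
    let ζ0 : Zw r w →+* κ := θ.comp
      (((ι : L →+* F).comp (Zw r w).val.toRingHom).codRestrict A fun z => hιZ z z.2)
    let ζ : Zw r w →ₐ[ZMod 2] κ := { ζ0 with commutes' := fun e => pts_zmod ζ0 e }
    refine ⟨ζ, ?_⟩
    apply Subtype.ext
    change pts_e r w ζ = s
    ext1 h
    apply Subtype.ext
    ext i j
    rw [pts_e_apply]
    exact (hent h i j).2
  · intro ζ h i j
    rfl

end Pool.Agent.FrNC
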