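import Mathlib

set_option autoImplicit false

namespace Pool.Agent.FrNC

open QuadraticAlgebra Matrix

section
variable {K L : Type} [Field K] [Field L] [Algebra K L] (t : K)

/-- the quadratic algebra `K[G]`, `G ^ 2 = t * G + 1` -/
abbrev QA (K : Type) [Field K] (t : K) : Type := QuadraticAlgebra K 1 t

/-- extension of scalars -/
def io : QA K t →+* QA L (algebraMap K L t) where
  toFun z := ⟨algebraMap K L z.re, algebraMap K L z.im⟩
  map_one' := by ext <;> simp
  map_zero' := by ext <;> simp
  map_add' a b := by ext <;> simp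
  map_mul' a b := by ext <;> simp

theorem io_re (z : QA K t) : (io (L := L) t z).re = algebraMap K L z.re := rfl
theorem io_im (z : QA K t) : (io (L := L) t z).im = algebraMap K L z.im := rfl

theorem io_inj : Function.Injective (io (L := L) t) := by
  intro a b h
  have h1 := congrArg QuadraticAlgebra.re h
  have h2 := congrArg QuadraticAlgebra.im h
  rw [io_re, io_re] at h1
  rw [io_im, io_im] at h2
  exact QuadraticAlgebra.ext ((algebraMap K L).injective h1) ((algebraMap K L).injective h2)

theorem io_star (z : QA K t) : io (L := L) t (star z) = star (io t z) := by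
  ext
  · simp [io_re, io_im]
  · simp [io_im]

end

section
variable {L : Type} [Field L] (s : L)

/-- the part of a matrix which commutes with the companion matrix -/
def zz (m : Matrix (Fin 2) (Fin 2) L) : QA L s :=
  ⟨(m 0 1 + m 1 0) / s + m 0 0, (m 0 0 + m 1 1) / s⟩

/-- the first column of the part of a matrix which anticommutes with the companion matrix -/
def uu (m : Matrix (Fin 2) (Fin 2) L) : QA L s :=
  ⟨(m 0 1 + m 1 0) / s, m 1 0 + (m 0 0 + m 1 1) / s⟩

variable {s}

theorem zz_add_uu [CharP L 2] (m : Matrix (Fin 2) (Fin 2) L) : zz s m + uu s m = ⟨m 0 0, m 1 0⟩ := by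
  have h2 : (2 : L) = 0 := CharTwo.two_eq_zero
  ext
  · simp only [zz, uu, QuadraticAlgebra.re_add]
    linear_combination ((m 0 1 + m 1 0) / s) * h2
  · simp only [zz, uu, QuadraticAlgebra.im_add]
    linear_combination ((m 0 0 + m 1 1) / s) * h2

theorem zz_mul [CharP L 2] (hs : s ≠ 0) (m m' : Matrix (Fin 2) (Fin 2) L) :
    zz s (m * m') = zz s m * zz s m' + uu s m * star (uu s m') := by
  have h2 : (2 : L) = 0 := CharTwo.two_eq_zero
  ext
  · simp only [zz, uu, QuadraticAlgebra.re_add, QuadraticAlgebra.re_mul, re_star, im_star,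
      Matrix.mul_apply, Fin.sum_univ_two]
    field_simp
    rw [← sub_eq_zero]
    ring_nf
    simp [h2]
  · simp only [zz, uu, QuadraticAlgebra.im_add, QuadraticAlgebra.im_mul, re_star, im_star,
      Matrix.mul_apply, Fin.sum_univ_two]
    field_simp
    rw [← sub_eq_zero]
    ring_nf
    simp [h2]

theorem uu_mul [CharP L 2] (hs : s ≠ 0) (m m' : Matrix (Fin 2) (Fin 2) L) :
    uu s (m * m') = zz s m * uu s m' + star (zz s m') * uu s m := by
  have h2 : (2 : L) = 0 := CharTwo.two_eq_zero
  ext
  · simp only [zz, uu, QuadraticAlgebra.re_add, QuadraticAlgebra.re_mul, re_star, im_star,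
      Matrix.mul_apply, Fin.sum_univ_two]
    field_simp
    rw [← sub_eq_zero]
    ring_nf
    simp [h2]
  · simp only [zz, uu, QuadraticAlgebra.im_add, QuadraticAlgebra.im_mul, re_star, im_star,
      Matrix.mul_apply, Fin.sum_univ_two]
    field_simp
    rw [← sub_eq_zero]
    ring_nf
    simp [h2]

theorem star_sub [CharP L 2] (z : QA L s) : z + star z = algebraMap L _ (s * z.im) := by
  have h2 : (2 : L) = 0 := CharTwo.two_eq_zero
  ext
  · simp
    linear_combination z.re * h2
  · simp

/-- the second column -/
theorem col2 [CharP L 2] (hs : s ≠ 0) (m : Matrix (Fin 2) (Fin 2) L) :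
    zz s m * ⟨0, 1⟩ + star ⟨0, 1⟩ * uu s m = ⟨m 0 1, m 1 1⟩ := by
  have h2 : (2 : L) = 0 := CharTwo.two_eq_zero
  ext
  · simp only [zz, uu, QuadraticAlgebra.re_add, QuadraticAlgebra.re_mul, re_star, im_star]
    field_simp
    ring
  · simp only [zz, uu, QuadraticAlgebra.im_add, QuadraticAlgebra.im_mul, re_star, im_star]
    field_simp
    rw [← sub_eq_zero]
    ring_nf
    simp [h2]

end

/-! ## The Laurent polynomials -/

section
variable {K L : Type} [Field K] [Field L] [Algebra K L] (t : K)

/-- Laurent polynomials over `K[G]` -/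
abbrev VV (K : Type) [Field K] (t : K) : Type := AddMonoidAlgebra (QA K t) ℤ

/-- the image of the variable -/
noncomputable def sgM (e : K) (he : e ≠ 0) : Multiplicative ℤ →* VV K t where
  toFun k := AddMonoidAlgebra.single (-k.toAdd) (algebraMap K (QA K t) (e ^ k.toAdd))
  map_one' := by
    rw [toAdd_one, neg_zero, zpow_zero, map_one]; rfl
  map_mul' a b := by
    rw [AddMonoidAlgebra.single_mul_single, toAdd_mul, zpow_add₀ he, map_mul, neg_add]

/-- conjugate constants -/
noncomputable def sgC : QA K t →+* VV K t where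
  toFun a := AddMonoidAlgebra.single 0 (star a)
  map_one' := by rw [star_one]; rfl
  map_mul' a b := by rw [AddMonoidAlgebra.single_mul_single, star_mul, mul_comm, add_zero]
  map_zero' := by rw [star_zero, AddMonoidAlgebra.single_zero]
  map_add' a b := by rw [star_add, AddMonoidAlgebra.single_add]

/-- the involution of the Laurent polynomials -/
noncomputable def sg (e : K) (he : e ≠ 0) : VV K t →+* VV K t :=
  AddMonoidAlgebra.liftNCRingHom (sgC t) (sgM t e he) (fun _ _ => Commute.all _ _)

theorem sg_single (e : K) (he : e ≠ 0) (k : ℤ) (a : QA K t) :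
    sg t e he (AddMonoidAlgebra.single k a) =
      AddMonoidAlgebra.single (-k) (star a * algebraMap K (QA K t) (e ^ k)) := by
  rw [sg, AddMonoidAlgebra.liftNCRingHom_single]
  change AddMonoidAlgebra.single 0 (star a) * AddMonoidAlgebra.single (-k)
    (algebraMap K (QA K t) (e ^ k)) = _
  rw [AddMonoidAlgebra.single_mul_single, zero_add]

theorem sg_coeff (e : K) (he : e ≠ 0) (v : VV K t) (k : ℤ) :
    (sg t e he v).coeff k = star (v.coeff (-k)) * algebraMap K (QA K t) (e ^ (-k)) := by
  refine AddMonoidAlgebra.induction_linear (motive := fun v =>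
    (sg t e he v).coeff k = star (v.coeff (-k)) * algebraMap K (QA K t) (e ^ (-k))) v ?_ ?_ ?_
  · rw [map_zero]
    change (0 : QA K t) = star (0 : QA K t) * _
    rw [star_zero, zero_mul]
  · intro a b ha hb
    rw [map_add, AddMonoidAlgebra.coeff_add, AddMonoidAlgebra.coeff_add, Finsupp.add_apply,
      Finsupp.add_apply, ha, hb, star_add, add_mul]
  · intro j a
    rw [sg_single, AddMonoidAlgebra.coeff_single, AddMonoidAlgebra.coeff_single,
      Finsupp.single_apply, Finsupp.single_apply]
    by_cases h : j = -k
    · subst h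
      rw [if_pos (by omega), if_pos rfl]
    · rw [if_neg h, if_neg (by omega), star_zero, zero_mul]

theorem star_al {s : L} (x : L) : star (algebraMap L (QA L s) x) = algebraMap L (QA L s) x := by
  ext
  · simp
  · simp

/-- evaluation -/
noncomputable def lamM (Om : (QA L (algebraMap K L t))ˣ) :
    Multiplicative ℤ →* QA L (algebraMap K L t) where
  toFun k := ((Om ^ k.toAdd : (QA L (algebraMap K L t))ˣ) : QA L (algebraMap K L t))
  map_one' := by simp
  map_mul' a b := by
    rw [toAdd_mul, _root_.zpow_add, Units.val_mul]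

/-- evaluation at `Om` -/
noncomputable def lam (Om : (QA L (algebraMap K L t))ˣ) : VV K t →+* QA L (algebraMap K L t) :=
  AddMonoidAlgebra.liftNCRingHom (io t) (lamM t Om) (fun _ _ => Commute.all _ _)

theorem lam_single (Om : (QA L (algebraMap K L t))ˣ) (k : ℤ) (a : QA K t) :
    lam t Om (AddMonoidAlgebra.single k a) = io t a * ((Om ^ k : (QA L (algebraMap K L t))ˣ) :
      QA L (algebraMap K L t)) := by
  rw [lam, AddMonoidAlgebra.liftNCRingHom_single]
  rfl

theorem lam_sg (e : K) (he : e ≠ 0) (Om : (QA L (algebraMap K L t))ˣ)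
    (hOm : (Om : QA L (algebraMap K L t)) * star (Om : QA L (algebraMap K L t)) =
      algebraMap L _ (algebraMap K L e)) (v : VV K t) :
    lam t Om (sg t e he v) = star (lam t Om v) := by
  have hst : ∀ k : ℤ, star ((Om ^ k : (QA L (algebraMap K L t))ˣ) : QA L (algebraMap K L t)) =
      algebraMap L _ (algebraMap K L (e ^ k)) *
        ((Om ^ (-k) : (QA L (algebraMap K L t))ˣ) : QA L (algebraMap K L t)) := by
    intro k
    have h1 : ∀ n : ℕ, star ((Om ^ n : (QA L (algebraMap K L t))ˣ) : QA L (algebraMap K L t)) =
      algebraMap L _ (algebraMap K L (e ^ n)) *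
        ((Om ^ (-(n : ℤ)) : (QA L (algebraMap K L t))ˣ) : QA L (algebraMap K L t)) := by
      intro n
      have h2 : ((Om ^ n : (QA L (algebraMap K L t))ˣ) : QA L (algebraMap K L t)) *
          star ((Om ^ n : (QA L (algebraMap K L t))ˣ) : QA L (algebraMap K L t)) =
          algebraMap L _ (algebraMap K L (e ^ n)) := by
        rw [Units.val_pow_eq_pow_val, star_pow, ← mul_pow, hOm, map_pow, map_pow]
      rw [← h2]
      rw [_root_.zpow_neg, zpow_natCast, mul_comm, ← mul_assoc, Units.inv_mul, one_mul]
    have hn : ∀ n : ℕ, star ((Om ^ (-(n : ℤ)) : (QA L (algebraMap K L t))ˣ) :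
        QA L (algebraMap K L t)) =
      algebraMap L _ (algebraMap K L (e ^ (-(n : ℤ)))) *
        ((Om ^ (n : ℤ) : (QA L (algebraMap K L t))ˣ) : QA L (algebraMap K L t)) := by
      intro n
      have h3 := congrArg star (h1 n)
      rw [star_star, star_mul, mul_comm] at h3
      have h4 : star (algebraMap L (QA L (algebraMap K L t)) (algebraMap K L (e ^ n))) =
          algebraMap L (QA L (algebraMap K L t)) (algebraMap K L (e ^ n)) := star_al _
      rw [h4] at h3
      rw [zpow_natCast, h3, ← mul_assoc, ← map_mul, ← map_mul]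
      have h5 : e ^ (-(n : ℤ)) * e ^ n = 1 := by
        rw [_root_.zpow_neg, zpow_natCast, inv_mul_cancel₀ (pow_ne_zero _ he)]
      rw [h5, map_one, map_one, one_mul]
    rcases Int.eq_nat_or_neg k with ⟨n, rfl | rfl⟩
    · have := h1 n
      rw [← zpow_natCast, ← zpow_natCast] at this
      exact this
    · rw [hn n, neg_neg]
  refine AddMonoidAlgebra.induction_linear (motive := fun v =>
    lam t Om (sg t e he v) = star (lam t Om v)) v ?_ ?_ ?_
  · simp
  · intro a b ha hb
    rw [map_add, map_add, map_add, ha, hb, star_add]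
  · intro j a
    rw [sg_single, lam_single, lam_single, star_mul, hst, map_mul, io_star]
    have : io (L := L) t (algebraMap K (QA K t) (e ^ j)) =
        algebraMap L (QA L (algebraMap K L t)) (algebraMap K L (e ^ j)) := by
      ext
      · rw [io_re]; simp
      · rw [io_im]; simp
    rw [this]
    ring

end

end Pool.Agent.FrNC
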