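import Pool.Agent.Lib.MP_305fdd_al.Fr.N.Int
import Pool.Agent.Lib.MP_305fdd_al.Fr.N.C.TM1

/-!
# MP_305fdd_al, F_r project, section N, parts C and D (torus slice, counting): the pieces [FrN C ..]

Every `def S_xx : Prop` is one independent piece; its docstring contains the complete proof.
Characteristic `2` everywhere (except `S_dim`).

Notation: `T g ≠ 0`.  `r` is `ρ` in the basis `e_1, ρ(g) e_1`, so `r g` is the companion matrix
`[[0, 1], [1, T g]]`; `L = K(entries of r)`.  `zz`, `uu` (file `C/TM1.lean`) are the coordinates of a matrix in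
`F[G] ⊕ F[G] j` (`G` the companion matrix): `zz m` is the part which commutes with `G`, `uu m` is the
first column of the part which anticommutes with `G`, as an element of the quadratic algebra.
-/

set_option autoImplicit false

namespace Pool.Agent.FrNC

open Pool.Agent.FrN Pool.Agent.F2Ch Pool.Agent.F2RF Pool.Agent.F2TF

/-- the companion matrix (characteristic `2`) -/
def cmp {R : Type} [CommRing R] (t : R) : Matrix (Fin 2) (Fin 2) R := !![0, 1; 1, t]

/-- the change of basis -/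
def Pm {Γ F : Type} [Group Γ] [Field F] (ρ : Γ →* Matrix.SpecialLinearGroup (Fin 2) F) (g : Γ) :
    Matrix (Fin 2) (Fin 2) F := !![1, (ρ g).1 0 0; 0, (ρ g).1 1 0]

/-- `r` (over `L`) is the representation `ρ` (over `F`) in the basis `e_1, ρ(g) e_1`, and `L` is
generated by the entries of `r` over `K`. -/
structure CF {Γ K L F : Type} [Group Γ] [Field K] [Field L] [Field F] [Algebra K L] [Algebra K F]
    (ι : L →ₐ[K] F) (ρ : Γ →* Matrix.SpecialLinearGroup (Fin 2) F)
    (r : Γ →* Matrix.SpecialLinearGroup (Fin 2) L) (g : Γ) : Prop where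
  cne : (ρ g).1 1 0 ≠ 0
  conj : ∀ h, Pm ρ g * (r h).1.map ι = (ρ h).1 * Pm ρ g
  gen : IntermediateField.adjoin K {x | ∃ h i j, x = (r h).1 i j} = ⊤

/-- the ring generated by the entries of `r` and one more element -/
def Zw {Γ L : Type} [Group Γ] [Field L] [Algebra (ZMod 2) L]
    (r : Γ →* Matrix.SpecialLinearGroup (Fin 2) L) (w : L) : Subalgebra (ZMod 2) L :=
  Algebra.adjoin (ZMod 2) ({x | ∃ h i j, x = (r h).1 i j} ∪ {w})

theorem mem_Zw {Γ L : Type} [Group Γ] [Field L] [Algebra (ZMod 2) L]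
    (r : Γ →* Matrix.SpecialLinearGroup (Fin 2) L) (w : L) (h : Γ) (i j : Fin 2) :
    (r h).1 i j ∈ Zw r w := Algebra.subset_adjoin (Or.inl ⟨h, i, j, rfl⟩)

/-- `X ^ 2 + t X + 1` has a root -/
def Sp {κ : Type} [Field κ] (t : κ) : Prop := ∃ x : κ, x ^ 2 + t * x + 1 = 0

/-! ## Fields -/

/-- [FrN C dim] (about 60 lines) The number of elements of a `p`-basis is the transcendence degree.
Proof. `F2Ch.t_B4` (F2/ChMain.lean) for `k = ZMod p` (`FracGen` from `B.FG`, `Frc B`: a finite generating family of `B`) gives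
`d'`, `IsPB p b ρ` with `p ^ d'` elements and `trdeg K = d'`, so `d' = n`.  `MB p t π` contains `IsPB p (monY t) π` with `p ^ d` elements.
Two families as in `IsPB` have the same number of elements (`F2Ch.p_B2`: see `trge_span` in Fr/N/J_trge.lean, `card ι ≤ N` for a spanning
family with `N` members; use it in both directions), so `p ^ d = p ^ n` and `d = n`. -/
def S_dim : Prop :=
  ∀ (p : ℕ) [Fact p.Prime] (K : Type) [Field K] [Algebra (ZMod p) K]
    (B : Subalgebra (ZMod p) K), B.FG → Frc B → ∀ (n d : ℕ) (t : Fin d → K)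
    (π : (Fin d → Fin p) → K → K), MB p t π → Algebra.trdeg (ZMod p) K = n → d = n

/-- [FrN C pbx] (about 200 lines) The `2`-basis of `L = K(x, y)`, `x ^ 2 + a x y + y ^ 2 = e`.
Proof. Write `k` for `algebraMap K L k`.  (1) The field `K_1 = K(y)` is the field of fractions of the polynomial ring `K[y]`
(`y` is transcendental).  For `P = ∑ c_i y^i`, `P = ∑_a [ (∑_i π a (c_(2i)) y^i)^2 + y (∑_i π a (c_(2i+1)) y^i)^2 ] monY t a`
(`c = ∑_a (π a c)^2 monY t a`), and `P / Q = P Q / Q^2`.  UNIQUENESS: if `∑_a (A_a^2 + y B_a^2) monY t a = 0` with `A_a, B_a ∈ K_1`,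
multiply by the square of a common denominator: `A_a, B_a ∈ K[y]`; comparing the coefficients of the even and of the odd
powers of `y` (`(∑ c_i y^i)^2 = ∑ c_i^2 y^(2i)`): `∑_a (coefficient of A_a)^2 monY t a = 0`, so all coefficients are `0`.
(2) `L = K_1 ⊕ K_1 x` or `L = K_1`: the elements `u + v x` (`u, v ∈ K_1`) form a field which contains `K, x, y`, so it is `L`
(`adjoin = ⊤`).  `x ∉ K_1`: if `x ∈ K_1`, `x` is integral over `K[y]`, so a polynomial in `y`; if its degree is `m ≥ 2` then `x^2` is the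
only term of degree `2 m` of `x^2 + a x y + y^2 = e`; if `x = u y + v` (`u, v ∈ K`) then `(u^2 + a u + 1) y^2 + a v y + v^2 = e`,
so `v = 0`, `e = 0`.  (Here `e ≠ 0` is used.)  (3) `x = (x^2 + y^2 + e) / (a y)`, so `L = K_1 + K_1 x^2`, and `1, x^2` are linearly independent over `K_1`.
Existence of the coordinates: `f = u + v x^2`, `u, v ∈ K_1`: `u = ∑_b U_b^2 m_b`, `v = ∑_b V_b^2 m_b` with `m_b = y^(b_last) monY t (b restricted)`, so
`f = ∑_b (U_b + V_b x)^2 m_b`.  Uniqueness: `∑_b (U_b + V_b x)^2 m_b = ∑ U_b^2 m_b + x^2 ∑ V_b^2 m_b`; both sums are `0`.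
So `monY (Fin.snoc t y)` is a `2`-basis; its members are nonzero.  (4) Last statements: uniqueness of the coordinates: `k = ∑_a (π a k)^2 monY t a`. -/
def S_pbx : Prop :=
  ∀ (K L : Type) [Field K] [Field L] [Algebra K L] [CharP K 2] [CharP L 2] (d : ℕ)
    (t : Fin d → K) (π : (Fin d → Fin 2) → K → K), MB 2 t π → ∀ (x y : L) (a e : K), a ≠ 0 →
    e ≠ 0 → Transcendental K y →
    x ^ 2 + algebraMap K L a * x * y + y ^ 2 = algebraMap K L e →
    IntermediateField.adjoin K {x, y} = ⊤ →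
    ∃ π' : (Fin (d + 1) → Fin 2) → L → L,
      MB 2 (Fin.snoc (α := fun _ => L) (fun i => algebraMap K L (t i)) y) π' ∧
      (∀ k : K, π' j0 (algebraMap K L k) = algebraMap K L (π j0 k)) ∧
      ∀ k : K, π' j0 (algebraMap K L k * y) = 0

/-- [FrN C cne] (about 100 lines) The lower left entry of `ρ g`.
Proof. Suppose it is `0`.  `O = OO 2 ρ` is a finitely generated `F_2`-algebra (`HB.fg`; a finite generating set of `Γ`, closed
under inverses: the entries of a product are polynomials in the entries) and a domain, `T g ∈ O` (the trace)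
is not `0`, so there is a maximal ideal `m` of `O` with `T g ∉ m` (Jacobson ring), `κ = O / m` is a finite field.
`s h = ` the image of `ρ h` in `SL_2(κ)`: `s g = [[a, b], [0, d]]` with `a + d ≠ 0`.  Let `u = [[1, 0], [1, 1]]` if this gives a nonzero
lower left entry of `u (s g) u⁻¹` (it is `a + d + b`, characteristic 2), and otherwise `b = a + d ≠ 0` and `u = [[0, 1], [1, 0]]` gives the
entry `b`.  By `HB.pts` the representation `u s u⁻¹` is `φ ∘ ρ` for some `φ : O → κ`, so its lower left entry at `g` is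
`φ 0 = 0`, a contradiction. -/
def S_cne : Prop :=
  ∀ (b : ℕ) (Γ K F : Type) [Group Γ] [Field K] [Field F] [Algebra (ZMod 2) K]
    [Algebra (ZMod 2) F] [Algebra K F] (T : Γ → K)
    (ρ : Γ →* Matrix.SpecialLinearGroup (Fin 2) F), HB 2 b Γ K F T ρ →
    ∀ g : Γ, T g ≠ 0 → (ρ g).1 1 0 ≠ 0

/-- [FrN C irr] (about 200 lines) Some element has an invertible anticommuting part.
Proof. Let `E` be an algebraic closure of `L`, `t = T g ≠ 0`, `ψ ∈ E` a root of `X^2 + t X + 1`; `ψ ≠ ψ⁻¹ = ψ + t`.  The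
matrix `r g = [[0, 1], [1, t]]` has the eigenvectors `v = (1, ψ)` and `v' = (1, ψ⁻¹)` (`r g v = ψ v`: `(ψ, 1 + t ψ) = (ψ, ψ^2)`).  Let
`r h = [[a(h), b(h)], [c(h), d(h)]]` in the basis `v, v'`.  CLAIM `b(h) c(h) = (uu t (r h)).norm` up to a nonzero factor which depends only on
`t`: the anticommuting part of `m` is `m_1 = [[α, β], [β + t α, α]]` with `α = (m_01 + m_10)/t`, `β = m_01 + (m_00 + m_11)/t`,
`uu m = (α, β + t α)`; in the eigenbasis `m_1 = [[0, b], [c, 0]]`, so `det m_1 = b c` (char 2), and `det m_1 = α^2 + β (β + t α) = norm (uu m)`.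
Suppose `norm (uu t (r h)) = 0` for all `h`.  Then `b(h) c(h) = 0` for all `h`.  `{h | c(h) = 0}` and `{h | b(h) = 0}` are
subgroups (stabilisers of the lines `E v`, `E v'`) whose union is `Γ`, so one of them is `Γ`.  Hence `χ : Γ → Eˣ` (`χ = a`) is a homomorphism
and `T h = χ(h) + χ(h)⁻¹` for all `h` (determinant 1).  Let `A = χ(Γ)`, a finitely generated abelian group, `A ≅ ℤ^m × finite`, so
`2^m ≤ |Hom(A, Z/2)| ≤ |Hom(Γ, Z/2)| = 2^b` (`HB.ab`), `m ≤ b`.  The field `F_2(A) ⊆ E` is generated by `m` elements and roots of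
unity, so its transcendence degree is at most `m`, and it contains the image of `K = Frac F_2[T h]`.  So
`3 b - 3 = trdeg K ≤ b`, i.e. `2 b ≤ 3`, contradiction to `b ≥ 2`. -/
def S_irr : Prop :=
  ∀ (b : ℕ) (Γ K F L : Type) [Group Γ] [Field K] [Field F] [Field L] [Algebra (ZMod 2) K]
    [Algebra (ZMod 2) F] [Algebra K F] [Algebra K L] [CharP L 2] (T : Γ → K)
    (ρ : Γ →* Matrix.SpecialLinearGroup (Fin 2) F), 2 ≤ b → HB 2 b Γ K F T ρ →
    ∀ (r : Γ →* Matrix.SpecialLinearGroup (Fin 2) L) (g : Γ), T g ≠ 0 →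
    (r g).1 = cmp (algebraMap K L (T g)) → (∀ h, (r h).1.trace = algebraMap K L (T h)) →
    ∃ h₀ : Γ, (uu (algebraMap K L (T g)) (r h₀).1).norm ≠ 0

/-- [FrN C tra] (about 150 lines) Transcendence.
Proof. Let `x, y` be the coordinates of `Om = uu t (r h₀)`.  (1) `L = K(x, y)`: for `h ∈ Γ` the entries of `r h` are in `K(x, y)`.  Indeed with
`z_h = zz t (r h)`, `u_h = uu t (r h)` the identities `zz_mul`, `col2`, `zz_add_uu` of `C/TM1.lean` give: `z_h` has coordinates in `K`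
(`z_h = (T(g h)/t + T(h), T(h)/t)`, compute `trace (cmp t * r h)`), `u_h * star Om = z_(h h₀) + z_h z_(h₀)` has coordinates in `K`, so
`u_h = (u_h star Om) Om / norm Om` has coordinates in `K(x, y)`; the first column of `r h` is `z_h + u_h`, the second is
`z_h G + star G * u_h`.  `CF.gen`.  (2) `norm Om = x^2 + t x y + y^2` is in `K` (it is the coordinate of `Om star Om = z_(h₀ h₀) + z_(h₀)^2`).
So if `y` is algebraic over `K` then so is `x`.  (3) Suppose this.  Then `ι L` is algebraic over `K`, and `F` is generated over `ι L` by the two elements `a = (ρ g) 0 0`,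
`c = (ρ g) 1 0`: the entries of `ρ h = P (r h) P⁻¹` are in `ι L(a, c)` (`CF.conj`), and `F = Frac (OO 2 ρ)` (`HB.fracF`).  So
`trdeg_{F_2} F ≤ trdeg_{F_2} K + 2 = 3 b - 1 < 3 b`, contradiction to `HB.trF`. -/
def S_tra : Prop :=
  ∀ (b : ℕ) (Γ K F L : Type) [Group Γ] [Field K] [Field F] [Field L] [Algebra (ZMod 2) K]
    [Algebra (ZMod 2) F] [Algebra K F] [Algebra K L] [CharP L 2] (T : Γ → K)
    (ρ : Γ →* Matrix.SpecialLinearGroup (Fin 2) F), 1 ≤ b → HB 2 b Γ K F T ρ →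
    ∀ (ι : L →ₐ[K] F) (r : Γ →* Matrix.SpecialLinearGroup (Fin 2) L) (g : Γ), T g ≠ 0 →
    CF ι ρ r g → (r g).1 = cmp (algebraMap K L (T g)) →
    (∀ h, (r h).1.trace = algebraMap K L (T h)) →
    ∀ h₀ : Γ, (uu (algebraMap K L (T g)) (r h₀).1).norm ≠ 0 →
    Transcendental K (uu (algebraMap K L (T g)) (r h₀).1).im ∧
    IntermediateField.adjoin K {(uu (algebraMap K L (T g)) (r h₀).1).re,
      (uu (algebraMap K L (T g)) (r h₀).1).im} = ⊤

/-! ## Regularity of the slice -/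

/-- [FrN C reg] (about 250 lines) The ring of the slice is regular.
Proof. `Z = Zw r w` is a finitely generated `F_2`-algebra.  Let `m` be a maximal ideal; `κ = Z / m` is a finite field (Zariski's lemma:
`finite_of_finite_type_of_isJacobsonRing`), `q = |κ|`.  It is enough that `dim_κ m / m^2 ≤ 3 b - 2` (then by Nakayama, or: choose
`y_1, .., y_N ∈ m` generating `m / m^2`, i.e. `m = (y) + m^2`; `m` is finitely generated, so there is `s ∈ 1 + m` with `s m ⊆ (y)`:
`Submodule.exists_sub_one_mem_and_smul_le_of_fg_of_le_sup` or `Ideal` Nakayama; if fewer than `3 b - 2` elements are enough, add zeros).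
TANGENT VECTORS. (i) Let `V = Hom_κ(m / m^2, κ)`.  For every `λ ∈ V` there is a ring homomorphism `θ_λ : Z → κ[ε]` (`DualNumber κ`)
which is `z̄` modulo `ε` and `θ_λ(z) = λ(z) ε` for `z ∈ m`: as `z^q - z ∈ m`, we can put
`θ_λ(z) = z̄ + λ(z - z^q) ε`: additive, and `z w - (z w)^q = z (w - w^q) + w^q (z - z^q)`, so it is multiplicative (`w̄^q = w̄`).  Different `λ` give
different `θ_λ`.  So there are at least `|V| = q^(dim m/m^2)` such homomorphisms `θ : Z → κ[ε]` over `Z → κ`.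
(ii) Each `θ` gives a lift `s_θ = θ ∘ r : Γ → SL_2(κ[ε])` of `s = (r mod m)` with `s_θ(g) = cmp (θ t)`, and `θ` is determined by `s_θ`: `Z` is generated
by the entries and `w`, and `θ(w) = θ(w⁻¹)⁻¹` with `w⁻¹` a polynomial in the entries.
(iii) For `X ∈ M_2(κ)` put `s_(θ,X) = (1 + ε X) s_θ (1 - ε X)`, again a lift of `s` with determinant `1`.  Let `X` run through the matrices
`X = [[x, x'], [0, 0]]` (`q^2` of them).  The map `(θ, X) ↦ s_(θ,X)` is injective: `s_(θ,X)(g) = cmp t̄ + ε (t' E_22 + [X, cmp t̄])` (`t' = ` the `ε`-part of `θ t`).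
The trace of the `ε`-part is `t'`, so `[X, cmp t̄]` is determined; with `cmp t̄ = [[0,1],[1,t̄]]`, `X cmp t̄ = [[x', x + x' t̄], [0, 0]]`, `cmp t̄ X = [[0, 0], [x, x']]`, so
`[X, cmp t̄]` has the entries `x'`, `x + x' t̄`, `-x`, `-x'`: `X` is determined, and then `s_θ`.  Hence
`q^(dim m/m^2) q^2 ≤ #lifts ≤ q^(3 b)` (`hl`; the set of lifts is finite, because `Γ` is finitely generated), so `dim m / m^2 ≤ 3 b - 2`. -/
def S_reg : Prop :=
  ∀ (b : ℕ) (Γ L : Type) [Group Γ] [Group.FG Γ] [Field L] [Algebra (ZMod 2) L]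
    (r : Γ →* Matrix.SpecialLinearGroup (Fin 2) L) (g : Γ) (t w : L), 1 ≤ b →
    (∀ (κ : Type) [Field κ] [Finite κ] [Algebra (ZMod 2) κ]
      (s : Γ →* Matrix.SpecialLinearGroup (Fin 2) κ),
      Nat.card {s' : Γ →* Matrix.SpecialLinearGroup (Fin 2) (DualNumber κ) //
        ∀ g i j, TrivSqZeroExt.fst ((s' g).1 i j) = (s g).1 i j} ≤ Nat.card κ ^ (3 * b)) →
    (r g).1 = cmp t → w ≠ 0 →
    w⁻¹ ∈ Algebra.adjoin (ZMod 2) {x | ∃ h i j, x = (r h).1 i j} →
    Reg (3 * b - 2) (Zw r w)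

/-! ## Points -/

/-- [FrN C cnt] (about 200 lines) Representations and representations with companion matrix at `g`.
Proof. `q = |κ|`.  (1) Let `t ≠ 0`.  A matrix `m ∈ SL_2(κ)` with trace `t` is not scalar (char 2), so there is `v` with `v, m v` a basis, and
`m` is conjugate to `cmp t` under `GL_2(κ)` (`m^2 v = t m v + v`).  (2) The number of `m ∈ SL_2(κ)` with trace `t`: `m = [[a, b], [c, a + t]]`, `a (a + t) + b c = 1`;
for given `a` the number of `(b, c)` with `b c = a^2 + t a + 1` is `q - 1` if this is not `0` and `2 q - 1` if it is `0`; the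
number of `a` with `a^2 + t a + 1 = 0` is `2` if `Sp t` (the roots `a`, `a + t` are different) and `0` otherwise.  So the number is
`q (q - 1) + 2 q = q (q + 1)` or `q (q - 1)`.  (3) For `m` with trace `t` choose `u_m ∈ GL_2(κ)` with `u_m (cmp t) u_m⁻¹ = m`.  The map
`(m, s) ↦ u_m s u_m⁻¹` from pairs (`m ∈ SL_2(κ)` with trace `≠ 0`, `s` with `P s`, `s g = cmp (trace m)`) to `{s | P s}` is a bijection
(inverse: `m = s g`).  Sum over `m`, or over `t`. -/
def S_cnt : Prop :=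
  ∀ (Γ κ : Type) [Group Γ] [Group.FG Γ] [Field κ] [Finite κ] [CharP κ 2] (g : Γ)
    (P : (Γ →* Matrix.SpecialLinearGroup (Fin 2) κ) → Prop),
    (∀ s s' : Γ →* Matrix.SpecialLinearGroup (Fin 2) κ, ∀ u : Matrix (Fin 2) (Fin 2) κ,
      u.det ≠ 0 → (∀ h, u * (s h).1 = (s' h).1 * u) → P s → P s') →
    (∀ s, P s → (s g).1.trace ≠ 0) →
    (Nat.card {s // P s} : ℤ) =
      Nat.card κ * (Nat.card κ + 1) *
        Nat.card {s // P s ∧ (s g).1 = cmp (s g).1.trace ∧ Sp (s g).1.trace} +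
      Nat.card κ * (Nat.card κ - 1) *
        Nat.card {s // P s ∧ (s g).1 = cmp (s g).1.trace ∧ ¬ Sp (s g).1.trace}

/-- [FrN C pts] (about 200 lines) The points of the slice.
Proof. (i) For `ζ : Zw r w → κ` let `e ζ = ζ ∘ r` (the entries of `r h` lie in `Zw r w`), a homomorphism to `SL_2(κ)` with `(e ζ) g = cmp (ζ t)`.
Injective: `ζ` is determined on the generators (`ζ w = (ζ w⁻¹)⁻¹`, and `w⁻¹ = y` is a polynomial in the traces `T h`, i.e. in the
entries of `r`).  (ii) With `φ : OO 2 ρ → κ` (`HB.pts`) belonging to `s = e ζ`: `φ y = ζ y ≠ 0`, because `y` is a polynomial in the traces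
(`Algebra.adjoin_induction` on `BB 2 T`).  (iii) Conversely let `s` satisfy `s g = cmp _` and `φ y ≠ 0`, `φ ∘ ρ = s`.  `c = (ρ g) 1 0 ∈ OO`, `φ c = 1`.
Let `A = {x ∈ F | ∃ N, x (c y)^N ∈ OO 2 ρ}`, a subalgebra, and `φ' : A → κ`, `φ'(x) = φ(x (c y)^N) / φ(c y)^N`, a well defined homomorphism
(`OO` is a domain).  `ι (r h) = P⁻¹ (ρ h) P` has entries in `A` (`P⁻¹ = [[1, -a/c], [0, 1/c]]`), `ι w = 1/y ∈ A`, so `ι (Zw r w) ⊆ A` and
`ζ = φ' ∘ ι`.  `ζ (r h) = φ'(P)⁻¹ s(h) φ'(P)` and `φ'(P) = [[1, 0], [0, 1]]` because `φ a = (s g) 0 0 = 0`, `φ c = 1`.  So `e ζ = s`. -/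
def S_pts : Prop :=
  ∀ (b : ℕ) (Γ K F L : Type) [Group Γ] [Field K] [Field F] [Field L] [Algebra (ZMod 2) K]
    [Algebra (ZMod 2) F] [Algebra (ZMod 2) L] [Algebra K F] [Algebra K L] (T : Γ → K)
    (ρ : Γ →* Matrix.SpecialLinearGroup (Fin 2) F), HB 2 b Γ K F T ρ →
    ∀ (ι : L →ₐ[K] F) (r : Γ →* Matrix.SpecialLinearGroup (Fin 2) L) (g : Γ), T g ≠ 0 →
    CF ι ρ r g → (r g).1 = cmp (algebraMap K L (T g)) →
    (∀ h, (r h).1.trace = algebraMap K L (T h)) →
    ∀ y : BB 2 T, (y : K) ≠ 0 → ∀ (κ : Type) [Field κ] [Finite κ] [Algebra (ZMod 2) κ],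
    ∃ e : (Zw r (algebraMap K L y)⁻¹ →ₐ[ZMod 2] κ) ≃
      {s : Γ →* Matrix.SpecialLinearGroup (Fin 2) κ //
        (s g).1 = cmp (s g).1.trace ∧ ∃ φ : OO 2 ρ →ₐ[ZMod 2] κ,
          (∀ h i j, φ ⟨(ρ h).1 i j, mem_OO ρ h i j⟩ = (s h).1 i j) ∧
          ∃ hy : algebraMap K F y ∈ OO 2 ρ, φ ⟨_, hy⟩ ≠ 0},
      ∀ ζ h i j, ζ ⟨(r h).1 i j, mem_Zw r _ h i j⟩ = ((e ζ).1 h).1 i j

/-- [FrN C zet] (about 300 lines) The twisted zeta function.
Proof. For `e ≥ 1` the set `cpt 2 Z e` is finite (finitely many homomorphisms `Z → F_(2^e)`).  For `m ∈ cpt 2 Z e` put `χ(m) = 1` if `X^2 + t X + 1` has a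
root in `Z / m` and `χ(m) = -1` otherwise.  `f_e = ∏_(m ∈ cpt 2 Z e) (1 - χ(m) X^e)`, a unit; `f_e ≡ 1` modulo `X^e`, so the infinite product
`f_0 = ∏_e f_e` makes sense: the coefficients of `∏_(e ≤ d) f_e` up to `X^d` do not depend on `d`; let `f_0` be the power series with
these coefficients; it is a unit; `f = f_0 ^ sgn N`.  (A) `red 2 (1 - χ X^e) = 1 - X^e`, so `red 2 (∏_(e ≤ d) f_e) = zu 2 Z d`, and `red 2 f` and
`zu 2 Z d ^ sgn N` agree up to `X^d` (`Cg d` is compatible with products and inverses).  (B) `LD (1 - χ X^e) s` with `s k = e χ^(k/e)` if `e ∣ k`, `s k = 0` otherwise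
(check: `X f' = - e χ X^e`, `f ∑_(j≥1) e χ^j X^(e j) = e χ X^e`).  `LD` is additive for products (`S_ld`, proved in F2/TF/P), also for inverses
(`f f⁻¹ = 1`), and `LD f s` up to degree `d` depends only on the coefficients up to `d`.  So `LD f s` with
`s k = sgn N ∑_(e ∣ k) ∑_(m ∈ cpt 2 Z e) e χ(m)^(k/e)`.  (C) COUNTING: a homomorphism `ζ : Z → F_(2^k)` has a kernel `m ∈ cpt 2 Z e`, `e ∣ k`, and for every
`m ∈ cpt 2 Z e`, `e ∣ k`, there are exactly `e` homomorphisms with kernel `m` (embeddings of `F_(2^e)` in `F_(2^k)`).  `X^2 + ζ(t) X + 1` has a root in `F_(2^k)` iff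
it has one in `Z / m` or `k / e` is even (if it has no root in the field `Z / m` it is irreducible, and its roots generate the quadratic
extension, which is contained in `F_(2^k)` iff `2 e ∣ k`); i.e. iff `χ(m)^(k/e) = 1`.  So
`#{ζ | Sp (ζ t)} - #{ζ | ¬ Sp (ζ t)} = ∑_(e ∣ k) ∑_m e χ(m)^(k/e) = sgn N * s k`. -/
def S_zet : Prop :=
  ∀ (Z : Type) [CommRing Z] [Algebra (ZMod 2) Z] [Algebra.FiniteType (ZMod 2) Z] (t : Z)
    (N : ℕ), ∃ (f : (PowerSeries ℤ)ˣ) (s : ℕ → ℤ), LD (f : PowerSeries ℤ) s ∧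
      (∀ d : ℕ, Cg d (red 2 f : PowerSeries (ZMod 2))
        ((zu 2 Z d ^ sgn N : (PowerSeries (ZMod 2))ˣ) : PowerSeries (ZMod 2))) ∧
      ∀ k, 1 ≤ k → sgn N * s k =
        (Nat.card {ζ : Z →ₐ[ZMod 2] GaloisField 2 k // Sp (ζ t)} : ℤ) -
        Nat.card {ζ : Z →ₐ[ZMod 2] GaloisField 2 k // ¬ Sp (ζ t)}

end Pool.Agent.FrNC
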