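import Pool.Agent.Lib.MP_305fdd_al.Fr.N.StmI
import Pool.Agent.Lib.MP_305fdd_al.Fr.N.C.Stm

/-!
# MP_305fdd_al, F_r project, section N, parts C and D: more pieces [FrN C ..] (assembly)

Every `def S_xx : Prop` is one independent piece; its docstring contains the complete proof.
-/

set_option autoImplicit false

namespace Pool.Agent.FrNC

open Pool.Agent.FrN Pool.Agent.F2Ch Pool.Agent.F2RF Pool.Agent.F2TF

/-- [FrN C lin] (about 120 lines) Linear independence of the powers of `Om` over `K[G]`.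
Proof. Write `s = algebraMap K L t`, `Om = x + y G` (`x = re`, `y = im`).  Let `E` be an algebraic closure of `L` and `ψ ∈ E` a root of
`X^2 + s X + 1`; `ψ' = ψ + s` is the other root, `ψ ψ' = 1`.  `ev : QA L s → E`, `z ↦ z.re + z.im ψ` and `ev' : z ↦ z.re + z.im ψ'` are ring
homomorphisms.  `τ = ev Om`, `τ' = ev' Om`; `τ τ' = e` (`ev (star z) = ev' z` in characteristic 2) and `τ + τ' = y s`.  If `τ` is algebraic over `K` then so is
`τ' = e / τ` and `y = (τ + τ') / s`: contradiction; so `τ` is transcendental over `K`, hence over `E_1 = K(ψ)` (algebraic over `K`;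
`IsAlgebraic.restrictScalars`), and the same for `τ'`.  Let `lam t Om v = 0`, i.e. `∑_k io (v.coeff k) * Om^k = 0`.  Apply `ev`:
`∑_k ev (io (v.coeff k)) τ^k = 0`, multiply by `τ^N` with `N` large: a polynomial over `E_1` which vanishes at `τ`, so `ev (io (v.coeff k)) = 0` for
all `k`.  Similarly with `ev'`.  For `a = v.coeff k`: `a.re + a.im ψ = 0 = a.re + a.im ψ'` in `E`, so `a.im s = 0`, `a = 0`. -/
def S_lin : Prop :=
  ∀ (K L : Type) [Field K] [Field L] [Algebra K L] [CharP K 2] [CharP L 2] (t e : K), t ≠ 0 →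
    e ≠ 0 → ∀ Om : (QA L (algebraMap K L t))ˣ,
    (Om : QA L (algebraMap K L t)) * star (Om : QA L (algebraMap K L t)) =
      algebraMap L _ (algebraMap K L e) →
    Transcendental K (Om : QA L (algebraMap K L t)).im → Function.Injective (lam t Om)

/-- [FrN C pvt] (about 60 lines) Transport of the polynomial along `K → L`.
Proof. `W_1 = ` the image of `V₀` in `L`, a `Ψ`-stable subspace of `V₁` into which every element of `V₁` is mapped by some power of `Ψ`; so `FrN.I_abs`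
(proved: `FrNA.p_abs` in Fr/N/A/Br.lean) gives `PV (toEnd hΨ) V₁ = PV (toEnd hΨ) W_1`, and the same for the existence of nuclei.  `W_1` is the image of `V₀` under the
equivariant injection `K → L`: nuclei of `V₀` and of `W_1` correspond to each other and the characteristic polynomials are the same (`PP_eq`,
`cp_eq`, `LinearEquiv.charpoly_conj` as in `PP_restrict` of the same file, or `PP_restrict` and `absP_equiv`).  If there is no nucleus both are `1`. -/
def S_pvt : Prop :=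
  ∀ (K L : Type) [Field K] [Field L] [Algebra K L] [Algebra (ZMod 2) K] [Algebra (ZMod 2) L]
    (Φ : K → K) (Ψ : L → L) (hΦ : IsPinv 2 Φ) (hΨ : IsPinv 2 Ψ),
    (∀ k, Ψ (algebraMap K L k) = algebraMap K L (Φ k)) →
    ∀ (V₀ : Submodule (ZMod 2) K) (V₁ : Submodule (ZMod 2) L),
    (∀ k, k ∈ V₀ ↔ algebraMap K L k ∈ V₁) → (∀ η ∈ V₁, Ψ η ∈ V₁) →
    (∀ η ∈ V₁, ∃ (e : ℕ) (k : K), Ψ^[e] η = algebraMap K L k) →
    PV (toEnd hΦ) V₀ = PV (toEnd hΨ) V₁ ∧
      ((∃ W, Nuc (toEnd hΨ) V₁ W) → ∃ W, Nuc (toEnd hΦ) V₀ W)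

/-- [FrN C cb] (about 100 lines) The count of `cnt` in terms of the slice.
Proof. `κ = GaloisField 2 k`, `q = 2 ^ k`.  For `s : Γ →* SL_2(κ)` let `P s` be: there is `φ : OO 2 ρ →ₐ κ` with `φ ∘ ρ = s` and `φ y ≠ 0` (`y ∈ OO` since `y` is a
polynomial in the traces `T h`).  `S_bij` (proved: `FrN.p_bij`): `cnt ρ y k = #{s | P s}`.  `P` is invariant under conjugation: if `u s = s' u`, `det u ≠ 0` then
`s` and `s'` have the same traces; let `φ'` belong to `s'` (`HB.pts`); `φ'` and `φ` agree on the traces, so on the image of `BB 2 T`, so `φ' y = φ y`.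
`P s` implies `trace (s g) ≠ 0`: `φ y = φ (T g) φ (z)`, `φ (T g) = trace (s g)`.  `S_cnt` for this `P`; the set `{s | P s ∧ s g = cmp _ ∧ Sp (trace (s g))}` is in
bijection with `{ζ | Sp (ζ t)}` by `S_pts` (`(e ζ) g` has the lower right entry `ζ ((r g) 1 1)` and trace equal to it, because it is a companion matrix). -/
def S_cb : Prop :=
  S_cnt → S_pts →
  ∀ (b : ℕ) (Γ K F L : Type) [Group Γ] [Field K] [Field F] [Field L] [Algebra (ZMod 2) K]
    [Algebra (ZMod 2) F] [Algebra (ZMod 2) L] [Algebra K F] [Algebra K L] (T : Γ → K)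
    (ρ : Γ →* Matrix.SpecialLinearGroup (Fin 2) F), HB 2 b Γ K F T ρ →
    ∀ (ι : L →ₐ[K] F) (r : Γ →* Matrix.SpecialLinearGroup (Fin 2) L) (g : Γ), T g ≠ 0 →
    CF ι ρ r g → (r g).1 = cmp (algebraMap K L (T g)) →
    (∀ h, (r h).1.trace = algebraMap K L (T h)) →
    ∀ y : BB 2 T, (y : K) ≠ 0 → (∃ z : BB 2 T, (y : K) = T g * z) → ∀ k : ℕ, 1 ≤ k →
    (cnt (K := K) ρ y k : ℤ) =
      2 ^ k * (2 ^ k + 1) * Nat.card {ζ : Zw r (algebraMap K L y)⁻¹ →ₐ[ZMod 2] GaloisField 2 k //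
        Sp (ζ ⟨(r g).1 1 1, mem_Zw r _ g 1 1⟩)} +
      2 ^ k * (2 ^ k - 1) * Nat.card {ζ : Zw r (algebraMap K L y)⁻¹ →ₐ[ZMod 2] GaloisField 2 k //
        ¬ Sp (ζ ⟨(r g).1 1 1, mem_Zw r _ g 1 1⟩)}

/-- [FrN C ext] (about 100 lines) The field `L` and the representation `r`.
Proof. `a = (ρ g) 0 0`, `c = (ρ g) 1 0 ≠ 0`, `P = Pm ρ g = [[1, a], [0, c]]`, `P⁻¹ = [[1, -a/c], [0, 1/c]]`.  `L ⊆ F` is
`IntermediateField.adjoin K {entries of P⁻¹ (ρ h) P}`, `ι` the inclusion, `r h = P⁻¹ (ρ h) P` with entries considered in `L` (a homomorphism; determinant `1`, because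
`ι` is injective).  `r g = [[0, 1], [1, t]]`: the columns of `P` are `e_1, (ρ g) e_1`, and `(ρ g)^2 e_1 = t (ρ g) e_1 - e_1` (Cayley-Hamilton), characteristic 2.
The trace is invariant under conjugation.  `CF.gen`: the adjoin of the entries inside `L` is everything (`IntermediateField.lift` / `adjoin` of a
subset of the intermediate field generated by it, e.g. `IntermediateField.adjoin_induction` or `IntermediateField.map`).  The algebra structure over `ZMod 2` on `L` is the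
natural one (every field `K`-algebra: `K` has characteristic 2; take `(algebraMap K L).comp (algebraMap (ZMod 2) K)`). -/
def S_ext : Prop :=
  ∀ (b : ℕ) (Γ K F : Type) [Group Γ] [Field K] [Field F] [Algebra (ZMod 2) K]
    [Algebra (ZMod 2) F] [Algebra K F] (T : Γ → K)
    (ρ : Γ →* Matrix.SpecialLinearGroup (Fin 2) F), HB 2 b Γ K F T ρ →
    ∀ g : Γ, T g ≠ 0 → (ρ g).1 1 0 ≠ 0 →
    ∃ (L : Type) (_ : Field L) (_ : Algebra (ZMod 2) L) (_ : Algebra K L) (ι : L →ₐ[K] F)
      (r : Γ →* Matrix.SpecialLinearGroup (Fin 2) L), CF ι ρ r g ∧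
      (r g).1 = cmp (algebraMap K L (T g)) ∧ ∀ h, (r h).1.trace = algebraMap K L (T h)

/-- [FrN C fgz] (about 80 lines) Generation and fractions.
Proof. (1) Let `S` be a finite subset of `Γ` with `S = S⁻¹` which generates `Γ`; the entries of `r h`, `h` a word in `S`, are polynomials
in the entries of the `r s`, `s ∈ S`; so `Zw r w` is generated by the entries of `r s`, `s ∈ S`, and `w`.  (2) The set of the
`l ∈ L` with `l * b = a`, `a, b ∈ Zw r w`, `b ≠ 0`, is a subfield of `L`; it contains the entries of `r` and `K` (`Frc (BB 2 T)`: `k b = a` with `a, b` polynomials in the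
`T h = trace (r h)`), so it is everything by `hgen`. -/
def S_fgz : Prop :=
  ∀ (Γ K L : Type) [Group Γ] [Field K] [Field L] [Algebra (ZMod 2) K]
    [Algebra (ZMod 2) L] [Algebra K L] (T : Γ → K)
    (r : Γ →* Matrix.SpecialLinearGroup (Fin 2) L), Group.FG Γ → Frc (BB 2 T) →
    (∀ h, (r h).1.trace = algebraMap K L (T h)) →
    IntermediateField.adjoin K {x | ∃ h i j, x = (r h).1 i j} = ⊤ →
    ∀ w : L, (Zw r w).FG ∧ Frc (Zw r w)

/-- the ring `B[1 / y]` -/
def Bi {K : Type} [Field K] [Algebra (ZMod 2) K] (B : Subalgebra (ZMod 2) K) (y : K) :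
    Subalgebra (ZMod 2) K := Algebra.adjoin (ZMod 2) ((B : Set K) ∪ {y⁻¹})

/-- [FrN C loc] (about 150 lines) The smallest submodules over the localisations `B[1 / y]`.
Proof. `N y` is the smallest nonzero `Φ`-stable `B[1/y]`-submodule, for all multiples `y ≠ 0` of `t`.  Let `Ng` be `N t`, considered as a `B`-module; not zero,
stable.  (1) `N t` is generated over `B[1/t]` by finitely many `n_i`; `S = ∑ B n_i`; an element of `B[1/t]` is `β / t^a`, so `Ng = loc t S`
(`⊇`: `t^a x ∈ S ⊆ N t` and `t⁻¹ ∈ B[1/t]`).  (2) Let `Q ≠ 0` be stable with `t x ∈ Q → x ∈ Q`.  Then `Q` is closed under `t⁻¹`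
(`x = t (t⁻¹ x)`), so it is a `B[1/t]`-submodule, and `N t ≤ Q`.  (3) Let `y = t z ≠ 0`.  `N y` is closed under `t⁻¹ = z y⁻¹` and stable, so `Ng ≤ N y` by (2), and
`loc y Ng ≤ N y` (`N y` is closed under `y⁻¹`).  Conversely `loc y Ng` is closed under `y⁻¹`, so a `B[1/y]`-module, not zero, and stable: if `y^a x ∈ Ng`
then `y^(2a) x ∈ Ng` and `y^a Φ(x) = Φ(y^(2a) x) ∈ Ng`.  So `N y ≤ loc y Ng`. -/
def S_loc : Prop :=
  ∀ (K : Type) [Field K] [Algebra (ZMod 2) K] (B : Subalgebra (ZMod 2) K) (Φ : K → K),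
    IsPinv 2 Φ → ∀ t : B, t ≠ 0 →
    ∀ N : (y : K) → Submodule (Bi B y) K,
    (∀ y z : B, y ≠ 0 → y = t * z → IsOm (Bi B y) Φ (N y) ∧ (N y).FG) →
    ∃ Ng S : Submodule B K, Ng ≠ ⊥ ∧ Stb Φ Ng ∧ S.FG ∧ Ng = loc t S ∧
      (∀ Q : Submodule B K, Q ≠ ⊥ → Stb Φ Q → (∀ x, (t : K) * x ∈ Q → x ∈ Q) → Ng ≤ Q) ∧
      ∀ y z : B, y ≠ 0 → y = t * z → ∀ x : K, x ∈ loc y Ng ↔ x ∈ N y

end Pool.Agent.FrNC
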