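import Pool.Agent.Lib.MP_305fdd_al.Fr.N.A.Br
import Pool.Agent.Lib.MP_305fdd_al.Fr.N.C.Stm2

/-!
# MP_305fdd_al, F_r project, section N, parts C and D: the piece pvt (transport along `K → L`)
-/

set_option autoImplicit false

namespace Pool.Agent.FrNC

open Pool.Agent.FrN Pool.Agent.FrNA Pool.Agent.F2Ch Pool.Agent.F2RF Pool.Agent.F2TF

section

variable {k V V' : Type} [Field k] [AddCommGroup V] [Module k V] [AddCommGroup V'] [Module k V']

/-- the image of a nucleus under an equivariant injection -/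
private theorem pvt_map {C : Module.End k V} {C' : Module.End k V'} {i : V →ₗ[k] V'}
    (h : C' ∘ₗ i = i ∘ₗ C) {V₀ W : Submodule k V} (hW : Nuc C V₀ W) :
    Nuc C' (V₀.map i) (W.map i) := by
  have := hW.fin
  refine ⟨Submodule.map_mono hW.le, inferInstance, ?_, ?_⟩
  · rintro _ ⟨x, hx, rfl⟩
    exact ⟨C x, hW.stab x hx, (LinearMap.congr_fun h x).symm⟩
  · rintro _ ⟨x, hx, rfl⟩
    obtain ⟨e, he⟩ := hW.abs x hx
    exact ⟨e, (C ^ e) x, he, (FrNA.pow_comm h e x).symm⟩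

/-- the preimage of a nucleus under an equivariant injection -/
private theorem pvt_comap {C : Module.End k V} {C' : Module.End k V'} {i : V →ₗ[k] V'}
    (hi : Function.Injective i) (h : C' ∘ₗ i = i ∘ₗ C) {V₀ : Submodule k V}
    {W : Submodule k V'} (hW : Nuc C' (V₀.map i) W) : Nuc C V₀ (W.comap i) := by
  have := hW.fin
  refine ⟨fun x hx => ?_, ?_, fun x hx => ?_, fun x hx => ?_⟩
  · obtain ⟨y, hy, hyx⟩ := hW.le hx
    exact hi hyx ▸ hy
  · exact Module.Finite.of_injective (i.restrict (p := W.comap i) (q := W) fun x hx => hx)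
      fun x y hxy => Subtype.ext (hi (congrArg (Subtype.val : W → V') hxy))
  · have h2 : C' (i x) = i (C x) := LinearMap.congr_fun h x
    change i (C x) ∈ W
    rw [← h2]
    exact hW.stab _ hx
  · obtain ⟨e, he⟩ := hW.abs (i x) ⟨x, hx, rfl⟩
    refine ⟨e, ?_⟩
    change i ((C ^ e) x) ∈ W
    rw [← FrNA.pow_comm h e x]
    exact he

/-- the characteristic polynomials on a subspace and on its image -/
private theorem pvt_cp {C : Module.End k V} {C' : Module.End k V'} {i : V →ₗ[k] V'}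
    (hi : Function.Injective i) (h : C' ∘ₗ i = i ∘ₗ C) {W : Submodule k V}
    [Module.Finite k W] (hst : ∀ w ∈ W, C w ∈ W) : FrNA.cp (W.map i) C' = FrNA.cp W C := by
  have hst' : ∀ w ∈ W.map i, C' w ∈ W.map i := by
    rintro _ ⟨x, hx, rfl⟩
    exact ⟨C x, hst x hx, (LinearMap.congr_fun h x).symm⟩
  rw [cp_eq hst', cp_eq hst, ← (Submodule.equivMapOfInjective i hi W).charpoly_conj]
  congr 2
  apply LinearMap.ext
  intro x
  obtain ⟨y, rfl⟩ := (Submodule.equivMapOfInjective i hi W).surjective x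
  apply Subtype.ext
  simp only [LinearEquiv.conj_apply, LinearMap.comp_apply, LinearEquiv.coe_coe,
    LinearEquiv.symm_apply_apply]
  exact LinearMap.congr_fun h y.1

private theorem pvt_PV {C : Module.End k V} {C' : Module.End k V'} {i : V →ₗ[k] V'}
    (hi : Function.Injective i) (h : C' ∘ₗ i = i ∘ₗ C) (V₀ : Submodule k V) :
    PV C' (V₀.map i) = PV C V₀ := by
  rw [PU_eq_iff]
  by_cases hW : ∃ W, Nuc C V₀ W
  · obtain ⟨W, hW⟩ := hW
    have := hW.fin
    rw [PP_eq hW, PP_eq (pvt_map h hW), pvt_cp hi h hW.stab]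
  · rw [PP_none hW, PP_none]
    rintro ⟨W, hW'⟩
    exact hW ⟨_, pvt_comap hi h hW'⟩

end

theorem p_pvt : S_pvt := by
  intro K L _ _ _ _ _ Φ Ψ hΦ hΨ hcomm V₀ V₁ hV hst hab
  let i : K →ₗ[ZMod 2] L := (algebraMap K L).toAddMonoidHom.toZModLinearMap 2
  have hi : Function.Injective i := (algebraMap K L).injective
  have hik : ∀ k, i k = algebraMap K L k := fun _ => rfl
  have hc : (toEnd hΨ) ∘ₗ i = i ∘ₗ (toEnd hΦ) := LinearMap.ext fun k => hcomm k
  have hit : ∀ (e : ℕ) (η : L), ((toEnd hΨ) ^ e) η = Ψ^[e] η := by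
    intro e
    induction e with
    | zero => exact fun η => rfl
    | succ e ih =>
      intro η
      rw [pow_succ', Module.End.mul_apply, ih, Function.iterate_succ_apply']
      rfl
  have hle : V₀.map i ≤ V₁ := by
    rintro _ ⟨k, hk, rfl⟩
    exact (hV k).1 hk
  have h1 : ∀ v ∈ V₀.map i, (toEnd hΨ) v ∈ V₀.map i := by
    rintro _ ⟨k, hk, rfl⟩
    refine ⟨Φ k, (hV _).2 ?_, (hcomm k).symm⟩
    rw [← hcomm]
    exact hst _ ((hV k).1 hk)
  have h2 : ∀ v ∈ V₁, ∃ e : ℕ, ((toEnd hΨ) ^ e) v ∈ V₀.map i := by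
    intro v hv
    obtain ⟨e, k, hek⟩ := hab v hv
    refine ⟨e, k, (hV k).2 ?_, ?_⟩
    · rw [← hek, ← hit]
      exact FrNA.pow_st hst e v hv
    · rw [hit, hek, hik]
  obtain ⟨h3, h4⟩ := p_abs (ZMod 2) L (toEnd hΨ) V₁ (V₀.map i) hle h1 hst h2
  refine ⟨?_, fun h => ?_⟩
  · rw [h3, pvt_PV hi hc]
  · obtain ⟨W, hW⟩ := h4.1 h
    exact ⟨_, pvt_comap hi hc hW⟩

end Pool.Agent.FrNC
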