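import Pool.Agent.Lib.MP_305fdd_al.Fr.N.C.Stm
import Pool.Agent.Lib.MP_305fdd_al.Fr.X.Core

/-!
# MP_305fdd_al, F_r project, section N, part C: [FrN C reg]
-/

set_option autoImplicit false

namespace Pool.Agent.FrNC

open Pool.Agent.FrN Matrix

section core

variable {Z κ V Γ : Type} [CommRing Z] [Algebra (ZMod 2) Z] [Field κ] [AddCommGroup V]
  [Module κ V] [Group Γ]

/-- `a + b ε` -/
def dn (a b : κ) : DualNumber κ := TrivSqZeroExt.inl a + TrivSqZeroExt.inr b

@[simp] theorem fst_dn (a b : κ) : TrivSqZeroExt.fst (dn a b) = a := by simp [dn]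
@[simp] theorem snd_dn (a b : κ) : TrivSqZeroExt.snd (dn a b) = b := by simp [dn]

/-- the homomorphism to the dual numbers given by a derivation -/
def thD (π : Z →+* κ) (δ : Z → κ) (ha : ∀ z w, δ (z + w) = δ z + δ w)
    (hm : ∀ z w, δ (z * w) = π z * δ w + π w * δ z) : Z →+* DualNumber κ where
  toFun z := dn (π z) (δ z)
  map_one' := by
    have h1 := hm 1 1
    rw [map_one, one_mul, one_mul] at h1
    have h2 : δ 1 = 0 := by linear_combination -h1
    refine TrivSqZeroExt.ext ?_ ?_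
    · rw [fst_dn, map_one, TrivSqZeroExt.fst_one]
    · rw [snd_dn, h2, TrivSqZeroExt.snd_one]
  map_zero' := by
    have h1 := ha 0 0
    rw [add_zero] at h1
    have h2 : δ 0 = 0 := by linear_combination -h1
    refine TrivSqZeroExt.ext ?_ ?_
    · rw [fst_dn, map_zero, TrivSqZeroExt.fst_zero]
    · rw [snd_dn, h2, TrivSqZeroExt.snd_zero]
  map_add' z w := by
    refine TrivSqZeroExt.ext ?_ ?_
    · simp
    · simp [ha]
  map_mul' z w := by
    refine TrivSqZeroExt.ext ?_ ?_
    · simp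
    · simp [hm, mul_comm]

/-- `1 + ε X` -/
def PX (x x' : κ) : Matrix (Fin 2) (Fin 2) (DualNumber κ) :=
  !![dn 1 x, dn 0 x'; 0, 1]

theorem PX_mul (x x' : κ) : PX x x' * PX (-x) (-x') = 1 := by
  ext i j <;> fin_cases i <;> fin_cases j <;>
    simp [PX, Matrix.mul_apply, Fin.sum_univ_two]

theorem PX_mul' (x x' : κ) : PX (-x) (-x') * PX x x' = 1 := by
  have := PX_mul (-x) (-x')
  rwa [neg_neg, neg_neg] at this

/-- the conjugate of a lift -/
def cjX (S : Γ →* SpecialLinearGroup (Fin 2) (DualNumber κ)) (x x' : κ) :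
    Γ →* SpecialLinearGroup (Fin 2) (DualNumber κ) where
  toFun h := ⟨PX x x' * (S h).1 * PX (-x) (-x'), by
    rw [Matrix.det_mul, Matrix.det_mul, (S h).2, mul_one, ← Matrix.det_mul, PX_mul,
      Matrix.det_one]⟩
  map_one' := by
    apply Subtype.ext
    change PX x x' * (S 1).1 * PX (-x) (-x') = 1
    rw [map_one]
    change PX x x' * 1 * PX (-x) (-x') = 1
    rw [mul_one, PX_mul]
  map_mul' h h' := by
    apply Subtype.ext
    change PX x x' * (S (h * h')).1 * PX (-x) (-x') =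
      (PX x x' * (S h).1 * PX (-x) (-x')) * (PX x x' * (S h').1 * PX (-x) (-x'))
    rw [map_mul]
    change PX x x' * ((S h).1 * (S h').1) * PX (-x) (-x') = _
    have : (PX x x' * (S h).1 * PX (-x) (-x')) * (PX x x' * (S h').1 * PX (-x) (-x')) =
        PX x x' * (S h).1 * (PX (-x) (-x') * PX x x') * ((S h').1 * PX (-x) (-x')) := by
      simp only [mul_assoc]
    rw [this, PX_mul', mul_one]
    simp only [mul_assoc]

theorem reg_core [Finite κ] [Group.FG Γ] [FiniteDimensional κ V] (π : Z →+* κ) (d : Z → V)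
    (ha : ∀ z w, d (z + w) = d z + d w)
    (hm : ∀ z w, d (z * w) = π z • d w + π w • d z)
    (hd : Submodule.span κ (Set.range d) = ⊤)
    (R : Γ →* SpecialLinearGroup (Fin 2) Z) (g : Γ) (τ : Z) (hg : (R g).1 = cmp τ)
    (W W' : Z) (hW : W * W' = 1)
    (hW' : W' ∈ Algebra.adjoin (ZMod 2) {x | ∃ h i j, x = (R h).1 i j})
    (hgen : Algebra.adjoin (ZMod 2) ({x | ∃ h i j, x = (R h).1 i j} ∪ {W}) = ⊤) (b : ℕ)
    (hb : Nat.card {s' : Γ →* SpecialLinearGroup (Fin 2) (DualNumber κ) //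
        ∀ g i j, TrivSqZeroExt.fst ((s' g).1 i j) = π ((R g).1 i j)} ≤ Nat.card κ ^ (3 * b)) :
    Module.finrank κ V + 2 ≤ 3 * b := by
  classical
  let θ : Module.Dual κ V → Z →+* DualNumber κ := fun l => thD π (fun z => l (d z))
    (fun z w => by rw [ha, map_add]) (fun z w => by rw [hm, map_add, map_smul, map_smul]; rfl)
  have hθ : ∀ l z, θ l z = dn (π z) (l (d z)) := fun l z => rfl
  let Sθ : Module.Dual κ V → Γ →* SpecialLinearGroup (Fin 2) (DualNumber κ) :=
    fun l => (SpecialLinearGroup.map (θ l)).comp R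
  have hSθ : ∀ l h i j, (Sθ l h).1 i j = θ l ((R h).1 i j) := fun l h i j => rfl
  let Ψ : Module.Dual κ V × κ × κ → {s' : Γ →* SpecialLinearGroup (Fin 2) (DualNumber κ) //
        ∀ g i j, TrivSqZeroExt.fst ((s' g).1 i j) = π ((R g).1 i j)} := fun u =>
    ⟨cjX (Sθ u.1) u.2.1 u.2.2, by
      intro h i j
      change TrivSqZeroExt.fst ((PX u.2.1 u.2.2 * (Sθ u.1 h).1 * PX (-u.2.1) (-u.2.2)) i j) = _
      rw [Matrix.mul_apply, Fin.sum_univ_two, Matrix.mul_apply, Fin.sum_univ_two,
        Matrix.mul_apply, Fin.sum_univ_two]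
      simp only [hSθ, hθ]
      fin_cases i <;> fin_cases j <;> simp [PX]⟩
  have hfin : Finite (Γ →* SpecialLinearGroup (Fin 2) (DualNumber κ)) := by
    have : Finite (DualNumber κ) := inferInstanceAs (Finite (κ × κ))
    have : Finite (SpecialLinearGroup (Fin 2) (DualNumber κ)) :=
      inferInstanceAs (Finite {A : Matrix (Fin 2) (Fin 2) (DualNumber κ) // A.det = 1})
    obtain ⟨S, hS⟩ := (inferInstance : Group.FG Γ).out
    refine Finite.of_injective
      (fun f : Γ →* SpecialLinearGroup (Fin 2) (DualNumber κ) => fun s : S => f s.1) ?_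
    intro f f' he
    refine MonoidHom.eq_of_eqOn_dense hS ?_
    intro s hs
    exact congrFun he ⟨s, hs⟩
  have hinj : Function.Injective Ψ := by
    rintro ⟨l, x, x'⟩ ⟨l', y, y'⟩ he
    have he1 : ∀ h, PX x x' * (Sθ l h).1 * PX (-x) (-x') =
        PX y y' * (Sθ l' h).1 * PX (-y) (-y') := by
      intro h
      have h1 := congrArg Subtype.val he
      exact congrArg Subtype.val (DFunLike.congr_fun h1 h)
    have hSg : ∀ l, (Sθ l g).1 = !![0, 1; 1, θ l τ] := by
      intro l
      ext1 i j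
      rw [hSθ, hg]
      fin_cases i <;> fin_cases j <;> simp [cmp]
    have h0 := he1 g
    rw [hSg, hSg] at h0
    have h10 := congrArg TrivSqZeroExt.snd (congrFun (congrFun h0 1) 0)
    have h00 := congrArg TrivSqZeroExt.snd (congrFun (congrFun h0 0) 0)
    simp [PX, Matrix.mul_apply, Fin.sum_univ_two] at h10 h00
    subst h10
    subst h00
    have he2 : ∀ h, (Sθ l h).1 = (Sθ l' h).1 := by
      intro h
      have h1 : PX (-x) (-x') * (PX x x' * (Sθ l h).1 * PX (-x) (-x')) * PX x x' =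
          PX (-x) (-x') * (PX x x' * (Sθ l' h).1 * PX (-x) (-x')) * PX x x' := by
        rw [he1 h]
      have h2 : ∀ A : Matrix (Fin 2) (Fin 2) (DualNumber κ),
          PX (-x) (-x') * (PX x x' * A * PX (-x) (-x')) * PX x x' = A := by
        intro A
        have : PX (-x) (-x') * (PX x x' * A * PX (-x) (-x')) * PX x x' =
          (PX (-x) (-x') * PX x x') * A * (PX (-x) (-x') * PX x x') := by
          simp only [mul_assoc]
        rw [this, PX_mul', one_mul, mul_one]
      rwa [h2, h2] at h1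
    have hent : ∀ z ∈ {x | ∃ h i j, x = (R h).1 i j}, θ l z = θ l' z := by
      rintro _ ⟨h, i, j, rfl⟩
      rw [← hSθ, ← hSθ, he2]
    have halg : ∀ c : ZMod 2, θ l (algebraMap (ZMod 2) Z c) = θ l' (algebraMap (ZMod 2) Z c) := by
      intro c
      exact DFunLike.congr_fun (Subsingleton.elim ((θ l).comp (algebraMap (ZMod 2) Z))
        ((θ l').comp (algebraMap (ZMod 2) Z))) c
    have hadj : ∀ (X : Set Z), (∀ z ∈ X, θ l z = θ l' z) →
        ∀ z ∈ Algebra.adjoin (ZMod 2) X, θ l z = θ l' z := by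
      intro X hX z hz
      induction hz using Algebra.adjoin_induction with
      | mem z hz => exact hX z hz
      | algebraMap c => exact halg c
      | add z w _ _ h1 h2 => rw [map_add, map_add, h1, h2]
      | mul z w _ _ h1 h2 => rw [map_mul, map_mul, h1, h2]
    have hW1 : θ l W' = θ l' W' := hadj _ hent W' hW'
    have hW2 : θ l W = θ l' W := by
      calc θ l W = θ l W * θ l' (W * W') := by rw [hW, map_one, mul_one]
        _ = θ l (W * W') * θ l' W := by rw [map_mul, map_mul, hW1]; ring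
        _ = θ l' W := by rw [hW, map_one, one_mul]
    have hall : ∀ z, θ l z = θ l' z := by
      intro z
      refine hadj _ ?_ z (by rw [hgen]; trivial)
      rintro z (hz | hz)
      · exact hent z hz
      · rw [Set.mem_singleton_iff.1 hz]; exact hW2
    have hll : l = l' := by
      refine LinearMap.ext_on_range (v := d) hd ?_
      intro z
      have := congrArg TrivSqZeroExt.snd (hall z)
      rw [hθ, hθ, snd_dn, snd_dn] at this
      exact this
    rw [hll]
  have hcard := Nat.card_le_card_of_injective Ψ hinj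
  rw [Nat.card_prod, Nat.card_prod] at hcard
  have h1 : Nat.card (Module.Dual κ V) = Nat.card κ ^ Module.finrank κ V := by
    rw [Module.natCard_eq_pow_finrank (K := κ), Subspace.dual_finrank_eq]
  rw [h1] at hcard
  have h2 : Nat.card κ ^ (Module.finrank κ V + 2) ≤ Nat.card κ ^ (3 * b) := by
    rw [pow_add, pow_two]
    exact hcard.trans hb
  have h3 : 1 < Nat.card κ := Finite.one_lt_card
  exact (Nat.pow_le_pow_iff_right h3).1 h2

end core

section main

variable {Γ L : Type} [Group Γ] [Field L] [Algebra (ZMod 2) L]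

theorem Zw_fg [Group.FG Γ] (r : Γ →* SpecialLinearGroup (Fin 2) L) (w : L) : (Zw r w).FG := by
  classical
  rw [Zw, Algebra.adjoin_union]
  refine Subalgebra.FG.sup (Pool.Agent.FrX.OO_fg r) ?_
  exact ⟨{w}, by simp⟩

/-- the representation over the ring of the slice -/
def rZ (r : Γ →* SpecialLinearGroup (Fin 2) L) (w : L) :
    Γ →* SpecialLinearGroup (Fin 2) (Zw r w) where
  toFun h := ⟨Matrix.of fun i j => ⟨(r h).1 i j, mem_Zw r w h i j⟩, by
    apply Subtype.val_injective
    rw [Matrix.det_fin_two]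
    change (r h).1 0 0 * (r h).1 1 1 - (r h).1 0 1 * (r h).1 1 0 = 1
    rw [← Matrix.det_fin_two, (r h).2]⟩
  map_one' := by
    apply Subtype.ext
    ext i j
    change (r 1).1 i j = (((1 : Matrix (Fin 2) (Fin 2) (Zw r w)) i j : Zw r w) : L)
    rw [map_one]
    change (1 : Matrix (Fin 2) (Fin 2) L) i j = _
    by_cases hij : i = j
    · rw [hij, Matrix.one_apply_eq, Matrix.one_apply_eq]; rfl
    · rw [Matrix.one_apply_ne hij, Matrix.one_apply_ne hij]; rfl
  map_mul' h h' := by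
    apply Subtype.ext
    ext i j
    change (r (h * h')).1 i j = _
    rw [map_mul]
    change ((r h).1 * (r h').1) i j = ((((Matrix.of fun i j => ⟨(r h).1 i j, mem_Zw r w h i j⟩ :
      Matrix (Fin 2) (Fin 2) (Zw r w)) * (Matrix.of fun i j => ⟨(r h').1 i j,
        mem_Zw r w h' i j⟩ : Matrix (Fin 2) (Fin 2) (Zw r w))) i j : Zw r w) : L)
    rw [Matrix.mul_apply, Matrix.mul_apply, Fin.sum_univ_two, Fin.sum_univ_two]
    rfl

theorem Zw_ind (r : Γ →* SpecialLinearGroup (Fin 2) L) (w : L) (X : Set L)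
    (hX : Algebra.adjoin (ZMod 2) X ≤ Zw r w) (Y : Set (Zw r w))
    (hXY : ∀ x (h : x ∈ X), (⟨x, hX (Algebra.subset_adjoin h)⟩ : Zw r w) ∈
      Algebra.adjoin (ZMod 2) Y) (x : L) (hx : x ∈ Algebra.adjoin (ZMod 2) X) :
    (⟨x, hX hx⟩ : Zw r w) ∈ Algebra.adjoin (ZMod 2) Y := by
  refine Algebra.adjoin_induction (p := fun x hx => (⟨x, hX hx⟩ : Zw r w) ∈
    Algebra.adjoin (ZMod 2) Y) ?_ ?_ ?_ ?_ hx
  · intro x hx
    exact hXY x hx
  · intro c
    exact Subalgebra.algebraMap_mem _ c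
  · intro x y _ _ h h'
    exact add_mem h h'
  · intro x y _ _ h h'
    exact mul_mem h h'

end main

theorem p_reg : S_reg := by
  intro b Γ L _ _ _ _ r g t w hb1 hl hg hw hwi m hm
  classical
  have hle : Algebra.adjoin (ZMod 2) {x | ∃ h i j, x = (r h).1 i j} ≤ Zw r w :=
    Algebra.adjoin_mono Set.subset_union_left
  let _ : Field (Zw r w ⧸ m) := Ideal.Quotient.field m
  have hft : Algebra.FiniteType (ZMod 2) (Zw r w) :=
    (Subalgebra.fg_iff_finiteType _).1 (Zw_fg r w)
  have hN : IsNoetherianRing (Zw r w) := Algebra.FiniteType.isNoetherianRing (ZMod 2) _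
  have h1 : Algebra.FiniteType (ZMod 2) (Zw r w ⧸ m) := inferInstance
  have h2 : Module.Finite (ZMod 2) (Zw r w ⧸ m) := finite_of_finite_type_of_isJacobsonRing _ _
  have h3 : Finite (Zw r w ⧸ m) := Module.finite_of_finite (ZMod 2)
  have h4 : CharP (Zw r w ⧸ m) 2 :=
    charP_of_injective_algebraMap (algebraMap (ZMod 2) (Zw r w ⧸ m)).injective 2
  have h5 : CharP (Zw r w) 2 :=
    charP_of_injective_algebraMap (algebraMap (ZMod 2) (Zw r w)).injective 2
  let _ := Fintype.ofFinite (Zw r w ⧸ m)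
  obtain ⟨n, -, hn⟩ := FiniteField.card (Zw r w ⧸ m) 2
  have hpow : ∀ z : Zw r w, z - z ^ 2 ^ (n : ℕ) ∈ m := by
    intro z
    rw [← Ideal.Quotient.eq_zero_iff_mem, map_sub, map_pow, ← hn, FiniteField.pow_card, sub_self]
  have hn2 : ∀ a ∈ m, a ^ 2 ^ (n : ℕ) ∈ m ^ 2 := by
    intro a ha
    have : 2 ≤ 2 ^ (n : ℕ) := by
      calc 2 = 2 ^ 1 := rfl
        _ ≤ 2 ^ (n : ℕ) := Nat.pow_le_pow_right (by norm_num) n.pos
    exact Ideal.pow_le_pow_right this (Ideal.pow_mem_pow ha _)
  have hadd : ∀ z w' : Zw r w, (z + w') ^ 2 ^ (n : ℕ) = z ^ 2 ^ (n : ℕ) + w' ^ 2 ^ (n : ℕ) :=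
    fun z w' => add_pow_char_pow z w' 2 n
  let d : Zw r w → m.Cotangent := fun z => m.toCotangent ⟨z - z ^ 2 ^ (n : ℕ), hpow z⟩
  have hd0 : ∀ a (ha : a ∈ m), d a = m.toCotangent ⟨a, ha⟩ := by
    intro a ha
    rw [Ideal.toCotangent_eq]
    change a - a ^ 2 ^ (n : ℕ) - a ∈ m ^ 2
    have : a - a ^ 2 ^ (n : ℕ) - a = -(a ^ 2 ^ (n : ℕ)) := by ring
    rw [this]
    exact neg_mem (hn2 a ha)
  have hV0 : Module.Finite (Zw r w) m := inferInstance
  have hV : Module.Finite (Zw r w) m.Cotangent :=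
    Module.Finite.of_surjective m.toCotangent m.toCotangent_surjective
  have hV2 : FiniteDimensional (Zw r w ⧸ m) m.Cotangent :=
    Module.Finite.of_restrictScalars_finite (Zw r w) (Zw r w ⧸ m) m.Cotangent
  have hsm : ∀ (z : Zw r w) (v : m.Cotangent), Ideal.Quotient.mk m z • v = z • v :=
    fun z v => rfl
  have hsurj : ∀ v : m.Cotangent, ∃ a : m, m.toCotangent a = v :=
    Ideal.toCotangent_surjective m
  have hgij : ∀ i j, (r g).1 i j = cmp t i j := fun i j => by rw [hg]
  have hrank : Module.finrank (Zw r w ⧸ m) m.Cotangent + 2 ≤ 3 * b := by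
    refine reg_core (Ideal.Quotient.mk m) d ?_ ?_ ?_ (rZ r w) g
      ⟨t, by
        have := mem_Zw r w g 1 1
        rw [hg] at this
        exact this⟩ ?_ ⟨w, Algebra.subset_adjoin (Or.inr rfl)⟩ ⟨w⁻¹, hle hwi⟩ ?_ ?_ ?_ b ?_
    · intro z w'
      change m.toCotangent _ = m.toCotangent _ + m.toCotangent _
      rw [← map_add]
      congr 1
      apply Subtype.ext
      change z + w' - (z + w') ^ 2 ^ (n : ℕ) = z - z ^ 2 ^ (n : ℕ) + (w' - w' ^ 2 ^ (n : ℕ))
      rw [hadd]
      ring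
    · intro z w'
      rw [hsm, hsm]
      change m.toCotangent _ = z • m.toCotangent _ + w' • m.toCotangent _
      rw [← map_smul, ← map_smul, ← map_add, Ideal.toCotangent_eq]
      change z * w' - (z * w') ^ 2 ^ (n : ℕ) - (z * (w' - w' ^ 2 ^ (n : ℕ)) +
        w' * (z - z ^ 2 ^ (n : ℕ))) ∈ m ^ 2
      have : z * w' - (z * w') ^ 2 ^ (n : ℕ) - (z * (w' - w' ^ 2 ^ (n : ℕ)) +
        w' * (z - z ^ 2 ^ (n : ℕ))) = -((z - z ^ 2 ^ (n : ℕ)) * (w' - w' ^ 2 ^ (n : ℕ))) := by
        rw [mul_pow]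
        ring
      rw [this, pow_two]
      exact neg_mem (Ideal.mul_mem_mul (hpow z) (hpow w'))
    · rw [eq_top_iff]
      intro v _
      obtain ⟨a, rfl⟩ := hsurj v
      exact Submodule.subset_span ⟨a.1, hd0 a.1 a.2⟩
    · ext1 i j
      apply Subtype.val_injective
      refine (hgij i j).trans ?_
      fin_cases i <;> fin_cases j <;> rfl
    · apply Subtype.val_injective
      exact mul_inv_cancel₀ hw
    · refine Zw_ind r w _ hle _ ?_ _ hwi
      rintro _ ⟨h, i, j, rfl⟩
      exact Algebra.subset_adjoin ⟨h, i, j, rfl⟩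
    · rw [eq_top_iff]
      rintro ⟨x, hx⟩ _
      refine Zw_ind r w _ le_rfl _ ?_ _ hx
      rintro _ (⟨h, i, j, rfl⟩ | hx)
      · exact Algebra.subset_adjoin (Or.inl ⟨h, i, j, rfl⟩)
      · rw [Set.mem_singleton_iff] at hx
        subst hx
        exact Algebra.subset_adjoin (Or.inr rfl)
    · exact hl (Zw r w ⧸ m) ((SpecialLinearGroup.map (Ideal.Quotient.mk m)).comp (rZ r w))
  have hNr : Module.finrank (Zw r w ⧸ m) m.Cotangent ≤ 3 * b - 2 := by omega
  let b0 := Module.finBasis (Zw r w ⧸ m) m.Cotangent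
  choose lf hlf using hsurj
  let y : Fin (3 * b - 2) → Zw r w := fun i =>
    if h : i.1 < Module.finrank (Zw r w ⧸ m) m.Cotangent then (lf (b0 ⟨i.1, h⟩)).1 else 0
  have hy : ∀ i, (lf (b0 i)).1 ∈ Ideal.span (Set.range y) := by
    intro i
    refine Ideal.subset_span ⟨⟨i.1, lt_of_lt_of_le i.2 hNr⟩, ?_⟩
    simp only [y]
    rw [dif_pos i.2]
  have hmle : m ≤ Ideal.span (Set.range y) ⊔ m • m := by
    intro a ha
    have e1 := b0.sum_repr (m.toCotangent ⟨a, ha⟩)
    choose c hc using fun i => Ideal.Quotient.mk_surjective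
      (b0.repr (m.toCotangent ⟨a, ha⟩) i)
    have e2 : m.toCotangent (∑ i, c i • lf (b0 i)) = m.toCotangent ⟨a, ha⟩ := by
      rw [← e1, map_sum]
      refine Finset.sum_congr rfl fun i _ => ?_
      rw [map_smul, hlf, ← hc, hsm]
    rw [Ideal.toCotangent_eq] at e2
    have e3 : a = (∑ i, c i • lf (b0 i) : m).1 - ((∑ i, c i • lf (b0 i) : m).1 - a) := by ring
    rw [e3]
    refine Submodule.sub_mem _ (Submodule.mem_sup_left ?_) (Submodule.mem_sup_right ?_)
    · have e4 : (∑ i, c i • lf (b0 i) : m).1 = ∑ i, c i * (lf (b0 i)).1 := by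
        rw [← Submodule.subtype_apply, map_sum]
        rfl
      rw [e4]
      exact Ideal.sum_mem _ fun i _ => Ideal.mul_mem_left _ _ (hy i)
    · rw [smul_eq_mul, ← pow_two]
      exact e2
  obtain ⟨s, hs1, hs2⟩ := Submodule.exists_sub_one_mem_and_smul_le_of_fg_of_le_sup
    (IsNoetherian.noetherian m) le_rfl hmle
  refine ⟨y, s, ?_, ?_, ?_⟩
  · intro i
    simp only [y]
    split_ifs with h
    · exact (lf _).2
    · exact zero_mem _
  · intro hs
    apply hm.ne_top
    rw [Ideal.eq_top_iff_one]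
    have := sub_mem hs hs1
    rwa [sub_sub_cancel] at this
  · intro a ha
    exact hs2 (Submodule.smul_mem_pointwise_smul a s m ha)

end Pool.Agent.FrNC
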