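import Pool.Agent.Lib.MP_305fdd_al.Fr.N.C.TM1

set_option autoImplicit false

namespace Pool.Agent.FrNC

open QuadraticAlgebra Matrix

section
variable {Γ : Type} [Group Γ] {K L : Type} [Field K] [Field L] [Algebra K L] [CharP K 2]
  [CharP L 2] (T : Γ → K) (r : Γ →* Matrix (Fin 2) (Fin 2) L) (g h₀ : Γ)

/-- A representation with values in `L`, traces in `K`, such that `g` is a companion matrix. -/
structure CD : Prop where
  tr : ∀ h, (r h).trace = algebraMap K L (T h)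
  cg : r g = !![0, 1; 1, algebraMap K L (T g)]
  tne : T g ≠ 0
  ene : uu (algebraMap K L (T g)) (r h₀) * star (uu (algebraMap K L (T g)) (r h₀)) ≠ 0

/-- the commuting part of `h` -/
def zK (h : Γ) : QA K (T g) := ⟨T (g * h) / T g + T h, T h / T g⟩

/-- the product of the anticommuting parts of `h`, `h'` -/
def cK (h h' : Γ) : QA K (T g) := zK T g (h * h') + zK T g h * zK T g h'

variable {T r g h₀}

theorem CD.sne (H : CD T r g h₀) : algebraMap K L (T g) ≠ 0 := by
  intro h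
  exact H.tne ((algebraMap K L).injective (by rw [h, map_zero]))

theorem CD.z (H : CD T r g h₀) (h : Γ) : io (L := L) (T g) (zK T g h) =
    zz (algebraMap K L (T g)) (r h) := by
  have h2 : (2 : L) = 0 := CharTwo.two_eq_zero
  have h1 := H.tr (g * h)
  have h3 := H.tr h
  rw [map_mul, H.cg] at h1
  simp only [Matrix.trace_fin_two, Matrix.mul_apply, Fin.sum_univ_two, Matrix.of_apply,
    Matrix.cons_val', Matrix.cons_val_zero, Matrix.cons_val_one, Matrix.cons_val_fin_one] at h1 h3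
  have hs := H.sne
  ext
  · simp only [io_re, zK, zz, map_add, map_div₀, ← h1, ← h3]
    field_simp
    rw [← sub_eq_zero]
    ring_nf
    simp [h2]
  · simp only [io_im, zK, zz, map_div₀, ← h3]

theorem CD.c (H : CD T r g h₀) (h h' : Γ) : io (L := L) (T g) (cK T g h h') =
    uu (algebraMap K L (T g)) (r h) * star (uu (algebraMap K L (T g)) (r h')) := by
  rw [cK, map_add, map_mul, H.z, H.z, H.z, map_mul, zz_mul H.sne]
  have h2 : (2 : QA L (algebraMap K L (T g))) = 0 := by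
    ext
    · change ((2 : ℕ) : QA L (algebraMap K L (T g))).re = _
      rw [QuadraticAlgebra.re_natCast]
      exact CharTwo.two_eq_zero
    · change ((2 : ℕ) : QA L (algebraMap K L (T g))).im = _
      rw [QuadraticAlgebra.im_natCast]
      rfl
  linear_combination (zz ((algebraMap K L) (T g)) (r h) * zz ((algebraMap K L) (T g)) (r h')) * h2

/-- the norm of the anticommuting part of `h₀` -/
def eK (T : Γ → K) (g h₀ : Γ) : K := (cK T g h₀ h₀).re

theorem CD.e (H : CD T r g h₀) : cK T g h₀ h₀ = algebraMap K _ (eK T g h₀) := by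
  ext
  · simp [eK]
  · have h1 := H.c h₀ h₀
    have h2 := congrArg QuadraticAlgebra.im h1
    rw [io_im, ← QuadraticAlgebra.algebraMap_norm_eq_mul_star] at h2
    simp only [QuadraticAlgebra.algebraMap_im] at h2
    simp only [QuadraticAlgebra.algebraMap_im]
    exact (algebraMap K L).injective (by rw [h2, map_zero])

theorem CD.e' (H : CD T r g h₀) : uu (algebraMap K L (T g)) (r h₀) *
    star (uu (algebraMap K L (T g)) (r h₀)) = algebraMap L _ (algebraMap K L (eK T g h₀)) := by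
  rw [← H.c, H.e]
  ext
  · rw [io_re]; simp
  · rw [io_im]; simp

theorem CD.e0 (H : CD T r g h₀) : eK T g h₀ ≠ 0 := by
  intro h
  apply H.ene
  rw [H.e', h, map_zero, map_zero]

/-- the coordinate of the anticommuting part of `h` with respect to that of `h₀` -/
def zp (T : Γ → K) (g h₀ : Γ) (h : Γ) : QA K (T g) :=
  cK T g h h₀ * algebraMap K _ (eK T g h₀)⁻¹

/-- the unit `Om` -/
noncomputable def CD.Om (H : CD T r g h₀) : (QA L (algebraMap K L (T g)))ˣ where
  val := uu (algebraMap K L (T g)) (r h₀)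
  inv := star (uu (algebraMap K L (T g)) (r h₀)) * algebraMap L _ (algebraMap K L (eK T g h₀))⁻¹
  val_inv := by
    rw [← mul_assoc, H.e', ← map_mul, mul_inv_cancel₀, map_one]
    intro h
    exact H.e0 ((algebraMap K L).injective (by rw [h, map_zero]))
  inv_val := by
    rw [mul_comm, ← mul_assoc, H.e', ← map_mul, mul_inv_cancel₀, map_one]
    intro h
    exact H.e0 ((algebraMap K L).injective (by rw [h, map_zero]))

theorem CD.Om_val (H : CD T r g h₀) : (H.Om : QA L (algebraMap K L (T g))) =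
    uu (algebraMap K L (T g)) (r h₀) := rfl

theorem io_al (t x : K) : io (L := L) t (algebraMap K _ x) = algebraMap L _ (algebraMap K L x) := by
  ext
  · rw [io_re]; simp
  · rw [io_im]; simp

theorem CD.u (H : CD T r g h₀) (h : Γ) : uu (algebraMap K L (T g)) (r h) =
    io (T g) (zp T g h₀ h) * (H.Om : QA L (algebraMap K L (T g))) := by
  rw [zp, map_mul, H.c, io_al, H.Om_val]
  have h1 := H.e'
  have h2 : (algebraMap L (QA L (algebraMap K L (T g))) (algebraMap K L (eK T g h₀))) *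
      algebraMap L _ (algebraMap K L (eK T g h₀)⁻¹) = 1 := by
    rw [← map_mul, ← map_mul, mul_inv_cancel₀ H.e0, map_one, map_one]
  calc uu (algebraMap K L (T g)) (r h) = uu (algebraMap K L (T g)) (r h) * 1 := by rw [mul_one]
    _ = uu (algebraMap K L (T g)) (r h) * (uu (algebraMap K L (T g)) (r h₀) *
        star (uu (algebraMap K L (T g)) (r h₀)) * algebraMap L _ (algebraMap K L (eK T g h₀)⁻¹)) := by
      rw [h1, h2]
    _ = _ := by ring

theorem CD.zpp (H : CD T r g h₀) (h h' : Γ) :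
    zp T g h₀ h * (star (zp T g h₀ h') * algebraMap K _ (eK T g h₀)) = cK T g h h' := by
  apply io_inj (L := L) (T g)
  rw [map_mul, map_mul, io_star, io_al, H.c, H.u h, H.u h', star_mul]
  have h1 := H.e'
  rw [← H.Om_val] at h1
  rw [← h1]
  ring

/-! ## the graded ring -/

/-- the ring `B_f[G]` -/
def BG (Bf : Subring K) (t : K) (ht : t ∈ Bf) : Subring (QA K t) where
  carrier := {z | z.re ∈ Bf ∧ z.im ∈ Bf}
  mul_mem' := fun {a b} ha hb => by
    refine ⟨?_, ?_⟩
    · rw [QuadraticAlgebra.re_mul]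
      exact Bf.add_mem (Bf.mul_mem ha.1 hb.1)
        (Bf.mul_mem (Bf.mul_mem Bf.one_mem ha.2) hb.2)
    · rw [QuadraticAlgebra.im_mul]
      exact Bf.add_mem (Bf.add_mem (Bf.mul_mem ha.1 hb.2) (Bf.mul_mem ha.2 hb.1))
        (Bf.mul_mem (Bf.mul_mem ht ha.2) hb.2)
  one_mem' := ⟨by simp, by simp⟩
  add_mem' := fun {a b} ha hb => ⟨Bf.add_mem ha.1 hb.1, Bf.add_mem ha.2 hb.2⟩
  zero_mem' := ⟨by simp, by simp⟩
  neg_mem' := fun {a} ha => ⟨Bf.neg_mem ha.1, Bf.neg_mem ha.2⟩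

/-- the coefficients in degree `1` -/
def Jp (Bf : Subring K) (T : Γ → K) (g h₀ : Γ) (ht : T g ∈ Bf) :
    Submodule (BG Bf (T g) ht) (QA K (T g)) :=
  Submodule.span _ (Set.range (zp T g h₀))

/-- the coefficients in degree `-1` -/
def Jm (Bf : Subring K) (T : Γ → K) (g h₀ : Γ) (ht : T g ∈ Bf) :
    Submodule (BG Bf (T g) ht) (QA K (T g)) :=
  Submodule.span _ (Set.range fun h => star (zp T g h₀ h) * algebraMap K _ (eK T g h₀))

/-- the coefficients in degree `k` -/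
def Jk (Bf : Subring K) (T : Γ → K) (g h₀ : Γ) (ht : T g ∈ Bf) (k : ℤ) :
    Submodule (BG Bf (T g) ht) (QA K (T g)) :=
  (Jp Bf T g h₀ ht) ^ k.toNat * (Jm Bf T g h₀ ht) ^ (-k).toNat

theorem CD.cmem (Bf : Subring K) (hT : ∀ h, T h ∈ Bf) (hti : (T g)⁻¹ ∈ Bf) (h h' : Γ) :
    cK T g h h' ∈ BG Bf (T g) (hT g) := by
  have hz : ∀ h, zK T g h ∈ BG Bf (T g) (hT g) := fun h =>
    ⟨Bf.add_mem (by simp only [zK, div_eq_mul_inv]; exact Bf.mul_mem (hT _) hti) (hT h),
      by simp only [zK, div_eq_mul_inv]; exact Bf.mul_mem (hT _) hti⟩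
  exact (BG Bf (T g) (hT g)).add_mem (hz _) ((BG Bf (T g) (hT g)).mul_mem (hz _) (hz _))

theorem CD.Jpm (H : CD T r g h₀) (Bf : Subring K) (hT : ∀ h, T h ∈ Bf) (hti : (T g)⁻¹ ∈ Bf) :
    Jp Bf T g h₀ (hT g) * Jm Bf T g h₀ (hT g) ≤ 1 := by
  rw [Jp, Jm, Submodule.span_mul_span, Submodule.span_le]
  rintro _ ⟨_, ⟨h, rfl⟩, _, ⟨h', rfl⟩, rfl⟩
  simp only
  rw [H.zpp]
  exact Submodule.mem_one.2 ⟨⟨_, CD.cmem Bf hT hti h h'⟩, rfl⟩

theorem CD.Jk_mul (H : CD T r g h₀) (Bf : Subring K) (hT : ∀ h, T h ∈ Bf) (hti : (T g)⁻¹ ∈ Bf)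
    (k l : ℤ) : Jk Bf T g h₀ (hT g) k * Jk Bf T g h₀ (hT g) l ≤ Jk Bf T g h₀ (hT g) (k + l) := by
  have hJ := H.Jpm Bf hT hti
  have key : ∀ (n a b : ℕ), Jp Bf T g h₀ (hT g) ^ (a + n) * Jm Bf T g h₀ (hT g) ^ (b + n) ≤
      Jp Bf T g h₀ (hT g) ^ a * Jm Bf T g h₀ (hT g) ^ b := by
    intro n a b
    have : Jp Bf T g h₀ (hT g) ^ (a + n) * Jm Bf T g h₀ (hT g) ^ (b + n) =
        Jp Bf T g h₀ (hT g) ^ a * Jm Bf T g h₀ (hT g) ^ b *
        (Jp Bf T g h₀ (hT g) * Jm Bf T g h₀ (hT g)) ^ n := by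
      rw [mul_pow, pow_add, pow_add]; ring
    rw [this]
    calc _ ≤ Jp Bf T g h₀ (hT g) ^ a * Jm Bf T g h₀ (hT g) ^ b * 1 := by
          refine mul_le_mul' le_rfl ?_
          exact pow_le_one' hJ n
      _ = _ := mul_one _
  obtain ⟨n, hn1, hn2⟩ : ∃ n : ℕ, k.toNat + l.toNat = (k + l).toNat + n ∧
      (-k).toNat + (-l).toNat = (-(k + l)).toNat + n := by
    refine ⟨k.toNat + l.toNat - (k + l).toNat, ?_, ?_⟩ <;> omega
  have : Jk Bf T g h₀ (hT g) k * Jk Bf T g h₀ (hT g) l =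
      Jp Bf T g h₀ (hT g) ^ (k.toNat + l.toNat) * Jm Bf T g h₀ (hT g) ^ ((-k).toNat + (-l).toNat) := by
    rw [Jk, Jk, pow_add, pow_add]; ring
  rw [this, hn1, hn2]
  exact key n _ _

end

end Pool.Agent.FrNC
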