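import Pool.Agent.Lib.MP_305fdd_al.Fr.N.C.Stm
import Pool.Agent.Lib.MP_305fdd_al.Fr.N.C.TM2

set_option autoImplicit false

namespace Pool.Agent.FrNC

open Pool.Agent.FrN Pool.Agent.F2Ch Pool.Agent.F2RF Pool.Agent.F2TF

/-- `x` is integral if `x ^ 2 + t x y - y ^ 2 = e` with `y` integral -/
theorem tra_int {K L : Type} [Field K] [Field L] [Algebra K L] (x y : L) (t e : K)
    (hy : IsIntegral K y)
    (h : x * x + algebraMap K L t * x * y - 1 * y * y = algebraMap K L e) : IsIntegral K x := by
  have hy' : y ∈ integralClosure K L := hy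
  let yy : integralClosure K L := ⟨y, hy'⟩
  have hx : IsIntegral (integralClosure K L) x := by
    refine ⟨Polynomial.X ^ 2 + (Polynomial.C (algebraMap K _ t * yy) * Polynomial.X +
      Polynomial.C (- (yy * yy) - algebraMap K _ e)), ?_, ?_⟩
    · apply Polynomial.monic_X_pow_add
      refine lt_of_le_of_lt (Polynomial.degree_linear_le) ?_
      exact_mod_cast Nat.one_lt_two
    · simp only [Polynomial.eval₂_add, Polynomial.eval₂_mul, Polynomial.eval₂_pow,
        Polynomial.eval₂_X, Polynomial.eval₂_C]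
      change x ^ 2 + ((algebraMap K L t * y) * x + (-(y * y) - algebraMap K L e)) = 0
      rw [← h]
      ring
  exact isIntegral_trans x hx

/-- the bound for the transcendence degree -/
theorem tra_deg {Γ K F L : Type} [Group Γ] [Field K] [Field F] [Field L] [Algebra (ZMod 2) K]
    [Algebra (ZMod 2) F] [Algebra K F] [Algebra K L]
    (ρ : Γ →* Matrix.SpecialLinearGroup (Fin 2) F) (hF : Frc (OO 2 ρ))
    (ι : L →ₐ[K] F) (r : Γ →* Matrix.SpecialLinearGroup (Fin 2) L) (g : Γ)
    (hcf : CF ι ρ r g) (hal : Algebra.IsAlgebraic K L) : Algebra.trdeg K F ≤ 2 := by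
  set a : F := (ρ g).1 0 0 with ha
  set c : F := (ρ g).1 1 0 with hc
  have hc0 : c ≠ 0 := hcf.cne
  let S : Set F := {a, c}
  let R' := Algebra.adjoin K S
  have haR : a ∈ R' := Algebra.subset_adjoin (by simp [S])
  have hcR : c ∈ R' := Algebra.subset_adjoin (by simp [S])
  have hmem : ∀ x ∈ R', IsAlgebraic R' x := fun x hx =>
    isAlgebraic_algebraMap (R := R') (A := F) (⟨x, hx⟩ : R')
  have hL : ∀ x : L, IsAlgebraic R' (ι x) := by
    intro x
    have h1 : IsAlgebraic K (ι x) := (hal.isAlgebraic x).algHom ι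
    exact h1.extendScalars (FaithfulSMul.algebraMap_injective K R')
  have hent : ∀ h i j, IsAlgebraic R' ((ρ h).1 i j) := by
    intro h
    have hcj := hcf.conj h
    have e00 := congrFun (congrFun hcj 0) 0
    have e01 := congrFun (congrFun hcj 0) 1
    have e10 := congrFun (congrFun hcj 1) 0
    have e11 := congrFun (congrFun hcj 1) 1
    simp only [Pm, Matrix.mul_apply, Fin.sum_univ_two, Matrix.map_apply, Matrix.of_apply,
      Matrix.cons_val', Matrix.cons_val_zero, Matrix.cons_val_one, Matrix.cons_val_fin_one]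
      at e00 e01 e10 e11
    rw [← ha] at e00 e01
    rw [← hc] at e10 e11
    have k00 : (ρ h).1 0 0 = ι ((r h).1 0 0) + a * ι ((r h).1 1 0) := by
      linear_combination -e00
    have k10 : (ρ h).1 1 0 = c * ι ((r h).1 1 0) := by
      linear_combination -e10
    have k01 : (ρ h).1 0 1 = (ι ((r h).1 0 1) + a * ι ((r h).1 1 1) - (ρ h).1 0 0 * a) * c⁻¹ := by
      rw [eq_mul_inv_iff_mul_eq₀ hc0]
      linear_combination -e01
    have k11 : (ρ h).1 1 1 = (c * ι ((r h).1 1 1) - (ρ h).1 1 0 * a) * c⁻¹ := by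
      rw [eq_mul_inv_iff_mul_eq₀ hc0]
      linear_combination -e11
    have A := hmem a haR
    have C := hmem c hcR
    have g00 : IsAlgebraic R' ((ρ h).1 0 0) := by
      rw [k00]; exact (hL _).add (A.mul (hL _))
    have g10 : IsAlgebraic R' ((ρ h).1 1 0) := by
      rw [k10]; exact C.mul (hL _)
    have g01 : IsAlgebraic R' ((ρ h).1 0 1) := by
      rw [k01]; exact (((hL _).add (A.mul (hL _))).sub (g00.mul A)).mul C.inv
    have g11 : IsAlgebraic R' ((ρ h).1 1 1) := by
      rw [k11]; exact ((C.mul (hL _)).sub (g10.mul A)).mul C.inv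
    intro i j
    fin_cases i <;> fin_cases j
    · exact g00
    · exact g01
    · exact g10
    · exact g11
  have hOO : ∀ x ∈ OO 2 ρ, IsAlgebraic R' x := by
    intro x hx
    refine Algebra.adjoin_induction (p := fun x _ => IsAlgebraic R' x) ?_ ?_ ?_ ?_ hx
    · rintro _ ⟨h, i, j, rfl⟩
      exact hent h i j
    · intro z
      have : algebraMap (ZMod 2) F z = algebraMap K F (algebraMap (ZMod 2) K z) := by
        have := RingHom.ext_zmod (algebraMap (ZMod 2) F) ((algebraMap K F).comp (algebraMap (ZMod 2) K))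
        rw [this]; rfl
      rw [this]
      exact hmem _ (R'.algebraMap_mem _)
    · intro x y _ _ hx hy
      exact hx.add hy
    · intro x y _ _ hx hy
      exact hx.mul hy
  have halg : Algebra.IsAlgebraic R' F := by
    refine ⟨fun x => ?_⟩
    obtain ⟨u, hu, v, hv, hv0, huv⟩ := hF x
    have : x = u * v⁻¹ := by
      rw [eq_mul_inv_iff_mul_eq₀ hv0, huv]
    rw [this]
    exact (hOO u hu).mul (hOO v hv).inv
  have h4 := Algebra.IsAlgebraic.trdeg_le_cardinalMk K S (A := F)
  refine h4.trans ?_
  have h5 : Cardinal.mk S ≤ Cardinal.mk ({c} : Set F) + 1 := Cardinal.mk_insert_le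
  rw [Cardinal.mk_singleton] at h5
  refine h5.trans (le_of_eq ?_)
  norm_num

theorem p_tra : S_tra := by
  intro b Γ K F L _ _ _ _ _ _ _ _ _ T ρ hb HBB ι r g ht hcf hrg htr h₀ hn
  have hK2 : CharP K 2 := charP_of_injective_algebraMap (algebraMap (ZMod 2) K).injective 2
  let rm : Γ →* Matrix (Fin 2) (Fin 2) L :=
    { toFun := fun h => (r h).1
      map_one' := by rw [map_one]; rfl
      map_mul' := fun x y => by rw [map_mul]; rfl }
  have hrm : ∀ h, rm h = (r h).1 := fun _ => rfl
  have H : CD T rm g h₀ :=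
    { tr := htr
      cg := hrg
      tne := ht
      ene := by
        rw [← QuadraticAlgebra.algebraMap_norm_eq_mul_star]
        intro h0
        apply hn
        have h9 := congrArg QuadraticAlgebra.re h0
        simp only [QuadraticAlgebra.algebraMap_re, QuadraticAlgebra.re_zero] at h9
        exact h9 }
  set t : L := algebraMap K L (T g) with htdef
  set x : L := (uu t (r h₀).1).re with hx
  set y : L := (uu t (r h₀).1).im with hy
  -- generation
  let E : IntermediateField K L := IntermediateField.adjoin K {x, y}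
  have hxE : x ∈ E := IntermediateField.subset_adjoin K _ (by simp)
  have hyE : y ∈ E := IntermediateField.subset_adjoin K _ (by simp)
  have hKE : ∀ k : K, algebraMap K L k ∈ E := fun k => E.algebraMap_mem k
  let BE := BG E.toSubring t (hKE (T g))
  have hOm : uu t (r h₀).1 ∈ BE := ⟨hxE, hyE⟩
  have hio : ∀ z : QA K (T g), io (L := L) (T g) z ∈ BE := fun z => ⟨hKE _, hKE _⟩
  have hz : ∀ h, zz t (r h).1 ∈ BE := by
    intro h
    have := H.z h
    rw [hrm] at this
    rw [← this]
    exact hio _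
  have hu : ∀ h, uu t (r h).1 ∈ BE := by
    intro h
    have := H.u h
    rw [hrm, H.Om_val, hrm] at this
    rw [this]
    exact BE.mul_mem (hio _) hOm
  have hG : (⟨0, 1⟩ : QA L t) ∈ BE := ⟨E.zero_mem, E.one_mem⟩
  have hGs : star (⟨0, 1⟩ : QA L t) ∈ BE := by
    refine ⟨?_, ?_⟩
    · rw [QuadraticAlgebra.re_star]
      exact E.add_mem E.zero_mem (E.mul_mem (hKE _) E.one_mem)
    · rw [QuadraticAlgebra.im_star]
      exact E.neg_mem E.one_mem
  have htop : E = ⊤ := by
    rw [eq_top_iff, ← hcf.gen]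
    apply IntermediateField.adjoin_le_iff.2
    rintro _ ⟨h, i, j, rfl⟩
    have c1 : (⟨(r h).1 0 0, (r h).1 1 0⟩ : QA L t) ∈ BE := by
      rw [← zz_add_uu]
      exact BE.add_mem (hz h) (hu h)
    have c2 : (⟨(r h).1 0 1, (r h).1 1 1⟩ : QA L t) ∈ BE := by
      rw [← col2 H.sne]
      exact BE.add_mem (BE.mul_mem (hz h) hG) (BE.mul_mem hGs (hu h))
    fin_cases i <;> fin_cases j
    · exact c1.1
    · exact c2.1
    · exact c1.2
    · exact c2.2
  refine ⟨?_, htop⟩
  -- transcendence
  intro hyalg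
  have hyint : IsIntegral K y := isAlgebraic_iff_isIntegral.1 hyalg
  have hnorm : x * x + algebraMap K L (T g) * x * y - 1 * y * y = algebraMap K L (eK T g h₀) := by
    have h1 := H.e'
    rw [← QuadraticAlgebra.algebraMap_norm_eq_mul_star] at h1
    have h2 := congrArg QuadraticAlgebra.re h1
    simp only [QuadraticAlgebra.algebraMap_re] at h2
    rw [← h2, QuadraticAlgebra.norm_def]
    rfl
  have hxint : IsIntegral K x := tra_int x y (T g) _ hyint hnorm
  have hal : Algebra.IsAlgebraic K L := by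
    have h1 : Algebra.IsAlgebraic K E := by
      apply IntermediateField.isAlgebraic_adjoin
      intro z hz
      rcases hz with hz | hz
      · rw [hz]; exact hxint
      · rw [Set.mem_singleton_iff.1 hz]; exact hyint
    rw [htop] at h1
    refine ⟨fun z => ?_⟩
    have h2 := h1.isAlgebraic (⟨z, IntermediateField.mem_top⟩ : (⊤ : IntermediateField K L))
    exact h2.algHom (⊤ : IntermediateField K L).val
  have hd := tra_deg ρ HBB.fracF ι r g hcf hal
  have : IsScalarTower (ZMod 2) K F := IsScalarTower.of_algebraMap_eq' (RingHom.ext_zmod _ _)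
  have hadd := trdeg_add_eq (ZMod 2) K (A := F)
  have hF := HBB.trF
  have hK := HBB.trK
  rw [hF] at hadd
  have hfin : (3 * b : Cardinal) < Cardinal.aleph0 := by
    exact_mod_cast Cardinal.natCast_lt_aleph0 (n := 3 * b)
  have hf1 : Algebra.trdeg (ZMod 2) K < Cardinal.aleph0 :=
    lt_of_le_of_lt (by rw [← hK]; exact self_le_add_right _ _) hfin
  have hf2 : Algebra.trdeg K F < Cardinal.aleph0 :=
    lt_of_le_of_lt hd (by exact_mod_cast Cardinal.natCast_lt_aleph0 (n := 2))
  obtain ⟨n1, hn1⟩ := Cardinal.lt_aleph0.1 hf1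
  obtain ⟨n2, hn2⟩ := Cardinal.lt_aleph0.1 hf2
  rw [hn1, hn2] at hadd
  rw [hn1] at hK
  rw [hn2] at hd
  have q1 : n1 + n2 = 3 * b := by exact_mod_cast hadd
  have q2 : n1 + 3 = 3 * b := by exact_mod_cast hK
  have q3 : n2 ≤ 2 := by exact_mod_cast hd
  omega

end Pool.Agent.FrNC
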