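import Pool.Agent.Lib.MP_305fdd_al.Fr.N.C.Asm
import Pool.Agent.Lib.MP_305fdd_al.Fr.N.C.p_dim
import Pool.Agent.Lib.MP_305fdd_al.Fr.N.C.p_pbx
import Pool.Agent.Lib.MP_305fdd_al.Fr.N.C.p_cne
import Pool.Agent.Lib.MP_305fdd_al.Fr.N.C.p_irr
import Pool.Agent.Lib.MP_305fdd_al.Fr.N.C.p_tra
import Pool.Agent.Lib.MP_305fdd_al.Fr.N.C.p_reg
import Pool.Agent.Lib.MP_305fdd_al.Fr.N.C.p_cnt
import Pool.Agent.Lib.MP_305fdd_al.Fr.N.C.p_pts
import Pool.Agent.Lib.MP_305fdd_al.Fr.N.C.p_zet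
import Pool.Agent.Lib.MP_305fdd_al.Fr.N.C.p_pvt
import Pool.Agent.Lib.MP_305fdd_al.Fr.N.C.p_cb
import Pool.Agent.Lib.MP_305fdd_al.Fr.N.C.p_ext
import Pool.Agent.Lib.MP_305fdd_al.Fr.N.C.p_fgz
import Pool.Agent.Lib.MP_305fdd_al.Fr.N.C.p_loc
import Pool.Agent.Lib.MP_305fdd_al.Fr.N.C.p_lin
import Pool.Agent.Lib.MP_305fdd_al.Fr.N.A.Main
import Pool.Agent.Lib.MP_305fdd_al.Fr.N.B.T

/-!
# MP_305fdd_al, F_r project, section N, parts C and D: the final statement `I_CD`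
-/

set_option autoImplicit false

namespace Pool.Agent.FrNC

open Pool.Agent.FrN

/-- Sections C and D of the nilpotence block, from section B and the existence of nuclei. -/
theorem t_CD' (hlin : S_lin) (hB : I_B) (hnuc : I_nucf) : I_CD :=
  p_CD p_dim p_pbx p_cne p_irr p_tra p_reg p_cnt p_pts p_zet hlin p_pvt p_cb p_ext p_fgz p_loc
    hB hnuc

/-- Sections C and D of the nilpotence block. -/
theorem t_CD : I_CD := t_CD' p_lin Pool.Agent.FrB.t_B Pool.Agent.FrNA.t_nucf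

end Pool.Agent.FrNC
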