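import Pool.Agent.Lib.MP_305fdd_al.Fr.N.Int

set_option autoImplicit false

namespace Pool.Agent.FrNC

open Pool.Agent.FrN Pool.Agent.F2Ch

section pinv
variable {p : ℕ} {M : Type} [Field M] {φ : M → M}

theorem pinv_zero (h : IsPinv p φ) : φ 0 = 0 := by
  have := h.add 0 0
  simpa using this

theorem pinv_iter (h : IsPinv p φ) (e : ℕ) : IsPinv (p ^ e) (φ^[e]) := by
  induction e with
  | zero => exact ⟨fun _ _ => rfl, fun a b => by simp⟩
  | succ e ih =>
    refine ⟨fun a b => ?_, fun a b => ?_⟩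
    · rw [Function.iterate_succ_apply', Function.iterate_succ_apply', Function.iterate_succ_apply',
        ih.add, h.add]
    · rw [Function.iterate_succ_apply', Function.iterate_succ_apply', pow_succ, mul_comm (p ^ e) p,
        pow_mul, ih.pow_mul, h.pow_mul]

end pinv

variable {p : ℕ} {K L : Type} [Field K] [Field L] [Algebra (ZMod p) K] [Algebra (ZMod p) L]
  [Algebra K L]

/-- The data of a slice. -/
structure Slice (Φ : K → K) (Ψ : L → L) (Bf : Subalgebra (ZMod p) K) (Z : Subalgebra (ZMod p) L)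
    (V : Subalgebra K L) (π : V →ₗ[K] K) : Prop where
  Φlin : IsPinv p Φ
  Ψlin : IsPinv p Ψ
  Φne : ∃ k, Φ k ≠ 0
  ΨΦ : ∀ k, Ψ (algebraMap K L k) = algebraMap K L (Φ k)
  ZV : ∀ z ∈ Z, z ∈ V
  BZ : ∀ b ∈ Bf, algebraMap K L b ∈ Z
  π1 : π 1 = 1
  πZ : ∀ z : V, (z : L) ∈ Z → π z ∈ Bf
  ΨV : ∀ v ∈ V, Ψ v ∈ V
  πΨ : ∀ v w : V, (w : L) = Ψ v → π w = Φ (π v)
  nil : ∀ v ∈ V, ∃ e₀ : ℕ, ∀ e ≥ e₀, ∀ b : K, ∃ k : K,
    Ψ^[e] (algebraMap K L b * v) = algebraMap K L k
  nd : ∀ s ∈ Z, s ≠ 0 → ∃ β ∈ Z, ∃ w : V, (w : L) = β * s ∧ π w ≠ 0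
  fracK : ∀ k : K, ∃ a ∈ Bf, ∃ b ∈ Bf, b ≠ 0 ∧ k * b = a
  fracL : ∀ l : L, ∃ a ∈ Z, ∃ b ∈ Z, b ≠ 0 ∧ l * b = a

/-- the submodule generated by all `φ^[e] (c * x)`, `x ∈ Q` -/
def gen {M : Type} [Field M] [Algebra (ZMod p) M] {R : Subalgebra (ZMod p) M} (φ : M → M) (c : M) (Q : Submodule R M) :
    Submodule R M :=
  Submodule.span R {y | ∃ (e : ℕ) (x : M), x ∈ Q ∧ y = φ^[e] (c * x)}

theorem gen_stb {M : Type} [Field M] [Algebra (ZMod p) M] {R : Subalgebra (ZMod p) M}
    {φ : M → M} (h : IsPinv p φ) (c : M)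
    (Q : Submodule R M) : Stb φ (gen φ c Q) ∧
      ∀ y ∈ gen φ c Q, ∃ (n : ℕ) (e : Fin n → ℕ) (x : Fin n → M), (∀ i, x i ∈ Q) ∧
        y = ∑ i, φ^[e i] (c * x i) := by
  have key : ∀ y ∈ gen φ c Q, ∃ (n : ℕ) (e : Fin n → ℕ) (x : Fin n → M), (∀ i, x i ∈ Q) ∧
        y = ∑ i, φ^[e i] (c * x i) := by
    intro y hy
    refine Submodule.span_induction (p := fun y _ => ∃ (n : ℕ) (e : Fin n → ℕ) (x : Fin n → M),
      (∀ i, x i ∈ Q) ∧ y = ∑ i, φ^[e i] (c * x i)) ?_ ?_ ?_ ?_ hy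
    · rintro y ⟨e, x, hx, rfl⟩
      exact ⟨1, fun _ => e, fun _ => x, fun _ => hx, by simp⟩
    · exact ⟨0, fun _ => 0, fun _ => 0, fun i => i.elim0, by simp⟩
    · rintro a b - - ⟨n, e, x, hx, rfl⟩ ⟨n', e', x', hx', rfl⟩
      refine ⟨n + n', Fin.append e e', Fin.append x x', fun i => ?_, ?_⟩
      · refine Fin.addCases (fun i => ?_) (fun i => ?_) i
        · simpa using hx i
        · simpa using hx' i
      · simp [Fin.sum_univ_add]
    · rintro r a - ⟨n, e, x, hx, rfl⟩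
      refine ⟨n, e, fun i => (r ^ p ^ e i) • x i, fun i => Q.smul_mem _ (hx i), ?_⟩
      rw [Finset.smul_sum]
      refine Finset.sum_congr rfl fun i _ => ?_
      have := (pinv_iter h (e i)).pow_mul (r : M) (c * x i)
      rw [Subalgebra.smul_def, smul_eq_mul, ← this]
      simp only [Subalgebra.smul_def, smul_eq_mul]
      congr 1
      push_cast
      ring
  refine ⟨fun y hy => ?_, key⟩
  obtain ⟨n, e, x, hx, rfl⟩ := key y hy
  have hsum : ∀ (s : Finset (Fin n)) (f : Fin n → M), φ (∑ i ∈ s, f i) = ∑ i ∈ s, φ (f i) := by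
    intro s f
    classical
    induction s using Finset.induction_on with
    | empty => simpa using pinv_zero h
    | insert a s ha ih => rw [Finset.sum_insert ha, Finset.sum_insert ha, h.add, ih]
  rw [hsum]
  refine Submodule.sum_mem _ fun i _ => Submodule.subset_span ⟨e i + 1, x i, hx i, ?_⟩
  rw [Function.iterate_succ_apply']

theorem gen_le {M : Type} [Field M] [Algebra (ZMod p) M] {R : Subalgebra (ZMod p) M} {φ : M → M} {c : M} {Q Q' : Submodule R M}
    (hs : Stb φ Q') (hc : ∀ x ∈ Q, c * x ∈ Q') : gen φ c Q ≤ Q' := by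
  refine Submodule.span_le.2 ?_
  rintro y ⟨e, x, hx, rfl⟩
  have : ∀ (e : ℕ) (z : M), z ∈ Q' → φ^[e] z ∈ Q' := by
    intro e
    induction e with
    | zero => exact fun z hz => hz
    | succ e ih => intro z hz; rw [Function.iterate_succ_apply']; exact hs _ (ih z hz)
  exact this e _ (hc x hx)

section
variable {Φ : K → K} {Ψ : L → L} {Bf : Subalgebra (ZMod p) K} {Z : Subalgebra (ZMod p) L}
  {V : Subalgebra K L} {π : V →ₗ[K] K}

/-- the elements of `K` in `Om` -/
def nn (Bf : Subalgebra (ZMod p) K) (Z : Subalgebra (ZMod p) L) (hBZ : ∀ b ∈ Bf, algebraMap K L b ∈ Z)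
    (Om : Submodule Z L) : Submodule Bf K where
  carrier := {k | algebraMap K L k ∈ Om}
  add_mem' := fun {a b} ha hb => by
    simp only [Set.mem_setOf_eq, map_add] at *
    exact Om.add_mem ha hb
  zero_mem' := by simp
  smul_mem' := fun b k hk => by
    have := Om.smul_mem ⟨algebraMap K L b, hBZ b b.2⟩ hk
    simpa [Subalgebra.smul_def] using this

end

theorem slice_main {Φ : K → K} {Ψ : L → L} {Bf : Subalgebra (ZMod p) K} {Z : Subalgebra (ZMod p) L}
    {V : Subalgebra K L} {π : V →ₗ[K] K} (h : Slice Φ Ψ Bf Z V π) [IsNoetherianRing Z]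
    (Om : Submodule Z L) (hO : IsOm Z Ψ Om) (hfg : Om.FG) :
    ∃ N : Submodule Bf K, (∀ k, k ∈ N ↔ algebraMap K L k ∈ Om) ∧ IsOm Bf Φ N ∧ N.FG ∧
      ∀ η ∈ Om, ∃ e₀ : ℕ, ∀ e ≥ e₀, ∃ k ∈ N, Ψ^[e] η = algebraMap K L k := by
  have hπk : ∀ (k : K) (w : V), (w : L) = algebraMap K L k → π w = k := by
    intro k w hw
    have : w = k • (1 : V) := by
      apply Subtype.ext
      rw [hw]
      simp [Algebra.smul_def]
    rw [this, map_smul, h.π1, smul_eq_mul, mul_one]
  have hΨit : ∀ (e : ℕ) (k : K), Ψ^[e] (algebraMap K L k) = algebraMap K L (Φ^[e] k) := by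
    intro e
    induction e with
    | zero => intro k; rfl
    | succ e ih =>
      intro k
      rw [Function.iterate_succ_apply', Function.iterate_succ_apply', ih, h.ΨΦ]
  have hVit : ∀ (e : ℕ) (v : L), v ∈ V → Ψ^[e] v ∈ V := by
    intro e
    induction e with
    | zero => exact fun v hv => hv
    | succ e ih => intro v hv; rw [Function.iterate_succ_apply']; exact h.ΨV _ (ih v hv)
  have hπit : ∀ (e : ℕ) (v w : V), (w : L) = Ψ^[e] (v : L) → π w = Φ^[e] (π v) := by
    intro e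
    induction e with
    | zero => intro v w hw; rw [Subtype.ext hw]; rfl
    | succ e ih =>
      intro v w hw
      rw [Function.iterate_succ_apply'] at hw ⊢
      rw [h.πΨ ⟨Ψ^[e] v, hVit e v v.2⟩ w hw, ih v ⟨Ψ^[e] v, hVit e v v.2⟩ rfl]
  have hOit : ∀ (e : ℕ) (z : L), z ∈ Om → Ψ^[e] z ∈ Om := by
    intro e
    induction e with
    | zero => exact fun z hz => hz
    | succ e ih => intro z hz; rw [Function.iterate_succ_apply']; exact hO.stb _ (ih z hz)
  have hΦit : ∀ (e : ℕ), ∃ k, Φ^[e] k ≠ 0 := by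
    -- `Φ` is surjective
    have hsurj : ∀ y, ∃ x, Φ x = y := by
      intro y
      obtain ⟨k, hk⟩ := h.Φne
      refine ⟨(y / Φ k) ^ p * k, ?_⟩
      rw [h.Φlin.pow_mul, div_mul_cancel₀ _ hk]
    intro e
    induction e with
    | zero => exact ⟨1, one_ne_zero⟩
    | succ e ih =>
      obtain ⟨k, hk⟩ := ih
      obtain ⟨x, hx⟩ := hsurj k
      exact ⟨x, by rw [Function.iterate_succ_apply, hx]; exact hk⟩
  -- a nonzero element of `Om` in `Z`
  obtain ⟨o, hoO, ho0⟩ := (Submodule.ne_bot_iff _).1 hO.ne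
  obtain ⟨s, hs, b, hb, hb0, hbs⟩ := h.fracL o
  have hsO : s ∈ Om := by
    have := Om.smul_mem ⟨b, hb⟩ hoO
    rw [Subalgebra.smul_def, smul_eq_mul] at this
    rw [← hbs, mul_comm]; exact this
  have hs0 : s ≠ 0 := by rw [← hbs]; exact mul_ne_zero ho0 hb0
  obtain ⟨β, hβ, w, hw, hw0⟩ := h.nd s hs hs0
  have hwO : (w : L) ∈ Om := by
    rw [hw]; exact Om.smul_mem ⟨β, hβ⟩ hsO
  -- a nonzero element `c` of `K` in `Om`
  obtain ⟨c, hc0, hcO⟩ : ∃ c : K, c ≠ 0 ∧ algebraMap K L c ∈ Om := by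
    obtain ⟨e, he⟩ := h.nil w w.2
    obtain ⟨k', hk'⟩ := hΦit e
    obtain ⟨a', ha', d', hd', hd0', hda'⟩ := h.fracK (k' / π w)
    have hpe' : p ^ e ≠ 0 := by
      intro hz
      have h1 := (pinv_iter h.Φlin e).pow_mul 0 k'
      rw [hz] at h1
      simp at h1
      exact hk' h1
    have hb2B : d' ^ (p ^ e - 1) * a' ∈ Bf := Bf.mul_mem (Bf.pow_mem hd' _) ha'
    have hb2 : d' ^ (p ^ e - 1) * a' * π w = d' ^ (p ^ e) * k' := by
      have : a' * π w = k' * d' := by
        rw [← hda']; field_simp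
      calc d' ^ (p ^ e - 1) * a' * π w = d' ^ (p ^ e - 1) * (a' * π w) := by ring
        _ = d' ^ (p ^ e - 1) * d' * k' := by rw [this]; ring
        _ = d' ^ (p ^ e) * k' := by
          rw [← pow_succ, Nat.sub_add_cancel (Nat.one_le_iff_ne_zero.2 hpe')]
    generalize d' ^ (p ^ e - 1) * a' = b2 at hb2B hb2
    obtain ⟨k, hk⟩ := he e le_rfl b2
    refine ⟨k, ?_, ?_⟩
    · have h1 := hπit e (b2 • w) (algebraMap K V k) (by
        rw [Subalgebra.coe_smul, Algebra.smul_def, hk]; rfl)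
      rw [hπk k _ rfl, map_smul, smul_eq_mul, hb2, (pinv_iter h.Φlin e).pow_mul] at h1
      rw [h1]
      exact mul_ne_zero hd0' hk'
    · rw [← hk]
      exact hOit e _ (Om.smul_mem ⟨algebraMap K L b2, h.BZ _ hb2B⟩ hwO)
  have hOV : ∀ η ∈ Om, ∃ (n : ℕ) (e : Fin n → ℕ) (x : Fin n → L), (∀ i, x i ∈ Z) ∧
      η = ∑ i, Ψ^[e i] (algebraMap K L c * x i) := by
    let Q : Submodule Z L := Submodule.span Z {1}
    have hQ : ∀ x, x ∈ Q ↔ x ∈ Z := by
      intro x
      rw [Submodule.mem_span_singleton]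
      constructor
      · rintro ⟨z, rfl⟩
        simp [Subalgebra.smul_def]
      · intro hx
        exact ⟨⟨x, hx⟩, by simp [Subalgebra.smul_def]⟩
    have hg := gen_stb h.Ψlin (algebraMap K L c) Q
    have hle : Om ≤ gen Ψ (algebraMap K L c) Q := by
      refine hO.min _ ?_ hg.1
      rw [Submodule.ne_bot_iff]
      refine ⟨algebraMap K L c, Submodule.subset_span ⟨0, 1, (hQ 1).2 Z.one_mem, by simp⟩, ?_⟩
      simpa using hc0
    intro η hη
    obtain ⟨n, e, x, hx, rfl⟩ := hg.2 η (hle hη)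
    exact ⟨n, e, x, fun i => (hQ _).1 (hx i), rfl⟩
  have hOmV : ∀ η ∈ Om, η ∈ V := by
    intro η hη
    obtain ⟨n, e, x, hx, rfl⟩ := hOV η hη
    exact V.sum_mem fun i _ => hVit _ _ (V.mul_mem (V.algebraMap_mem _) (h.ZV _ (hx i)))
  -- the projection maps `Om` to `Om`
  have hπO : ∀ v : V, (v : L) ∈ Om → algebraMap K L (π v) ∈ Om := by
    intro v hv
    obtain ⟨n, e, x, hx, hxv⟩ := hOV v hv
    let y : Fin n → V := fun i => ⟨Ψ^[e i] (algebraMap K L c * x i),
      hVit _ _ (V.mul_mem (V.algebraMap_mem _) (h.ZV _ (hx i)))⟩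
    have hv' : v = ∑ i, y i := by
      apply Subtype.ext
      rw [hxv]
      simp [y]
    rw [hv', map_sum, map_sum]
    refine Om.sum_mem fun i _ => ?_
    rw [hπit (e i) (c • ⟨x i, h.ZV _ (hx i)⟩) (y i) (by
      rw [Subalgebra.coe_smul, Algebra.smul_def]), map_smul, smul_eq_mul, ← hΨit]
    refine hOit _ _ ?_
    rw [map_mul, mul_comm]
    exact Om.smul_mem ⟨algebraMap K L (π ⟨x i, h.ZV _ (hx i)⟩), h.BZ _ (h.πZ _ (hx i))⟩ hcO
  let N : Submodule Bf K := nn Bf Z h.BZ Om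
  have hN : ∀ k, k ∈ N ↔ algebraMap K L k ∈ Om := fun k => Iff.rfl
  have hNne : N ≠ ⊥ := (Submodule.ne_bot_iff _).2 ⟨c, (hN c).2 hcO, hc0⟩
  have hNstb : Stb Φ N := fun q hq => (hN _).2 (by rw [← h.ΨΦ]; exact hO.stb _ ((hN _).1 hq))
  -- finite generation
  have hNfg : N.FG := by
    haveI : IsNoetherian Z Om := isNoetherian_of_fg_of_noetherian Om hfg
    let P : Submodule Z L := Submodule.span Z (algebraMap K L '' (N : Set K))
    have hP : P ≤ Om := Submodule.span_le.2 (by rintro _ ⟨k, hk, rfl⟩; exact (hN k).1 hk)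
    have hPfg : P.FG := by
      have := (isNoetherian_submodule.1 this) P hP
      exact this
    obtain ⟨t, ht, ht2⟩ := (Submodule.fg_span_iff_fg_span_finset_subset _).1 hPfg
    have : ∃ t' : Finset K, (t' : Set K) ⊆ N ∧ (t : Set L) ⊆ algebraMap K L '' (t' : Set K) := by
      classical
      choose! f hf using fun (x : L) (hx : x ∈ (t : Set L)) => ht hx
      refine ⟨t.image f, ?_, ?_⟩
      · intro k hk
        simp only [Finset.coe_image, Set.mem_image, Finset.mem_coe] at hk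
        obtain ⟨x, hx, rfl⟩ := hk
        exact (hf x hx).1
      · intro x hx
        exact ⟨f x, by simpa using ⟨x, hx, rfl⟩, (hf x hx).2⟩
    obtain ⟨t', ht'N, htt'⟩ := this
    refine ⟨t', le_antisymm (Submodule.span_le.2 ht'N) fun k hk => ?_⟩
    have hk1 : algebraMap K L k ∈ Submodule.span Z (algebraMap K L '' (t' : Set K)) := by
      have : algebraMap K L k ∈ P := Submodule.subset_span ⟨k, hk, rfl⟩
      rw [show P = Submodule.span Z (t : Set L) from ht2] at this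
      exact Submodule.span_mono htt' this
    have hgen : ∀ y ∈ Submodule.span Z (algebraMap K L '' (t' : Set K)), ∃ v : V, (v : L) = y ∧
        ∀ r ∈ Z, ∀ w : V, (w : L) = r * y → π w ∈ Submodule.span Bf (t' : Set K) := by
      intro y hy
      refine Submodule.span_induction (p := fun y _ => ∃ v : V, (v : L) = y ∧
        ∀ r ∈ Z, ∀ w : V, (w : L) = r * y → π w ∈ Submodule.span Bf (t' : Set K)) ?_ ?_ ?_ ?_ hy
      · rintro _ ⟨k, hk, rfl⟩
        refine ⟨algebraMap K V k, rfl, fun r hr w hw => ?_⟩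
        have : w = k • (⟨r, h.ZV r hr⟩ : V) := by
          apply Subtype.ext
          rw [hw, Subalgebra.coe_smul, Algebra.smul_def, mul_comm]
        rw [this, map_smul, smul_eq_mul, mul_comm]
        exact Submodule.smul_mem _ (⟨_, h.πZ ⟨r, h.ZV r hr⟩ hr⟩ : Bf) (Submodule.subset_span hk)
      · refine ⟨0, rfl, fun r hr w hw => ?_⟩
        have : w = 0 := Subtype.ext (by rw [hw]; simp)
        rw [this, map_zero]
        exact Submodule.zero_mem _
      · rintro a b - - ⟨v, rfl, hv⟩ ⟨v', rfl, hv'⟩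
        refine ⟨v + v', rfl, fun r hr w hw => ?_⟩
        have : w = (⟨r, h.ZV r hr⟩ : V) * v + (⟨r, h.ZV r hr⟩ : V) * v' := by
          apply Subtype.ext
          rw [hw]
          simp [mul_add]
        rw [this, map_add]
        exact Submodule.add_mem _ (hv r hr _ rfl) (hv' r hr _ rfl)
      · rintro r a - ⟨v, rfl, hv⟩
        refine ⟨⟨r, h.ZV r r.2⟩ * v, by simp [Subalgebra.smul_def], fun r' hr' w hw => ?_⟩
        exact hv (r' * r) (Z.mul_mem hr' r.2) w (by rw [hw, Subalgebra.smul_def, smul_eq_mul, mul_assoc])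
    obtain ⟨v, hv, hv2⟩ := hgen _ hk1
    have := hv2 1 Z.one_mem v (by rw [one_mul, hv])
    rwa [hπk k v hv] at this
  refine ⟨N, hN, ⟨hNne, hNstb, ?_⟩, hNfg, ?_⟩
  · intro Q' hQ'ne hQ'
    -- a common denominator
    obtain ⟨c', hc'B, hc'0, hc'⟩ : ∃ c' ∈ Bf, c' ≠ 0 ∧ ∀ x ∈ N, c' * x ∈ Q' := by
      obtain ⟨q, hq, hq0⟩ := (Submodule.ne_bot_iff _).1 hQ'ne
      obtain ⟨t, ht⟩ := hNfg
      have : ∀ t : Finset K, ∃ c' ∈ Bf, c' ≠ 0 ∧ ∀ x ∈ t, c' * x ∈ Q' := by
        classical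
        intro t
        induction t using Finset.induction_on with
        | empty => exact ⟨1, Bf.one_mem, one_ne_zero, by simp⟩
        | insert a t hat ih =>
          obtain ⟨c1, hc1, hc10, hc1'⟩ := ih
          obtain ⟨a1, ha1, b1, hb1, hb10, hab⟩ := h.fracK (a / q)
          refine ⟨c1 * b1, Bf.mul_mem hc1 hb1, mul_ne_zero hc10 hb10, fun x hx => ?_⟩
          rcases Finset.mem_insert.1 hx with rfl | hx
          · have : c1 * b1 * x = (c1 * a1) * q := by
              rw [← hab]; field_simp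
            rw [this]
            exact Q'.smul_mem ⟨c1 * a1, Bf.mul_mem hc1 ha1⟩ hq
          · have : c1 * b1 * x = b1 * (c1 * x) := by ring
            rw [this]
            exact Q'.smul_mem ⟨b1, hb1⟩ (hc1' x hx)
      obtain ⟨c', h1, h2, h3⟩ := this t
      refine ⟨c', h1, h2, fun x hx => ?_⟩
      rw [← ht] at hx
      refine Submodule.span_induction (p := fun x _ => c' * x ∈ Q') ?_ ?_ ?_ ?_ hx
      · exact fun x hx => h3 x hx
      · simp
      · intro a b _ _ ha hb; rw [mul_add]; exact Q'.add_mem ha hb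
      · intro r a _ ha
        have : c' * (r • a) = r • (c' * a) := by
          simp only [Subalgebra.smul_def, smul_eq_mul]; ring
        rw [this]
        exact Q'.smul_mem _ ha
    have hg := gen_stb h.Ψlin (algebraMap K L c') Om
    have hle : Om ≤ gen Ψ (algebraMap K L c') Om := by
      refine hO.min _ ?_ hg.1
      rw [Submodule.ne_bot_iff]
      exact ⟨algebraMap K L c' * o, Submodule.subset_span ⟨0, o, hoO, by simp⟩,
        mul_ne_zero (by simpa using hc'0) ho0⟩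
    intro η hη
    obtain ⟨n, e, x, hx, hxη⟩ := hg.2 _ (hle ((hN η).1 hη))
    have hxV : ∀ i, x i ∈ V := fun i => hOmV _ (hx i)
    let y : Fin n → V := fun i => ⟨Ψ^[e i] (algebraMap K L c' * x i),
      hVit _ _ (V.mul_mem (V.algebraMap_mem _) (hxV i))⟩
    have hη' : η = ∑ i, π (y i) := by
      rw [← map_sum]
      symm
      refine hπk _ _ ?_
      rw [hxη]
      simp [y]
    rw [hη']
    refine Q'.sum_mem fun i _ => ?_
    rw [hπit (e i) (c' • ⟨x i, hxV i⟩) (y i) (by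
      rw [Subalgebra.coe_smul, Algebra.smul_def]), map_smul, smul_eq_mul]
    have hQit : ∀ (e : ℕ) (z : K), z ∈ Q' → Φ^[e] z ∈ Q' := by
      intro e
      induction e with
      | zero => exact fun z hz => hz
      | succ e ih => intro z hz; rw [Function.iterate_succ_apply']; exact hQ' _ (ih z hz)
    exact hQit _ _ (hc' _ ((hN _).2 (hπO _ (hx i))))
  · intro η hη
    obtain ⟨e₀, he₀⟩ := h.nil η (hOmV η hη)
    refine ⟨e₀, fun e he => ?_⟩
    obtain ⟨k, hk⟩ := he₀ e he 1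
    rw [map_one, one_mul] at hk
    exact ⟨k, (hN k).2 (by rw [← hk]; exact hOit _ _ hη), hk⟩

end Pool.Agent.FrNC
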