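import Pool.Agent.Lib.MP_305fdd_al.Fr.N.C.TM7
import Pool.Agent.Lib.MP_305fdd_al.Fr.N.Hlp

set_option autoImplicit false

namespace Pool.Agent.FrNC

open QuadraticAlgebra Pool.Agent.FrN Pool.Agent.F2Ch Pool.Agent.F2RF Pool.Agent.F2TF

/-- the underlying homomorphism to matrices -/
def rMat {Γ L : Type} [Group Γ] [Field L] (r : Γ →* Matrix.SpecialLinearGroup (Fin 2) L) :
    Γ →* Matrix (Fin 2) (Fin 2) L where
  toFun h := (r h).1
  map_one' := by rw [map_one]; rfl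
  map_mul' a b := by rw [map_mul]; rfl

section
variable {Γ : Type} [Group Γ] {K L : Type} [Field K] [Field L] [Algebra K L]
  [Algebra (ZMod 2) K] [Algebra (ZMod 2) L] {T : Γ → K}
  {r : Γ →* Matrix.SpecialLinearGroup (Fin 2) L}

theorem BB_le_Bi (y : K) : BB 2 T ≤ Bi (BB 2 T) y :=
  fun _ hx => Algebra.subset_adjoin (Or.inl hx)

theorem Bi_inv_mem (y : K) : y⁻¹ ∈ Bi (BB 2 T) y := Algebra.subset_adjoin (Or.inr rfl)

theorem al_zmod (c : ZMod 2) : algebraMap K L (algebraMap (ZMod 2) K c) = algebraMap (ZMod 2) L c := by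
  have := RingHom.ext_zmod ((algebraMap K L).comp (algebraMap (ZMod 2) K)) (algebraMap (ZMod 2) L)
  exact RingHom.congr_fun this c

theorem BB_mem_Zw (hrt : ∀ h, (r h).1.trace = algebraMap K L (T h)) (w : L) (b : K)
    (hb : b ∈ BB 2 T) : algebraMap K L b ∈ Zw r w := by
  refine Algebra.adjoin_induction (p := fun b _ => algebraMap K L b ∈ Zw r w) ?_ ?_ ?_ ?_ hb
  · rintro _ ⟨h, rfl⟩
    rw [← hrt, Matrix.trace_fin_two]
    exact (Zw r w).add_mem (mem_Zw r w h 0 0) (mem_Zw r w h 1 1)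
  · intro c
    rw [al_zmod]
    exact (Zw r w).algebraMap_mem c
  · intro x y _ _ hx hy
    rw [map_add]
    exact (Zw r w).add_mem hx hy
  · intro x y _ _ hx hy
    rw [map_mul]
    exact (Zw r w).mul_mem hx hy

theorem Bi_mem_Zw (hrt : ∀ h, (r h).1.trace = algebraMap K L (T h)) (y : K) (b : K)
    (hb : b ∈ Bi (BB 2 T) y) : algebraMap K L b ∈ Zw r (algebraMap K L y)⁻¹ := by
  refine Algebra.adjoin_induction (p := fun b _ => algebraMap K L b ∈ Zw r (algebraMap K L y)⁻¹)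
    ?_ ?_ ?_ ?_ hb
  · rintro x (hx | rfl)
    · exact BB_mem_Zw hrt _ _ hx
    · rw [map_inv₀]
      exact Algebra.subset_adjoin (Or.inr rfl)
  · intro c
    rw [al_zmod]
    exact (Zw r _).algebraMap_mem c
  · intro x z _ _ hx hz
    rw [map_add]
    exact (Zw r _).add_mem hx hz
  · intro x z _ _ hx hz
    rw [map_mul]
    exact (Zw r _).mul_mem hx hz

theorem BB_mem_ent (hrt : ∀ h, (r h).1.trace = algebraMap K L (T h)) (b : K)
    (hb : b ∈ BB 2 T) : algebraMap K L b ∈ Algebra.adjoin (ZMod 2) {x | ∃ h i j, x = (r h).1 i j} := by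
  refine Algebra.adjoin_induction (p := fun b _ => algebraMap K L b ∈
    Algebra.adjoin (ZMod 2) {x | ∃ h i j, x = (r h).1 i j}) ?_ ?_ ?_ ?_ hb
  · rintro _ ⟨h, rfl⟩
    rw [← hrt, Matrix.trace_fin_two]
    exact Subalgebra.add_mem _ (Algebra.subset_adjoin ⟨h, 0, 0, rfl⟩)
      (Algebra.subset_adjoin ⟨h, 1, 1, rfl⟩)
  · intro c
    rw [al_zmod]
    exact Subalgebra.algebraMap_mem _ c
  · intro x y _ _ hx hy
    rw [map_add]
    exact Subalgebra.add_mem _ hx hy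
  · intro x y _ _ hx hy
    rw [map_mul]
    exact Subalgebra.mul_mem _ hx hy

end

theorem Phi_ne {K : Type} [Field K] [CharP K 2] {Φ : K → K} {d : ℕ} {tt : Fin d → K}
    {π : (Fin d → Fin 2) → K → K} {g₀ : K} (hMB : MB 2 tt π) (hg : g₀ ≠ 0)
    (hΦ : ∀ f, Φ f = g₀⁻¹ * π j0 (g₀ * f)) : ∃ k, Φ k ≠ 0 := by
  classical
  refine ⟨g₀⁻¹, ?_⟩
  rw [hΦ, mul_inv_cancel₀ hg]
  have h1 := hMB.pb.uniq (fun i => if i = j0 then 1 else 0) j0
  have h2 : ∑ j, (fun i => if i = j0 then (1 : K) else 0) j ^ 2 * monY (p := 2) tt j = 1 := by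
    rw [Finset.sum_eq_single j0]
    · simp [monY, j0]
    · intro j _ hj
      simp [hj]
    · simp
  rw [h2] at h1
  rw [h1]
  simpa using hg

theorem sgn_eq (b d : ℕ) (hb : 1 ≤ b) (hd : d = 3 * b - 2) : sgn d = sgn b := by
  obtain ⟨n, rfl⟩ : ∃ n, b = n + 1 := ⟨b - 1, by omega⟩
  have : d = (n + 1) + 2 * n := by omega
  rw [sgn, sgn, this, pow_add, pow_mul]
  simp

set_option maxHeartbeats 4000000 in
theorem p_CD (hdim : S_dim) (hpbx : S_pbx) (hcne : S_cne) (hirr : S_irr) (htra : S_tra)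
    (hreg : S_reg) (hcnt : S_cnt) (hpts : S_pts) (hzet : S_zet) (hlin : S_lin) (hpvt : S_pvt)
    (hcb : S_cb) (hext : S_ext) (hfgz : S_fgz) (hloc : S_loc) (hB : I_B) (hnuc : I_nucf) :
    I_CD := by
  intro b Γ K F _ _ _ _ _ _ T ρ hb HB Φ hΦL hΦ g hTg
  have hchK : CharP K 2 := charP_of_injective_algebraMap (algebraMap (ZMod 2) K).injective 2
  obtain ⟨d, tt, π, g₀, hMB, hg₀, hΦf⟩ := hΦL
  have hBfg : (BB 2 T).FG := HB.BB_fg
  have htrK : Algebra.trdeg (ZMod 2) K = ((3 * b - 3 : ℕ) : Cardinal) := by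
    have h1 := HB.trK
    have h2 : Algebra.trdeg (ZMod 2) K < Cardinal.aleph0 := by
      refine lt_of_le_of_lt (self_le_add_right _ 3) ?_
      rw [h1]
      have : (3 * (b : Cardinal)) = ((3 * b : ℕ) : Cardinal) := by push_cast; rfl
      rw [this]
      exact Cardinal.natCast_lt_aleph0
    obtain ⟨n, hn⟩ := Cardinal.lt_aleph0.1 h2
    rw [hn] at h1 ⊢
    have h3 : n + 3 = 3 * b := by exact_mod_cast h1
    have h4 : n = 3 * b - 3 := by omega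
    rw [h4]
  have hd : d = 3 * b - 3 := hdim 2 K (BB 2 T) hBfg HB.fracK (3 * b - 3) d tt π hMB htrK |>.trans rfl
  have hd1 : d + 1 = 3 * b - 2 := by omega
  have hcne' := hcne b Γ K F T ρ HB g hTg
  obtain ⟨L, _, _, _, ι, r, hCF, hrg, hrt⟩ := hext b Γ K F T ρ HB g hTg hcne'
  have hchL : CharP L 2 := charP_of_injective_algebraMap (algebraMap (ZMod 2) L).injective 2
  obtain ⟨h₀, hh₀⟩ := hirr b Γ K F L T ρ hb HB r g hTg hrg hrt
  obtain ⟨htr, hgen⟩ := htra b Γ K F L T ρ (by omega) HB ι r g hTg hCF hrg hrt h₀ hh₀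
  have HCD : CD T (rMat r) g h₀ :=
    { tr := hrt
      cg := hrg
      tne := hTg
      ene := by
        rw [← QuadraticAlgebra.algebraMap_norm_eq_mul_star]
        intro h
        exact hh₀ (al_inj (by rw [map_zero]; exact h)) }
  have HL : LO (T g) (eK T g h₀) HCD.Om :=
    ⟨hTg, HCD.e0, HCD.e', hlin K L (T g) (eK T g h₀) hTg HCD.e0 HCD.Om HCD.e' htr⟩
  obtain ⟨Ψ, t', π', hMB', hΨL, hΨ, hk, hl⟩ := exists_Psi hpbx HL htr hgen hMB hg₀ hΦf hΦ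
  have hΦne := Phi_ne hMB hg₀ hΦf
  -- the slices
  have key : ∀ y z : BB 2 T, y ≠ 0 → y = bT 2 T g * z →
      ∃ (N : Submodule (Bi (BB 2 T) (y : K)) K)
        (OmZ : Submodule (Zw r (algebraMap K L (y : K))⁻¹) L),
        IsOm (Bi (BB 2 T) (y : K)) Φ N ∧ N.FG ∧ (∀ k, k ∈ N ↔ algebraMap K L k ∈ OmZ) ∧
        Stb Ψ OmZ ∧ OmZ.FG ∧ (∀ η ∈ OmZ, ∃ (e : ℕ) (k : K), Ψ^[e] η = algebraMap K L k) ∧
        ∀ m : ℕ, Cg m (PF hΨ OmZ : PowerSeries (ZMod 2))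
          ((zu 2 (Zw r (algebraMap K L (y : K))⁻¹) m ^ sgn (d + 1) :
            (PowerSeries (ZMod 2))ˣ) : PowerSeries (ZMod 2)) := by
    intro y z hy hyz
    have hyK : (y : K) ≠ 0 := fun h => hy (Subtype.ext h)
    have hyL : algebraMap K L (y : K) ≠ 0 := fun h =>
      hyK ((algebraMap K L).injective (by rw [h, map_zero]))
    have hyz' : (y : K) = T g * z := congrArg Subtype.val hyz
    obtain ⟨hZfg, hZfrc⟩ := hfgz Γ K L T r HB.fg HB.fracK hrt hCF.gen (algebraMap K L (y : K))⁻¹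
    have hT : ∀ h, T h ∈ Bi (BB 2 T) (y : K) := fun h =>
      BB_le_Bi _ (Algebra.subset_adjoin ⟨h, rfl⟩)
    have hti : (T g)⁻¹ ∈ Bi (BB 2 T) (y : K) := by
      have h1 : (T g)⁻¹ = z * (y : K)⁻¹ := by
        rw [hyz']
        have hz : (z : K) ≠ 0 := fun h => hyK (by rw [hyz', h, mul_zero])
        field_simp
      rw [h1]
      exact Subalgebra.mul_mem _ (BB_le_Bi _ z.2) (Bi_inv_mem _)
    have hsl : Slice Φ Ψ (Bi (BB 2 T) (y : K)) (Zw r (algebraMap K L (y : K))⁻¹) (Vs HL) (pr HL) := by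
      refine slice_ex HCD HL (Bi (BB 2 T) (y : K)) hT hti
        ({x | ∃ h i j, x = (r h).1 i j} ∪ {(algebraMap K L (y : K))⁻¹}) _ rfl ?_ ?_ ?_ ?_ hZfrc
        hΦ hΦne hΨ hk hl
      · rintro x (⟨h, i, j, rfl⟩ | rfl)
        · exact Or.inl ⟨h, i, j, rfl⟩
        · exact Or.inr ⟨_, Bi_inv_mem _, by rw [map_inv₀]⟩
      · exact fun h i j => mem_Zw r _ h i j
      · exact fun b hb => Bi_mem_Zw hrt _ b hb
      · intro k
        obtain ⟨a, ha, c, hc, hc0, hac⟩ := HB.fracK k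
        exact ⟨a, BB_le_Bi _ ha, c, BB_le_Bi _ hc, hc0, hac⟩
    have hreg' : Reg (d + 1) (Zw r (algebraMap K L (y : K))⁻¹) := by
      rw [hd1]
      have := HB.fg
      refine hreg b Γ L r g (algebraMap K L (T g)) (algebraMap K L (y : K))⁻¹ (by omega)
        (fun κ _ _ _ s => HB.lifts κ s) hrg (inv_ne_zero hyL) ?_
      rw [inv_inv]
      exact BB_mem_ent hrt _ y.2
    obtain ⟨hh, OmZ, hOm, hOmfg, hPF⟩ := hB 2 L (Zw r (algebraMap K L (y : K))⁻¹) hZfg hZfrc (d + 1)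
      hreg' t' π' hMB' Ψ hΨL
    have hft : Algebra.FiniteType (ZMod 2) (Zw r (algebraMap K L (y : K))⁻¹) :=
      (Subalgebra.fg_iff_finiteType _).1 hZfg
    have hnoe : IsNoetherianRing (Zw r (algebraMap K L (y : K))⁻¹) :=
      Algebra.FiniteType.isNoetherianRing (ZMod 2) _
    obtain ⟨N, hN1, hN2, hN3, hN4⟩ := slice_main hsl OmZ hOm hOmfg
    refine ⟨N, OmZ, hN2, hN3, hN1, hOm.stb, hOmfg, fun η hη => ?_, hPF⟩
    obtain ⟨e₀, he⟩ := hN4 η hη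
    obtain ⟨k, -, hk⟩ := he e₀ le_rfl
    exact ⟨e₀, k, hk⟩
  have keyN : ∀ y : K, ∃ N : Submodule (Bi (BB 2 T) y) K,
      ∀ (yy zz : BB 2 T) (hyy : (yy : K) = y), yy ≠ 0 → yy = bT 2 T g * zz →
      ∃ OmZ : Submodule (Zw r (algebraMap K L y)⁻¹) L,
        IsOm (Bi (BB 2 T) y) Φ N ∧ N.FG ∧ (∀ k, k ∈ N ↔ algebraMap K L k ∈ OmZ) ∧
        Stb Ψ OmZ ∧ OmZ.FG ∧ (∀ η ∈ OmZ, ∃ (e : ℕ) (k : K), Ψ^[e] η = algebraMap K L k) ∧
        ∀ m : ℕ, Cg m (PF hΨ OmZ : PowerSeries (ZMod 2))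
          ((zu 2 (Zw r (algebraMap K L y)⁻¹) m ^ sgn (d + 1) :
            (PowerSeries (ZMod 2))ˣ) : PowerSeries (ZMod 2)) := by
    intro y
    by_cases hy : ∃ yy zz : BB 2 T, (yy : K) = y ∧ yy ≠ 0 ∧ yy = bT 2 T g * zz
    · obtain ⟨yy, zz, rfl, h1, h2⟩ := hy
      obtain ⟨N, OmZ, hN⟩ := key yy zz h1 h2
      exact ⟨N, fun _ _ _ _ _ => ⟨OmZ, hN⟩⟩
    · exact ⟨⊥, fun yy zz h1 h2 h3 => (hy ⟨yy, zz, h1, h2, h3⟩).elim⟩
  choose N hN using keyN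
  obtain ⟨Ng, S, hNg1, hNg2, hS1, hS2, hmin, hNgl⟩ := hloc K (BB 2 T) Φ hΦ (bT 2 T g)
    (fun h => hTg (congrArg Subtype.val h)) N (fun y z hy hyz => by
      obtain ⟨OmZ, h1, h2, -⟩ := hN y y z rfl hy hyz
      exact ⟨h1, h2⟩)
  refine ⟨Ng, S, hNg1, hNg2, hS1, hS2, hmin, ?_⟩
  rintro y hy ⟨z, hz⟩
  have hyz : y = bT 2 T g * z := Subtype.ext hz
  have hyK : (y : K) ≠ 0 := fun h => hy (Subtype.ext h)
  obtain ⟨OmZ, h1, h2, h3, h4, h5, h6, h7⟩ := hN y y z rfl hy hyz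
  obtain ⟨hZfg, hZfrc⟩ := hfgz Γ K L T r HB.fg HB.fracK hrt hCF.gen (algebraMap K L (y : K))⁻¹
  have hft : Algebra.FiniteType (ZMod 2) (Zw r (algebraMap K L (y : K))⁻¹) :=
    (Subalgebra.fg_iff_finiteType _).1 hZfg
  obtain ⟨h8, h9⟩ := hpvt K L Φ Ψ hΦ hΨ hk ((loc y Ng).restrictScalars (ZMod 2))
    (OmZ.restrictScalars (ZMod 2)) (fun k => (hNgl y z hy hyz k).trans (h3 k)) h4 h6
  have hnV : ∃ W, Nuc (toEnd hΨ) (OmZ.restrictScalars (ZMod 2)) W := by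
    have := hnuc 2 L (Zw r (algebraMap K L (y : K))⁻¹) hZfg Ψ hΨ OmZ h4 h5 1 one_ne_zero
    rwa [loc_one] at this
  refine ⟨h9 hnV, ?_⟩
  obtain ⟨f, s, hLD, hfc, hfk⟩ := hzet (Zw r (algebraMap K L (y : K))⁻¹)
    ⟨(r g).1 1 1, mem_Zw r _ g 1 1⟩ (d + 1)
  refine ⟨f, s, hLD, ?_, fun k hk1 => ?_⟩
  · change PV (toEnd hΦ) ((loc y Ng).restrictScalars (ZMod 2)) = _
    rw [h8]
    refine Units.ext (PowerSeries.ext fun n => ?_)
    have e1 := h7 n n le_rfl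
    have e2 := hfc n n le_rfl
    rw [e2]
    exact e1
  · have e1 := hcb hcnt hpts b Γ K F L T ρ HB ι r g hTg hCF hrg hrt y hyK ⟨z, hz⟩ k hk1
    have e2 := hfk k hk1
    rw [sgn_eq b (d + 1) (by omega) hd1] at e2
    refine ⟨(Nat.card {ζ : Zw r (algebraMap K L (y : K))⁻¹ →ₐ[ZMod 2] GaloisField 2 k //
        Sp (ζ ⟨(r g).1 1 1, mem_Zw r _ g 1 1⟩)} : ℤ) +
      Nat.card {ζ : Zw r (algebraMap K L (y : K))⁻¹ →ₐ[ZMod 2] GaloisField 2 k //
        ¬ Sp (ζ ⟨(r g).1 1 1, mem_Zw r _ g 1 1⟩)}, ?_⟩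
    rw [e1, e2]
    ring

end Pool.Agent.FrNC
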