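import Pool.Agent.Lib.MP_305fdd_al.Fr.N.C.TM2
import Pool.Agent.Lib.MP_305fdd_al.Fr.N.C.Stm2
import Pool.Agent.Lib.MP_305fdd_al.Fr.N.C.Abs

set_option autoImplicit false

namespace Pool.Agent.FrNC

open QuadraticAlgebra Pool.Agent.FrN Pool.Agent.F2Ch Pool.Agent.F2RF

/-! ## The operator on `K[G]` and on the Laurent polynomials -/

section psv
variable {K : Type} [Field K] [CharP K 2] (t : K)

/-- the operator on `K[G]` -/
def pq (Φ : K → K) (z : QA K t) : QA K t := ⟨Φ (z.re + z.im / t), Φ (z.im / t)⟩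

theorem two0 : (2 : QA K t) = 0 := by
  ext
  · change ((2 : ℕ) : QA K t).re = _
    rw [QuadraticAlgebra.re_natCast]
    exact CharTwo.two_eq_zero
  · change ((2 : ℕ) : QA K t).im = _
    rw [QuadraticAlgebra.im_natCast]
    rfl

variable {t} {Φ : K → K}

theorem pq_zero (h : IsPinv 2 Φ) : pq t Φ 0 = 0 := by
  ext
  · simp [pq, pinv_zero h]
  · simp [pq, pinv_zero h]

theorem pq_add (h : IsPinv 2 Φ) (a b : QA K t) : pq t Φ (a + b) = pq t Φ a + pq t Φ b := by
  ext
  · simp only [pq, QuadraticAlgebra.re_add, QuadraticAlgebra.im_add]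
    rw [← h.add]
    congr 1
    ring
  · simp only [pq, QuadraticAlgebra.re_add, QuadraticAlgebra.im_add]
    rw [← h.add]
    congr 1
    ring

theorem pq_al (h : IsPinv 2 Φ) (x : K) : pq t Φ (algebraMap K _ x) = algebraMap K _ (Φ x) := by
  ext
  · simp [pq]
  · simp [pq, pinv_zero h]

theorem pq_star (h : IsPinv 2 Φ) (ht : t ≠ 0) (a : QA K t) : pq t Φ (star a) = star (pq t Φ a) := by
  have h2 : (2 : K) = 0 := CharTwo.two_eq_zero
  have hneg : ∀ x : K, -x = x := fun x => by
    have : -x = x - 2 * x := by ring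
    rw [this, h2, zero_mul, sub_zero]
  ext
  · simp only [pq, QuadraticAlgebra.re_star, QuadraticAlgebra.im_star]
    have h1 : t * Φ (a.im / t) = Φ (t ^ 2 * (a.im / t)) := (h.pow_mul _ _).symm
    rw [h1, ← h.add]
    congr 1
    rw [hneg]
    field_simp
    ring
  · simp only [pq, QuadraticAlgebra.im_star, hneg]

theorem pq_sq (h : IsPinv 2 Φ) (ht : t ≠ 0) (a b : QA K t) :
    pq t Φ (a ^ 2 * b) = a * pq t Φ b := by
  have h2 : (2 : K) = 0 := CharTwo.two_eq_zero
  have e : ∀ x y : K, x + y + y = x := fun x y => by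
    have : x + y + y = x + 2 * y := by ring
    rw [this, h2, zero_mul, add_zero]
  ext
  · simp only [pq, QuadraticAlgebra.re_mul, QuadraticAlgebra.im_mul, pow_two a]
    have h1 : a.re * Φ (b.re + b.im / t) + 1 * a.im * Φ (b.im / t) =
      Φ (a.re ^ 2 * (b.re + b.im / t) + a.im ^ 2 * (b.im / t)) := by
      rw [one_mul, ← h.pow_mul, ← h.pow_mul, ← h.add]
    rw [h1]
    congr 1
    field_simp
    linear_combination (t * a.re * a.im * b.im * 2 + a.re * a.im * b.re + t * a.im ^ 2 * b.re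
      + t ^ 2 * a.im ^ 2 * b.im) * h2
  · simp only [pq, QuadraticAlgebra.re_mul, QuadraticAlgebra.im_mul, pow_two a]
    have h1 : a.re * Φ (b.im / t) + a.im * Φ (b.re + b.im / t) + t * a.im * Φ (b.im / t) =
      Φ (a.re ^ 2 * (b.im / t) + a.im ^ 2 * (b.re + b.im / t) + (t * a.im) ^ 2 * (b.im / t)) := by
      rw [← h.pow_mul, ← h.pow_mul, ← h.pow_mul, ← h.add, ← h.add]
    rw [h1]
    congr 1
    field_simp
    linear_combination (t * a.re * a.im * b.im + a.re * a.im * b.re) * h2

theorem dbl_inj : Set.InjOn (fun k : ℤ => 2 * k) Set.univ := by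
  intro a _ b _ hab
  simp only at hab
  omega

variable (t Φ) in
open Classical in
/-- the operator on Laurent polynomials -/
noncomputable def psv (v : VV K t) : VV K t :=
  if h : IsPinv 2 Φ then
  AddMonoidAlgebra.ofCoeff ((v.coeff.comapDomain (fun k : ℤ => 2 * k)
    (dbl_inj.mono (Set.subset_univ _))).mapRange (pq t Φ) (pq_zero h)) else 0

theorem psv_coeff (h : IsPinv 2 Φ) (v : VV K t) (k : ℤ) :
    (psv t Φ v).coeff k = pq t Φ (v.coeff (2 * k)) := by
  rw [psv, dif_pos h]
  rfl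

theorem psv_add (h : IsPinv 2 Φ) (v w : VV K t) : psv t Φ (v + w) = psv t Φ v + psv t Φ w := by
  refine AddMonoidAlgebra.ext (Finsupp.ext fun k => ?_)
  rw [psv_coeff h, AddMonoidAlgebra.coeff_add, AddMonoidAlgebra.coeff_add, Finsupp.add_apply,
    Finsupp.add_apply, pq_add h, psv_coeff h, psv_coeff h]

theorem psv_zero (h : IsPinv 2 Φ) : psv t Φ (0 : VV K t) = 0 := by
  refine AddMonoidAlgebra.ext (Finsupp.ext fun k => ?_)
  rw [psv_coeff h]
  exact pq_zero h

theorem psv_even (h : IsPinv 2 Φ) (k : ℤ) (a : QA K t) :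
    psv t Φ (AddMonoidAlgebra.single (2 * k) a) = AddMonoidAlgebra.single k (pq t Φ a) := by
  refine AddMonoidAlgebra.ext (Finsupp.ext fun j => ?_)
  rw [psv_coeff h, AddMonoidAlgebra.coeff_single, AddMonoidAlgebra.coeff_single,
    Finsupp.single_apply, Finsupp.single_apply]
  by_cases hj : k = j
  · rw [if_pos (by omega), if_pos hj]
  · rw [if_neg (by omega), if_neg hj, pq_zero h]

theorem psv_odd (h : IsPinv 2 Φ) (k : ℤ) (a : QA K t) :
    psv t Φ (AddMonoidAlgebra.single (2 * k + 1) a) = 0 := by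
  refine AddMonoidAlgebra.ext (Finsupp.ext fun j => ?_)
  rw [psv_coeff h, AddMonoidAlgebra.coeff_single, Finsupp.single_apply, if_neg (by omega)]
  exact pq_zero h

theorem two0V : (2 : VV K t) = 0 := by
  have : (2 : VV K t) = AddMonoidAlgebra.single 0 (2 : QA K t) := rfl
  rw [this, two0, AddMonoidAlgebra.single_zero]

theorem psv_sq (h : IsPinv 2 Φ) (ht : t ≠ 0) (a v : VV K t) :
    psv t Φ (a ^ 2 * v) = a * psv t Φ v := by
  refine AddMonoidAlgebra.induction_linear (motive := fun a =>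
    psv t Φ (a ^ 2 * v) = a * psv t Φ v) a ?_ ?_ ?_
  · rw [zero_pow (by norm_num), zero_mul, zero_mul, psv_zero h]
  · intro a b ha hb
    have : (a + b) ^ 2 * v = a ^ 2 * v + b ^ 2 * v := by
      linear_combination (a * b * v) * two0V (t := t)
    rw [this, psv_add h, ha, hb, add_mul]
  · intro j α
    refine AddMonoidAlgebra.induction_linear (motive := fun v =>
      psv t Φ (AddMonoidAlgebra.single j α ^ 2 * v) = AddMonoidAlgebra.single j α * psv t Φ v)
      v ?_ ?_ ?_
    · rw [mul_zero, psv_zero h, mul_zero]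
    · intro v w hv hw
      rw [mul_add, psv_add h, hv, hw, psv_add h, mul_add]
    · intro m β
      rw [pow_two, AddMonoidAlgebra.single_mul_single, AddMonoidAlgebra.single_mul_single,
        ← pow_two]
      rcases Int.even_or_odd' m with ⟨c, rfl | rfl⟩
      · rw [show j + j + 2 * c = 2 * (j + c) by ring, psv_even h, psv_even h, pq_sq h ht,
          AddMonoidAlgebra.single_mul_single]
      · rw [show j + j + (2 * c + 1) = 2 * (j + c) + 1 by ring, psv_odd h, psv_odd h, mul_zero]

theorem psv_sg (h : IsPinv 2 Φ) (ht : t ≠ 0) (e : K) (he : e ≠ 0) (v : VV K t) :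
    psv t Φ (sg t e he v) = sg t e he (psv t Φ v) := by
  refine AddMonoidAlgebra.ext (Finsupp.ext fun k => ?_)
  rw [psv_coeff h, sg_coeff, sg_coeff, psv_coeff h]
  have h1 : algebraMap K (QA K t) (e ^ (-(2 * k))) = algebraMap K (QA K t) (e ^ (-k)) ^ 2 := by
    rw [← map_pow]
    congr 1
    rw [← zpow_natCast, ← zpow_mul]
    congr 1
    push_cast
    ring
  rw [h1, mul_comm, pq_sq h ht, pq_star h ht, mul_comm]
  congr 3
  ring_nf

end psv

end Pool.Agent.FrNC
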