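import Pool.Agent.Lib.MP_305fdd_al.Fr.N.C.TM3

set_option autoImplicit false

namespace Pool.Agent.FrNC

open QuadraticAlgebra Pool.Agent.FrN Pool.Agent.F2Ch Pool.Agent.F2RF

/-- the data of the description by Laurent polynomials -/
structure LO {K L : Type} [Field K] [Field L] [Algebra K L] (t e : K)
    (Om : (QA L (algebraMap K L t))ˣ) : Prop where
  tne : t ≠ 0
  ene : e ≠ 0
  nrm : (Om : QA L (algebraMap K L t)) * star (Om : QA L (algebraMap K L t)) =
    algebraMap L _ (algebraMap K L e)
  inj : Function.Injective (lam t Om)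

section
variable {K L : Type} [Field K] [Field L] [Algebra K L] [CharP K 2] [CharP L 2] {t e : K}
  {Om : (QA L (algebraMap K L t))ˣ}

/-- the constant Laurent polynomial -/
noncomputable def vc (t : K) (k : K) : VV K t := AddMonoidAlgebra.single 0 (algebraMap K _ k)

theorem vc_mul_coeff (k : K) (v : VV K t) (j : ℤ) :
    (vc t k * v).coeff j = algebraMap K _ k * v.coeff j := by
  rw [vc, AddMonoidAlgebra.coeff_single_zero_mul]

theorem sg_vc (he : e ≠ 0) (k : K) : sg t e he (vc t k) = vc t k := by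
  rw [vc, sg_single, star_al, zpow_zero, map_one, mul_one, neg_zero]

theorem lam_vc (k : K) : lam t Om (vc t k) = algebraMap L _ (algebraMap K L k) := by
  rw [vc, lam_single, io_al, zpow_zero, Units.val_one, mul_one]

/-- the companion element -/
def GG (K : Type) [Field K] (t : K) : QA K t := ⟨0, 1⟩

/-- the real part of a Laurent polynomial -/
noncomputable def rev (e : K) (he : e ≠ 0) (w : VV K t) : VV K t :=
  vc t t⁻¹ * (AddMonoidAlgebra.single 0 (star (GG K t)) * w +
    AddMonoidAlgebra.single 0 (GG K t) * sg t e he w)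

/-- the imaginary part of a Laurent polynomial -/
noncomputable def imv (e : K) (he : e ≠ 0) (w : VV K t) : VV K t := vc t t⁻¹ * (w + sg t e he w)

theorem sg_sg (he : e ≠ 0) (w : VV K t) : sg t e he (sg t e he w) = w := by
  refine AddMonoidAlgebra.ext (Finsupp.ext fun k => ?_)
  rw [sg_coeff, sg_coeff, neg_neg, star_mul, star_star, star_al, mul_comm _ (w.coeff k), mul_assoc,
    ← map_mul, ← zpow_add₀ he, add_neg_cancel, zpow_zero, map_one, mul_one]

theorem sg_const (he : e ≠ 0) (a : QA K t) : sg t e he (AddMonoidAlgebra.single 0 a) =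
    AddMonoidAlgebra.single 0 (star a) := by
  rw [sg_single, zpow_zero, map_one, mul_one, neg_zero]

theorem sg_rev (he : e ≠ 0) (w : VV K t) : sg t e he (rev e he w) = rev e he w := by
  rw [rev, map_mul, sg_vc, map_add, map_mul, map_mul, sg_const, sg_const, star_star, sg_sg, add_comm]

theorem sg_imv (he : e ≠ 0) (w : VV K t) : sg t e he (imv e he w) = imv e he w := by
  rw [imv, map_mul, sg_vc, map_add, sg_sg, add_comm]

theorem lam_const (a : QA K t) : lam t Om (AddMonoidAlgebra.single 0 a) = io t a := by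
  rw [lam_single, zpow_zero, Units.val_one, mul_one]

theorem re_id {s : L} (hs : s ≠ 0) (z : QA L s) :
    algebraMap L (QA L s) s⁻¹ * (star (GG L s) * z + GG L s * star z) = algebraMap L _ z.re := by
  have h2 : (2 : L) = 0 := CharTwo.two_eq_zero
  ext
  · simp only [GG, QuadraticAlgebra.re_mul, QuadraticAlgebra.re_add, QuadraticAlgebra.re_star,
      QuadraticAlgebra.im_star, QuadraticAlgebra.im_mul, QuadraticAlgebra.im_add,
      QuadraticAlgebra.algebraMap_re, QuadraticAlgebra.algebraMap_im]
    field_simp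
    linear_combination (- z.im) * h2
  · simp only [GG, QuadraticAlgebra.re_mul, QuadraticAlgebra.re_add, QuadraticAlgebra.re_star,
      QuadraticAlgebra.im_star, QuadraticAlgebra.im_mul, QuadraticAlgebra.im_add,
      QuadraticAlgebra.algebraMap_re, QuadraticAlgebra.algebraMap_im]
    field_simp
    ring

theorem im_id {s : L} (hs : s ≠ 0) (z : QA L s) :
    algebraMap L (QA L s) s⁻¹ * (z + star z) = algebraMap L _ z.im := by
  rw [star_sub, ← map_mul, ← mul_assoc, inv_mul_cancel₀ hs, one_mul]

theorem LO.sne (H : LO t e Om) : algebraMap K L t ≠ 0 := by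
  intro h
  exact H.tne ((algebraMap K L).injective (by rw [h, map_zero]))

theorem io_GG : io (L := L) t (GG K t) = GG L (algebraMap K L t) := by
  ext
  · rw [io_re]; simp [GG]
  · rw [io_im]; simp [GG]

theorem lam_rev (H : LO t e Om) (w : VV K t) :
    lam t Om (rev e H.ene w) = algebraMap L _ (lam t Om w).re := by
  rw [rev, map_mul, lam_vc, map_add, map_mul, map_mul, lam_const, lam_const, lam_sg t e H.ene Om H.nrm,
    io_star, io_GG, map_inv₀, re_id H.sne]

theorem lam_imv (H : LO t e Om) (w : VV K t) :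
    lam t Om (imv e H.ene w) = algebraMap L _ (lam t Om w).im := by
  rw [imv, map_mul, lam_vc, map_add, lam_sg t e H.ene Om H.nrm, map_inv₀, im_id H.sne]

theorem al_inj {s : L} : Function.Injective (algebraMap L (QA L s)) := by
  intro a b h
  have := congrArg QuadraticAlgebra.re h
  simpa using this

/-- the elements of `L` which are given by a Laurent polynomial -/
def Vs (H : LO t e Om) : Subalgebra K L where
  carrier := {l | ∃ v : VV K t, sg t e H.ene v = v ∧ lam t Om v = algebraMap L _ l}
  mul_mem' := by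
    rintro a b ⟨v, hv, hv'⟩ ⟨w, hw, hw'⟩
    exact ⟨v * w, by rw [map_mul, hv, hw], by rw [map_mul, hv', hw', map_mul]⟩
  add_mem' := by
    rintro a b ⟨v, hv, hv'⟩ ⟨w, hw, hw'⟩
    exact ⟨v + w, by rw [map_add, hv, hw], by rw [map_add, hv', hw', map_add]⟩
  algebraMap_mem' := fun k => ⟨vc t k, sg_vc H.ene k, lam_vc k⟩

/-- the Laurent polynomial of an element -/
noncomputable def lf (H : LO t e Om) (l : Vs H) : VV K t := l.2.choose

theorem lf_sg (H : LO t e Om) (l : Vs H) : sg t e H.ene (lf H l) = lf H l := l.2.choose_spec.1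

theorem lf_lam (H : LO t e Om) (l : Vs H) : lam t Om (lf H l) = algebraMap L _ (l : L) :=
  l.2.choose_spec.2

theorem lf_eq (H : LO t e Om) (l : Vs H) (v : VV K t) (h : lam t Om v = algebraMap L _ (l : L)) :
    lf H l = v := H.inj (by rw [lf_lam, h])

/-- the constant term -/
noncomputable def pr (H : LO t e Om) : Vs H →ₗ[K] K where
  toFun l := ((lf H l).coeff 0).re
  map_add' a b := by
    rw [lf_eq H (a + b) (lf H a + lf H b) (by rw [map_add, lf_lam, lf_lam, ← map_add]; rfl)]
    rfl
  map_smul' k a := by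
    rw [lf_eq H (k • a) (vc t k * lf H a) (by
      rw [map_mul, lam_vc, lf_lam, ← map_mul]
      congr 1
      exact (Algebra.smul_def _ _).symm), vc_mul_coeff]
    rw [QuadraticAlgebra.re_mul]
    simp

theorem coeff0 (H : LO t e Om) {v : VV K t} (hv : sg t e H.ene v = v) :
    v.coeff 0 = algebraMap K _ (v.coeff 0).re := by
  have h1 : v.coeff 0 = star (v.coeff 0) := by
    conv_lhs => rw [← hv, sg_coeff]
    rw [neg_zero, zpow_zero, map_one, mul_one]
  have h2 : (2 : K) = 0 := CharTwo.two_eq_zero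
  have h3 := congrArg QuadraticAlgebra.re h1
  rw [QuadraticAlgebra.re_star] at h3
  have h4 : t * (v.coeff 0).im = 0 := by linear_combination -h3
  have h5 : (v.coeff 0).im = 0 := (mul_eq_zero.1 h4).resolve_left H.tne
  ext
  · simp
  · rw [h5]; simp

/-! ## The operator on `L` -/

theorem psi_lam (H : LO t e Om) {Φ : K → K} (hΦ : IsPinv 2 Φ) {Ψ : L → L} (hΨ : IsPinv 2 Ψ)
    (h1 : ∀ k, Ψ (algebraMap K L k) = algebraMap K L (Φ k))
    (h2 : ∀ k, Ψ (algebraMap K L k * (Om : QA L (algebraMap K L t)).im) = 0)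
    {ι : Type} [Fintype ι] (w : ι → L) (hrep : ∀ l : L, ∃ c : ι → L, l = ∑ i, c i ^ 2 * w i)
    (hw : ∀ i, (∃ k, w i = algebraMap K L k) ∨
      ∃ k, w i = algebraMap K L k * (Om : QA L (algebraMap K L t)).im)
    (hden : ∀ l : L, ∃ s ∈ Vs H, s ≠ 0 ∧ s * l ∈ Vs H) (l : Vs H) :
    lam t Om (psv t Φ (lf H l)) = algebraMap L _ (Ψ l) := by
  classical
  -- the values of `psv` on the basis elements
  have hW : ∀ i, ∃ W : VV K t, lam t Om W = algebraMap L _ (w i) ∧
      lam t Om (psv t Φ W) = algebraMap L _ (Ψ (w i)) := by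
    intro i
    rcases hw i with ⟨k, hk⟩ | ⟨k, hk⟩
    · refine ⟨vc t k, by rw [hk, lam_vc], ?_⟩
      rw [hk, h1, vc, show (0 : ℤ) = 2 * 0 by ring, psv_even hΦ, pq_al hΦ]
      exact lam_vc _
    · refine ⟨vc t k * imv e H.ene (AddMonoidAlgebra.single 1 1), ?_, ?_⟩
      · rw [hk, map_mul, lam_vc, lam_imv H, lam_single, map_one, one_mul, zpow_one, map_mul]
      · have h3 : vc t k * imv e H.ene (AddMonoidAlgebra.single 1 1) =
            AddMonoidAlgebra.single (2 * 0 + 1) (algebraMap K _ k * algebraMap K _ t⁻¹) +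
            AddMonoidAlgebra.single (2 * (-1) + 1)
              (algebraMap K _ k * algebraMap K _ t⁻¹ * algebraMap K _ e) := by
          rw [imv, sg_single, mul_add, vc, vc, AddMonoidAlgebra.single_mul_single,
            AddMonoidAlgebra.single_mul_single, mul_add, AddMonoidAlgebra.single_mul_single,
            AddMonoidAlgebra.single_mul_single]
          congr 2
          · simp
          · simp only [star_one, one_mul, zpow_one]
            ring
        rw [hk, h2, h3, psv_add hΦ, psv_odd hΦ, psv_odd hΦ, add_zero, map_zero, map_zero]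
  choose W hW1 hW2 using hW
  obtain ⟨c, hc⟩ := hrep l
  -- the common denominator
  have hs : ∃ s ∈ Vs H, s ≠ 0 ∧ ∀ i, s * c i ∈ Vs H := by
    choose s hs1 hs2 hs3 using fun i => hden (c i)
    refine ⟨∏ i, s i, Subalgebra.prod_mem _ fun i _ => hs1 i,
      Finset.prod_ne_zero_iff.2 fun i _ => hs2 i, fun i => ?_⟩
    rw [← Finset.mul_prod_erase _ _ (Finset.mem_univ i), mul_comm (s i), mul_assoc]
    exact (Vs H).mul_mem (Subalgebra.prod_mem _ fun i _ => hs1 i) (hs3 i)
  obtain ⟨s, hs, hs0, hsc⟩ := hs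
  set us := lf H ⟨s, hs⟩ with hus
  set u : ι → VV K t := fun i => lf H ⟨s * c i, hsc i⟩ with hu
  have e1 : us ^ 2 * lf H l = ∑ i, u i ^ 2 * W i := by
    apply H.inj
    rw [map_mul, map_pow, lf_lam, lf_lam, map_sum]
    have : ∀ i, lam t Om (u i ^ 2 * W i) = algebraMap L _ ((s * c i) ^ 2 * w i) := by
      intro i
      rw [map_mul, map_pow, lf_lam, hW1, ← map_pow, ← map_mul]
    rw [Finset.sum_congr rfl fun i _ => this i, ← map_sum, ← map_pow, ← map_mul]
    congr 1
    rw [hc, Finset.mul_sum]
    exact Finset.sum_congr rfl fun i _ => by ring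
  have hsum : ∀ (S : Finset ι) (f : ι → VV K t), psv t Φ (∑ i ∈ S, f i) =
      ∑ i ∈ S, psv t Φ (f i) := by
    intro S f
    induction S using Finset.induction_on with
    | empty => simpa using psv_zero hΦ
    | insert a S ha ih => rw [Finset.sum_insert ha, Finset.sum_insert ha, psv_add hΦ, ih]
  have hsumL : ∀ (S : Finset ι) (f : ι → L), Ψ (∑ i ∈ S, f i) = ∑ i ∈ S, Ψ (f i) := by
    intro S f
    induction S using Finset.induction_on with
    | empty => simpa using pinv_zero hΨ
    | insert a S ha ih => rw [Finset.sum_insert ha, Finset.sum_insert ha, hΨ.add, ih]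
  have e2 := congrArg (fun v => lam t Om (psv t Φ v)) e1
  rw [psv_sq hΦ H.tne, map_mul, lf_lam, hsum, map_sum] at e2
  have e3 : ∀ i, lam t Om (psv t Φ (u i ^ 2 * W i)) = algebraMap L _ (s * c i * Ψ (w i)) := by
    intro i
    rw [psv_sq hΦ H.tne, map_mul, lf_lam, hW2, ← map_mul]
  rw [Finset.sum_congr rfl fun i _ => e3 i, ← map_sum] at e2
  have e4 : ∑ i, s * c i * Ψ (w i) = s * Ψ l := by
    rw [hc, hsumL, Finset.mul_sum]
    exact Finset.sum_congr rfl fun i _ => by rw [hΨ.pow_mul]; ring
  rw [e4, map_mul] at e2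
  have e5 := congrArg (fun z => algebraMap L (QA L (algebraMap K L t)) s⁻¹ * z) e2
  simp only at e5
  rw [← mul_assoc, ← mul_assoc, ← map_mul, inv_mul_cancel₀ hs0, map_one, one_mul, one_mul] at e5
  exact e5

end

end Pool.Agent.FrNC
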