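import Pool.Agent.Lib.MP_305fdd_al.Fr.N.C.TM4

set_option autoImplicit false

namespace Pool.Agent.FrNC

open QuadraticAlgebra Pool.Agent.FrN Pool.Agent.F2Ch Pool.Agent.F2RF

section
variable {K L : Type} [Field K] [Field L] [Algebra K L] [CharP K 2] [CharP L 2] {t e : K}
  {Om : (QA L (algebraMap K L t))ˣ}

/-! ## Nilpotence in nonzero degrees -/

theorem psv_bd {Φ : K → K} (hΦ : IsPinv 2 Φ) (v : VV K t) (M : ℕ)
    (hM : ∀ k : ℤ, M < k.natAbs → v.coeff k = 0) (n : ℕ) (k : ℤ)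
    (hk : M < k.natAbs * 2 ^ n) : ((psv t Φ)^[n] v).coeff k = 0 := by
  induction n generalizing k with
  | zero => exact hM k (by simpa using hk)
  | succ n ih =>
    rw [Function.iterate_succ_apply', psv_coeff hΦ, ih (2 * k) (by
      rw [Int.natAbs_mul]
      calc M < k.natAbs * 2 ^ (n + 1) := hk
        _ = _ := by rw [pow_succ]; simp; ring), pq_zero hΦ]

theorem bd_exists (v : VV K t) : ∃ M : ℕ, ∀ k : ℤ, M < k.natAbs → v.coeff k = 0 := by
  refine ⟨v.coeff.support.sup Int.natAbs, fun k hk => ?_⟩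
  by_contra h
  have := Finset.le_sup (f := Int.natAbs) (Finsupp.mem_support_iff.2 h)
  omega

theorem iter_lam (H : LO t e Om) {Φ : K → K} (hΦ : IsPinv 2 Φ) {Ψ : L → L}
    (hl : ∀ l : Vs H, lam t Om (psv t Φ (lf H l)) = algebraMap L _ (Ψ l)) (n : ℕ) (l : Vs H) :
    ∃ h : Ψ^[n] l ∈ Vs H, lf H ⟨_, h⟩ = (psv t Φ)^[n] (lf H l) := by
  induction n with
  | zero => exact ⟨l.2, rfl⟩
  | succ n ih =>
    obtain ⟨h, h'⟩ := ih
    have h1 := hl ⟨_, h⟩
    rw [h'] at h1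
    have h2 : Ψ^[n + 1] (l : L) ∈ Vs H := by
      refine ⟨psv t Φ ((psv t Φ)^[n] (lf H l)), ?_, ?_⟩
      · rw [← psv_sg hΦ H.tne, ← h', lf_sg]
      · rw [h1, Function.iterate_succ_apply']
    refine ⟨h2, ?_⟩
    apply lf_eq
    rw [Function.iterate_succ_apply', h1]
    change algebraMap L _ (Ψ (Ψ^[n] (l : L))) = algebraMap L _ (Ψ^[n + 1] (l : L))
    rw [Function.iterate_succ_apply']

theorem nil_V (H : LO t e Om) {Φ : K → K} (hΦ : IsPinv 2 Φ) {Ψ : L → L}
    (hl : ∀ l : Vs H, lam t Om (psv t Φ (lf H l)) = algebraMap L _ (Ψ l)) (l : Vs H) :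
    ∃ e₀ : ℕ, ∀ n ≥ e₀, ∀ b : K, ∃ k : K,
      Ψ^[n] (algebraMap K L b * l) = algebraMap K L k := by
  obtain ⟨M, hM⟩ := bd_exists (lf H l)
  refine ⟨M, fun n hn b => ?_⟩
  have hb : algebraMap K L b * (l : L) ∈ Vs H := (Vs H).mul_mem ((Vs H).algebraMap_mem b) l.2
  have e1 : lf H ⟨_, hb⟩ = vc t b * lf H l := by
    apply lf_eq
    rw [map_mul, lam_vc, lf_lam, ← map_mul]
  obtain ⟨h, h'⟩ := iter_lam H hΦ hl n ⟨_, hb⟩
  have h3 : ∀ k : ℤ, k ≠ 0 → (lf H ⟨_, h⟩).coeff k = 0 := by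
    intro k hk
    rw [h', e1]
    refine psv_bd hΦ _ M (fun j hj => ?_) n k ?_
    · rw [vc_mul_coeff, hM j hj, mul_zero]
    · have h4 : 1 ≤ k.natAbs := by omega
      calc M ≤ n := hn
        _ < 2 ^ n := Nat.lt_two_pow_self
        _ ≤ k.natAbs * 2 ^ n := Nat.le_mul_of_pos_left _ h4
  have h5 := coeff0 H (lf_sg H ⟨_, h⟩)
  refine ⟨((lf H ⟨_, h⟩).coeff 0).re, ?_⟩
  have h6 : lf H ⟨_, h⟩ = vc t ((lf H ⟨_, h⟩).coeff 0).re := by
    refine AddMonoidAlgebra.ext (Finsupp.ext fun k => ?_)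
    rw [vc, AddMonoidAlgebra.coeff_single, Finsupp.single_apply]
    by_cases hk : k = 0
    · rw [if_pos hk.symm, ← h5, hk]
    · rw [if_neg (fun h => hk h.symm), h3 k hk]
  have h7 := lf_lam H ⟨_, h⟩
  rw [h6, lam_vc] at h7
  exact (al_inj h7).symm

/-! ## The pairing -/

theorem star_inj {s : K} {a : QA K s} (h : star a = 0) : a = 0 := by
  rw [← star_star a, h, star_zero]

theorem coeff_neg_ne (H : LO t e Om) {v : VV K t} (hv : sg t e H.ene v = v) (h : v ≠ 0) :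
    ∃ m : ℕ, v.coeff (-(m : ℤ)) ≠ 0 := by
  by_contra hc
  push Not at hc
  apply h
  refine AddMonoidAlgebra.ext (Finsupp.ext fun k => ?_)
  rcases Int.eq_nat_or_neg k with ⟨n, rfl | rfl⟩
  · conv_lhs => rw [← hv, sg_coeff, hc n, star_zero, zero_mul]
    rfl
  · rw [hc n]; rfl

theorem nd_V (H : LO t e Om) {v : VV K t} (hv : sg t e H.ene v = v) (h : v ≠ 0) :
    ∃ (m : ℕ) (z : QA K t), (z = 1 ∨ z = GG K t) ∧
      ((vc t t * imv e H.ene (AddMonoidAlgebra.single (m : ℤ) z) * v).coeff 0).re ≠ 0 := by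
  obtain ⟨m, hm⟩ := coeff_neg_ne H hv h
  set α := v.coeff (-(m : ℤ)) with hα
  have hc : ∀ z : QA K t, ((vc t t * imv e H.ene (AddMonoidAlgebra.single (m : ℤ) z) * v).coeff 0).re
      = t * (z * α).im := by
    intro z
    have e1 : vc t t * imv e H.ene (AddMonoidAlgebra.single (m : ℤ) z) =
        AddMonoidAlgebra.single (m : ℤ) z +
          AddMonoidAlgebra.single (-(m : ℤ)) (star z * algebraMap K _ (e ^ (m : ℤ))) := by
      have e2 : vc t t * vc t t⁻¹ = 1 := by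
        rw [vc, vc, AddMonoidAlgebra.single_mul_single, ← map_mul, mul_inv_cancel₀ H.tne, map_one]
        rfl
      rw [imv, ← mul_assoc, e2, one_mul, sg_single]
    have e3 : v.coeff (m : ℤ) = star α * algebraMap K _ (e ^ (-(m : ℤ))) := by
      conv_lhs => rw [← hv, sg_coeff]
    rw [e1, add_mul, AddMonoidAlgebra.coeff_add, Finsupp.add_apply,
      AddMonoidAlgebra.coeff_single_mul_eq_mul_coeff (-(m : ℤ)) (fun a _ => by omega),
      AddMonoidAlgebra.coeff_single_mul_eq_mul_coeff (m : ℤ) (fun a _ => by omega), e3, ← hα]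
    have e4 : star z * algebraMap K _ (e ^ (m : ℤ)) * (star α * algebraMap K _ (e ^ (-(m : ℤ)))) =
        star (z * α) := by
      have e5 : algebraMap K (QA K t) (e ^ (m : ℤ)) * algebraMap K _ (e ^ (-(m : ℤ))) = 1 := by
        rw [← map_mul, ← zpow_add₀ H.ene, add_neg_cancel, zpow_zero, map_one]
      rw [star_mul]
      linear_combination (star z * star α) * e5
    rw [e4, star_sub]
    simp
  by_contra hcon
  push Not at hcon
  have h1 := hcon m 1 (Or.inl rfl)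
  have h2 := hcon m (GG K t) (Or.inr rfl)
  rw [hc] at h1 h2
  have h3 := (mul_eq_zero.1 h1).resolve_left H.tne
  have h4 := (mul_eq_zero.1 h2).resolve_left H.tne
  rw [one_mul] at h3
  rw [QuadraticAlgebra.im_mul, h3] at h4
  simp only [GG] at h4
  apply hm
  ext
  · simpa using h4
  · simpa using h3

end

end Pool.Agent.FrNC
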