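import Pool.Agent.Lib.MP_305fdd_al.Fr.N.C.TM5

set_option autoImplicit false

namespace Pool.Agent.FrNC

open QuadraticAlgebra Pool.Agent.FrN Pool.Agent.F2Ch Pool.Agent.F2RF

section
variable {Γ : Type} [Group Γ] {K L : Type} [Field K] [Field L] [Algebra K L] [CharP K 2]
  [CharP L 2] {T : Γ → K} {r : Γ →* Matrix (Fin 2) (Fin 2) L} {g h₀ : Γ}

theorem Jk_zero (Bf : Subring K) (hT : ∀ h, T h ∈ Bf) : Jk Bf T g h₀ (hT g) 0 = 1 := by
  rw [Jk]
  simp

theorem Jk_one (Bf : Subring K) (hT : ∀ h, T h ∈ Bf) :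
    Jk Bf T g h₀ (hT g) 1 = Jp Bf T g h₀ (hT g) := by
  rw [Jk]
  simp

theorem Jk_neg_one (Bf : Subring K) (hT : ∀ h, T h ∈ Bf) :
    Jk Bf T g h₀ (hT g) (-1) = Jm Bf T g h₀ (hT g) := by
  rw [Jk]
  simp

/-- the Laurent polynomials with coefficients in the `Jk` -/
def JR (H : CD T r g h₀) (Bf : Subring K) (hT : ∀ h, T h ∈ Bf) (hti : (T g)⁻¹ ∈ Bf) :
    Subsemiring (VV K (T g)) where
  carrier := {v | ∀ k, v.coeff k ∈ Jk Bf T g h₀ (hT g) k}
  mul_mem' := by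
    intro v w hv hw k
    classical
    rw [AddMonoidAlgebra.coeff_mul]
    refine Submodule.sum_mem _ fun a _ => ?_
    refine Submodule.sum_mem _ fun b _ => ?_
    simp only
    split_ifs with hab
    · rw [← hab]
      exact H.Jk_mul Bf hT hti a b (Submodule.mul_mem_mul (hv a) (hw b))
    · exact Submodule.zero_mem _
  one_mem' := by
    intro k
    rw [AddMonoidAlgebra.one_def, AddMonoidAlgebra.coeff_single, Finsupp.single_apply]
    split_ifs with h
    · rw [← h, Jk_zero]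
      exact Submodule.mem_one.2 ⟨1, map_one _⟩
    · exact Submodule.zero_mem _
  add_mem' := by
    intro v w hv hw k
    rw [AddMonoidAlgebra.coeff_add, Finsupp.add_apply]
    exact Submodule.add_mem _ (hv k) (hw k)
  zero_mem' := fun k => Submodule.zero_mem _

variable (H : CD T r g h₀) (Bf : Subring K) (hT : ∀ h, T h ∈ Bf) (hti : (T g)⁻¹ ∈ Bf)
include H hT hti

theorem single_mem (k : ℤ) (a : QA K (T g)) (ha : a ∈ Jk Bf T g h₀ (hT g) k) :
    AddMonoidAlgebra.single k a ∈ JR H Bf hT hti := by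
  intro j
  rw [AddMonoidAlgebra.coeff_single, Finsupp.single_apply]
  split_ifs with h
  · rw [← h]; exact ha
  · exact Submodule.zero_mem _

theorem single0_mem (a : QA K (T g)) (ha : a ∈ BG Bf (T g) (hT g)) :
    AddMonoidAlgebra.single 0 a ∈ JR H Bf hT hti := by
  apply single_mem
  rw [Jk_zero]
  exact Submodule.mem_one.2 ⟨⟨a, ha⟩, rfl⟩

omit [CharP K 2] [CharP L 2] H hti in
theorem star_BG {a : QA K (T g)} (ha : a ∈ BG Bf (T g) (hT g)) :
    star a ∈ BG Bf (T g) (hT g) := by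
  refine ⟨?_, ?_⟩
  · rw [QuadraticAlgebra.re_star]
    exact Bf.add_mem ha.1 (Bf.mul_mem (hT g) ha.2)
  · rw [QuadraticAlgebra.im_star]
    exact Bf.neg_mem ha.2

omit [CharP K 2] [CharP L 2] H in
theorem zK_mem (h : Γ) : zK T g h ∈ BG Bf (T g) (hT g) :=
  ⟨Bf.add_mem (by simp only [zK, div_eq_mul_inv]; exact Bf.mul_mem (hT _) hti) (hT h),
      by simp only [zK, div_eq_mul_inv]; exact Bf.mul_mem (hT _) hti⟩

omit [CharP K 2] [CharP L 2] H hti in
theorem GG_mem : GG K (T g) ∈ BG Bf (T g) (hT g) := ⟨Bf.zero_mem, Bf.one_mem⟩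

/-- the first column -/
noncomputable def w1 (T : Γ → K) (g h₀ h : Γ) : VV K (T g) :=
  AddMonoidAlgebra.single 0 (zK T g h) + AddMonoidAlgebra.single 1 (zp T g h₀ h)

/-- the second column -/
noncomputable def w2 (T : Γ → K) (g h₀ h : Γ) : VV K (T g) :=
  AddMonoidAlgebra.single 0 (zK T g h * GG K (T g)) +
    AddMonoidAlgebra.single 1 (star (GG K (T g)) * zp T g h₀ h)

omit hT hti in
theorem lam_w1 (h : Γ) : lam (T g) H.Om (w1 T g h₀ h) = ⟨r h 0 0, r h 1 0⟩ := by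
  rw [w1, map_add, lam_const, lam_single, zpow_one, H.z, ← H.u, zz_add_uu]

omit hT hti in
theorem lam_w2 (h : Γ) : lam (T g) H.Om (w2 T g h₀ h) = ⟨r h 0 1, r h 1 1⟩ := by
  rw [w2, map_add, lam_const, lam_single, zpow_one, map_mul, map_mul, H.z, mul_assoc, ← H.u,
    io_star, io_GG]
  exact col2 H.sne _

theorem w1_mem (h : Γ) : w1 T g h₀ h ∈ JR H Bf hT hti := by
  refine add_mem (single0_mem H Bf hT hti _ (zK_mem Bf hT hti h)) (single_mem H Bf hT hti _ _ ?_)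
  rw [Jk_one]
  exact Submodule.subset_span ⟨h, rfl⟩

theorem w2_mem (h : Γ) : w2 T g h₀ h ∈ JR H Bf hT hti := by
  refine add_mem (single0_mem H Bf hT hti _ ((BG Bf (T g) (hT g)).mul_mem
    (zK_mem Bf hT hti h) (GG_mem Bf hT))) (single_mem H Bf hT hti _ _ ?_)
  rw [Jk_one]
  exact (Jp Bf T g h₀ (hT g)).smul_mem ⟨_, star_BG Bf hT (GG_mem Bf hT)⟩
    (Submodule.subset_span ⟨h, rfl⟩)

theorem sw1_mem (h : Γ) : sg (T g) (eK T g h₀) H.e0 (w1 T g h₀ h) ∈ JR H Bf hT hti := by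
  rw [w1, map_add, sg_const, sg_single]
  refine add_mem (single0_mem H Bf hT hti _ (star_BG Bf hT (zK_mem Bf hT hti h)))
    (single_mem H Bf hT hti _ _ ?_)
  rw [Jk_neg_one, zpow_one]
  exact Submodule.subset_span ⟨h, rfl⟩

theorem sw2_mem (h : Γ) : sg (T g) (eK T g h₀) H.e0 (w2 T g h₀ h) ∈ JR H Bf hT hti := by
  rw [w2, map_add, sg_const, sg_single]
  refine add_mem (single0_mem H Bf hT hti _ (star_BG Bf hT ((BG Bf (T g) (hT g)).mul_mem
    (zK_mem Bf hT hti h) (GG_mem Bf hT)))) (single_mem H Bf hT hti _ _ ?_)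
  rw [Jk_neg_one, zpow_one]
  have : star (star (GG K (T g)) * zp T g h₀ h) * algebraMap K _ (eK T g h₀) =
      (⟨_, GG_mem Bf hT⟩ : BG Bf (T g) (hT g)) • (star (zp T g h₀ h) *
        algebraMap K _ (eK T g h₀)) := by
    rw [star_mul, star_star]
    change _ = GG K (T g) * _
    ring
  rw [this]
  exact (Jm Bf T g h₀ (hT g)).smul_mem _ (Submodule.subset_span ⟨h, rfl⟩)

theorem vc_mem (b : K) (hb : b ∈ Bf) : vc (T g) b ∈ JR H Bf hT hti := by
  refine single0_mem H Bf hT hti _ ⟨?_, ?_⟩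
  · simpa using hb
  · simpa using Bf.zero_mem

theorem rev_mem (w : VV K (T g)) (hw : w ∈ JR H Bf hT hti)
    (hw' : sg (T g) (eK T g h₀) H.e0 w ∈ JR H Bf hT hti) :
    rev (eK T g h₀) H.e0 w ∈ JR H Bf hT hti := by
  refine mul_mem (vc_mem H Bf hT hti _ hti) (add_mem (mul_mem
    (single0_mem H Bf hT hti _ (star_BG Bf hT (GG_mem Bf hT))) hw)
    (mul_mem (single0_mem H Bf hT hti _ (GG_mem Bf hT)) hw'))

theorem imv_mem (w : VV K (T g)) (hw : w ∈ JR H Bf hT hti)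
    (hw' : sg (T g) (eK T g h₀) H.e0 w ∈ JR H Bf hT hti) :
    imv (eK T g h₀) H.e0 w ∈ JR H Bf hT hti :=
  mul_mem (vc_mem H Bf hT hti _ hti) (add_mem hw hw')

/-- every element of the ring generated by the entries and `Bf` is given by a Laurent polynomial with
coefficients in the `Jk` -/
theorem Z_JR [Algebra (ZMod 2) K] [Algebra (ZMod 2) L] (HL : LO (T g) (eK T g h₀) H.Om)
    (S : Set L) (hS : ∀ x ∈ S, (∃ h i j, x = r h i j) ∨ ∃ b ∈ Bf, x = algebraMap K L b)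
    (l : L) (hl : l ∈ Algebra.adjoin (ZMod 2) S) :
    ∃ v ∈ JR H Bf hT hti, sg (T g) (eK T g h₀) H.e0 v = v ∧
      lam (T g) H.Om v = algebraMap L _ l := by
  refine Algebra.adjoin_induction (p := fun l _ => ∃ v ∈ JR H Bf hT hti,
    sg (T g) (eK T g h₀) H.e0 v = v ∧ lam (T g) H.Om v = algebraMap L _ l) ?_ ?_ ?_ ?_ hl
  · intro x hx
    rcases hS x hx with ⟨h, i, j, rfl⟩ | ⟨b, hb, rfl⟩
    · have hw1 := w1_mem H Bf hT hti h
      have hw1' := sw1_mem H Bf hT hti h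
      have hw2 := w2_mem H Bf hT hti h
      have hw2' := sw2_mem H Bf hT hti h
      fin_cases i <;> fin_cases j
      · exact ⟨_, rev_mem H Bf hT hti _ hw1 hw1', sg_rev _ _, by
          rw [lam_rev HL, lam_w1]; rfl⟩
      · exact ⟨_, rev_mem H Bf hT hti _ hw2 hw2', sg_rev _ _, by
          rw [lam_rev HL, lam_w2]; rfl⟩
      · exact ⟨_, imv_mem H Bf hT hti _ hw1 hw1', sg_imv _ _, by
          rw [lam_imv HL, lam_w1]; rfl⟩
      · exact ⟨_, imv_mem H Bf hT hti _ hw2 hw2', sg_imv _ _, by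
          rw [lam_imv HL, lam_w2]; rfl⟩
    · exact ⟨vc _ b, vc_mem H Bf hT hti b hb, sg_vc _ _, lam_vc _⟩
  · intro c
    have h1 : algebraMap (ZMod 2) L c = algebraMap K L (algebraMap (ZMod 2) K c) := by
      have := RingHom.ext_zmod ((algebraMap K L).comp (algebraMap (ZMod 2) K))
        (algebraMap (ZMod 2) L)
      exact (RingHom.congr_fun this c).symm
    rw [h1]
    refine ⟨vc _ _, vc_mem H Bf hT hti _ ?_, sg_vc _ _, lam_vc _⟩
    have hc : c = 0 ∨ c = 1 := by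
      fin_cases c
      · exact Or.inl rfl
      · exact Or.inr rfl
    rcases hc with rfl | rfl
    · rw [map_zero]; exact Bf.zero_mem
    · rw [map_one]; exact Bf.one_mem
  · rintro x y - - ⟨v, hv, hv1, hv2⟩ ⟨w, hw, hw1, hw2⟩
    exact ⟨v + w, add_mem hv hw, by rw [map_add, hv1, hw1], by rw [map_add, hv2, hw2, map_add]⟩
  · rintro x y - - ⟨v, hv, hv1, hv2⟩ ⟨w, hw, hw1, hw2⟩
    exact ⟨v * w, mul_mem hv hw, by rw [map_mul, hv1, hw1], by rw [map_mul, hv2, hw2, map_mul]⟩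

omit H hti in
theorem JR_coeff0 (H : CD T r g h₀) (hti : (T g)⁻¹ ∈ Bf) {v : VV K (T g)}
    (hv : v ∈ JR H Bf hT hti) : (v.coeff 0).re ∈ Bf := by
  have := hv 0
  rw [Jk_zero] at this
  obtain ⟨y, hy⟩ := Submodule.mem_one.1 this
  rw [← hy]
  exact y.2.1

end

end Pool.Agent.FrNC
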