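import Pool.Agent.Lib.MP_305fdd_al.Fr.N.C.TM6
import Pool.Agent.Lib.MP_305fdd_al.Fr.N.F.Ext

set_option autoImplicit false

namespace Pool.Agent.FrNC

open QuadraticAlgebra Pool.Agent.FrN Pool.Agent.F2Ch Pool.Agent.F2RF

section
variable {K L : Type} [Field K] [Field L] [Algebra K L] [CharP K 2] [CharP L 2] {t e : K}
  {Om : (QA L (algebraMap K L t))ˣ}

theorem Om_re_mem (H : LO t e Om) : (Om : QA L (algebraMap K L t)).re ∈ Vs H := by
  refine ⟨rev e H.ene (AddMonoidAlgebra.single 1 1), sg_rev _ _, ?_⟩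
  rw [lam_rev H, lam_single, map_one, one_mul, zpow_one]

theorem Om_im_mem (H : LO t e Om) : (Om : QA L (algebraMap K L t)).im ∈ Vs H := by
  refine ⟨imv e H.ene (AddMonoidAlgebra.single 1 1), sg_imv _ _, ?_⟩
  rw [lam_imv H, lam_single, map_one, one_mul, zpow_one]

theorem den_V (H : LO t e Om)
    (hgen : IntermediateField.adjoin K {(Om : QA L (algebraMap K L t)).re,
      (Om : QA L (algebraMap K L t)).im} = ⊤) (l : L) :
    ∃ s ∈ Vs H, s ≠ 0 ∧ s * l ∈ Vs H := by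
  have hl : l ∈ IntermediateField.adjoin K {(Om : QA L (algebraMap K L t)).re,
      (Om : QA L (algebraMap K L t)).im} := by rw [hgen]; trivial
  obtain ⟨a, ha, b, hb, hab⟩ := IntermediateField.mem_adjoin_iff_div.1 hl
  have hle : Algebra.adjoin K {(Om : QA L (algebraMap K L t)).re,
      (Om : QA L (algebraMap K L t)).im} ≤ Vs H := by
    refine Algebra.adjoin_le ?_
    rintro x (rfl | rfl)
    · exact Om_re_mem H
    · exact Om_im_mem H
  by_cases hb0 : b = 0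
  · rw [hb0, div_zero] at hab
    exact ⟨1, (Vs H).one_mem, one_ne_zero, by rw [hab, mul_zero]; exact (Vs H).zero_mem⟩
  · exact ⟨b, hle hb, hb0, by rw [hab, mul_div_cancel₀ _ hb0]; exact hle ha⟩

theorem nrm_eq (H : LO t e Om) : (Om : QA L (algebraMap K L t)).re ^ 2 +
    algebraMap K L t * (Om : QA L (algebraMap K L t)).re * (Om : QA L (algebraMap K L t)).im +
    (Om : QA L (algebraMap K L t)).im ^ 2 = algebraMap K L e := by
  have h1 := congrArg QuadraticAlgebra.re H.nrm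
  rw [QuadraticAlgebra.re_mul, QuadraticAlgebra.re_star, QuadraticAlgebra.im_star,
    QuadraticAlgebra.algebraMap_re] at h1
  have h2 : (2 : L) = 0 := CharTwo.two_eq_zero
  linear_combination h1 + (Om : QA L (algebraMap K L t)).im ^ 2 * h2

theorem exists_Psi (hp : S_pbx) (H : LO t e Om)
    (htr : Transcendental K (Om : QA L (algebraMap K L t)).im)
    (hgen : IntermediateField.adjoin K {(Om : QA L (algebraMap K L t)).re,
      (Om : QA L (algebraMap K L t)).im} = ⊤)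
    {Φ : K → K} {d : ℕ} {tt : Fin d → K} {π : (Fin d → Fin 2) → K → K} {g₀ : K}
    (hMB : MB 2 tt π) (hg : g₀ ≠ 0) (hΦ : ∀ f, Φ f = g₀⁻¹ * π j0 (g₀ * f)) (hΦ' : IsPinv 2 Φ) :
    ∃ (Ψ : L → L) (t' : Fin (d + 1) → L) (π' : (Fin (d + 1) → Fin 2) → L → L), MB 2 t' π' ∧
      LogTy 2 Ψ ∧ IsPinv 2 Ψ ∧ (∀ k, Ψ (algebraMap K L k) = algebraMap K L (Φ k)) ∧
      ∀ l : Vs H, lam t Om (psv t Φ (lf H l)) = algebraMap L _ (Ψ l) := by
  obtain ⟨π', hMB', h1, h2⟩ := hp K L d tt π hMB _ _ t e H.tne H.ene htr (nrm_eq H) hgen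
  have hg' : algebraMap K L g₀ ≠ 0 := fun h => hg ((algebraMap K L).injective (by rw [h, map_zero]))
  let Ψ : L → L := fun l => (algebraMap K L g₀)⁻¹ * π' j0 (algebraMap K L g₀ * l)
  have hpi := FrNF.pb_pinv hMB'.pb j0
  have hΨ : IsPinv 2 Ψ := by
    refine ⟨fun x y => ?_, fun a b => ?_⟩
    · simp only [Ψ]
      rw [mul_add, hpi.add, mul_add]
    · simp only [Ψ]
      rw [show algebraMap K L g₀ * (a ^ 2 * b) = a ^ 2 * (algebraMap K L g₀ * b) by ring,
        hpi.pow_mul]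
      ring
  have hk : ∀ k, Ψ (algebraMap K L k) = algebraMap K L (Φ k) := by
    intro k
    simp only [Ψ]
    rw [← map_mul, h1, hΦ, map_mul, map_inv₀]
  have hk2 : ∀ k, Ψ (algebraMap K L k * (Om : QA L (algebraMap K L t)).im) = 0 := by
    intro k
    simp only [Ψ]
    rw [← mul_assoc, ← map_mul, h2, mul_zero]
  refine ⟨Ψ, _, π', hMB', ⟨d + 1, _, π', algebraMap K L g₀, hMB', hg', fun f => rfl⟩, hΨ, hk, ?_⟩
  intro l
  refine psi_lam H hΦ' hΨ hk hk2 (monY (p := 2) (Fin.snoc (α := fun _ => L)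
    (fun i => algebraMap K L (tt i)) (Om : QA L (algebraMap K L t)).im)) ?_ ?_ (den_V H hgen) l
  · intro l
    exact ⟨fun a => π' a l, (hMB'.pb.repr l).symm⟩
  · intro a
    have h3 : monY (p := 2) (Fin.snoc (α := fun _ => L)
        (fun i => algebraMap K L (tt i)) (Om : QA L (algebraMap K L t)).im) a =
        algebraMap K L (monY (p := 2) tt (fun i => a i.castSucc)) *
          (Om : QA L (algebraMap K L t)).im ^ (a (Fin.last d) : ℕ) := by
      rw [monY, Fin.prod_univ_castSucc, monY, map_prod]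
      congr 1
      · refine Finset.prod_congr rfl fun i _ => ?_
        rw [Fin.snoc_castSucc, map_pow]
      · rw [Fin.snoc_last]
    rw [h3]
    rcases Nat.lt_or_ge (a (Fin.last d) : ℕ) 1 with h4 | h4
    · left
      rw [Nat.lt_one_iff.1 h4, pow_zero, mul_one]
      exact ⟨_, rfl⟩
    · right
      have h5 : (a (Fin.last d) : ℕ) = 1 := by have := (a (Fin.last d)).2; omega
      rw [h5, pow_one]
      exact ⟨_, rfl⟩

end

section
variable {Γ : Type} [Group Γ] {K L : Type} [Field K] [Field L] [Algebra K L] [CharP K 2]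
  [CharP L 2] [Algebra (ZMod 2) K] [Algebra (ZMod 2) L] {T : Γ → K}
  {r : Γ →* Matrix (Fin 2) (Fin 2) L} {g h₀ : Γ}

theorem slice_ex (H : CD T r g h₀) (HL : LO (T g) (eK T g h₀) H.Om) (Bf : Subalgebra (ZMod 2) K)
    (hT : ∀ h, T h ∈ Bf) (hti : (T g)⁻¹ ∈ Bf) (S : Set L) (Z : Subalgebra (ZMod 2) L)
    (hZ : Z = Algebra.adjoin (ZMod 2) S)
    (hS : ∀ x ∈ S, (∃ h i j, x = r h i j) ∨ ∃ b ∈ Bf, x = algebraMap K L b)
    (hr : ∀ h i j, r h i j ∈ Z) (hBZ : ∀ b ∈ Bf, algebraMap K L b ∈ Z)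
    (fracK : ∀ k : K, ∃ a ∈ Bf, ∃ b ∈ Bf, b ≠ 0 ∧ k * b = a)
    (fracL : ∀ l : L, ∃ a ∈ Z, ∃ b ∈ Z, b ≠ 0 ∧ l * b = a)
    {Φ : K → K} (hΦ : IsPinv 2 Φ) (hne : ∃ k, Φ k ≠ 0) {Ψ : L → L} (hΨ : IsPinv 2 Ψ)
    (h1 : ∀ k, Ψ (algebraMap K L k) = algebraMap K L (Φ k))
    (hl : ∀ l : Vs HL, lam (T g) H.Om (psv (T g) Φ (lf HL l)) = algebraMap L _ (Ψ l)) :
    Slice Φ Ψ Bf Z (Vs HL) (pr HL) where
  Φlin := hΦ
  Ψlin := hΨ
  Φne := hne
  ΨΦ := h1
  ZV := by
    intro z hz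
    rw [hZ] at hz
    obtain ⟨v, -, hv1, hv2⟩ := Z_JR H Bf.toSubring hT hti HL S hS z hz
    exact ⟨v, hv1, hv2⟩
  BZ := hBZ
  π1 := by
    have : lf HL 1 = vc (T g) 1 := lf_eq HL _ _ (by rw [lam_vc, map_one]; rfl)
    change ((lf HL 1).coeff 0).re = 1
    rw [this, vc, AddMonoidAlgebra.coeff_single, Finsupp.single_apply, if_pos rfl]
    simp
  πZ := by
    intro z hz
    rw [hZ] at hz
    obtain ⟨v, hv, hv1, hv2⟩ := Z_JR H Bf.toSubring hT hti HL S hS z hz
    have : lf HL z = v := lf_eq HL _ _ hv2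
    change ((lf HL z).coeff 0).re ∈ Bf
    rw [this]
    exact JR_coeff0 Bf.toSubring hT H hti hv
  ΨV := by
    intro v hv
    obtain ⟨h, -⟩ := iter_lam HL hΦ hl 1 ⟨v, hv⟩
    exact h
  πΨ := by
    intro v w hw
    have h2 : lf HL w = psv (T g) Φ (lf HL v) := lf_eq HL _ _ (by rw [hl, hw])
    change ((lf HL w).coeff 0).re = Φ ((lf HL v).coeff 0).re
    rw [h2, psv_coeff hΦ, mul_zero, coeff0 HL (lf_sg HL v), pq_al hΦ]
    simp
  nil := fun v hv => nil_V HL hΦ hl ⟨v, hv⟩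
  nd := by
    intro s hs hs0
    have hs' := hs
    rw [hZ] at hs'
    obtain ⟨v, hv, hv1, hv2⟩ := Z_JR H Bf.toSubring hT hti HL S hS s hs'
    have hv0 : v ≠ 0 := by
      rintro rfl
      rw [map_zero] at hv2
      exact hs0 (al_inj (by rw [← hv2, map_zero]))
    obtain ⟨m, z, hz, hmz⟩ := nd_V HL hv1 hv0
    have htZ : algebraMap K L (T g) ∈ Z := hBZ _ (hT g)
    have htiZ : (algebraMap K L (T g))⁻¹ ∈ Z := by
      rw [← map_inv₀]; exact hBZ _ hti
    -- `Om` is in `Z[G]`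
    have hOm : (H.Om : QA L (algebraMap K L (T g))) ∈
        BG Z.toSubring (algebraMap K L (T g)) htZ := by
      rw [H.Om_val]
      refine ⟨?_, ?_⟩
      · simp only [uu, div_eq_mul_inv]
        exact Z.mul_mem (Z.add_mem (hr _ _ _) (hr _ _ _)) htiZ
      · simp only [uu, div_eq_mul_inv]
        exact Z.add_mem (hr _ _ _) (Z.mul_mem (Z.add_mem (hr _ _ _) (hr _ _ _)) htiZ)
    have hzG : io (L := L) (T g) z ∈ BG Z.toSubring (algebraMap K L (T g)) htZ := by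
      rcases hz with rfl | rfl
      · rw [map_one]; exact Subring.one_mem _
      · rw [io_GG]; exact ⟨Z.zero_mem, Z.one_mem⟩
    have hq : io (L := L) (T g) z * (H.Om : QA L (algebraMap K L (T g))) ^ m ∈
        BG Z.toSubring (algebraMap K L (T g)) htZ := Subring.mul_mem _ hzG (Subring.pow_mem _ hOm m)
    refine ⟨algebraMap K L (T g) * (io (L := L) (T g) z *
      (H.Om : QA L (algebraMap K L (T g))) ^ m).im, Z.mul_mem htZ hq.2, ?_⟩
    have hb : lam (T g) H.Om (vc (T g) (T g) * imv (eK T g h₀) HL.ene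
        (AddMonoidAlgebra.single (m : ℤ) z)) = algebraMap L _ (algebraMap K L (T g) *
        (io (L := L) (T g) z * (H.Om : QA L (algebraMap K L (T g))) ^ m).im) := by
      rw [map_mul, lam_vc, lam_imv HL, lam_single, zpow_natCast, Units.val_pow_eq_pow_val, map_mul]
    have hw : (algebraMap K L (T g) * (io (L := L) (T g) z *
        (H.Om : QA L (algebraMap K L (T g))) ^ m).im) * s ∈ Vs HL := by
      refine (Vs HL).mul_mem ⟨_, ?_, hb⟩ ⟨v, hv1, hv2⟩
      rw [map_mul, sg_vc, sg_imv]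
    refine ⟨⟨_, hw⟩, rfl, ?_⟩
    have h3 : lf HL ⟨_, hw⟩ = vc (T g) (T g) * imv (eK T g h₀) HL.ene
        (AddMonoidAlgebra.single (m : ℤ) z) * v := lf_eq HL _ _ (by
      rw [map_mul, hb, hv2, ← map_mul])
    change ((lf HL ⟨_, hw⟩).coeff 0).re ≠ 0
    rw [h3]
    exact hmz
  fracK := fracK
  fracL := fracL

end

end Pool.Agent.FrNC
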