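import Pool.Agent.Lib.MP_305fdd_al.Fr.N.C.Stm
import Pool.Agent.Lib.MP_305fdd_al.Fr.N.B.p_fr
import Pool.Agent.Lib.MP_305fdd_al.F2.TF.P.b8

set_option autoImplicit false
set_option linter.style.haveILetI false

namespace Pool.Agent.FrNC

open Pool.Agent.FrN Pool.Agent.F2Ch Pool.Agent.F2RF Pool.Agent.F2TF

section AS
open Polynomial

private theorem as_fwd {R : Type} [CommRing R] [CharP R 2] (u : R) (n : ℕ) :
    ∑ i ∈ Finset.range n, (u ^ 2 + u) ^ (2 ^ i) = u ^ (2 ^ n) + u := by
  induction n with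
  | zero => simp [CharTwo.add_self_eq_zero]
  | succ n ih =>
    have h2 : (u ^ 2 + u) ^ (2 ^ n) = u ^ (2 ^ (n + 1)) + u ^ (2 ^ n) := by
      rw [add_pow_char_pow, ← pow_mul]
      congr 2
      rw [pow_succ, mul_comm]
    rw [Finset.sum_range_succ, ih, h2]
    have h3 := CharTwo.add_self_eq_zero (u ^ (2 ^ n))
    linear_combination h3

private theorem as_iff {k : Type} [Field k] [Finite k] [CharP k 2] (n : ℕ)
    (hn : Nat.card k = 2 ^ n) (c : k) :
    (∃ u : k, u ^ 2 + u = c) ↔ ∑ i ∈ Finset.range n, c ^ (2 ^ i) = 0 := by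
  classical
  letI := Fintype.ofFinite k
  have hcard : Fintype.card k = 2 ^ n := by rw [← hn, Nat.card_eq_fintype_card]
  constructor
  · rintro ⟨u, rfl⟩
    rw [as_fwd, ← hcard, FiniteField.pow_card, CharTwo.add_self_eq_zero]
  · intro hc
    by_contra hne
    have hn1 : 1 ≤ n := by
      rcases Nat.eq_zero_or_pos n with h | h
      · subst h
        have := Fintype.one_lt_card (α := k)
        omega
      · exact h
    -- the additive map
    let w : k →+ k :=
      { toFun := fun u => u ^ 2 + u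
        map_zero' := by simp
        map_add' := fun x y => by
          rw [add_pow_char (R := k) (p := 2)]
          ring }
    have hker : Nat.card w.ker ≤ 2 := by
      have h1 : (w.ker : Set k) ⊆ {0, 1} := by
        intro x hx
        have hx' : x ^ 2 + x = 0 := hx
        have : x * (x + 1) = 0 := by linear_combination hx'
        rcases mul_eq_zero.1 this with h | h
        · left; exact h
        · right
          have := CharTwo.add_eq_zero.1 h
          exact this
      calc Nat.card w.ker = (w.ker : Set k).ncard := rfl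
        _ ≤ ({0, 1} : Set k).ncard := Set.ncard_le_ncard h1 (Set.toFinite _)
        _ ≤ 2 := (Set.ncard_insert_le 0 {1}).trans (by simp)
    have hmul := AddSubgroup.card_mul_index w.ker
    rw [AddSubgroup.index_ker, hn] at hmul
    have hrange : 2 ^ n ≤ 2 * Nat.card w.range := by
      calc 2 ^ n = Nat.card w.ker * Nat.card w.range := hmul.symm
        _ ≤ 2 * Nat.card w.range := Nat.mul_le_mul_right _ hker
    let P : k[X] := ∑ i ∈ Finset.range n, X ^ (2 ^ i)
    have hPeval : ∀ x : k, P.eval x = ∑ i ∈ Finset.range n, x ^ (2 ^ i) := by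
      intro x
      simp [P, eval_finsetSum]
    have hP0 : P ≠ 0 := by
      intro h
      have h1 : P.coeff 1 = 1 := by
        simp only [P, finsetSum_coeff, coeff_X_pow]
        rw [Finset.sum_eq_single 0]
        · simp
        · intro i _ hi
          rw [if_neg]
          intro h2
          have := Nat.one_lt_two_pow hi
          omega
        · intro h2
          exact absurd (Finset.mem_range.2 hn1) h2
      rw [h, coeff_zero] at h1
      exact zero_ne_one h1
    have hPdeg : P.natDegree ≤ 2 ^ (n - 1) := by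
      apply natDegree_sum_le_of_forall_le
      intro i hi
      rw [natDegree_X_pow]
      have := Finset.mem_range.1 hi
      exact Nat.pow_le_pow_right (by norm_num) (by omega)
    have hsub : (insert c (Finset.univ.image w)).val ⊆ P.roots := by
      intro x hx
      rw [mem_roots hP0, IsRoot.def, hPeval]
      have hx' : x ∈ insert c (Finset.univ.image w) := hx
      rw [Finset.mem_insert, Finset.mem_image] at hx'
      rcases hx' with rfl | ⟨u, _, rfl⟩
      · exact hc
      · show ∑ i ∈ Finset.range n, (u ^ 2 + u) ^ (2 ^ i) = 0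
        rw [as_fwd, ← hcard, FiniteField.pow_card, CharTwo.add_self_eq_zero]
    have hle := card_le_degree_of_subset_roots hsub
    rw [Finset.card_insert_of_notMem] at hle
    · have h1 : (Finset.univ.image w).card = Nat.card w.range := by
        rw [← Set.ncard_coe_finset]
        congr 1
        ext x
        simp
      rw [h1] at hle
      have h2 : 2 ^ n = 2 * 2 ^ (n - 1) := by
        rw [← pow_succ']
        congr 1
        omega
      omega
    · intro h
      rw [Finset.mem_image] at h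
      obtain ⟨u, _, hu⟩ := h
      exact hne ⟨u, hu⟩

private theorem sp_iff {k : Type} [Field k] [Finite k] [CharP k 2] (n : ℕ)
    (hn : Nat.card k = 2 ^ n) (t : k) :
    (∃ x : k, x ^ 2 + t * x + 1 = 0) ↔
      t = 0 ∨ ∑ i ∈ Finset.range n, ((t ^ 2)⁻¹) ^ (2 ^ i) = 0 := by
  by_cases ht : t = 0
  · subst ht
    simp only [true_or, iff_true]
    refine ⟨1, ?_⟩
    have := CharTwo.add_self_eq_zero (1 : k)
    linear_combination this
  · rw [← as_iff n hn]
    simp only [ht, false_or]
    constructor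
    · rintro ⟨x, hx⟩
      refine ⟨x / t, ?_⟩
      have h2 := CharTwo.add_self_eq_zero (1 : k)
      field_simp
      linear_combination hx - h2
    · rintro ⟨u, hu⟩
      refine ⟨t * u, ?_⟩
      have h2 := CharTwo.add_self_eq_zero (1 : k)
      have h3 : t ^ 2 * (u ^ 2 + u) = 1 := by
        rw [hu]
        field_simp
      linear_combination h3 + h2

private theorem sum_mul {E : Type} [Field E] [Finite E] (e r : ℕ)
    (he : Nat.card E = 2 ^ e) (c : E) :
    ∑ i ∈ Finset.range (e * r), c ^ (2 ^ i) = r * ∑ i ∈ Finset.range e, c ^ (2 ^ i) := by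
  letI := Fintype.ofFinite E
  have hcard : Fintype.card E = 2 ^ e := by rw [← he, Nat.card_eq_fintype_card]
  induction r with
  | zero => simp
  | succ r ih =>
    rw [Nat.mul_succ, Finset.sum_range_add, ih]
    have : ∀ j ∈ Finset.range e, c ^ (2 ^ (e * r + j)) = c ^ (2 ^ j) := by
      intro j _
      rw [pow_add, pow_mul, pow_mul, ← hcard, FiniteField.pow_card_pow]
    rw [Finset.sum_congr rfl this]
    push_cast
    ring

private theorem sp_ext {E K : Type} [Field E] [Field K] [Finite E] [Finite K] [CharP E 2] [CharP K 2]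
    (e r : ℕ) (he : Nat.card E = 2 ^ e) (hk : Nat.card K = 2 ^ (e * r)) (f : E →+* K) (t : E) :
    (∃ x : K, x ^ 2 + f t * x + 1 = 0) ↔ (∃ x : E, x ^ 2 + t * x + 1 = 0) ∨ Even r := by
  rw [sp_iff _ hk, sp_iff _ he]
  have h1 : ∑ i ∈ Finset.range (e * r), (((f t) ^ 2)⁻¹) ^ (2 ^ i) =
      f (r * ∑ i ∈ Finset.range e, ((t ^ 2)⁻¹) ^ (2 ^ i)) := by
    rw [← sum_mul e r he, map_sum]
    refine Finset.sum_congr rfl fun i _ => ?_
    rw [map_pow, map_inv₀, map_pow]
  rw [h1, map_eq_zero, map_eq_zero, mul_eq_zero, CharP.cast_eq_zero_iff E 2 r, ← even_iff_two_dvd]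
  tauto

end AS

/-! ### maximal ideals and homomorphisms -/

section pts

variable {Z : Type} [CommRing Z] [Algebra (ZMod 2) Z]

private noncomputable def dg (m : Ideal Z) : ℕ := Module.finrank (ZMod 2) (Z ⧸ m)

open Classical in
private noncomputable def chi (t : Z) (m : Ideal Z) : ℤ :=
  if ∃ x : Z ⧸ m, x ^ 2 + Ideal.Quotient.mk m t * x + 1 = 0 then 1 else -1

private theorem hom_finite [Algebra.FiniteType (ZMod 2) Z] (K : Type) [Field K] [Finite K]
    [Algebra (ZMod 2) K] : Finite (Z →ₐ[ZMod 2] K) := by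
  obtain ⟨s, hs⟩ := (inferInstance : Algebra.FiniteType (ZMod 2) Z).out
  refine Finite.of_injective (fun (f : Z →ₐ[ZMod 2] K) (x : s) => f x) ?_
  intro f g hfg
  apply AlgHom.ext_of_adjoin_eq_top hs
  intro x hx
  exact congrFun hfg ⟨x, hx⟩

private theorem dg_card (m : Ideal Z) [Finite (Z ⧸ m)] : Nat.card (Z ⧸ m) = 2 ^ dg m :=
  (FiniteField.pow_finrank_eq_natCard 2 (Z ⧸ m)).symm

private theorem dg_pos (m : Ideal Z) (hm : m.IsMaximal) [Finite (Z ⧸ m)] : 1 ≤ dg m := by
  rcases Nat.eq_zero_or_pos (dg m) with h | h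
  · have h1 := dg_card m
    rw [h, pow_zero] at h1
    letI := Ideal.Quotient.field m
    have := (Nat.card_eq_one_iff_unique.1 h1).1
    exact absurd this (not_subsingleton _)
  · exact h

private theorem ker_spec {k : ℕ} (hk : k ≠ 0) (f : Z →ₐ[ZMod 2] GaloisField 2 k) :
    Finite (Z ⧸ RingHom.ker f) ∧ (RingHom.ker f).IsMaximal ∧ dg (RingHom.ker f) ∣ k := by
  have hfin : Finite (Z ⧸ RingHom.ker f) :=
    Finite.of_injective _ (Ideal.kerLiftAlg_injective f)
  have hprime : (RingHom.ker f).IsPrime := RingHom.ker_isPrime f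
  have hmax : (RingHom.ker f).IsMaximal :=
    Ideal.Quotient.maximal_of_isField _ (Finite.isField_of_domain _)
  refine ⟨hfin, hmax, ?_⟩
  letI := Ideal.Quotient.field (RingHom.ker f)
  have h := (FiniteField.nonempty_algHom_iff_finrank_dvd (F := ZMod 2)
    (K := Z ⧸ RingHom.ker f) (L := GaloisField 2 k)).1 ⟨Ideal.kerLiftAlg f⟩
  rw [GaloisField.finrank 2 hk] at h
  exact h

private noncomputable def homEquiv (m : Ideal Z) (hm : m.IsMaximal) (K : Type) [Field K]
    [Algebra (ZMod 2) K] :
    {f : Z →ₐ[ZMod 2] K // RingHom.ker f = m} ≃ (Z ⧸ m →ₐ[ZMod 2] K) where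
  toFun f := Ideal.Quotient.liftₐ m f.1 (fun a ha => by
    have : a ∈ RingHom.ker f.1 := by rw [f.2]; exact ha
    exact this)
  invFun g := ⟨g.comp (Ideal.Quotient.mkₐ (ZMod 2) m), by
    letI := Ideal.Quotient.field m
    ext z
    rw [RingHom.mem_ker, AlgHom.comp_apply]
    have h1 : g (Ideal.Quotient.mkₐ (ZMod 2) m z) = 0 ↔ Ideal.Quotient.mkₐ (ZMod 2) m z = 0 :=
      map_eq_zero_iff g.toRingHom (RingHom.injective g.toRingHom)
    rw [h1]
    exact Ideal.Quotient.eq_zero_iff_mem⟩
  left_inv f := by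
    apply Subtype.ext
    ext z
    rfl
  right_inv g := by
    apply AlgHom.ext
    intro z
    obtain ⟨z, rfl⟩ := Ideal.Quotient.mk_surjective z
    rfl

private theorem hom_count (m : Ideal Z) (hm : m.IsMaximal) {k : ℕ} (hk : k ≠ 0) :
    Nat.card {f : Z →ₐ[ZMod 2] GaloisField 2 k // RingHom.ker f = m} =
      if dg m ∣ k then dg m else 0 := by
  rw [Nat.card_congr (homEquiv m hm (GaloisField 2 k))]
  letI := Ideal.Quotient.field m
  split_ifs with h
  · apply FiniteField.natCard_algHom_of_finrank_dvd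
    rw [GaloisField.finrank 2 hk]
    exact h
  · have : IsEmpty (Z ⧸ m →ₐ[ZMod 2] GaloisField 2 k) := by
      rw [← not_nonempty_iff]
      intro hne
      have h1 := (FiniteField.nonempty_algHom_iff_finrank_dvd (F := ZMod 2)
        (K := Z ⧸ m) (L := GaloisField 2 k)).1 hne
      rw [GaloisField.finrank 2 hk] at h1
      exact h h1
    exact Nat.card_of_isEmpty

open Classical in
private theorem sign_eq (t : Z) (m : Ideal Z) (hm : m.IsMaximal) [Finite (Z ⧸ m)] {k : ℕ}
    (hk : k ≠ 0) (hd : dg m ∣ k) (f : Z →ₐ[ZMod 2] GaloisField 2 k) (hf : RingHom.ker f = m) :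
    (if Sp (f t) then (1 : ℤ) else -1) = chi t m ^ (k / dg m) := by
  obtain ⟨r, hr⟩ := hd
  have hpos := dg_pos m hm
  have hdiv : k / dg m = r := by rw [hr]; exact Nat.mul_div_cancel_left r hpos
  letI := Ideal.Quotient.field m
  haveI : CharP (Z ⧸ m) 2 := charP_of_injective_algebraMap (algebraMap (ZMod 2) (Z ⧸ m)).injective 2
  haveI : CharP (GaloisField 2 k) 2 :=
    charP_of_injective_algebraMap (algebraMap (ZMod 2) (GaloisField 2 k)).injective 2
  haveI : Finite (GaloisField 2 k) := inferInstance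
  let g : Z ⧸ m →ₐ[ZMod 2] GaloisField 2 k := homEquiv m hm _ ⟨f, hf⟩
  have hg : g.toRingHom (Ideal.Quotient.mk m t) = f t := rfl
  have h1 := sp_ext (E := Z ⧸ m) (K := GaloisField 2 k) (dg m) r (dg_card m)
    (by rw [GaloisField.card 2 k hk, hr]) g.toRingHom (Ideal.Quotient.mk m t)
  rw [hg] at h1
  have h2 : Sp (f t) ↔ (∃ x : Z ⧸ m, x ^ 2 + Ideal.Quotient.mk m t * x + 1 = 0) ∨ Even r := h1
  rw [hdiv]
  unfold chi
  by_cases hE : ∃ x : Z ⧸ m, x ^ 2 + Ideal.Quotient.mk m t * x + 1 = 0
  · rw [if_pos (h2.2 (Or.inl hE)), if_pos hE, one_pow]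
  · rw [if_neg hE]
    by_cases hr2 : Even r
    · rw [if_pos (h2.2 (Or.inr hr2)), hr2.neg_one_pow]
    · rw [if_neg (fun h => (h2.1 h).elim hE hr2), (Nat.not_even_iff_odd.1 hr2).neg_one_pow]

private theorem count [Algebra.FiniteType (ZMod 2) Z] (t : Z) (T : Finset (Ideal Z)) {k : ℕ}
    (hk : 1 ≤ k)
    (hT : ∀ m : Ideal Z, m ∈ T ↔ m.IsMaximal ∧ Finite (Z ⧸ m) ∧ dg m ≤ k) :
    (Nat.card {f : Z →ₐ[ZMod 2] GaloisField 2 k // Sp (f t)} : ℤ) -
      Nat.card {f : Z →ₐ[ZMod 2] GaloisField 2 k // ¬ Sp (f t)} =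
    ∑ m ∈ T, if dg m ∣ k then (dg m : ℤ) * chi t m ^ (k / dg m) else 0 := by
  classical
  have hk0 : k ≠ 0 := by omega
  haveI : Finite (GaloisField 2 k) := inferInstance
  haveI := hom_finite (Z := Z) (GaloisField 2 k)
  letI := Fintype.ofFinite (Z →ₐ[ZMod 2] GaloisField 2 k)
  have h1 : (Nat.card {f : Z →ₐ[ZMod 2] GaloisField 2 k // Sp (f t)} : ℤ) -
      Nat.card {f : Z →ₐ[ZMod 2] GaloisField 2 k // ¬ Sp (f t)} =
      ∑ f : Z →ₐ[ZMod 2] GaloisField 2 k, if Sp (f t) then (1 : ℤ) else -1 := by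
    rw [Nat.card_eq_fintype_card, Nat.card_eq_fintype_card, Fintype.card_subtype,
      Fintype.card_subtype, Finset.sum_ite]
    simp
    ring
  rw [h1, ← Finset.sum_fiberwise_of_maps_to (s := Finset.univ) (t := T)
    (g := fun f : Z →ₐ[ZMod 2] GaloisField 2 k => RingHom.ker f)]
  · refine Finset.sum_congr rfl fun m hm => ?_
    obtain ⟨hmax, hfin, hle⟩ := (hT m).1 hm
    have hc := hom_count m hmax hk0
    rw [Nat.card_eq_fintype_card, Fintype.card_subtype] at hc
    by_cases hd : dg m ∣ k
    · rw [if_pos hd] at hc ⊢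
      rw [Finset.sum_congr rfl (g := fun _ => chi t m ^ (k / dg m)), Finset.sum_const, hc,
        nsmul_eq_mul]
      intro f hf
      exact sign_eq t m hmax hk0 hd f (Finset.mem_filter.1 hf).2
    · rw [if_neg hd] at hc ⊢
      rw [Finset.card_eq_zero.1 hc, Finset.sum_empty]
  · intro f _
    obtain ⟨h2, h3, h4⟩ := ker_spec hk0 f
    exact (hT _).2 ⟨h3, h2, Nat.le_of_dvd (by omega) h4⟩

end pts

/-! ### power series -/

section ps

private theorem ld_factor (e : ℕ) (he : 1 ≤ e) (x : ℤ) :
    LD (1 - PowerSeries.C x * PowerSeries.X ^ e : PowerSeries ℤ)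
      (fun k => if e ∣ k then (e : ℤ) * x ^ (k / e) else 0) := by
  have hc : ∀ n : ℕ, PowerSeries.coeff n (1 - PowerSeries.C x * PowerSeries.X ^ e : PowerSeries ℤ) =
      (if n = 0 then 1 else 0) - x * (if n = e then 1 else 0) := by
    intro n
    rw [map_sub, PowerSeries.coeff_one, PowerSeries.coeff_C_mul, PowerSeries.coeff_X_pow]
  refine ⟨?_, fun k => ?_⟩
  · rw [hc, if_pos rfl, if_neg (by omega)]
    ring
  · set s : ℕ → ℤ := fun k => if e ∣ k then (e : ℤ) * x ^ (k / e) else 0 with hs
    have h1 : ∑ j ∈ Finset.range (k + 1), s (j + 1) * (if k - j = 0 then (1 : ℤ) else 0) =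
        s (k + 1) := by
      rw [Finset.sum_eq_single k]
      · simp
      · intro j hj hne
        have := Finset.mem_range.1 hj
        rw [if_neg (by omega), mul_zero]
      · intro h
        exact absurd (Finset.mem_range.2 (Nat.lt_succ_self k)) h
    have h2 : ∑ j ∈ Finset.range (k + 1), s (j + 1) * (if k - j = e then (1 : ℤ) else 0) =
        if e ≤ k then s (k + 1 - e) else 0 := by
      by_cases hek : e ≤ k
      · rw [if_pos hek, Finset.sum_eq_single (k - e)]
        · rw [if_pos (by omega), mul_one]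
          congr 1
          omega
        · intro j hj hne
          have := Finset.mem_range.1 hj
          rw [if_neg (by omega), mul_zero]
        · intro h
          exact absurd (Finset.mem_range.2 (by omega)) h
      · rw [if_neg hek]
        apply Finset.sum_eq_zero
        intro j hj
        rw [if_neg (by omega), mul_zero]
    have h3 : ∑ j ∈ Finset.range (k + 1), s (j + 1) *
        PowerSeries.coeff (k - j) (1 - PowerSeries.C x * PowerSeries.X ^ e : PowerSeries ℤ) =
        s (k + 1) - x * (if e ≤ k then s (k + 1 - e) else 0) := by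
      rw [← h1, ← h2, Finset.mul_sum, ← Finset.sum_sub_distrib]
      refine Finset.sum_congr rfl fun j _ => ?_
      rw [hc]
      ring
    rw [h3, hc, if_neg (by omega)]
    have e1 : s (k + 1) = if e ∣ k + 1 then (e : ℤ) * x ^ ((k + 1) / e) else 0 := rfl
    have e2 : s (k + 1 - e) = if e ∣ k + 1 - e then (e : ℤ) * x ^ ((k + 1 - e) / e) else 0 := rfl
    rcases lt_trichotomy (k + 1) e with hlt | heq | hgt
    · have hnd : ¬ e ∣ k + 1 := fun h => by
        have := Nat.le_of_dvd (Nat.succ_pos k) h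
        omega
      rw [if_neg (by omega : ¬ k + 1 = e), e1, if_neg hnd, if_neg (by omega : ¬ e ≤ k)]
      ring
    · rw [if_pos heq, e1, heq, if_pos (dvd_refl e), Nat.div_self (by omega),
        if_neg (by omega : ¬ e ≤ k)]
      have : (k : ℤ) + 1 = e := by exact_mod_cast heq
      rw [this]
      ring
    · rw [if_neg (by omega : ¬ k + 1 = e), if_pos (by omega : e ≤ k), e1, e2]
      by_cases hd : e ∣ k + 1
      · obtain ⟨c, hc'⟩ := hd
        have hc1 : 1 ≤ c := by
          rcases Nat.eq_zero_or_pos c with h | h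
          · subst h; omega
          · exact h
        have hsub : k + 1 - e = e * (c - 1) := by
          rw [hc', Nat.mul_sub, mul_one]
        rw [hsub, hc', if_pos (dvd_mul_right e c), if_pos (dvd_mul_right e (c - 1)),
          Nat.mul_div_cancel_left c (by omega), Nat.mul_div_cancel_left (c - 1) (by omega)]
        obtain ⟨c', rfl⟩ := Nat.exists_eq_add_of_le hc1
        rw [Nat.add_sub_cancel_left, pow_add]
        ring
      · have hd2 : ¬ e ∣ k + 1 - e := by
          intro h
          apply hd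
          have := (Nat.dvd_sub_iff_left (by omega : e ≤ k + 1) (dvd_refl e)).1 h
          exact this
        rw [if_neg hd, if_neg hd2]
        ring


private theorem ld_prod {ι : Type} (Z : Finset ι) (deg : ι → ℕ) (c : ι → ℤ)
    (hdeg : ∀ z ∈ Z, 1 ≤ deg z) :
    LD (∏ z ∈ Z, (1 - PowerSeries.C (c z) * PowerSeries.X ^ deg z) : PowerSeries ℤ)
      fun k => ∑ z ∈ Z, if deg z ∣ k then (deg z : ℤ) * c z ^ (k / deg z) else 0 := by
  classical
  induction Z using Finset.induction_on with
  | empty =>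
    refine ⟨by simp, fun k => ?_⟩
    simp [PowerSeries.coeff_one]
  | insert a t ha ih =>
    rw [Finset.prod_insert ha]
    have h1 := ld_factor (deg a) (hdeg a (Finset.mem_insert_self a t)) (c a)
    have h2 := ih (fun z hz => hdeg z (Finset.mem_insert_of_mem hz))
    have h3 := Pool.Agent.F2TF.p_ld.1 ℤ _ _ _ _ h1 h2
    have h4 : (fun k => ∑ z ∈ insert a t, if deg z ∣ k then (deg z : ℤ) * c z ^ (k / deg z) else 0) =
        (fun k => if deg a ∣ k then (deg a : ℤ) * c a ^ (k / deg a) else 0) +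
        fun k => ∑ z ∈ t, if deg z ∣ k then (deg z : ℤ) * c z ^ (k / deg z) else 0 := by
      funext k
      rw [Finset.sum_insert ha]
      rfl
    rw [h4]
    exact h3

private theorem ld_inv {f g : PowerSeries ℤ} {s : ℕ → ℤ} (hfg : f * g = 1) (h : LD f s) :
    LD g (fun k => - s k) := by
  rw [Pool.Agent.F2TF.ld_iff] at h ⊢
  have h0 : PowerSeries.constantCoeff f = 1 := by
    have := h.1
    rwa [PowerSeries.coeff_zero_eq_constantCoeff] at this
  refine ⟨?_, ?_⟩
  · have h1 := congrArg PowerSeries.constantCoeff hfg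
    rw [map_mul, h0, one_mul, map_one] at h1
    rw [PowerSeries.coeff_zero_eq_constantCoeff]
    exact h1
  · have h1 := congrArg (PowerSeries.derivative ℤ) hfg
    rw [Derivation.leibniz, h.2, smul_eq_mul, smul_eq_mul, Derivation.map_one_eq_zero] at h1
    have h2 : (PowerSeries.mk fun n => - s (n + 1)) = - PowerSeries.mk (fun n => s (n + 1)) := by
      ext n
      simp
    rw [h2]
    linear_combination g * h1 - (PowerSeries.derivative ℤ g) * hfg + (PowerSeries.mk (fun n => s (n + 1))) * g * hfg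

private theorem cg_iff {R : Type} [CommRing R] (d : ℕ) (f g : PowerSeries R) :
    Cg d f g ↔ PowerSeries.X ^ (d + 1) ∣ f - g := by
  rw [PowerSeries.X_pow_dvd_iff]
  unfold Cg
  constructor
  · intro h m hm
    rw [map_sub, h m (by omega), sub_self]
  · intro h i hi
    have := h i (by omega)
    rwa [map_sub, sub_eq_zero] at this

private theorem cg_mul {R : Type} [CommRing R] {d : ℕ} {f f' g g' : PowerSeries R}
    (h : Cg d f f') (h' : Cg d g g') : Cg d (f * g) (f' * g') := by
  rw [cg_iff] at h h' ⊢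
  have : f * g - f' * g' = (f - f') * g + f' * (g - g') := by ring
  rw [this]
  exact dvd_add (h.mul_right _) (h'.mul_left _)

private theorem cg_inv {R : Type} [CommRing R] {d : ℕ} {f g : (PowerSeries R)ˣ}
    (h : Cg d (f : PowerSeries R) (g : PowerSeries R)) :
    Cg d ((f⁻¹ : (PowerSeries R)ˣ) : PowerSeries R) ((g⁻¹ : (PowerSeries R)ˣ) : PowerSeries R) := by
  rw [cg_iff] at h ⊢
  have : ((f⁻¹ : (PowerSeries R)ˣ) : PowerSeries R) - ((g⁻¹ : (PowerSeries R)ˣ) : PowerSeries R) =
      ((f : PowerSeries R) - g) *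
        (-(((f⁻¹ : (PowerSeries R)ˣ) : PowerSeries R) * ((g⁻¹ : (PowerSeries R)ˣ) : PowerSeries R))) := by
    have h1 : (f : PowerSeries R) * ((f⁻¹ : (PowerSeries R)ˣ) : PowerSeries R) = 1 := f.mul_inv
    have h2 : (g : PowerSeries R) * ((g⁻¹ : (PowerSeries R)ˣ) : PowerSeries R) = 1 := g.mul_inv
    linear_combination ((g⁻¹ : (PowerSeries R)ˣ) : PowerSeries R) * h1 -
      ((f⁻¹ : (PowerSeries R)ˣ) : PowerSeries R) * h2
  rw [this]
  exact h.mul_right _

private theorem cg_prod_one {ι : Type} (S : Finset ι) (deg : ι → ℕ) (c : ι → ℤ) (d : ℕ)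
    (h : ∀ z ∈ S, d < deg z) :
    Cg d (∏ z ∈ S, (1 - PowerSeries.C (c z) * PowerSeries.X ^ deg z) : PowerSeries ℤ) 1 := by
  classical
  induction S using Finset.induction_on with
  | empty => intro i _; simp
  | insert a t ha ih =>
    rw [Finset.prod_insert ha]
    have h1 : Cg d (1 - PowerSeries.C (c a) * PowerSeries.X ^ deg a : PowerSeries ℤ) 1 := by
      rw [cg_iff]
      have h2 : (1 - PowerSeries.C (c a) * PowerSeries.X ^ deg a - 1 : PowerSeries ℤ) =
          PowerSeries.X ^ deg a * (-PowerSeries.C (c a)) := by ring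
      rw [h2]
      exact (pow_dvd_pow _ (h a (Finset.mem_insert_self a t))).mul_right _
    have h3 := cg_mul h1 (ih fun z hz => h z (Finset.mem_insert_of_mem hz))
    rwa [one_mul] at h3

end ps

theorem p_zet : S_zet := by
  classical
  intro Z _ _ _ t N
  have hp := Pool.Agent.FrB.p_fr 2 Z
  choose T0 hT0 _ _ using hp
  -- the finite sets of closed points
  have hT : ∀ d : ℕ, ∀ m : Ideal Z, m ∈ T0 d ↔ m.IsMaximal ∧ Finite (Z ⧸ m) ∧ dg m ≤ d := by
    intro d m
    rw [hT0]
    constructor
    · rintro ⟨h1, e, h2, h3, h4⟩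
      have hfin : Finite (Z ⧸ m) := Nat.finite_of_card_ne_zero (by rw [h4]; positivity)
      refine ⟨h1, hfin, ?_⟩
      have h5 := dg_card m
      rw [h4] at h5
      have := Nat.pow_right_injective (le_refl 2) h5
      omega
    · rintro ⟨h1, h2, h3⟩
      exact ⟨h1, dg m, dg_pos m h1, h3, dg_card m⟩
  have hTmono : ∀ d d' : ℕ, d ≤ d' → T0 d ⊆ T0 d' := by
    intro d d' h m hm
    obtain ⟨h1, h2, h3⟩ := (hT d m).1 hm
    exact (hT d' m).2 ⟨h1, h2, h3.trans h⟩
  have hTpos : ∀ d : ℕ, ∀ m ∈ T0 d, 1 ≤ dg m := by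
    intro d m hm
    obtain ⟨h1, h2, h3⟩ := (hT d m).1 hm
    exact dg_pos m h1
  let F : ℕ → PowerSeries ℤ := fun d =>
    ∏ m ∈ T0 d, (1 - PowerSeries.C (chi t m) * PowerSeries.X ^ dg m)
  let sd : ℕ → ℕ → ℤ := fun d k =>
    ∑ m ∈ T0 d, if dg m ∣ k then (dg m : ℤ) * chi t m ^ (k / dg m) else 0
  have hLD : ∀ d, LD (F d) (sd d) := fun d => ld_prod (T0 d) dg (chi t) (hTpos d)
  have hstab : ∀ d d' : ℕ, d ≤ d' → Cg d (F d') (F d) := by
    intro d d' h
    have h1 : F d' = (∏ m ∈ T0 d' \ T0 d, (1 - PowerSeries.C (chi t m) * PowerSeries.X ^ dg m)) *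
        F d := (Finset.prod_sdiff (hTmono d d' h)).symm
    rw [h1]
    have h2 := cg_mul (cg_prod_one (T0 d' \ T0 d) dg (chi t) d (by
      intro m hm
      rw [Finset.mem_sdiff, hT, hT] at hm
      obtain ⟨⟨h3, h4, h5⟩, h6⟩ := hm
      by_contra h7
      exact h6 ⟨h3, h4, by omega⟩)) (fun i _ => rfl : Cg d (F d) (F d))
    rwa [one_mul] at h2
  let f0 : PowerSeries ℤ := PowerSeries.mk fun i => PowerSeries.coeff i (F i)
  have hf0 : ∀ d, Cg d f0 (F d) := by
    intro d i hi
    rw [PowerSeries.coeff_mk]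
    exact (hstab i d hi i le_rfl).symm
  let s0 : ℕ → ℤ := fun k => sd k k
  have hs0 : ∀ j d, 1 ≤ j → j ≤ d → sd d j = s0 j := by
    intro j d hj hjd
    refine (Finset.sum_subset (hTmono j d hjd) ?_).symm
    intro m hm hm2
    rw [if_neg]
    intro hdvd
    have h1 := Nat.le_of_dvd (by omega) hdvd
    obtain ⟨h3, h4, h5⟩ := (hT d m).1 hm
    exact hm2 ((hT j m).2 ⟨h3, h4, h1⟩)
  have hLD0 : LD f0 s0 := by
    refine ⟨?_, fun k => ?_⟩
    · rw [hf0 0 0 le_rfl]
      exact (hLD 0).1
    · have h1 := (hLD (k + 1)).2 k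
      rw [hf0 (k + 1) (k + 1) le_rfl, h1]
      congr 1
      refine Finset.sum_congr rfl fun j hj => ?_
      have hj' := Finset.mem_range.1 hj
      rw [hs0 (j + 1) (k + 1) (by omega) (by omega), hf0 (k + 1) (k - j) (by omega)]
  have hunit : IsUnit f0 := by
    rw [PowerSeries.isUnit_iff_constantCoeff]
    have := hLD0.1
    rw [PowerSeries.coeff_zero_eq_constantCoeff] at this
    rw [this]
    exact isUnit_one
  obtain ⟨fu, hfu⟩ := hunit
  have hcount : ∀ k, 1 ≤ k → s0 k =
        (Nat.card {ζ : Z →ₐ[ZMod 2] GaloisField 2 k // Sp (ζ t)} : ℤ) -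
        Nat.card {ζ : Z →ₐ[ZMod 2] GaloisField 2 k // ¬ Sp (ζ t)} := by
    intro k hk
    rw [count t (T0 k) hk (hT k)]
  -- reduction modulo 2
  have hzu : ∀ d, (zu 2 Z d : PowerSeries (ZMod 2)) =
      PowerSeries.map (Int.castRingHom (ZMod 2)) (F d) := by
    intro d
    have h1 : PowerSeries.map (Int.castRingHom (ZMod 2)) (F d) =
        ∏ m ∈ T0 d, (1 - PowerSeries.X ^ dg m : PowerSeries (ZMod 2)) := by
      rw [map_prod]
      refine Finset.prod_congr rfl fun m _ => ?_
      rw [map_sub, map_one, map_mul, map_pow, PowerSeries.map_X, PowerSeries.map_C]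
      have : Int.castRingHom (ZMod 2) (chi t m) = 1 := by
        unfold chi
        split_ifs
        · simp
        · simp
      rw [this, map_one, one_mul]
    rw [h1, zu, Units.coe_prod]
    rw [← Finset.prod_fiberwise_of_maps_to (s := T0 d) (t := Finset.Icc 1 d) (g := dg)]
    · refine Finset.prod_congr rfl fun e he => ?_
      rw [Finset.mem_Icc] at he
      rw [Finset.prod_congr rfl (g := fun _ => (1 - PowerSeries.X ^ e : PowerSeries (ZMod 2))),
        Finset.prod_const, Units.val_pow_eq_pow_val]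
      · have hu : ((u1 (ZMod 2) e : (PowerSeries (ZMod 2))ˣ) : PowerSeries (ZMod 2)) =
            1 - PowerSeries.X ^ e := by
          have hI : IsUnit (1 - PowerSeries.X ^ e : PowerSeries (ZMod 2)) := by
            rw [PowerSeries.isUnit_iff_constantCoeff]
            rw [map_sub, map_one, map_pow, PowerSeries.constantCoeff_X, zero_pow (by omega),
              sub_zero]
            exact isUnit_one
          rw [u1, dif_pos hI]
          exact hI.unit_spec
        have hcard : Nat.card (cpt 2 Z e) = (Finset.filter (fun m => dg m = e) (T0 d)).card := by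
          have hset : cpt 2 Z e = (Finset.filter (fun m => dg m = e) (T0 d) : Finset (Ideal Z)) := by
            ext m
            rw [Finset.coe_filter, Set.mem_ofPred_eq, hT]
            constructor
            · rintro ⟨h2, h3⟩
              have hfin : Finite (Z ⧸ m) := Nat.finite_of_card_ne_zero (by rw [h3]; positivity)
              have h5 := dg_card m
              rw [h3] at h5
              have h6 := Nat.pow_right_injective (le_refl 2) h5
              exact ⟨⟨h2, hfin, by rw [← h6]; exact he.2⟩, h6.symm⟩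
            · rintro ⟨⟨h2, h3, h4⟩, h5⟩
              exact ⟨h2, by rw [dg_card m, h5]⟩
          rw [hset, Nat.card_coe_set_eq, Set.ncard_coe_finset]
        rw [hu, hcard]
      · intro m hm
        rw [(Finset.mem_filter.1 hm).2]
    · intro m hm
      rw [Finset.mem_Icc]
      exact ⟨hTpos d m hm, ((hT d m).1 hm).2.2⟩
  have hred : ∀ d, Cg d (red 2 fu : PowerSeries (ZMod 2)) (zu 2 Z d : PowerSeries (ZMod 2)) := by
    intro d i hi
    rw [hzu]
    have h1 : (red 2 fu : PowerSeries (ZMod 2)) =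
        PowerSeries.map (Int.castRingHom (ZMod 2)) f0 := by
      rw [← hfu]
      rfl
    rw [h1, PowerSeries.coeff_map, PowerSeries.coeff_map, hf0 d i hi]
  rcases Nat.even_or_odd N with hN | hN
  · have hs : sgn N = 1 := hN.neg_one_pow
    refine ⟨fu, s0, ?_, ?_, ?_⟩
    · rw [hfu]
      exact hLD0
    · intro d
      rw [hs, zpow_one]
      exact hred d
    · intro k hk
      rw [hs, one_mul]
      exact hcount k hk
  · have hs : sgn N = -1 := hN.neg_one_pow
    refine ⟨fu⁻¹, fun k => - s0 k, ?_, ?_, ?_⟩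
    · refine ld_inv (f := f0) ?_ hLD0
      rw [← hfu]
      exact fu.mul_inv
    · intro d
      rw [hs, zpow_neg, zpow_one, map_inv]
      exact cg_inv (hred d)
    · intro k hk
      rw [hs, neg_mul, one_mul, neg_neg]
      exact hcount k hk

end Pool.Agent.FrNC
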